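import Mathlib
import Pool.Agent.H373R2.T7.LamZ

/-! Dense index sets: the arithmetic weight of differences and sums. -/

namespace Pool.Agent.Y877.SX
open Finset Pool.Agent.H373R2.T7

/-- the primes in `(y, z]` -/
noncomputable def mid (y z : ℕ) : Finset ℕ := (pz z).filter (fun p => y < p)

noncomputable def Vm (y z : ℕ) : ℝ := ∏ p ∈ mid y z, (1 - 1 / (p : ℝ))

noncomputable def fd (y z d : ℕ) : ℝ := ∏ p ∈ (mid y z).filter (fun p => p ∣ d), (1 - 1 / (p : ℝ))⁻¹

lemma mem_mid {y z p : ℕ} : p ∈ mid y z ↔ y < p ∧ p ≤ z ∧ p.Prime := by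
  unfold mid
  rw [mem_filter, mem_pz]
  tauto

lemma fac_pos {p : ℕ} (hp : p.Prime) : 0 < 1 - 1 / (p : ℝ) := by
  have : (2 : ℝ) ≤ p := by exact_mod_cast hp.two_le
  have h1 : 1 / (p : ℝ) ≤ 1 / 2 := one_div_le_one_div_of_le (by norm_num) this
  linarith

lemma fac_le {p : ℕ} : 1 - 1 / (p : ℝ) ≤ 1 := by
  have : 0 ≤ 1 / (p : ℝ) := by positivity
  linarith

lemma Vm_pos (y z : ℕ) : 0 < Vm y z := by
  unfold Vm
  exact prod_pos fun p hp => fac_pos (mem_mid.1 hp).2.2

lemma Vm_le (y z : ℕ) : Vm y z ≤ 1 := by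
  unfold Vm
  exact prod_le_one (fun p hp => (fac_pos (mem_mid.1 hp).2.2).le) (fun p _ => fac_le)

lemma fac_inv_one {p : ℕ} (hp : p.Prime) : 1 ≤ (1 - 1 / (p : ℝ))⁻¹ := by
  rw [one_le_inv₀ (fac_pos hp)]
  exact fac_le

lemma one_le_prodR (s : Finset ℕ) (f : ℕ → ℝ) (h : ∀ p ∈ s, 1 ≤ f p) : 1 ≤ ∏ p ∈ s, f p := by
  have := prod_le_prod (s := s) (f := fun _ => (1 : ℝ)) (g := f) (fun _ _ => zero_le_one) h
  rwa [prod_const_one] at this

lemma fd_one (y z d : ℕ) : 1 ≤ fd y z d := by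
  unfold fd
  apply one_le_prodR
  intro p hp
  exact fac_inv_one (mem_mid.1 (mem_filter.1 hp).1).2.2

lemma fd_one' (y z d : ℕ) : 0 ≤ fd y z d := zero_le_one.trans (fd_one y z d)

lemma Vz_split (y z : ℕ) (h : y ≤ z) : Vz z = Vz y * Vm y z := by
  unfold Vz Vm mid
  rw [← prod_filter_mul_prod_filter_not (pz z) (fun p => y < p), mul_comm]
  congr 1
  apply prod_congr _ (fun _ _ => rfl)
  ext p
  rw [mem_filter, mem_pz, mem_pz]
  constructor
  · rintro ⟨⟨h1, h2⟩, h3⟩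
    exact ⟨by omega, h2⟩
  · rintro ⟨h1, h2⟩
    exact ⟨⟨by omega, h2⟩, by omega⟩

lemma fd_mul (y z a b : ℕ) : fd y z (a * b) ≤ fd y z a * fd y z b := by
  classical
  unfold fd
  have e1 : (mid y z).filter (fun p => p ∣ a * b) = (mid y z).filter (fun p => p ∣ a) ∪ (mid y z).filter (fun p => p ∣ b) := by
    ext p
    rw [mem_union, mem_filter, mem_filter, mem_filter]
    constructor
    · rintro ⟨h1, h2⟩
      rcases ((mem_mid.1 h1).2.2.dvd_mul).1 h2 with h | h
      · exact Or.inl ⟨h1, h⟩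
      · exact Or.inr ⟨h1, h⟩
    · rintro (⟨h1, h⟩ | ⟨h1, h⟩)
      · exact ⟨h1, h.mul_right _⟩
      · exact ⟨h1, h.mul_left _⟩
  rw [e1, ← prod_union_inter]
  apply le_mul_of_one_le_right
  · apply prod_nonneg
    intro p hp
    rcases mem_union.1 hp with h | h
    · exact zero_le_one.trans (fac_inv_one (mem_mid.1 (mem_filter.1 h).1).2.2)
    · exact zero_le_one.trans (fac_inv_one (mem_mid.1 (mem_filter.1 h).1).2.2)
  · apply one_le_prodR
    intro p hp
    exact fac_inv_one (mem_mid.1 (mem_filter.1 (mem_inter.1 hp).1).1).2.2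

lemma sum_prod_le (s : Finset ℕ) (hs : ∀ p ∈ s, p.Prime) (a : ℕ → ℝ) (ha : ∀ p, 0 ≤ a p) (N : ℕ) :
    ∑ d ∈ Icc 1 N, ∏ p ∈ s, (1 + if p ∣ d then a p else 0) ≤ N * ∏ p ∈ s, (1 + a p / p) := by
  simp_rw [prod_one_add]
  rw [sum_comm, mul_sum]
  apply sum_le_sum
  intro T hT
  rw [mem_powerset] at hT
  have e1 : ∀ d, ∏ p ∈ T, (if p ∣ d then a p else 0) = (∏ p ∈ T, a p) * (if (∏ p ∈ T, p) ∣ d then (1 : ℝ) else 0) := by
    intro d
    by_cases h : ∀ p ∈ T, p ∣ d
    · have h2 : (∏ p ∈ T, p) ∣ d := prod_primes_dvd d (fun p hp => (hs p (hT hp)).prime) h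
      rw [if_pos h2, mul_one]
      exact prod_congr rfl fun p hp => by rw [if_pos (h p hp)]
    · push Not at h
      obtain ⟨p, hp, hpd⟩ := h
      have h2 : ¬ (∏ p ∈ T, p) ∣ d := fun h3 => hpd ((dvd_prod_of_mem _ hp).trans h3)
      rw [if_neg h2, mul_zero]
      exact prod_eq_zero hp (by rw [if_neg hpd])
  simp_rw [e1]
  rw [← mul_sum, prod_div_distrib, mul_div_assoc']
  have h3 : ∑ d ∈ Icc 1 N, (if (∏ p ∈ T, p) ∣ d then (1 : ℝ) else 0) ≤ N / ∏ p ∈ T, (p : ℝ) := by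
    rw [← sum_filter, sum_const, nsmul_eq_mul, mul_one]
    have h4 : ((Icc 1 N).filter (fun d => (∏ p ∈ T, p) ∣ d)).card = N / ∏ p ∈ T, p := by
      rw [← Nat.Ioc_filter_dvd_card_eq_div]
      congr 1
    rw [h4]
    refine Nat.cast_div_le.trans ?_
    rw [Nat.cast_prod]
  refine (mul_le_mul_of_nonneg_left h3 (prod_nonneg fun p _ => ha p)).trans (le_of_eq ?_)
  ring

lemma fd_moment (y z k N : ℕ) (hy : 1 ≤ y) (hk : 3 * k ≤ y) : ∑ d ∈ Icc 1 N, fd y z d ^ k ≤ 2 * N := by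
  have h1 : ∀ d ∈ Icc 1 N, fd y z d ^ k ≤ ∏ p ∈ mid y z, (1 + if p ∣ d then (y : ℝ) / (2 * p) else 0) := by
    intro d _
    unfold fd
    rw [← prod_pow, prod_filter]
    apply prod_le_prod
    · intro p hp
      split_ifs
      · exact pow_nonneg (zero_le_one.trans (fac_inv_one (mem_mid.1 hp).2.2)) _
      · exact zero_le_one
    · intro p hp
      split_ifs
      · have hpp := (mem_mid.1 hp).2.2
        have hyp : (y : ℝ) < p := by exact_mod_cast (mem_mid.1 hp).1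
        have hy1 : (1 : ℝ) ≤ y := by exact_mod_cast hy
        have hp0 : (0 : ℝ) < p := by linarith
        have hk3 : (3 : ℝ) * k ≤ y := by exact_mod_cast hk
        have hb : 1 - (k : ℝ) / p ≤ (1 - 1 / (p : ℝ)) ^ k := by
          have := one_add_mul_le_pow (a := -(1 / (p : ℝ))) (by
            have : 1 / (p : ℝ) ≤ 1 := by rw [div_le_one hp0]; linarith
            linarith) k
          calc 1 - (k : ℝ) / p = 1 + k * (-(1 / (p : ℝ))) := by ring
            _ ≤ _ := this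
            _ = _ := by ring
        have hkp : (k : ℝ) / p ≤ 1 / 3 := by
          rw [div_le_iff₀ hp0]
          linarith
        have hpos : 0 < 1 - (k : ℝ) / p := by linarith
        rw [inv_pow]
        refine (inv_anti₀ hpos hb).trans ?_
        rw [inv_le_iff_one_le_mul₀ hpos]
        have e : (y : ℝ) / (2 * p) ≥ (3 / 2) * (k / p) := by
          rw [ge_iff_le, mul_div_assoc', div_le_div_iff₀ hp0 (by positivity)]
          nlinarith
        set u := (k : ℝ) / p with hu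
        have hu0 : 0 ≤ u := by positivity
        have : (1 + y / (2 * p)) * (1 - u) ≥ (1 + 3 / 2 * u) * (1 - u) := by
          apply mul_le_mul_of_nonneg_right _ hpos.le
          linarith
        nlinarith
      · simp
  refine (sum_le_sum h1).trans ?_
  refine (sum_prod_le (mid y z) (fun p hp => (mem_mid.1 hp).2.2) (fun p => (y : ℝ) / (2 * p)) (fun p => by positivity) N).trans ?_
  rw [mul_comm (2 : ℝ)]
  apply mul_le_mul_of_nonneg_left _ (Nat.cast_nonneg N)
  have h2 : ∏ p ∈ mid y z, (1 + (y : ℝ) / (2 * p) / p) ≤ Real.exp (∑ p ∈ mid y z, (y : ℝ) / (2 * p) / p) := by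
    rw [Real.exp_sum]
    apply prod_le_prod
    · intro p _
      positivity
    · intro p _
      rw [add_comm]
      exact Real.add_one_le_exp _
  refine h2.trans ?_
  have h3 : ∑ p ∈ mid y z, (y : ℝ) / (2 * p) / p ≤ 1 / 2 := by
    have hy1 : (1 : ℝ) ≤ y := by exact_mod_cast hy
    have h4 : ∑ p ∈ mid y z, (y : ℝ) / (2 * p) / p = (y / 2) * ∑ p ∈ mid y z, ((p : ℝ) ^ 2)⁻¹ := by
      rw [mul_sum]
      apply sum_congr rfl
      intro p hp
      have hp0 : (p : ℝ) ≠ 0 := by exact_mod_cast (mem_mid.1 hp).2.2.ne_zero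
      field_simp
    rw [h4]
    have h5 : ∑ p ∈ mid y z, ((p : ℝ) ^ 2)⁻¹ ≤ (y : ℝ)⁻¹ := by
      by_cases hyz : y ≤ z
      · refine (sum_le_sum_of_subset_of_nonneg (t := Ioc y z) (fun p hp => mem_Ioc.2 ⟨(mem_mid.1 hp).1, (mem_mid.1 hp).2.1⟩) (fun _ _ _ => by positivity)).trans ?_
        refine (sum_Ioc_inv_sq_le_sub (by omega) hyz).trans ?_
        have : 0 ≤ (z : ℝ)⁻¹ := by positivity
        linarith
      · have : mid y z = ∅ := by
          apply eq_empty_of_forall_notMem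
          intro p hp
          have := mem_mid.1 hp
          omega
        rw [this, sum_empty]
        positivity
    have h6 : (y : ℝ) / 2 * (y : ℝ)⁻¹ = 1 / 2 := by
      have : (y : ℝ) ≠ 0 := by linarith
      field_simp
    calc (y : ℝ) / 2 * ∑ p ∈ mid y z, ((p : ℝ) ^ 2)⁻¹ ≤ (y : ℝ) / 2 * (y : ℝ)⁻¹ := by gcongr
      _ = 1 / 2 := h6
  refine (Real.exp_le_exp.2 h3).trans ?_
  have h7 : Real.exp (1 / 2) ^ 2 ≤ 2 ^ 2 := by
    rw [← Real.exp_nat_mul]
    norm_num
    have := Real.exp_one_lt_d9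
    linarith
  exact (pow_le_pow_iff_left₀ (Real.exp_pos _).le (by norm_num) (by norm_num)).1 h7

/-- the weight of a pair -/
noncomputable def FF (y z s t : ℕ) : ℝ := fd y z (Nat.dist s t) * fd y z (s + t)

lemma dist_sum_le (N s : ℕ) (hs : s ∈ Icc 1 N) (F : ℕ → ℝ) (hF : ∀ d, 0 ≤ F d) :
    ∑ t ∈ (Icc 1 N).erase s, F (Nat.dist s t) ≤ 2 * ∑ d ∈ Icc 1 N, F d := by
  rw [mem_Icc] at hs
  have e1 : ∑ t ∈ (Icc 1 N).erase s, F (Nat.dist s t) =
      ∑ t ∈ ((Icc 1 N).erase s).filter (fun t => t < s), F (Nat.dist s t) + ∑ t ∈ ((Icc 1 N).erase s).filter (fun t => ¬ t < s), F (Nat.dist s t) :=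
    (sum_filter_add_sum_filter_not _ _ _).symm
  rw [e1, two_mul]
  apply add_le_add
  · rw [← sum_image (g := fun t => Nat.dist s t) (f := F)]
    · apply sum_le_sum_of_subset_of_nonneg _ (fun _ _ _ => hF _)
      intro d hd
      rw [mem_image] at hd
      obtain ⟨t, ht, rfl⟩ := hd
      rw [mem_filter, mem_erase, mem_Icc] at ht
      rw [mem_Icc]
      unfold Nat.dist
      omega
    · intro a ha b hb hab
      rw [mem_coe, mem_filter, mem_erase, mem_Icc] at ha hb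
      simp only [Nat.dist] at hab
      omega
  · rw [← sum_image (g := fun t => Nat.dist s t) (f := F)]
    · apply sum_le_sum_of_subset_of_nonneg _ (fun _ _ _ => hF _)
      intro d hd
      rw [mem_image] at hd
      obtain ⟨t, ht, rfl⟩ := hd
      rw [mem_filter, mem_erase, mem_Icc] at ht
      rw [mem_Icc]
      unfold Nat.dist
      omega
    · intro a ha b hb hab
      rw [mem_coe, mem_filter, mem_erase, mem_Icc] at ha hb
      simp only [Nat.dist] at hab
      omega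

lemma FF_moment (y z k N : ℕ) (hy : 1 ≤ y) (hk : 6 * k ≤ y) (S : Finset ℕ) (hS : S ⊆ Icc 1 N) (s : ℕ) (hs : s ∈ S) :
    ∑ t ∈ S.erase s, FF y z s t ^ k ≤ 4 * N := by
  have h0 : ∑ t ∈ S.erase s, FF y z s t ^ k ≤ ∑ t ∈ (Icc 1 N).erase s, FF y z s t ^ k := by
    apply sum_le_sum_of_subset_of_nonneg (erase_subset_erase _ hS)
    intro t _ _
    exact pow_nonneg (mul_nonneg (fd_one' _ _ _) (fd_one' _ _ _)) _
  have h1 : ∀ t ∈ (Icc 1 N).erase s, FF y z s t ^ k ≤ (fd y z (Nat.dist s t) ^ (2 * k) + fd y z (s + t) ^ (2 * k)) / 2 := by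
    intro t _
    unfold FF
    rw [mul_pow, pow_mul', pow_mul']
    nlinarith [sq_nonneg (fd y z (Nat.dist s t) ^ k - fd y z (s + t) ^ k)]
  have h2 : ∑ t ∈ (Icc 1 N).erase s, fd y z (Nat.dist s t) ^ (2 * k) ≤ 2 * (2 * N) :=
    (dist_sum_le N s (hS hs) (fun d => fd y z d ^ (2 * k)) (fun d => pow_nonneg (fd_one' _ _ _) _)).trans
      (mul_le_mul_of_nonneg_left (fd_moment y z (2 * k) N hy (by omega)) (by norm_num))
  have h3 : ∑ t ∈ (Icc 1 N).erase s, fd y z (s + t) ^ (2 * k) ≤ 2 * ((2 * N : ℕ) : ℝ) := by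
    rw [← sum_image (g := fun t => s + t) (f := fun d => fd y z d ^ (2 * k))]
    · refine le_trans ?_ (fd_moment y z (2 * k) (2 * N) hy (by omega))
      apply sum_le_sum_of_subset_of_nonneg _ (fun _ _ _ => pow_nonneg (fd_one' _ _ _) _)
      intro d hd
      rw [mem_image] at hd
      obtain ⟨t, ht, rfl⟩ := hd
      rw [mem_erase, mem_Icc] at ht
      have := mem_Icc.1 (hS hs)
      rw [mem_Icc]
      omega
    · intro a _ b _ hab
      simp only at hab
      omega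
  push_cast at h3
  refine h0.trans ((sum_le_sum h1).trans ?_)
  rw [← sum_div, sum_add_distrib]
  linarith

lemma FF_sum (y z n N : ℕ) (hy : 1 ≤ y) (hk : 6 * (n + 1) ≤ y) (S : Finset ℕ) (hS : S ⊆ Icc 1 N) (η : ℝ) (hη : 0 < η)
    (hm : 4 * (N : ℝ) ≤ (1 + η) ^ (n + 1) * S.card) (s : ℕ) (hs : s ∈ S) :
    ∑ t ∈ S.erase s, FF y z s t ≤ (1 + η) * S.card := by
  have h1 := FF_moment y z (n + 1) N hy hk S hS s hs
  have hFF : ∀ t, 0 ≤ FF y z s t := fun t => mul_nonneg (fd_one' _ _ _) (fd_one' _ _ _)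
  have h3 := pow_sum_div_card_le_sum_pow (s := S.erase s) (f := fun t => FF y z s t) (fun t _ => hFF t) n
  have hm0 : (0 : ℝ) < S.card := by exact_mod_cast card_pos.2 ⟨s, hs⟩
  by_contra hcon
  push Not at hcon
  set T := ∑ t ∈ S.erase s, FF y z s t with hT
  by_cases hc0 : (S.erase s).card = 0
  · rw [card_eq_zero] at hc0
    rw [hc0, sum_empty] at hT
    rw [hT] at hcon
    have : 0 < (1 + η) * S.card := by positivity
    linarith
  have hc1 : (0 : ℝ) < (S.erase s).card := by exact_mod_cast Nat.pos_of_ne_zero hc0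
  have hcle : ((S.erase s).card : ℝ) ≤ S.card := by exact_mod_cast card_le_card (erase_subset _ _)
  have h4 : T ^ (n + 1) ≤ 4 * N * (S.card : ℝ) ^ n := by
    rw [div_le_iff₀ (by positivity)] at h3
    refine h3.trans ?_
    have : ((S.erase s).card : ℝ) ^ n ≤ (S.card : ℝ) ^ n := pow_le_pow_left₀ hc1.le hcle n
    calc _ ≤ 4 * (N : ℝ) * ((S.erase s).card : ℝ) ^ n := by gcongr
      _ ≤ _ := by gcongr
  have h5 : ((1 + η) * S.card) ^ (n + 1) < T ^ (n + 1) := pow_lt_pow_left₀ hcon (by positivity) (by omega)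
  have h6 : 4 * N * (S.card : ℝ) ^ n ≤ ((1 + η) * S.card) ^ (n + 1) := by
    calc 4 * N * (S.card : ℝ) ^ n ≤ (1 + η) ^ (n + 1) * S.card * (S.card : ℝ) ^ n := by gcongr
      _ = _ := by rw [mul_pow]; ring
  linarith

end Pool.Agent.Y877.SX
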