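import Mathlib
import Pool.Agent.Y877.SxE

/-! Dense index sets: the assembly for one window. -/

namespace Pool.Agent.Y877.SX
open Finset Pool.Agent.H373R2.T7 Polynomial

open Classical in
lemma assemble (S : Finset ℕ) (e x y z N M G g0 : ℕ) (δ m R : ℝ) (hδ : 0 < δ) (hm : (S.card : ℝ) = m) (hm0 : 0 < m) (hN : N = x ^ e)
    (hN1 : 1 ≤ N) (hM1 : 1 ≤ M) (hyz : y ≤ z) (hS : S ⊆ Icc 1 x) (hSp : ∀ s ∈ S, ∀ p : ℕ, p.Prime → p ≤ y → ¬ p ∣ s)
    (hMp : ∀ p : ℕ, p.Prime → p ≤ y → p ∣ M) (hg1 : M * (g0 + G) ≤ N)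
    (hrough : (((Icc 1 G).filter (fun g => ((S.filter (fun s => ∀ p ∈ mid y z, ¬ p ∣ s ^ e + (M * g0 + M * g))).card : ℝ) <
      (1 - δ) * (m * Vm y z))).card : ℝ) ≤ δ * G)
    (hbil : ∀ Gf c : ℕ → ℂ, (∀ a, ‖Gf a‖ ≤ 1) → (∀ m, ‖c m‖ ≤ 1) →
      ‖∑ a ∈ Icc 1 N, ∑ m ∈ Icc 1 x, Gf a * c m *
      ((lamI (a + 1 * (X ^ e : ℤ[X]).eval (m : ℤ)) - lamzI z (a + 1 * (X ^ e : ℤ[X]).eval (m : ℤ)) : ℝ) : ℂ)‖ ≤ R)
    (hR : R ≤ (δ * G) * (δ * m)) (hPP : x * (2 * √((2 * N : ℕ) : ℝ) * Real.log ((2 * N : ℕ) : ℝ)) ≤ (δ * G) * (δ * m)) :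
    (((Icc 1 G).filter (fun g => ((S.filter (fun s => (s ^ e + M * (g0 + g)).Prime)).card : ℝ) *
      Real.log (2 * (x : ℝ) ^ e) < (1 - 3 * δ) * (m * (Vz y)⁻¹))).card : ℝ) ≤ 3 * δ * G := by
  have hδm : 0 < δ * m := by positivity
  have hVy := Vz_pos y
  have hVz := Vz_pos z
  have hVm := Vm_pos y z
  have hVy1 : 1 ≤ (Vz y)⁻¹ := by
    rw [one_le_inv₀ hVy]
    exact Vz_le_one y
  have hsplit := Vz_split y z hyz
  -- the three bad sets
  obtain ⟨cX, hcX⟩ : ∃ cX : ℕ → ℝ, ∀ g, cX g = ((S.filter (fun s => ∀ p ∈ mid y z, ¬ p ∣ s ^ e + (M * g0 + M * g))).card : ℝ) :=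
    ⟨_, fun _ => rfl⟩
  obtain ⟨T, hT⟩ : ∃ T : ℕ → ℝ, ∀ g, T g = ∑ s ∈ S, ArithmeticFunction.vonMangoldt (s ^ e + M * (g0 + g)) := ⟨_, fun _ => rfl⟩
  obtain ⟨PP, hPPd⟩ : ∃ PP : ℕ → ℝ, ∀ g, PP g = ∑ s ∈ S, (if (s ^ e + M * (g0 + g)).Prime then (0 : ℝ) else
    ArithmeticFunction.vonMangoldt (s ^ e + M * (g0 + g))) := ⟨_, fun _ => rfl⟩
  set B1 := (Icc 1 G).filter (fun g => cX g < (1 - δ) * (m * Vm y z)) with hB1
  set B2 := (Icc 1 G).filter (fun g => (1 - δ) * (m * Vm y z) ≤ cX g ∧ T g < (1 - 2 * δ) * (m * (Vz y)⁻¹)) with hB2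
  set B3 := (Icc 1 G).filter (fun g => δ * m < PP g) with hB3
  have hinj : Function.Injective (fun g => M * (g0 + g)) := by
    intro a b hab
    simp only at hab
    have := Nat.eq_of_mul_eq_mul_left hM1 hab
    omega
  have hrange : ∀ g ∈ Icc 1 G, M * (g0 + g) ∈ Icc 1 N := by
    intro g hg
    rw [mem_Icc] at hg ⊢
    refine ⟨Nat.mul_pos hM1 (by omega), le_trans (Nat.mul_le_mul_left _ (by omega)) hg1⟩
  have c1 : (B1.card : ℝ) ≤ δ * G := by
    have : B1 = (Icc 1 G).filter (fun g => ((S.filter (fun s => ∀ p ∈ mid y z, ¬ p ∣ s ^ e + (M * g0 + M * g))).card : ℝ) <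
      (1 - δ) * (m * Vm y z)) := by
      rw [hB1]
      ext g
      rw [mem_filter, mem_filter, hcX]
    rw [this]
    exact hrough
  have c2 : (B2.card : ℝ) ≤ δ * G := by
    have h1 := bil_step e x N z R (δ * m) hbil S (B2.image (fun g => M * (g0 + g))) hS (by
      intro h hh
      rw [mem_image] at hh
      obtain ⟨g, hg, rfl⟩ := hh
      exact hrange g (mem_filter.1 hg).1) (by
      intro h hh
      rw [mem_image] at hh
      obtain ⟨g, hg, rfl⟩ := hh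
      rw [hB2, mem_filter] at hg
      obtain ⟨_, h2, h3⟩ := hg
      rw [sum_sub_distrib, ← hT]
      have h4 : ∑ s ∈ S, lamz z (s ^ e + M * (g0 + g)) = (Vz z)⁻¹ * cX g := by
        have : ∀ s ∈ S, lamz z (s ^ e + M * (g0 + g)) = if ∀ p ∈ mid y z, ¬ p ∣ s ^ e + (M * g0 + M * g) then (Vz z)⁻¹ else 0 := by
          intro s hs
          rw [lamz_eq e y z M s (g0 + g) (hSp s hs) hMp, mul_add]
        rw [sum_congr rfl this, ← sum_filter, sum_const, nsmul_eq_mul, hcX, mul_comm]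
      rw [h4]
      have h5 : (Vz z)⁻¹ * ((1 - δ) * (m * Vm y z)) = (1 - δ) * (m * (Vz y)⁻¹) := by
        rw [hsplit, mul_inv]
        field_simp
      have h6 : (Vz z)⁻¹ * ((1 - δ) * (m * Vm y z)) ≤ (Vz z)⁻¹ * cX g := mul_le_mul_of_nonneg_left h2 (inv_pos.2 hVz).le
      have h7 : δ * m * 1 ≤ δ * m * (Vz y)⁻¹ := mul_le_mul_of_nonneg_left hVy1 hδm.le
      nlinarith)
    rw [card_image_of_injective _ hinj] at h1
    exact le_of_mul_le_mul_right (h1.trans hR) hδm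
  have c3 : (B3.card : ℝ) ≤ δ * G := by
    have h1 := pp_sum x e (2 * N) (by omega) S (B3.image (fun g => M * (g0 + g))) hS (by
      intro s hs h hh
      rw [mem_image] at hh
      obtain ⟨g, hg, rfl⟩ := hh
      have h2 := (mem_Icc.1 (hrange g (mem_filter.1 hg).1)).2
      have h3 : s ^ e ≤ N := by
        rw [hN]
        exact Nat.pow_le_pow_left (mem_Icc.1 (hS hs)).2 e
      omega)
    rw [sum_image (fun a _ b _ hab => hinj hab)] at h1
    have h2 : ∑ _g ∈ B3, (δ * m) ≤ ∑ g ∈ B3, PP g := by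
      apply sum_le_sum
      intro g hg
      exact (mem_filter.1 hg).2.le
    rw [sum_const, nsmul_eq_mul] at h2
    have h3 : ∑ g ∈ B3, PP g ≤ (δ * G) * (δ * m) := by
      refine le_trans (le_of_eq ?_) (h1.trans hPP)
      apply sum_congr rfl
      intro g _
      rw [hPPd]
    exact le_of_mul_le_mul_right (h2.trans h3) hδm
  have hsub : (Icc 1 G).filter (fun g => ((S.filter (fun s => (s ^ e + M * (g0 + g)).Prime)).card : ℝ) *
      Real.log (2 * (x : ℝ) ^ e) < (1 - 3 * δ) * (m * (Vz y)⁻¹)) ⊆ B1 ∪ (B2 ∪ B3) := by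
    intro g hg
    rw [mem_filter] at hg
    obtain ⟨hg, hlt⟩ := hg
    by_contra hcon
    rw [mem_union, mem_union] at hcon
    push Not at hcon
    obtain ⟨n1, n2, n3⟩ := hcon
    have q1 : (1 - δ) * (m * Vm y z) ≤ cX g := by
      by_contra h
      push Not at h
      exact n1 (mem_filter.2 ⟨hg, h⟩)
    have q2 : (1 - 2 * δ) * (m * (Vz y)⁻¹) ≤ T g := by
      by_contra h
      push Not at h
      exact n2 (mem_filter.2 ⟨hg, q1, h⟩)
    have q3 : PP g ≤ δ * m := by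
      by_contra h
      push Not at h
      exact n3 (mem_filter.2 ⟨hg, h⟩)
    have q4 : T g ≤ ((S.filter (fun s => (s ^ e + M * (g0 + g)).Prime)).card : ℝ) * Real.log (2 * (x : ℝ) ^ e) + PP g := by
      rw [hT, hPPd, card_eq_sum_ones, Nat.cast_sum, sum_mul, sum_filter, ← sum_add_distrib]
      apply sum_le_sum
      intro s hs
      by_cases hp : (s ^ e + M * (g0 + g)).Prime
      · rw [if_pos hp, if_pos hp, ArithmeticFunction.vonMangoldt_apply_prime hp, Nat.cast_one, one_mul, add_zero]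
        apply Real.log_le_log (by exact_mod_cast hp.pos)
        have h2 := (mem_Icc.1 (hrange g hg)).2
        have h3 : s ^ e ≤ N := by
          rw [hN]
          exact Nat.pow_le_pow_left (mem_Icc.1 (hS hs)).2 e
        have h4 : s ^ e + M * (g0 + g) ≤ 2 * x ^ e := by omega
        exact_mod_cast h4
      · rw [if_neg hp, if_neg hp, zero_add]
    have q5 : δ * m * 1 ≤ δ * m * (Vz y)⁻¹ := mul_le_mul_of_nonneg_left hVy1 hδm.le
    nlinarith
  have h1 := card_le_card hsub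
  have h2 : (B1 ∪ (B2 ∪ B3)).card ≤ B1.card + (B2.card + B3.card) :=
    (card_union_le _ _).trans (Nat.add_le_add_left (card_union_le _ _) _)
  have h3 : (((Icc 1 G).filter (fun g => ((S.filter (fun s => (s ^ e + M * (g0 + g)).Prime)).card : ℝ) *
      Real.log (2 * (x : ℝ) ^ e) < (1 - 3 * δ) * (m * (Vz y)⁻¹))).card : ℝ) ≤ B1.card + (B2.card + B3.card) := by
    exact_mod_cast h1.trans h2
  linarith

end Pool.Agent.Y877.SX
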