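import Mathlib
import Pool.Agent.Y877.SxF

/-! Dense index sets: the version with a map from indices to primes. -/

namespace Pool.Agent.Y877.SX
open Finset Pool.Agent.H373R2.T7

open Classical in
theorem one_step (e : ℕ) (he : e = 1 ∨ e = 2) (A B C : ℕ) (ε : ℝ) (hε : 0 < ε) : ∃ K0 : ℕ, ∀ K1 : ℕ, ∃ n0 : ℕ, ∀ n : ℕ, n0 ≤ n →
    ∀ y : ℕ, K0 * Real.log (Real.log n) ≤ y → y ≤ K1 * Real.log (Real.log n) →
    ∀ J : Finset ℕ, (n : ℝ) ≤ J.card * Real.log n ^ A → ∀ f : ℕ → ℕ, Set.InjOn f J →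
    (∀ j ∈ J, (f j).Prime ∧ y < f j ∧ (f j : ℝ) ≤ n * Real.log n ^ B) →
    ∀ g0 G : ℕ, primorial y * (g0 + G) ≤ n ^ e → (n : ℝ) ^ e ≤ primorial y * G * Real.log n ^ C →
    (((Icc 1 G).filter (fun g => ((J.filter (fun j => (f j ^ e + primorial y * (g0 + g)).Prime)).card : ℝ) <
      (1 - ε) * (J.card / (Vz y * (e * Real.log n))))).card : ℝ) ≤ ε * G := by
  have he1 : 1 ≤ e := by omega
  have he2 : e ≤ 2 := by omega
  obtain ⟨δ, hδd⟩ : ∃ δ, δ = ε / 4 := ⟨_, rfl⟩
  have hδ : 0 < δ := by rw [hδd]; positivity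
  obtain ⟨K0, hK0⟩ := shifts e he (A + B) (C + 2 * B) δ hδ
  refine ⟨2 * K0, fun K1 => ?_⟩
  obtain ⟨x0, hx0⟩ := hK0 K1
  obtain ⟨n1, hn1⟩ := ev_L' (max (Real.exp 1) (((1 + 4 * B) / δ) ^ 2 + (1 + 4 * B) ^ 2))
  refine ⟨max x0 (max n1 1), fun n hn y hy1 hy2 J hJ f hf hfp g0 G hg1 hg2 => ?_⟩
  have b1 : x0 ≤ n := le_trans (le_max_left _ _) hn
  have b2 : n1 ≤ n := le_trans (le_trans (le_max_left _ _) (le_max_right _ _)) hn
  have b3 : 1 ≤ n := le_trans (le_trans (le_max_right _ _) (le_max_right _ _)) hn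
  have hL := hn1 n b2
  obtain ⟨L, hLd⟩ : ∃ L, L = Real.log n := ⟨_, rfl⟩
  rw [← hLd] at hL hy1 hy2 hJ hfp hg2 ⊢
  have hL1 : Real.exp 1 ≤ L := (le_max_left _ _).trans hL
  have hL2 : ((1 + 4 * B) / δ) ^ 2 + (1 + 4 * B) ^ 2 ≤ L := (le_max_right _ _).trans hL
  have hLe : 1 ≤ L := (Real.one_le_exp (by norm_num)).trans hL1
  have hL0 : 0 < L := by linarith
  have hs0 : 0 < √L := Real.sqrt_pos.2 hL0
  have hss : √L * √L = L := Real.mul_self_sqrt hL0.le
  have hs1 : 1 ≤ √L := by rw [← Real.sqrt_one]; exact Real.sqrt_le_sqrt hLe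
  have hs2 : (1 + 4 * (B : ℝ)) / δ ≤ √L := by
    apply Real.le_sqrt_of_sq_le
    have : 0 ≤ (1 + 4 * (B : ℝ)) ^ 2 := by positivity
    linarith
  have hs3 : 1 + 4 * (B : ℝ) ≤ √L := by
    apply Real.le_sqrt_of_sq_le
    have : 0 ≤ ((1 + 4 * (B : ℝ)) / δ) ^ 2 := by positivity
    linarith
  have hlog : Real.log L ≤ 2 * √L := by
    have h1 : Real.log L = 2 * Real.log (√L) := by
      rw [Real.log_sqrt hL0.le]
      ring
    have h2 := Real.log_le_sub_one_of_pos hs0
    linarith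
  have hlog1 : 1 ≤ Real.log L := by
    rw [← Real.log_exp 1]
    exact Real.log_le_log (Real.exp_pos 1) hL1
  have hnr : (1 : ℝ) ≤ n := by exact_mod_cast b3
  have hn0 : (0 : ℝ) < n := by linarith
  have hLB : 1 ≤ L ^ B := one_le_pow₀ hLe
  -- x
  obtain ⟨x, hxd⟩ : ∃ x, x = ⌊(n : ℝ) * L ^ B⌋₊ := ⟨_, rfl⟩
  have hnx : n ≤ x := by
    rw [hxd]
    apply Nat.le_floor
    exact le_mul_of_one_le_right hn0.le hLB
  have hxu : (x : ℝ) ≤ n * L ^ B := by
    rw [hxd]
    exact Nat.floor_le (by positivity)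
  have hnxr : (n : ℝ) ≤ x := by exact_mod_cast hnx
  have hx0r : (0 : ℝ) < x := by linarith
  have hLx : L ≤ Real.log x := by
    rw [hLd]
    exact Real.log_le_log hn0 hnxr
  have hlx : Real.log x ≤ L + B * Real.log L := by
    refine (Real.log_le_log hx0r hxu).trans (le_of_eq ?_)
    rw [Real.log_mul hn0.ne' (by positivity), Real.log_pow, ← hLd]
  have hsL : √L ≤ L := by
    calc √L = √L * 1 := (mul_one _).symm
      _ ≤ √L * √L := mul_le_mul_of_nonneg_left hs1 hs0.le
      _ = L := hss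
  have hlx2 : Real.log x ≤ L ^ 2 := by
    refine hlx.trans ?_
    have hB0 : (0 : ℝ) ≤ B := Nat.cast_nonneg B
    have h1 : (B : ℝ) * Real.log L ≤ B * (2 * √L) := mul_le_mul_of_nonneg_left hlog hB0
    have h2 : (B : ℝ) * √L ≤ B * L := mul_le_mul_of_nonneg_left hsL hB0
    have h3 : (1 + 4 * (B : ℝ)) * L ≤ L * L := mul_le_mul_of_nonneg_right (hs3.trans hsL) hL0.le
    have h4 : 0 ≤ (B : ℝ) * L := mul_nonneg hB0 hL0.le
    have h5 : L ^ 2 = L * L := sq L
    rw [h5]
    linarith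
  have hllx : Real.log (Real.log x) ≤ 2 * Real.log L := by
    have := Real.log_le_log (by linarith) hlx2
    rwa [Real.log_pow] at this
  have hllx' : Real.log L ≤ Real.log (Real.log x) := Real.log_le_log hL0 hLx
  have key := hx0 x (b1.trans hnx) y (by
    refine le_trans (mul_le_mul_of_nonneg_left hllx (Nat.cast_nonneg _)) (le_trans (le_of_eq ?_) hy1)
    push_cast
    ring) (hy2.trans (mul_le_mul_of_nonneg_left hllx' (Nat.cast_nonneg _))) (J.image f) (by
      intro s hs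
      rw [mem_image] at hs
      obtain ⟨j, hj, rfl⟩ := hs
      rw [mem_Icc]
      refine ⟨(hfp j hj).1.one_lt.le, ?_⟩
      rw [hxd]
      exact Nat.le_floor (hfp j hj).2.2) (by
      rw [card_image_of_injOn hf]
      calc (x : ℝ) ≤ n * L ^ B := hxu
        _ ≤ (J.card * L ^ A) * L ^ B := by gcongr
        _ = J.card * L ^ (A + B) := by rw [pow_add]; ring
        _ ≤ J.card * Real.log x ^ (A + B) := by gcongr) (by
      intro s hs p hp hpy hd
      rw [mem_image] at hs
      obtain ⟨j, hj, rfl⟩ := hs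
      have h1 := (Nat.prime_dvd_prime_iff_eq hp (hfp j hj).1).1 hd
      have h2 := (hfp j hj).2.1
      omega) g0 G (hg1.trans (Nat.pow_le_pow_left hnx e)) (by
      have h1 : (L ^ B) ^ e ≤ L ^ (2 * B) := by
        rw [← pow_mul]
        exact pow_le_pow_right₀ hLe (by rw [mul_comm]; exact Nat.mul_le_mul_right B he2)
      calc (x : ℝ) ^ e ≤ (n * L ^ B) ^ e := pow_le_pow_left₀ hx0r.le hxu e
        _ = (n : ℝ) ^ e * (L ^ B) ^ e := mul_pow _ _ _
        _ ≤ (primorial y * G * L ^ C) * L ^ (2 * B) := mul_le_mul hg2 h1 (by positivity) (by positivity)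
        _ = primorial y * G * L ^ (C + 2 * B) := by rw [pow_add]; ring
        _ ≤ primorial y * G * Real.log x ^ (C + 2 * B) := by gcongr)
  rw [card_image_of_injOn hf] at key
  have hG0 : (0 : ℝ) ≤ G := Nat.cast_nonneg G
  refine le_trans ?_ (key.trans (by
    have := mul_nonneg hε.le hG0
    rw [hδd]
    linarith))
  have hsub : (Icc 1 G).filter (fun g => ((J.filter (fun j => (f j ^ e + primorial y * (g0 + g)).Prime)).card : ℝ) <
      (1 - ε) * (J.card / (Vz y * (e * L)))) ⊆ (Icc 1 G).filter (fun g => (((J.image f).filter (fun s => (s ^ e + primorial y * (g0 + g)).Prime)).card : ℝ) *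
      Real.log (2 * (x : ℝ) ^ e) < (1 - 3 * δ) * (J.card * (Vz y)⁻¹)) := by
    intro g hg
    rw [mem_filter] at hg ⊢
    refine ⟨hg.1, ?_⟩
    have h1 : ((J.image f).filter (fun s => (s ^ e + primorial y * (g0 + g)).Prime)).card =
        (J.filter (fun j => (f j ^ e + primorial y * (g0 + g)).Prime)).card := by
      rw [filter_image, card_image_of_injOn]
      intro a ha b hb hab
      exact hf (mem_coe.2 (mem_filter.1 (mem_coe.1 ha)).1) (mem_coe.2 (mem_filter.1 (mem_coe.1 hb)).1) hab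
    rw [h1]
    obtain ⟨c, hc⟩ : ∃ c : ℝ, c = ((J.filter (fun j => (f j ^ e + primorial y * (g0 + g)).Prime)).card : ℝ) := ⟨_, rfl⟩
    have hc0 : 0 ≤ c := by rw [hc]; exact Nat.cast_nonneg _
    have h2 := hg.2
    rw [← hc] at h2 ⊢
    have her : (1 : ℝ) ≤ e := by exact_mod_cast he1
    have her2 : (e : ℝ) ≤ 2 := by exact_mod_cast he2
    have hVy := Vz_pos y
    have h3 : Real.log (2 * (x : ℝ) ^ e) ≤ (1 + δ) * (e * L) := by
      rw [Real.log_mul (by norm_num) (by positivity), Real.log_pow]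
      have h4 : (e : ℝ) * Real.log x ≤ e * (L + B * Real.log L) := by gcongr
      have h5 : (e : ℝ) * (B * Real.log L) ≤ 2 * (B * (2 * √L)) := by gcongr
      have h6 : 1 + 4 * (B : ℝ) ≤ δ * √L := by
        rw [div_le_iff₀ hδ] at hs2
        linarith
      have h7 : (1 + 4 * (B : ℝ)) * √L ≤ δ * √L * √L := mul_le_mul_of_nonneg_right h6 hs0.le
      have h8 : Real.log 2 ≤ √L := by
        have := Real.log_two_lt_d9
        linarith
      have h9 : δ * L * 1 ≤ δ * L * e := mul_le_mul_of_nonneg_left her (by positivity)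
      have h10 : δ * √L * √L = δ * L := by rw [mul_assoc, hss]
      have h12 : (1 + δ) * (e * L) = e * L + δ * L * e := by ring
      have h13 : (e : ℝ) * (L + B * Real.log L) = e * L + e * (B * Real.log L) := by ring
      have h14 : (1 + 4 * (B : ℝ)) * √L = √L + 2 * (B * (2 * √L)) := by ring
      rw [h12]
      rw [h13] at h4
      rw [h14] at h7
      linarith
    have h11 : 0 < Vz y * (e * L) := by positivity
    have hJ0 : (0 : ℝ) ≤ J.card := Nat.cast_nonneg _
    by_cases hε1 : 1 - ε ≤ 0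
    · exfalso
      have : (1 - ε) * ((J.card : ℝ) / (Vz y * (e * L))) ≤ 0 := mul_nonpos_of_nonpos_of_nonneg hε1 (by positivity)
      linarith
    · push Not at hε1
      have hJp : (0 : ℝ) < J.card := by
        by_contra h
        push Not at h
        have : (J.card : ℝ) * L ^ A ≤ 0 := mul_nonpos_of_nonpos_of_nonneg h (by positivity)
        linarith
      calc c * Real.log (2 * (x : ℝ) ^ e) ≤ c * ((1 + δ) * (e * L)) := mul_le_mul_of_nonneg_left h3 hc0
        _ < ((1 - ε) * (J.card / (Vz y * (e * L)))) * ((1 + δ) * (e * L)) := mul_lt_mul_of_pos_right h2 (by positivity)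
        _ = (1 - ε) * (1 + δ) * (J.card * (Vz y)⁻¹) := by
            field_simp
        _ ≤ (1 - 3 * δ) * (J.card * (Vz y)⁻¹) := by
            apply mul_le_mul_of_nonneg_right _ (by positivity)
            rw [hδd]
            have h15 : (1 - ε) * (1 + ε / 4) = 1 - 3 * (ε / 4) - ε ^ 2 / 4 := by ring
            rw [h15]
            linarith [sq_nonneg ε]
  exact_mod_cast card_le_card hsub

end Pool.Agent.Y877.SX
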