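import Mathlib
import Pool.Agent.Y877.SxH

/-! Dense index sets: bounds for the primes, and the step without a lower bound for the values. -/

namespace Pool.Agent.Y877.SX
open Finset Pool.Agent.H373R2.T7

/-- the primes are not too large -/
lemma nth_le_log : ∃ n0 : ℕ, ∀ n : ℕ, n0 ≤ n → ∀ i : ℕ, i ≤ 4 * n → (Nat.nth Nat.Prime i : ℝ) ≤ n * Real.log n ^ 2 := by
  obtain ⟨n1, hn1⟩ := ev_L' 40
  obtain ⟨n2, hn2⟩ := ev_log' 2 1
  refine ⟨max n1 (max n2 1), fun n hn i hi => ?_⟩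
  have b1 : n1 ≤ n := le_trans (le_max_left _ _) hn
  have b2 : n2 ≤ n := le_trans (le_trans (le_max_left _ _) (le_max_right _ _)) hn
  have b3 : 1 ≤ n := le_trans (le_trans (le_max_right _ _) (le_max_right _ _)) hn
  have hL := hn1 n b1
  have hs := hn2 n b2
  obtain ⟨L, hLd⟩ : ∃ L, L = Real.log n := ⟨_, rfl⟩
  rw [← hLd] at hL hs ⊢
  rw [one_mul] at hs
  have hnr : (1 : ℝ) ≤ n := by exact_mod_cast b3
  have hn0 : (0 : ℝ) < n := by linarith
  have hsn : √(n : ℝ) ≤ n := by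
    have h := Real.sq_sqrt hn0.le
    have h1 : 1 ≤ √(n : ℝ) := by rw [← Real.sqrt_one]; exact Real.sqrt_le_sqrt hnr
    nlinarith
  have hL2n : L ^ 2 ≤ n := hs.trans hsn
  obtain ⟨N, hNd⟩ : ∃ N, N = ⌊(n : ℝ) * L ^ 2⌋₊ := ⟨_, rfl⟩
  have hNu : (N : ℝ) ≤ n * L ^ 2 := by
    rw [hNd]
    exact Nat.floor_le (by positivity)
  have hNl : (n : ℝ) * L ^ 2 - 1 < N := by
    rw [hNd]
    exact Nat.sub_one_lt_floor _
  have hL21 : 1600 ≤ L ^ 2 := by nlinarith
  have hnL : 1600 ≤ n * L ^ 2 := by nlinarith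
  have hN1 : (1000 : ℝ) ≤ N := by linarith
  have hN0 : (0 : ℝ) < N := by linarith
  have hlN0 : 0 < Real.log N := Real.log_pos (by linarith)
  have hlN : Real.log N ≤ 2 * L := by
    have h1 : (N : ℝ) ≤ n ^ 2 := by nlinarith
    have := Real.log_le_log hN0 h1
    rw [Real.log_pow, ← hLd] at this
    push_cast at this
    exact this
  have hlN1 : Real.log ((N : ℝ) + 1) ≤ 3 * L := by
    have h1 : (N : ℝ) + 1 ≤ n ^ 3 := by
      have h2 : (N : ℝ) ≤ n ^ 2 := by nlinarith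
      have h3 : (2 : ℝ) ≤ n := by nlinarith
      have h4 : (n : ℝ) ^ 2 * 2 ≤ n ^ 2 * n := by gcongr
      nlinarith
    have := Real.log_le_log (by linarith) h1
    rw [Real.log_pow, ← hLd] at this
    push_cast at this
    exact this
  have hpi := Chebyshev.pi_ge N
  have hlog2 : (0.69 : ℝ) < Real.log 2 := by
    have := Real.log_two_gt_d9
    linarith
  have hgt : (4 * n : ℝ) < (N * Real.log 2 - Real.log (N + 1)) / Real.log N := by
    rw [lt_div_iff₀ hlN0]
    have h1 : 4 * (n : ℝ) * Real.log N ≤ 4 * n * (2 * L) := by gcongr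
    have h2 : (n * L ^ 2 - 1) * 0.69 ≤ N * Real.log 2 := by
      apply mul_le_mul hNl.le hlog2.le (by norm_num) hN0.le
    have h3 : 40 * (n * L) ≤ n * L ^ 2 := by nlinarith
    have h4 : L ≤ n * L := by nlinarith
    nlinarith
  have hlt : i < Nat.primeCounting N := by
    have h1 : ((4 * n : ℕ) : ℝ) < (Nat.primeCounting N : ℝ) := by
      push_cast
      exact lt_of_lt_of_le hgt hpi
    have : 4 * n < Nat.primeCounting N := by exact_mod_cast h1
    omega
  have h5 : Nat.nth Nat.Prime i < N + 1 := by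
    apply Nat.nth_lt_of_lt_count
    exact hlt
  have h6 : ((Nat.nth Nat.Prime i : ℕ) : ℝ) ≤ N := by exact_mod_cast Nat.lt_succ_iff.1 h5
  exact h6.trans hNu

/-- the primes with prime index are not too large -/
lemma nth_nth_le_log : ∃ n0 : ℕ, ∀ n : ℕ, n0 ≤ n → ∀ i : ℕ, i ≤ 4 * n →
    (Nat.nth Nat.Prime (Nat.nth Nat.Prime i - 1) : ℝ) ≤ n * Real.log n ^ 5 := by
  obtain ⟨n1, h1⟩ := nth_le_log
  obtain ⟨n2, h2⟩ := ev_L' 40
  obtain ⟨n3, h3⟩ := ev_log' 2 1
  refine ⟨max n1 (max n2 (max n3 1)), fun n hn i hi => ?_⟩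
  have b1 : n1 ≤ n := le_trans (le_max_left _ _) hn
  have b2 : n2 ≤ n := le_trans (le_trans (le_max_left _ _) (le_max_right _ _)) hn
  have b3 : n3 ≤ n := le_trans (le_trans (le_trans (le_max_left _ _) (le_max_right _ _)) (le_max_right _ _)) hn
  have b4 : 1 ≤ n := le_trans (le_trans (le_trans (le_max_right _ _) (le_max_right _ _)) (le_max_right _ _)) hn
  have k1 := h1 n b1 i hi
  have hL := h2 n b2
  have hs := h3 n b3
  obtain ⟨L, hLd⟩ : ∃ L, L = Real.log n := ⟨_, rfl⟩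
  rw [← hLd] at hL hs k1 ⊢
  rw [one_mul] at hs
  have hnr : (1 : ℝ) ≤ n := by exact_mod_cast b4
  have hn0 : (0 : ℝ) < n := by linarith
  have hsn : √(n : ℝ) ≤ n := by
    have h := Real.sq_sqrt hn0.le
    have h1 : 1 ≤ √(n : ℝ) := by rw [← Real.sqrt_one]; exact Real.sqrt_le_sqrt hnr
    nlinarith
  have hL2n : L ^ 2 ≤ n := hs.trans hsn
  obtain ⟨m, hmd⟩ : ∃ m, m = ⌊(n : ℝ) * L ^ 2⌋₊ := ⟨_, rfl⟩
  have hmu : (m : ℝ) ≤ n * L ^ 2 := by
    rw [hmd]
    exact Nat.floor_le (by positivity)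
  have hnm : n ≤ m := by
    rw [hmd]
    apply Nat.le_floor
    exact le_mul_of_one_le_right hn0.le (by nlinarith)
  have him : Nat.nth Nat.Prime i ≤ m := by
    rw [hmd]
    exact Nat.le_floor k1
  have k2 := h1 m (b1.trans hnm) (Nat.nth Nat.Prime i - 1) (by omega)
  refine k2.trans ?_
  have hm0 : (0 : ℝ) < m := lt_of_lt_of_le hn0 (by exact_mod_cast hnm)
  have hlm : Real.log m ≤ 2 * L := by
    have h1 : (m : ℝ) ≤ n ^ 2 := by nlinarith
    have := Real.log_le_log hm0 h1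
    rw [Real.log_pow, ← hLd] at this
    push_cast at this
    exact this
  have hlm0 : 0 ≤ Real.log m := Real.log_natCast_nonneg m
  have h5 : Real.log m ^ 2 ≤ (2 * L) ^ 2 := pow_le_pow_left₀ hlm0 hlm 2
  calc (m : ℝ) * Real.log m ^ 2 ≤ (n * L ^ 2) * (2 * L) ^ 2 := mul_le_mul hmu h5 (by positivity) (by positivity)
    _ = n * (4 * L ^ 4) := by ring
    _ ≤ n * L ^ 5 := by
        apply mul_le_mul_of_nonneg_left _ hn0.le
        have : 0 ≤ L ^ 4 := by positivity
        nlinarith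

open Classical in
theorem step (e : ℕ) (he : e = 1 ∨ e = 2) (A B C : ℕ) (ε : ℝ) (hε : 0 < ε) (hε1 : ε ≤ 1) : ∃ K0 : ℕ, ∀ K1 : ℕ, ∃ n0 : ℕ, ∀ n : ℕ, n0 ≤ n →
    ∀ y : ℕ, K0 * Real.log (Real.log n) ≤ y → y ≤ K1 * Real.log (Real.log n) →
    ∀ J : Finset ℕ, (n : ℝ) ≤ J.card * Real.log n ^ A → ∀ f : ℕ → ℕ, Set.InjOn f J →
    (∀ j ∈ J, (f j).Prime ∧ (f j : ℝ) ≤ n * Real.log n ^ B) →
    ∀ g0 G : ℕ, primorial y * (g0 + G) ≤ n ^ e → (n : ℝ) ^ e ≤ primorial y * G * Real.log n ^ C →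
    (((Icc 1 G).filter (fun g => ((J.filter (fun j => (f j ^ e + primorial y * (g0 + g)).Prime)).card : ℝ) <
      (1 - ε) * (J.card / (Vz y * (e * Real.log n))))).card : ℝ) ≤ ε * G := by
  obtain ⟨K0, hK0⟩ := one_step e he (A + 1) B C (ε / 2) (by positivity)
  refine ⟨K0, fun K1 => ?_⟩
  obtain ⟨n0, hn0⟩ := hK0 K1
  obtain ⟨n1, hn1⟩ := ev_L' (max (Real.exp 1) (max 2 (2 * (K1 + 1))))
  obtain ⟨n2, hn2⟩ := ev_log' (A + 1) (2 / ε)
  refine ⟨max n0 (max n1 (max n2 1)), fun n hn y hy1 hy2 J hJ f hf hfp g0 G hg1 hg2 => ?_⟩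
  have b1 : n0 ≤ n := le_trans (le_max_left _ _) hn
  have b2 : n1 ≤ n := le_trans (le_trans (le_max_left _ _) (le_max_right _ _)) hn
  have b3 : n2 ≤ n := le_trans (le_trans (le_trans (le_max_left _ _) (le_max_right _ _)) (le_max_right _ _)) hn
  have b4 : 1 ≤ n := le_trans (le_trans (le_trans (le_max_right _ _) (le_max_right _ _)) (le_max_right _ _)) hn
  have hL := hn1 n b2
  have hs := hn2 n b3
  obtain ⟨L, hLd⟩ : ∃ L, L = Real.log n := ⟨_, rfl⟩
  have key := hn0 n b1 y hy1 hy2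
  rw [← hLd] at hL hs hy1 hy2 hJ hfp hg2 key ⊢
  have hL1 : Real.exp 1 ≤ L := (le_max_left _ _).trans hL
  have hL2 : 2 ≤ L := ((le_max_left _ _).trans (le_max_right _ _)).trans hL
  have hL3 : 2 * ((K1 : ℝ) + 1) ≤ L := ((le_max_right _ _).trans (le_max_right _ _)).trans hL
  have hL0 : 0 < L := by linarith
  have hnr : (1 : ℝ) ≤ n := by exact_mod_cast b4
  have hn0' : (0 : ℝ) < n := by linarith
  have hsn : √(n : ℝ) * √(n : ℝ) = n := Real.mul_self_sqrt hn0'.le
  have hsn0 : 0 < √(n : ℝ) := Real.sqrt_pos.2 hn0'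
  have hlL : Real.log L ≤ L - 1 := Real.log_le_sub_one_of_pos hL0
  -- the small values
  obtain ⟨J', hJ'⟩ : ∃ J' : Finset ℕ, J' = J.filter (fun j => y < f j) := ⟨_, rfl⟩
  have hsmall : (J.card : ℝ) ≤ J'.card + (y + 1) := by
    have h1 : (J.filter (fun j => ¬ y < f j)).card ≤ y + 1 := by
      have h2 : ((J.filter (fun j => ¬ y < f j)).image f).card ≤ (range (y + 1)).card := by
        apply card_le_card
        intro s hs
        rw [mem_image] at hs
        obtain ⟨j, hj, rfl⟩ := hs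
        rw [mem_filter] at hj
        rw [mem_range]
        omega
      rw [card_image_of_injOn (fun a ha b hb hab => hf (mem_coe.2 (mem_filter.1 (mem_coe.1 ha)).1)
        (mem_coe.2 (mem_filter.1 (mem_coe.1 hb)).1) hab), card_range] at h2
      exact h2
    have h3 := card_filter_add_card_filter_not (s := J) (fun j => y < f j)
    rw [← hJ'] at h3
    have h4 : J.card ≤ J'.card + (y + 1) := by omega
    exact_mod_cast h4
  have hyL : (y : ℝ) + 1 ≤ (K1 + 1) * L := by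
    have : (K1 : ℝ) * Real.log L ≤ K1 * L := by
      apply mul_le_mul_of_nonneg_left _ (Nat.cast_nonneg _)
      linarith
    linarith
  have hJbig : (y : ℝ) + 1 ≤ ε / 2 * J.card := by
    -- J.card ≥ n / L^A ≥ √n (2/ε) L ≥ ...
    have h1 : 2 / ε * L ^ (A + 1) * √(n : ℝ) ≤ J.card * L ^ A := by
      calc 2 / ε * L ^ (A + 1) * √(n : ℝ) ≤ √n * √n := mul_le_mul_of_nonneg_right hs hsn0.le
        _ = n := hsn
        _ ≤ _ := hJ
    have h2 : 2 / ε * L * √(n : ℝ) ≤ J.card := by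
      have h3 : 0 < L ^ A := by positivity
      have h4 : (2 / ε * L * √(n : ℝ)) * L ^ A ≤ J.card * L ^ A := by
        refine le_trans (le_of_eq ?_) h1
        rw [pow_succ]
        ring
      exact le_of_mul_le_mul_right h4 h3
    have h5 : (K1 : ℝ) + 1 ≤ √n := by
      have h6 : L ≤ √(n : ℝ) := by
        have h7 : 2 / ε * L ^ (A + 1) ≤ √(n : ℝ) := hs
        have h8 : 2 ≤ 2 / ε := by
          rw [le_div_iff₀ hε]
          linarith
        have h9 : L ≤ L ^ (A + 1) := le_self_pow₀ (by linarith) (by omega)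
        nlinarith
      linarith
    calc (y : ℝ) + 1 ≤ (K1 + 1) * L := hyL
      _ ≤ √n * L := mul_le_mul_of_nonneg_right h5 hL0.le
      _ = ε / 2 * (2 / ε * L * √(n : ℝ)) := by field_simp
      _ ≤ ε / 2 * J.card := mul_le_mul_of_nonneg_left h2 (by positivity)
  have hJ0 : (0 : ℝ) ≤ J.card := Nat.cast_nonneg _
  have hJJ : (1 - ε / 2) * J.card ≤ J'.card := by linarith
  have hJ'b : (n : ℝ) ≤ J'.card * L ^ (A + 1) := by
    have h1 : (J.card : ℝ) ≤ 2 * J'.card := by nlinarith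
    calc (n : ℝ) ≤ J.card * L ^ A := hJ
      _ ≤ (2 * J'.card) * L ^ A := by gcongr
      _ = J'.card * (L ^ A * 2) := by ring
      _ ≤ J'.card * (L ^ A * L) := by gcongr
      _ = _ := by rw [pow_succ]
  have hsubJ : J' ⊆ J := by rw [hJ']; exact filter_subset _ _
  have k1 := key J' hJ'b f (fun a ha b hb hab => hf (mem_coe.2 (hsubJ (mem_coe.1 ha))) (mem_coe.2 (hsubJ (mem_coe.1 hb))) hab)
    (fun j hj => ⟨(hfp j (hsubJ hj)).1, by rw [hJ', mem_filter] at hj; exact hj.2, (hfp j (hsubJ hj)).2⟩) g0 G hg1 hg2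
  have hG0 : (0 : ℝ) ≤ G := Nat.cast_nonneg G
  refine le_trans ?_ (k1.trans (by nlinarith))
  have hVy := Vz_pos y
  have her : (0 : ℝ) < e := by
    rcases he with rfl | rfl <;> norm_num
  have hden : 0 < Vz y * (e * L) := by positivity
  have hsub : (Icc 1 G).filter (fun g => ((J.filter (fun j => (f j ^ e + primorial y * (g0 + g)).Prime)).card : ℝ) <
      (1 - ε) * (J.card / (Vz y * (e * L)))) ⊆ (Icc 1 G).filter (fun g => ((J'.filter (fun j => (f j ^ e + primorial y * (g0 + g)).Prime)).card : ℝ) <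
      (1 - ε / 2) * (J'.card / (Vz y * (e * L)))) := by
    intro g hg
    rw [mem_filter] at hg ⊢
    refine ⟨hg.1, ?_⟩
    have h1 : ((J'.filter (fun j => (f j ^ e + primorial y * (g0 + g)).Prime)).card : ℝ) ≤
        ((J.filter (fun j => (f j ^ e + primorial y * (g0 + g)).Prime)).card : ℝ) := by
      exact_mod_cast card_le_card (filter_subset_filter _ hsubJ)
    refine lt_of_le_of_lt h1 (lt_of_lt_of_le hg.2 ?_)
    rw [mul_div_assoc', mul_div_assoc']
    apply div_le_div_of_nonneg_right _ hden.le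
    have h2 : (1 - ε / 2) * ((1 - ε / 2) * J.card) ≤ (1 - ε / 2) * J'.card := mul_le_mul_of_nonneg_left hJJ (by linarith)
    nlinarith
  exact_mod_cast card_le_card hsub

end Pool.Agent.Y877.SX
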