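import Mathlib
import Pool.Agent.Y877.SxI
import Pool.Agent.Y840.CT.LowF

/-! Chen's theorem for one shift or one even number, with a lower bound for the count. -/

namespace Pool.Agent.Y877.SX
open Finset

lemma rho_one (h : ℤ) (q : ℕ) (hq : 3 ≤ q) : Pool.Agent.Y840.CT.rho ({h} : Finset ℤ) q < q := by
  unfold Pool.Agent.Y840.CT.rho
  refine lt_of_le_of_lt card_image_le ?_
  have := card_insert_le (0 : ℤ) {h}
  rw [card_singleton] at this
  omega

lemma rho_even (h : ℤ) (hh : Even h) (q : ℕ) (hq : q.Prime) : Pool.Agent.Y840.CT.rho ({h} : Finset ℤ) q < q := by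
  by_cases h3 : 3 ≤ q
  · exact rho_one h q h3
  · have hq2 : q = 2 := by
      have := hq.two_le
      omega
    subst hq2
    unfold Pool.Agent.Y840.CT.rho
    have : (insert 0 ({h} : Finset ℤ)).image (fun h : ℤ => h % ((2 : ℕ) : ℤ)) ⊆ {0} := by
      intro a ha
      rw [mem_image] at ha
      obtain ⟨b, hb, rfl⟩ := ha
      rw [mem_insert, mem_singleton] at hb
      rw [mem_singleton]
      rcases hb with rfl | rfl
      · simp
      · exact_mod_cast Int.even_iff.1 hh
    exact lt_of_le_of_lt (card_le_card this) (by simp)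

/-- Chen's theorem: many primes `p ≤ X` with `h - p` a product of at most two primes in absolute value -/
theorem chen_cnt : ∃ c : ℝ, 0 < c ∧ ∃ X0 : ℕ, ∀ X : ℕ, X0 ≤ X → ∀ h : ℤ, h ≠ 0 → |h| ≤ X → Even h →
    c * X / Real.log X ^ 2 ≤ (((Ioc 0 X).filter (fun p : ℕ => p.Prime ∧ h - p ≠ 0 ∧ (h - p).natAbs.primeFactorsList.length ≤ 2)).card : ℝ) := by
  obtain ⟨t, ht, c, hc, H1, _⟩ := Pool.Agent.Y840.CT.genF 1
  obtain ⟨c1, hc1, hV⟩ := Pool.Agent.Y840.CT.VF_low 1
  obtain ⟨X0, hX0⟩ := H1 1 one_pos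
  refine ⟨c * c1, by positivity, max X0 2, fun X hX h h0 hhX hev => ?_⟩
  have b1 : X0 ≤ X := (le_max_left _ _).trans hX
  have b2 : 2 ≤ X := (le_max_right _ _).trans hX
  have hS : Pool.Agent.Y840.CT.SysF 1 X (fun _ => {h}) h := by
    refine ⟨fun q _ => by simp, h0, hhX, fun q _ => mem_singleton_self _, fun q hq => rho_even h hev q hq⟩
  have k1 := hX0 X b1 (fun _ => {h}) h hS 0 X le_rfl (by simp)
  have k2 := hV X b2 (fun _ => {h}) (fun q _ => by simp) (fun q hq => rho_even h hev q hq)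
  have hlX : 0 < Real.log X := Real.log_pos (by exact_mod_cast (by omega : 1 < X))
  have h1 : (Pool.Agent.Y840.CT.GoodF t X 0 X (fun _ => {h}) h).card ≤
      ((Ioc 0 X).filter (fun p : ℕ => p.Prime ∧ h - p ≠ 0 ∧ (h - p).natAbs.primeFactorsList.length ≤ 2)).card := by
    classical
    apply card_le_card
    intro p hp
    unfold Pool.Agent.Y840.CT.GoodF at hp
    rw [mem_filter] at hp ⊢
    exact ⟨hp.1, hp.2.1, hp.2.2.2.1.1, hp.2.2.2.1.2.1⟩
  calc c * c1 * X / Real.log X ^ 2 = c * ((X : ℝ) - (0 : ℕ)) * (c1 / Real.log X ^ (1 + 1)) := by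
        push_cast
        ring
    _ ≤ c * ((X : ℝ) - (0 : ℕ)) * Pool.Agent.Y840.CT.VF (fun _ => {h}) X := by
        apply mul_le_mul_of_nonneg_left k2
        have : (0 : ℝ) ≤ X := Nat.cast_nonneg X
        push_cast
        have : (0 : ℝ) ≤ c * X := by positivity
        linarith
    _ ≤ _ := k1
    _ ≤ _ := by exact_mod_cast h1

end Pool.Agent.Y877.SX
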