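import Mathlib
import Pool.Agent.H362R2.QT.Stubs
import Pool.Agent.H362R2.QT.SMa
import Pool.Agent.H362R2.QT.SM

/-! Few configurations fail in a residue class (helper877; from SM.lean of helper362). -/

set_option autoImplicit false

namespace Pool.Agent.Y877.RO

open Finset Filter Topology
open Pool.Agent.H378R2 Pool.Agent.H387R2 Pool.Agent.H387R2.MB Pool.Agent.H362R2.QT

open Classical in
/-- the failing configurations -/
noncomputable def FailS (m K' k : ℕ) (κ : ℝ) (N y b : ℕ) (S : Finset ℕ) :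
    Finset (Fin (4 * m) × Fin K' → ℕ) :=
  (Fintype.piFinset (fun _ => S)).filter (fun A => Function.Injective A ∧
    ¬ ∃ (S' : Finset (Fin (4 * m))) (c : Fin (4 * m) → Fin K'), m ≤ S'.card ∧
          ∀ U ⊆ S'.image (fun i => A (i, c i)), U.card = k + 1 → GoodT κ k N y b U)

open Classical in
/-- few configurations fail -/
theorem fail_small (k m K' : ℕ) (hm1 : 1 ≤ m) (hkm : k + 1 ≤ 4 * m) (hK' : 1 ≤ K') (δ c0 : ℝ) (hδ : 0 < δ)
    (hc0 : 0 < c0)
    (hlow : ∀ C : ℝ, ∀ᶠ N : ℕ in atTop, LowC m K' δ c0 N ⌊Real.log N ^ C⌋₊ ⌊Real.log (Real.log N)⌋₊)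
    (δ' lam : ℝ) (hδ' : 0 < δ') (hlam : 0 < lam) : ∃ κ : ℝ, 0 < κ ∧ ∀ C : ℝ,
    ∀ᶠ N : ℕ in atTop, ∀ (b : ℕ) (S : Finset ℕ), (∀ a ∈ S, a ≤ ⌊Real.log N ^ C⌋₊) →
      (∀ a ∈ S, Nat.Coprime (Uni.WW ⌊Real.log (Real.log N)⌋₊) (b + a)) →
      lam * rho ⌊Real.log (Real.log N)⌋₊ * Real.log N ≤ S.card →
      ((FailS m K' k κ N ⌊Real.log (Real.log N)⌋₊ b S).card : ℝ) ≤ δ' * (S.card : ℝ) ^ (4 * m * K') := by
  have hKr : k + 1 ≤ 4 * m * K' := hkm.trans (Nat.le_mul_of_pos_right _ hK')
  set J := 4 * m * K' - (k + 1) with hJ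
  obtain ⟨C1, hC1, hupp1⟩ := upp_eventually (k + 1) hδ
  obtain ⟨C2, hC2, hupp2⟩ := upp_eventually (k + 1 + 2 * J) hδ
  set D := Dc (k + 1) J * (C1 / lam ^ (2 * J) + C2) with hD
  have hD0 : 0 ≤ D := by
    have : 0 ≤ Dc (k + 1) J := by unfold Dc; positivity
    positivity
  have hKpos : (0:ℝ) < ((4 * m * K' : ℕ) : ℝ) := by exact_mod_cast (by omega : 0 < 4 * m * K')
  set κ0 : ℝ := 2 * c0 * δ' / ((1 + D) * ((4 * m * K' : ℕ) : ℝ) ^ (k + 1)) with hκ0
  have hκ : 0 < κ0 := by positivity
  refine ⟨κ0 ^ 2, by positivity, fun C => ?_⟩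
  have tN : Tendsto (fun N : ℕ => (N : ℝ)) atTop atTop := tendsto_natCast_atTop_atTop
  have tL : Tendsto (fun N : ℕ => Real.log (N : ℝ)) atTop atTop := Real.tendsto_log_atTop.comp tN
  have tX : Tendsto (fun N : ℕ => (N : ℝ) / 4) atTop atTop := tN.atTop_div_const (by norm_num)
  filter_upwards [hlow C, hupp1 C, hupp2 C, (LL_tendsto.comp tX).eventually_ge_atTop 1, tX.eventually MPhi_big,
    tX.eventually_ge_atTop 4, tL.eventually_gt_atTop 0] with N h1 h2 h3 h4 h5 h6 h8
  set X := (N:ℝ) / 4 with hX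
  set y := ⌊Real.log (Real.log (N:ℝ))⌋₊ with hy
  have hL0 : 0 < LL X := by
    have : 1 ≤ LL X := h4
    linarith
  have hρ := rho_pos y
  have hMP : 0 < MPhi X := lt_of_lt_of_le (by positivity) h5
  intro b S hSM hSc hScard
  set g := LL X * rho y with hg
  have hg0 : 0 < g := by positivity
  have hW0 : (0:ℝ) < (Uni.WW y : ℝ) := by exact_mod_cast Uni.WW_pos y
  have hU : 0 < UU (k + 1) X y := by unfold UU; positivity
  have hsg : lam * g ≤ S.card := by
    refine le_trans ?_ hScard
    have : LL X ≤ Real.log N := by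
      unfold LL
      have e1 : Real.log X ≤ Real.log N := Real.log_le_log (by linarith) (by
        have : (0:ℝ) ≤ N := Nat.cast_nonneg N
        rw [hX]; linarith)
      linarith
    calc lam * g = lam * rho y * LL X := by rw [hg]; ring
      _ ≤ _ := mul_le_mul_of_nonneg_left this (by positivity)
  have hcardI : Fintype.card (Fin (4 * m) × Fin K') = k + 1 + J := by
    rw [Fintype.card_prod, Fintype.card_fin, Fintype.card_fin]
    omega
  have hbound := absSM (ι := Fin (4 * m) × Fin K') (Icc 1 ⌊3 * X⌋₊) (fun n => nu X (Uni.WW y) b n)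
    (fun n => nu_nonneg X _ b n) (fun n a => Rg δ X (n + a)) (fun n a => (n + a).Prime) S (k + 1) J hcardI
    (UU (k + 1) X y) g c0 C1 C2 lam κ0 hU hg0 hC1.le hC2.le hlam hsg hκ
    (fun T hT hTr => h2 b T hTr (fun a ha => hSM a (hT ha)))
    (fun R hR hRr => by
      have := h3 b R hRr (fun a ha => hSM a (hR ha))
      rw [UU_add] at this
      exact this)
    (FailS m K' k (κ0 ^ 2) N y b S) (by
      intro A hA
      unfold FailS at hA
      rw [mem_filter, Fintype.mem_piFinset] at hA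
      obtain ⟨hAS, hAinj, hAn⟩ := hA
      refine ⟨hAS, ?_⟩
      have hl := h1 b A hAinj (fun x => hSM _ (hAS x)) (fun x => hSc _ (hAS x))
      have e1 : UU (4 * m * K') X y = UU (k + 1) X y / g ^ J := by
        rw [← UU_add]
        congr 1
        omega
      rw [e1] at hl
      refine hl.trans (sum_le_sum fun n _ => ?_)
      apply mul_le_mul_of_nonneg_left _ (nu_nonneg X _ b n)
      by_cases hc : (m ≤ ((univ : Finset (Fin (4 * m))).filter (fun g => ∃ j, (n + A (g, j)).Prime)).card) ∧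
        (∀ x, Rg δ X (n + A x))
      · rw [if_pos hc, if_pos]
        refine ⟨?_, hc.2⟩
        set S' := (univ : Finset (Fin (4 * m))).filter (fun g => ∃ j, (n + A (g, j)).Prime) with hS'
        have hne : Nonempty (Fin K') := ⟨⟨0, hK'⟩⟩
        have hch : ∀ g : Fin (4 * m), ∃ j : Fin K', g ∈ S' → (n + A (g, j)).Prime := by
          intro g
          by_cases hgS : g ∈ S'
          · have := hgS
            rw [hS', mem_filter] at this
            obtain ⟨j, hj⟩ := this.2
            exact ⟨j, fun _ => hj⟩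
          · exact ⟨Classical.arbitrary _, fun h => absurd h hgS⟩
        choose c hc' using hch
        have hn : ¬ ∀ U ⊆ S'.image (fun i => A (i, c i)), U.card = k + 1 → GoodT (κ0 ^ 2) k N y b U :=
          fun h => hAn ⟨S', c, hc.1, h⟩
        push Not at hn
        obtain ⟨U, hU1, hU2, hU3⟩ := hn
        refine ⟨U, fun a ha => ?_, hU2, ?_, ?_⟩
        · have := hU1 ha
          rw [mem_image] at this
          obtain ⟨i, _, hi⟩ := this
          rw [← hi]
          exact mem_image_of_mem _ (mem_univ _)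
        · unfold GoodT at hU3
          rw [not_le] at hU3
          refine lt_of_le_of_lt (le_of_eq (sum_congr rfl fun n' _ => congrArg _ ?_)) hU3
          by_cases h9 : ∀ t ∈ U, (n' + t).Prime
          · rw [if_pos h9, if_pos h9]
          · rw [if_neg h9, if_neg h9]
        · intro t ht
          have := hU1 ht
          rw [mem_image] at this
          obtain ⟨i, hi1, hi⟩ := this
          rw [← hi]
          exact hc' i hi1
      · rw [if_neg hc]
        split_ifs <;> norm_num)
  rw [← hD] at hbound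
  have e2 : κ0 * ((1 + D) / 2) * ((Fintype.card (Fin (4 * m) × Fin K') : ℝ) ^ (k + 1) * (S.card : ℝ) ^ (k + 1 + J)) =
      c0 * (δ' * (S.card : ℝ) ^ (4 * m * K')) := by
    have e3 : k + 1 + J = 4 * m * K' := by omega
    rw [hcardI, e3, hκ0]
    field_simp
  rw [e2] at hbound
  exact le_of_mul_le_mul_left hbound hc0

end Pool.Agent.Y877.RO
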