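import Mathlib
import Pool.Agent.Y877.RoA
import Pool.Agent.H362R2.QT.FIN

/-! Double counting over the residue classes (helper877). -/

set_option autoImplicit false

namespace Pool.Agent.Y877.RO

open Finset Filter Topology
open Pool.Agent.H378R2 Pool.Agent.H387R2 Pool.Agent.H387R2.MB Pool.Agent.H362R2.QT

open Classical in
/-- the admissible shifts in the class `b` -/
noncomputable def Sb (y : ℕ) (V : Finset ℕ) (b : ℕ) : Finset ℕ :=
  V.filter (fun a => Nat.Coprime (Uni.WW y) (b + a))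

open Classical in
theorem sum_conf (y : ℕ) {ι : Type} [Fintype ι] [DecidableEq ι] (Ac : Finset (ι → ℕ)) :
    ∑ A ∈ Ac, (Uni.gT (Uni.WW y) (univ.image A) : ℝ) =
      ∑ b ∈ range (Uni.WW y), ((Ac.filter (fun A => ∀ x, Nat.Coprime (Uni.WW y) (b + A x))).card : ℝ) := by
  have h1 : ∀ A ∈ Ac, (Uni.gT (Uni.WW y) (univ.image A) : ℝ) =
      ∑ b ∈ range (Uni.WW y), (if ∀ x, Nat.Coprime (Uni.WW y) (b + A x) then (1 : ℝ) else 0) := by
    intro A _
    unfold Uni.gT
    rw [card_filter]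
    push_cast
    refine sum_congr rfl fun b _ => ?_
    congr 1
    simp only [mem_image, mem_univ, true_and, forall_exists_index, forall_apply_eq_imp_iff]
  rw [sum_congr rfl h1, sum_comm]
  refine sum_congr rfl fun b _ => ?_
  rw [card_filter]
  push_cast
  rfl

open Classical in
/-- **The double counting.** -/
theorem classArg (k m K' N y : ℕ) (hm1 : 1 ≤ m) (hkm : k + 1 ≤ 4 * m) (hK' : 1 ≤ K')
    (κ' κ δ' a s B : ℝ) (hκ' : 0 < κ') (hκ : 0 ≤ κ) (hδ' : 0 ≤ δ') (ha : 0 ≤ a) (hs : 0 ≤ s)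
    (V : Finset ℕ) (Ac : Finset (Fin (4 * m) × Fin K' → ℕ)) (Xc : Finset (Finset ℕ))
    (hAV : ∀ A ∈ Ac, ∀ x, A x ∈ V) (hinj : ∀ A ∈ Ac, Function.Injective A)
    (hline : ∀ A ∈ Ac, ∀ S' : Finset (Fin (4 * m)), m ≤ S'.card → ∀ c : Fin (4 * m) → Fin K',
      ∃ X ∈ Xc, X ⊆ S'.image (fun i => A (i, c i)))
    (hXc : ∀ X ∈ Xc, X.card = k + 1 ∧ X ⊆ V ∧ κ' * nG κ' k N y X ≤ 2 * κ * Uni.gT (Uni.WW y) X)
    (hS : ∀ b, ((Sb y V b).card : ℝ) ≤ s)
    (hB : (((range (Uni.WW y)).filter (fun b => (Sb y V b).Nonempty)).card : ℝ) ≤ B)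
    (hSM : ∀ b, a ≤ ((Sb y V b).card : ℝ) →
      ((FailS m K' k κ' N y b (Sb y V b)).card : ℝ) ≤ δ' * ((Sb y V b).card : ℝ) ^ (4 * m * K')) :
    ∑ A ∈ Ac, (Uni.gT (Uni.WW y) (univ.image A) : ℝ) ≤
      B * (a ^ (4 * m * K') + δ' * s ^ (4 * m * K') +
        2 * κ / κ' * (((4 * m * K' : ℕ) : ℝ) ^ (k + 1) * s ^ (4 * m * K'))) := by
  have hKr : k + 1 ≤ 4 * m * K' := hkm.trans (Nat.le_mul_of_pos_right _ hK')
  obtain ⟨n, hn⟩ : ∃ n, n = 4 * m * K' := ⟨_, rfl⟩
  have hcI : Fintype.card (Fin (4 * m) × Fin K') = n := by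
    rw [Fintype.card_prod, Fintype.card_fin, Fintype.card_fin, hn]
  rw [← hn]
  have hι : Nonempty (Fin (4 * m) × Fin K') := ⟨(⟨0, by omega⟩, ⟨0, hK'⟩)⟩
  rw [sum_conf]
  obtain ⟨R, hR⟩ : ∃ R, R = (range (Uni.WW y)).filter (fun b => (Sb y V b).Nonempty) := ⟨_, rfl⟩
  rw [← hR] at hB
  obtain ⟨G, hG⟩ : ∃ G : ℕ → Finset (Finset ℕ), G = fun b => Xc.filter
    (fun X => (∀ t ∈ X, Nat.Coprime (Uni.WW y) (b + t)) ∧ GoodT κ' k N y b X) := ⟨_, rfl⟩
  have hsub : ∀ b, ∀ A ∈ Ac.filter (fun A => ∀ x, Nat.Coprime (Uni.WW y) (b + A x)),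
      A ∈ Fintype.piFinset (fun _ : Fin (4 * m) × Fin K' => Sb y V b) := by
    intro b A hA
    rw [mem_filter] at hA
    rw [Fintype.mem_piFinset]
    intro x
    unfold Sb
    rw [mem_filter]
    exact ⟨hAV A hA.1 x, hA.2 x⟩
  -- empty classes
  have h0 : ∑ b ∈ range (Uni.WW y), ((Ac.filter (fun A => ∀ x, Nat.Coprime (Uni.WW y) (b + A x))).card : ℝ) =
      ∑ b ∈ R, ((Ac.filter (fun A => ∀ x, Nat.Coprime (Uni.WW y) (b + A x))).card : ℝ) := by
    symm
    rw [hR]
    apply sum_subset (filter_subset _ _)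
    intro b hb hb2
    rw [mem_filter, not_and] at hb2
    have h1 := hb2 hb
    have h2 : Ac.filter (fun A => ∀ x, Nat.Coprime (Uni.WW y) (b + A x)) = ∅ := by
      rw [eq_empty_iff_forall_notMem]
      intro A hA
      have h3 := Fintype.mem_piFinset.1 (hsub b A hA) hι.some
      exact h1 ⟨_, h3⟩
    rw [h2, card_empty, Nat.cast_zero]
  rw [h0]
  -- one class
  have h1 : ∀ b ∈ R, ((Ac.filter (fun A => ∀ x, Nat.Coprime (Uni.WW y) (b + A x))).card : ℝ) ≤
      (a ^ n + δ' * s ^ n) + ((n : ℝ) ^ (k + 1) * s ^ (n - (k + 1))) * (G b).card := by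
    intro b _
    have hGn : 0 ≤ ((n : ℝ) ^ (k + 1) * s ^ (n - (k + 1))) * (G b).card := by positivity
    rcases lt_or_ge ((Sb y V b).card : ℝ) a with hlt | hge
    · have h2 : (Ac.filter (fun A => ∀ x, Nat.Coprime (Uni.WW y) (b + A x))).card ≤
          (Fintype.piFinset (fun _ : Fin (4 * m) × Fin K' => Sb y V b)).card := card_le_card (hsub b)
      rw [Fintype.card_piFinset, prod_const, card_univ, hcI] at h2
      have h3 : ((Ac.filter (fun A => ∀ x, Nat.Coprime (Uni.WW y) (b + A x))).card : ℝ) ≤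
          ((Sb y V b).card : ℝ) ^ n := by exact_mod_cast h2
      have h4 : ((Sb y V b).card : ℝ) ^ n ≤ a ^ n := pow_le_pow_left₀ (Nat.cast_nonneg _) hlt.le n
      have h5 : 0 ≤ δ' * s ^ n := by positivity
      linarith
    · have hcov : Ac.filter (fun A => ∀ x, Nat.Coprime (Uni.WW y) (b + A x)) ⊆
          FailS m K' k κ' N y b (Sb y V b) ∪ (G b).biUnion (fun X =>
            (Fintype.piFinset (fun _ : Fin (4 * m) × Fin K' => Sb y V b)).filter (fun A => X ⊆ univ.image A)) := by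
        intro A hA
        have hA1 := hsub b A hA
        have hAA := (mem_filter.1 hA).1
        have hAc := (mem_filter.1 hA).2
        rw [mem_union]
        by_cases hF : A ∈ FailS m K' k κ' N y b (Sb y V b)
        · exact Or.inl hF
        · right
          have h2 : ∃ (S' : Finset (Fin (4 * m))) (c : Fin (4 * m) → Fin K'), m ≤ S'.card ∧
              ∀ U ⊆ S'.image (fun i => A (i, c i)), U.card = k + 1 → GoodT κ' k N y b U := by
            by_contra hcon
            apply hF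
            unfold FailS
            rw [mem_filter]
            exact ⟨hA1, hinj A hAA, hcon⟩
          obtain ⟨S', c, hS', hgood⟩ := h2
          obtain ⟨X, hX, hXs⟩ := hline A hAA S' hS' c
          obtain ⟨hXk, hXV, _⟩ := hXc X hX
          have hXim : X ⊆ univ.image A := by
            intro t ht
            obtain ⟨i, _, hi⟩ := mem_image.1 (hXs ht)
            rw [← hi]
            exact mem_image_of_mem _ (mem_univ _)
          rw [mem_biUnion]
          refine ⟨X, ?_, mem_filter.2 ⟨hA1, hXim⟩⟩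
          rw [hG, mem_filter]
          refine ⟨hX, fun t ht => ?_, hgood X hXs hXk⟩
          obtain ⟨x, _, hx⟩ := mem_image.1 (hXim ht)
          rw [← hx]
          exact hAc x
      have h2 : (Ac.filter (fun A => ∀ x, Nat.Coprime (Uni.WW y) (b + A x))).card ≤
          (FailS m K' k κ' N y b (Sb y V b)).card + ∑ X ∈ G b, n ^ (k + 1) * (Sb y V b).card ^ (n - (k + 1)) := by
        refine (card_le_card hcov).trans ((card_union_le _ _).trans (Nat.add_le_add_left ?_ _))
        refine card_biUnion_le.trans (sum_le_sum fun X hX => ?_)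
        rw [hG, mem_filter] at hX
        have := card_through (I := Fin (4 * m) × Fin K') (Sb y V b) X (k + 1) (hXc X hX.1).1
        rw [hcI] at this
        convert this
      rw [sum_const, smul_eq_mul] at h2
      have h3 : ((Ac.filter (fun A => ∀ x, Nat.Coprime (Uni.WW y) (b + A x))).card : ℝ) ≤
          ((FailS m K' k κ' N y b (Sb y V b)).card : ℝ) + (G b).card * ((n : ℝ) ^ (k + 1) * ((Sb y V b).card : ℝ) ^ (n - (k + 1))) := by
        exact_mod_cast h2
      have h4 := hSM b hge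
      rw [← hn] at h4
      have h5 : ((Sb y V b).card : ℝ) ^ n ≤ s ^ n := pow_le_pow_left₀ (Nat.cast_nonneg _) (hS b) n
      have h6 : ((Sb y V b).card : ℝ) ^ (n - (k + 1)) ≤ s ^ (n - (k + 1)) :=
        pow_le_pow_left₀ (Nat.cast_nonneg _) (hS b) _
      have h7 : δ' * ((Sb y V b).card : ℝ) ^ n ≤ δ' * s ^ n := mul_le_mul_of_nonneg_left h5 hδ'
      have h8 : ((G b).card : ℝ) * ((n : ℝ) ^ (k + 1) * ((Sb y V b).card : ℝ) ^ (n - (k + 1))) ≤
          (G b).card * ((n : ℝ) ^ (k + 1) * s ^ (n - (k + 1))) := by gcongr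
      have h9 : 0 ≤ a ^ n := by positivity
      linarith
  -- the good tuples
  have h2 : ∑ b ∈ R, ((G b).card : ℝ) ≤ 2 * κ / κ' * (B * s ^ (k + 1)) := by
    have e1 : ∑ b ∈ R, ((G b).card : ℝ) ≤ ∑ X ∈ Xc, (nG κ' k N y X : ℝ) := by
      have e2 : ∑ b ∈ R, ((G b).card : ℝ) ≤ ∑ b ∈ range (Uni.WW y), ((G b).card : ℝ) := by
        rw [hR]
        exact sum_le_sum_of_subset_of_nonneg (filter_subset _ _) fun _ _ _ => Nat.cast_nonneg _
      refine e2.trans (le_of_eq ?_)
      have e3 : ∀ b ∈ range (Uni.WW y), ((G b).card : ℝ) = ∑ X ∈ Xc,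
          (if (∀ t ∈ X, Nat.Coprime (Uni.WW y) (b + t)) ∧ GoodT κ' k N y b X then (1 : ℝ) else 0) := by
        intro b _
        rw [hG, card_filter]
        push_cast
        rfl
      rw [sum_congr rfl e3, sum_comm]
      refine sum_congr rfl fun X _ => ?_
      unfold nG
      rw [card_filter]
      push_cast
      rfl
    have e4 : ∑ X ∈ Xc, (nG κ' k N y X : ℝ) ≤ 2 * κ / κ' * ∑ X ∈ Xc, (Uni.gT (Uni.WW y) X : ℝ) := by
      rw [mul_sum]
      refine sum_le_sum fun X hX => ?_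
      have h3 := (hXc X hX).2.2
      rw [div_mul_eq_mul_div, le_div_iff₀ hκ']
      linarith
    have e5 : ∑ X ∈ Xc, (Uni.gT (Uni.WW y) X : ℝ) ≤ B * s ^ (k + 1) := by
      have e6 : ∑ X ∈ Xc, (Uni.gT (Uni.WW y) X : ℝ) = ∑ b ∈ range (Uni.WW y),
          ((Xc.filter (fun X => ∀ t ∈ X, Nat.Coprime (Uni.WW y) (b + t))).card : ℝ) := by
        have e7 : ∀ X ∈ Xc, (Uni.gT (Uni.WW y) X : ℝ) = ∑ b ∈ range (Uni.WW y),
            (if ∀ t ∈ X, Nat.Coprime (Uni.WW y) (b + t) then (1 : ℝ) else 0) := by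
          intro X _
          unfold Uni.gT
          rw [card_filter]
          push_cast
          rfl
        rw [sum_congr rfl e7, sum_comm]
        refine sum_congr rfl fun b _ => ?_
        rw [card_filter]
        push_cast
        rfl
      rw [e6]
      have e8 : ∀ b, Xc.filter (fun X => ∀ t ∈ X, Nat.Coprime (Uni.WW y) (b + t)) ⊆
          (Sb y V b).powersetCard (k + 1) := by
        intro b X hX
        rw [mem_filter] at hX
        obtain ⟨h3, h4, _⟩ := hXc X hX.1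
        rw [mem_powersetCard]
        refine ⟨fun t ht => ?_, h3⟩
        unfold Sb
        rw [mem_filter]
        exact ⟨h4 ht, hX.2 t ht⟩
      have e9 : ∑ b ∈ range (Uni.WW y), ((Xc.filter (fun X => ∀ t ∈ X, Nat.Coprime (Uni.WW y) (b + t))).card : ℝ) =
          ∑ b ∈ R, ((Xc.filter (fun X => ∀ t ∈ X, Nat.Coprime (Uni.WW y) (b + t))).card : ℝ) := by
        symm
        rw [hR]
        apply sum_subset (filter_subset _ _)
        intro b hb hb2
        rw [mem_filter, not_and] at hb2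
        have h1 := hb2 hb
        rw [not_nonempty_iff_eq_empty] at h1
        have h2 : Xc.filter (fun X => ∀ t ∈ X, Nat.Coprime (Uni.WW y) (b + t)) = ∅ := by
          rw [eq_empty_iff_forall_notMem]
          intro X hX
          have h3 := e8 b hX
          rw [h1, mem_powersetCard, subset_empty] at h3
          have := h3.2
          rw [h3.1, card_empty] at this
          omega
        rw [h2, card_empty, Nat.cast_zero]
      rw [e9]
      calc ∑ b ∈ R, ((Xc.filter (fun X => ∀ t ∈ X, Nat.Coprime (Uni.WW y) (b + t))).card : ℝ) ≤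
          ∑ _b ∈ R, s ^ (k + 1) := by
            refine sum_le_sum fun b _ => ?_
            have h3 := card_le_card (e8 b)
            rw [card_powersetCard] at h3
            have h4 : ((Xc.filter (fun X => ∀ t ∈ X, Nat.Coprime (Uni.WW y) (b + t))).card : ℝ) ≤
              ((Sb y V b).card : ℝ) ^ (k + 1) := by
              exact_mod_cast h3.trans (Nat.choose_le_pow _ _)
            exact h4.trans (pow_le_pow_left₀ (Nat.cast_nonneg _) (hS b) _)
        _ = (R.card : ℝ) * s ^ (k + 1) := by rw [sum_const, nsmul_eq_mul]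
        _ ≤ _ := mul_le_mul_of_nonneg_right hB (by positivity)
    refine e1.trans (e4.trans ?_)
    exact mul_le_mul_of_nonneg_left e5 (by positivity)
  calc ∑ b ∈ R, ((Ac.filter (fun A => ∀ x, Nat.Coprime (Uni.WW y) (b + A x))).card : ℝ) ≤
      ∑ b ∈ R, ((a ^ n + δ' * s ^ n) + ((n : ℝ) ^ (k + 1) * s ^ (n - (k + 1))) * (G b).card) := sum_le_sum h1
    _ = (R.card : ℝ) * (a ^ n + δ' * s ^ n) + ((n : ℝ) ^ (k + 1) * s ^ (n - (k + 1))) * ∑ b ∈ R, ((G b).card : ℝ) := by
        rw [sum_add_distrib, sum_const, nsmul_eq_mul, mul_sum]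
    _ ≤ B * (a ^ n + δ' * s ^ n) + ((n : ℝ) ^ (k + 1) * s ^ (n - (k + 1))) * (2 * κ / κ' * (B * s ^ (k + 1))) := by
        gcongr
    _ = B * (a ^ n + δ' * s ^ n + 2 * κ / κ' * ((n : ℝ) ^ (k + 1) * (s ^ (n - (k + 1)) * s ^ (k + 1)))) := by ring
    _ = _ := by
        rw [← pow_add, Nat.sub_add_cancel (hn ▸ hKr)]

end Pool.Agent.Y877.RO
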