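import Mathlib
import Pool.Agent.Y877.RoD

/-! The double counting over the residue classes for a general notion of good sets (helper877). -/

set_option autoImplicit false

namespace Pool.Agent.Y877.RO

open Finset Filter Topology
open Pool.Agent.H378R2 Pool.Agent.H387R2 Pool.Agent.H387R2.MB Pool.Agent.H362R2.QT

open Classical in
/-- the number of the classes in which a set is good -/
noncomputable def nGG (GG : ℕ → Finset ℕ → Prop) (y : ℕ) (T : Finset ℕ) : ℕ :=
  ((range (Uni.WW y)).filter (fun b => (∀ t ∈ T, Nat.Coprime (Uni.WW y) (b + t)) ∧ GG b T)).card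

open Classical in
/-- **The double counting**, for a general notion of good sets. -/
theorem classArg2 {ι : Type} [Fintype ι] [DecidableEq ι] [Nonempty ι] (k y : ℕ) (hkr : k + 1 ≤ Fintype.card ι)
    (κ' κ δ' a s : ℝ) (hκ' : 0 < κ') (hκ : 0 ≤ κ) (hδ' : 0 ≤ δ') (ha : 0 ≤ a) (hs : 0 ≤ s)
    (V : Finset ℕ) (Ac : Finset (ι → ℕ)) (Xc : Finset (Finset ℕ)) (GG : ℕ → Finset ℕ → Prop)
    (F : ℕ → Finset (ι → ℕ))
    (hAV : ∀ A ∈ Ac, ∀ x, A x ∈ V)
    (hcov : ∀ b, ∀ A ∈ Ac, (∀ x, Nat.Coprime (Uni.WW y) (b + A x)) → a ≤ ((Sb y V b).card : ℝ) → A ∉ F b →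
      ∃ X ∈ Xc, X ⊆ univ.image A ∧ GG b X)
    (hXc : ∀ X ∈ Xc, X.card = k + 1 ∧ X ⊆ V ∧ κ' * nGG GG y X ≤ 2 * κ * Uni.gT (Uni.WW y) X)
    (hS : ∀ b, ((Sb y V b).card : ℝ) ≤ s)
    (hSM : ∀ b, a ≤ ((Sb y V b).card : ℝ) →
      ((F b).card : ℝ) ≤ δ' * ((Sb y V b).card : ℝ) ^ (Fintype.card ι)) :
    ∑ A ∈ Ac, (Uni.gT (Uni.WW y) (univ.image A) : ℝ) ≤
      Uni.WW y * (a ^ (Fintype.card ι) + δ' * s ^ (Fintype.card ι) +
        2 * κ / κ' * ((Fintype.card ι : ℝ) ^ (k + 1) * s ^ (Fintype.card ι))) := by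
  obtain ⟨n, hn⟩ : ∃ n, n = Fintype.card ι := ⟨_, rfl⟩
  rw [← hn] at hkr ⊢
  rw [sum_conf]
  obtain ⟨R, hR⟩ : ∃ R, R = range (Uni.WW y) := ⟨_, rfl⟩
  have hRc : (R.card : ℝ) = Uni.WW y := by rw [hR, card_range]
  rw [← hR]
  obtain ⟨G, hG⟩ : ∃ G : ℕ → Finset (Finset ℕ), G = fun b => Xc.filter
    (fun X => (∀ t ∈ X, Nat.Coprime (Uni.WW y) (b + t)) ∧ GG b X) := ⟨_, rfl⟩
  have hsub : ∀ b, ∀ A ∈ Ac.filter (fun A => ∀ x, Nat.Coprime (Uni.WW y) (b + A x)),
      A ∈ Fintype.piFinset (fun _ : ι => Sb y V b) := by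
    intro b A hA
    rw [mem_filter] at hA
    rw [Fintype.mem_piFinset]
    intro x
    unfold Sb
    rw [mem_filter]
    exact ⟨hAV A hA.1 x, hA.2 x⟩
  -- one class
  have h1 : ∀ b ∈ R, ((Ac.filter (fun A => ∀ x, Nat.Coprime (Uni.WW y) (b + A x))).card : ℝ) ≤
      (a ^ n + δ' * s ^ n) + ((n : ℝ) ^ (k + 1) * s ^ (n - (k + 1))) * (G b).card := by
    intro b _
    have hGn : 0 ≤ ((n : ℝ) ^ (k + 1) * s ^ (n - (k + 1))) * (G b).card := by positivity
    rcases lt_or_ge ((Sb y V b).card : ℝ) a with hlt | hge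
    · have h2 : (Ac.filter (fun A => ∀ x, Nat.Coprime (Uni.WW y) (b + A x))).card ≤
          (Fintype.piFinset (fun _ : ι => Sb y V b)).card := card_le_card (hsub b)
      rw [Fintype.card_piFinset, prod_const, card_univ, ← hn] at h2
      have h3 : ((Ac.filter (fun A => ∀ x, Nat.Coprime (Uni.WW y) (b + A x))).card : ℝ) ≤
          ((Sb y V b).card : ℝ) ^ n := by exact_mod_cast h2
      have h4 : ((Sb y V b).card : ℝ) ^ n ≤ a ^ n := pow_le_pow_left₀ (Nat.cast_nonneg _) hlt.le n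
      have h5 : 0 ≤ δ' * s ^ n := by positivity
      linarith
    · have hcv : Ac.filter (fun A => ∀ x, Nat.Coprime (Uni.WW y) (b + A x)) ⊆
          F b ∪ (G b).biUnion (fun X =>
            (Fintype.piFinset (fun _ : ι => Sb y V b)).filter (fun A => X ⊆ univ.image A)) := by
        intro A hA
        have hA1 := hsub b A hA
        have hAA := (mem_filter.1 hA).1
        have hAc := (mem_filter.1 hA).2
        rw [mem_union]
        by_cases hF : A ∈ F b
        · exact Or.inl hF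
        · right
          obtain ⟨X, hX, hXim, hgood⟩ := hcov b A hAA hAc hge hF
          rw [mem_biUnion]
          refine ⟨X, ?_, mem_filter.2 ⟨hA1, hXim⟩⟩
          rw [hG, mem_filter]
          refine ⟨hX, fun t ht => ?_, hgood⟩
          obtain ⟨x, _, hx⟩ := mem_image.1 (hXim ht)
          rw [← hx]
          exact hAc x
      have h2 : (Ac.filter (fun A => ∀ x, Nat.Coprime (Uni.WW y) (b + A x))).card ≤
          (F b).card + ∑ X ∈ G b, n ^ (k + 1) * (Sb y V b).card ^ (n - (k + 1)) := by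
        refine (card_le_card hcv).trans ((card_union_le _ _).trans (Nat.add_le_add_left ?_ _))
        refine card_biUnion_le.trans (sum_le_sum fun X hX => ?_)
        rw [hG, mem_filter] at hX
        have := card_through (I := ι) (Sb y V b) X (k + 1) (hXc X hX.1).1
        rw [← hn] at this
        convert this
      rw [sum_const, smul_eq_mul] at h2
      have h3 : ((Ac.filter (fun A => ∀ x, Nat.Coprime (Uni.WW y) (b + A x))).card : ℝ) ≤
          ((F b).card : ℝ) + (G b).card * ((n : ℝ) ^ (k + 1) * ((Sb y V b).card : ℝ) ^ (n - (k + 1))) := by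
        exact_mod_cast h2
      have h4 := hSM b hge
      rw [← hn] at h4
      have h5 : ((Sb y V b).card : ℝ) ^ n ≤ s ^ n := pow_le_pow_left₀ (Nat.cast_nonneg _) (hS b) n
      have h6 : ((Sb y V b).card : ℝ) ^ (n - (k + 1)) ≤ s ^ (n - (k + 1)) :=
        pow_le_pow_left₀ (Nat.cast_nonneg _) (hS b) _
      have h7 : δ' * ((Sb y V b).card : ℝ) ^ n ≤ δ' * s ^ n := mul_le_mul_of_nonneg_left h5 hδ'
      have h8 : ((G b).card : ℝ) * ((n : ℝ) ^ (k + 1) * ((Sb y V b).card : ℝ) ^ (n - (k + 1))) ≤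
          (G b).card * ((n : ℝ) ^ (k + 1) * s ^ (n - (k + 1))) := by gcongr
      have h9 : 0 ≤ a ^ n := by positivity
      linarith
  -- the good tuples
  have h2 : ∑ b ∈ R, ((G b).card : ℝ) ≤ 2 * κ / κ' * (Uni.WW y * s ^ (k + 1)) := by
    have e1 : ∑ b ∈ R, ((G b).card : ℝ) ≤ ∑ X ∈ Xc, (nGG GG y X : ℝ) := by
      apply le_of_eq
      have e3 : ∀ b ∈ R, ((G b).card : ℝ) = ∑ X ∈ Xc,
          (if (∀ t ∈ X, Nat.Coprime (Uni.WW y) (b + t)) ∧ GG b X then (1 : ℝ) else 0) := by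
        intro b _
        rw [hG, card_filter]
        push_cast
        rfl
      rw [sum_congr rfl e3, sum_comm]
      refine sum_congr rfl fun X _ => ?_
      unfold nGG
      rw [card_filter, hR]
      push_cast
      rfl
    have e4 : ∑ X ∈ Xc, (nGG GG y X : ℝ) ≤ 2 * κ / κ' * ∑ X ∈ Xc, (Uni.gT (Uni.WW y) X : ℝ) := by
      rw [mul_sum]
      refine sum_le_sum fun X hX => ?_
      have h3 := (hXc X hX).2.2
      rw [div_mul_eq_mul_div, le_div_iff₀ hκ']
      linarith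
    have e5 : ∑ X ∈ Xc, (Uni.gT (Uni.WW y) X : ℝ) ≤ Uni.WW y * s ^ (k + 1) := by
      have e6 : ∑ X ∈ Xc, (Uni.gT (Uni.WW y) X : ℝ) = ∑ b ∈ range (Uni.WW y),
          ((Xc.filter (fun X => ∀ t ∈ X, Nat.Coprime (Uni.WW y) (b + t))).card : ℝ) := by
        have e7 : ∀ X ∈ Xc, (Uni.gT (Uni.WW y) X : ℝ) = ∑ b ∈ range (Uni.WW y),
            (if ∀ t ∈ X, Nat.Coprime (Uni.WW y) (b + t) then (1 : ℝ) else 0) := by
          intro X _
          unfold Uni.gT
          rw [card_filter]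
          push_cast
          rfl
        rw [sum_congr rfl e7, sum_comm]
        refine sum_congr rfl fun b _ => ?_
        rw [card_filter]
        push_cast
        rfl
      rw [e6, ← hR]
      have e8 : ∀ b, Xc.filter (fun X => ∀ t ∈ X, Nat.Coprime (Uni.WW y) (b + t)) ⊆
          (Sb y V b).powersetCard (k + 1) := by
        intro b X hX
        rw [mem_filter] at hX
        obtain ⟨h3, h4, _⟩ := hXc X hX.1
        rw [mem_powersetCard]
        refine ⟨fun t ht => ?_, h3⟩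
        unfold Sb
        rw [mem_filter]
        exact ⟨h4 ht, hX.2 t ht⟩
      calc ∑ b ∈ R, ((Xc.filter (fun X => ∀ t ∈ X, Nat.Coprime (Uni.WW y) (b + t))).card : ℝ) ≤
          ∑ _b ∈ R, s ^ (k + 1) := by
            refine sum_le_sum fun b _ => ?_
            have h3 := card_le_card (e8 b)
            rw [card_powersetCard] at h3
            have h4 : ((Xc.filter (fun X => ∀ t ∈ X, Nat.Coprime (Uni.WW y) (b + t))).card : ℝ) ≤
              ((Sb y V b).card : ℝ) ^ (k + 1) := by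
              exact_mod_cast h3.trans (Nat.choose_le_pow _ _)
            exact h4.trans (pow_le_pow_left₀ (Nat.cast_nonneg _) (hS b) _)
        _ = _ := by rw [sum_const, nsmul_eq_mul, hRc]
    refine e1.trans (e4.trans ?_)
    exact mul_le_mul_of_nonneg_left e5 (by positivity)
  calc ∑ b ∈ R, ((Ac.filter (fun A => ∀ x, Nat.Coprime (Uni.WW y) (b + A x))).card : ℝ) ≤
      ∑ b ∈ R, ((a ^ n + δ' * s ^ n) + ((n : ℝ) ^ (k + 1) * s ^ (n - (k + 1))) * (G b).card) := sum_le_sum h1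
    _ = (R.card : ℝ) * (a ^ n + δ' * s ^ n) + ((n : ℝ) ^ (k + 1) * s ^ (n - (k + 1))) * ∑ b ∈ R, ((G b).card : ℝ) := by
        rw [sum_add_distrib, sum_const, nsmul_eq_mul, mul_sum]
    _ ≤ Uni.WW y * (a ^ n + δ' * s ^ n) +
        ((n : ℝ) ^ (k + 1) * s ^ (n - (k + 1))) * (2 * κ / κ' * (Uni.WW y * s ^ (k + 1))) := by
        rw [hRc]
        gcongr
    _ = Uni.WW y * (a ^ n + δ' * s ^ n + 2 * κ / κ' * ((n : ℝ) ^ (k + 1) * (s ^ (n - (k + 1)) * s ^ (k + 1)))) := by ring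
    _ = _ := by
        rw [← pow_add, Nat.sub_add_cancel hkr]

end Pool.Agent.Y877.RO
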