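import Mathlib
import Pool.Agent.H602R3.DHJ.Main
import Pool.Agent.TH899.UG.BoxP

/-! Homothetic copies in dense sets of multipliers: many tuples with all the differences in a dense
set (from the density Hales-Jewett theorem), and a blow-up (helper877). -/

set_option autoImplicit false

namespace Pool.Agent.Y877

open Finset Pool.Agent.H602R3.DHJ

open Classical in
/-- the number of the active coordinates -/
noncomputable def act {α : Type} {N : ℕ} (V : Fin N → α ⊕ Unit) : ℕ :=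
  (univ.filter (fun i => V i = Sum.inr ())).card

theorem act_pos {α : Type} {N : ℕ} (V : Fin N → α ⊕ Unit) (hV : Pr V) : 0 < act V := by
  classical
  obtain ⟨i, hi⟩ := hV ()
  unfold act
  rw [card_pos]
  exact ⟨i, mem_filter.2 ⟨mem_univ _, hi⟩⟩

theorem act_le {α : Type} {N : ℕ} (V : Fin N → α ⊕ Unit) : act V ≤ N := by
  classical
  unfold act
  exact (card_le_univ _).trans (by rw [Fintype.card_fin])

open Classical in
/-- sums along a line -/
theorem line_sum {α : Type} [Nonempty α] {N : ℕ} (V : Fin N → α ⊕ Unit) (g : α → ℤ) :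
    ∃ s : ℤ, ∀ a, ∑ i, g (ap V (fun _ => a) i) = s + act V * g a := by
  unfold act
  refine ⟨∑ i ∈ univ.filter (fun i => ¬ V i = Sum.inr ()), g (ap V (fun _ => Classical.arbitrary α) i),
    fun a => ?_⟩
  rw [← sum_filter_add_sum_filter_not univ (fun i => V i = Sum.inr ()), add_comm]
  congr 1
  · refine sum_congr rfl fun i hi => ?_
    have h := (mem_filter.1 hi).2
    congr 1
    unfold ap
    rcases hV : V i with b | u
    · rfl
    · exact absurd (by rw [hV]) h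
  · rw [← nsmul_eq_mul, ← sum_const]
    refine sum_congr rfl fun i hi => ?_
    have h := (mem_filter.1 hi).2
    congr 1
    unfold ap
    rw [h]
    rfl

theorem dhjT (α : Type) [Fintype α] [Nonempty α] : D α := by
  obtain ⟨k, hk⟩ : ∃ k, Fintype.card α = k + 1 := ⟨Fintype.card α - 1, by
    have := Fintype.card_pos (α := α)
    omega⟩
  exact D_equiv ((Fintype.equivFinOfCardEq hk).symm) (dhj k)

open Classical in
/-- many translates contain a line -/
theorem count_z {α : Type} [Fintype α] [Nonempty α] {N : ℕ} (ε : ℝ)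
    (hN : ∀ A : Set (Fin N → α), LFr A → dn A < ε / 8)
    (H : ℕ) (hH : 1 ≤ H) (u₀ : ℕ) (v : (Fin N → α) → ℤ) (hv : ∀ u, |v u| ≤ H) (B : Finset ℕ)
    (hB : B ⊆ Ioc u₀ (u₀ + H)) (hBc : ε * H ≤ B.card) (hε : 0 < ε) :
    ε / 2 * H ≤ (((Icc ((u₀ : ℤ) - H) (u₀ + 2 * H)).filter (fun z : ℤ =>
      ∃ V : Fin N → α ⊕ Unit, Pr V ∧ ∀ a, ∃ k ∈ B, z + v (ap V (fun _ => a)) = (k : ℤ))).card : ℝ) := by
  obtain ⟨Y, hY⟩ : ∃ Y, Y = Icc ((u₀ : ℤ) - H) (u₀ + 2 * H) := ⟨_, rfl⟩
  rw [← hY]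
  have hHr : (1 : ℝ) ≤ H := by exact_mod_cast hH
  have hYc : (Y.card : ℝ) ≤ 4 * H := by
    rw [hY, Int.card_Icc]
    have h1 : (((u₀ : ℤ) + 2 * H + 1 - (u₀ - H)).toNat : ℝ) = 3 * H + 1 := by
      have h2 : (((u₀ : ℤ) + 2 * H + 1 - (u₀ - H)).toNat : ℤ) = 3 * H + 1 := by
        rw [Int.toNat_of_nonneg (by omega)]
        ring
      exact_mod_cast h2
    rw [h1]; linarith
  have hcnt : ∀ u, (B.card : ℝ) ≤ ∑ z ∈ Y, (if ∃ k ∈ B, z + v u = (k : ℤ) then (1 : ℝ) else 0) := by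
    intro u
    rw [← sum_filter, sum_const, nsmul_eq_mul, mul_one, Nat.cast_le]
    apply card_le_card_of_injOn (fun b : ℕ => (b : ℤ) - v u)
    · intro b hb
      have hb1 := mem_Ioc.1 (hB (mem_coe.1 hb))
      have h2 := abs_le.1 (hv u)
      rw [mem_coe, mem_filter, hY, mem_Icc]
      refine ⟨⟨?_, ?_⟩, b, hb, by ring⟩
      · have h3 : (u₀ : ℤ) < b := by exact_mod_cast hb1.1
        show (u₀ : ℤ) - H ≤ b - v u
        linarith [h2.2]
      · have h3 : (b : ℤ) ≤ u₀ + H := by exact_mod_cast hb1.2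
        show (b : ℤ) - v u ≤ u₀ + 2 * H
        linarith [h2.1]
    · intro b _ b' _ h
      have h1 : (b : ℤ) - v u = b' - v u := h
      have h2 : (b : ℤ) = b' := by linarith
      exact_mod_cast h2
  obtain ⟨W, hW⟩ : ∃ W : ℤ → Set (Fin N → α), W = fun z => {u | ∃ k ∈ B, z + v u = (k : ℤ)} :=
    ⟨_, rfl⟩
  have hTpos : (0 : ℝ) < Fintype.card (Fin N → α) := by exact_mod_cast Fintype.card_pos
  have hdn : ∀ z, dn (W z) = (∑ u, (if ∃ k ∈ B, z + v u = (k : ℤ) then (1 : ℝ) else 0)) /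
      Fintype.card (Fin N → α) := by
    intro z
    unfold dn av
    congr 1
    refine sum_congr rfl fun u _ => ?_
    rw [Set.indicator_apply]
    exact if_congr (by rw [hW]; exact Iff.rfl) rfl rfl
  have hdn1 : ∀ z, dn (W z) ≤ 1 := fun z => dn_le_one _
  have hsum : ε * H ≤ ∑ z ∈ Y, dn (W z) := by
    simp_rw [hdn]
    rw [← sum_div, sum_comm, le_div_iff₀ hTpos]
    have h1 : ∑ _u : Fin N → α, (B.card : ℝ) ≤
        ∑ u, ∑ z ∈ Y, (if ∃ k ∈ B, z + v u = (k : ℤ) then (1 : ℝ) else 0) :=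
      sum_le_sum fun u _ => hcnt u
    rw [sum_const, card_univ, nsmul_eq_mul] at h1
    calc ε * H * (Fintype.card (Fin N → α) : ℝ)
        ≤ B.card * (Fintype.card (Fin N → α) : ℝ) := mul_le_mul_of_nonneg_right hBc hTpos.le
      _ = (Fintype.card (Fin N → α) : ℝ) * B.card := mul_comm _ _
      _ ≤ _ := h1
  obtain ⟨Gd, hG⟩ : ∃ Gd : Finset ℤ, Gd = Y.filter (fun z => ε / 8 ≤ dn (W z)) := ⟨_, rfl⟩
  have hGc : ε / 2 * H ≤ Gd.card := by
    have h1 : ∑ z ∈ Y, dn (W z) ≤ ∑ z ∈ Y, ((if ε / 8 ≤ dn (W z) then (1 : ℝ) else 0) + ε / 8) := by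
      refine sum_le_sum fun z _ => ?_
      split_ifs with h0
      · have := hdn1 z
        linarith
      · push Not at h0
        linarith
    rw [sum_add_distrib, ← sum_filter, sum_const, sum_const, nsmul_eq_mul, nsmul_eq_mul, mul_one,
      ← hG] at h1
    have h2 : (Y.card : ℝ) * (ε / 8) ≤ 4 * H * (ε / 8) :=
      mul_le_mul_of_nonneg_right hYc (by positivity)
    linarith
  refine hGc.trans ?_
  rw [Nat.cast_le]
  apply card_le_card
  intro z hz
  rw [hG, mem_filter] at hz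
  refine mem_filter.2 ⟨hz.1, ?_⟩
  have hnl : ¬ LFr (W z) := fun hl => absurd (hN _ hl) (not_lt.2 hz.2)
  unfold LFr at hnl
  push Not at hnl
  obtain ⟨V, hV, hVW⟩ := hnl
  refine ⟨V, hV, fun a => ?_⟩
  have h1 := hVW a
  rw [hW] at h1
  exact h1

end Pool.Agent.Y877
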