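import Mathlib
import Pool.Agent.Y877.Comb

/-! Homothetic copies in dense sets of multipliers: many tuples (helper877). -/

set_option autoImplicit false

namespace Pool.Agent.Y877

open Finset Pool.Agent.H602R3.DHJ

/-- the tuples whose differences are multiples of the differences of `m` by members of `B` -/
def PB {T : ℕ} (B : Finset ℕ) (m : Fin T → ℕ) (D : ℕ) (x : Fin T → ℕ) : Prop :=
  (∀ g g', ∃ k ∈ B, (x g : ℤ) - x g' = ((m g : ℤ) - m g') * k) ∧
    ∃ k ∈ B, ∀ g, (D : ℤ) ∣ (x g : ℤ) - m g * k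

open Classical in
theorem combA (T : ℕ) (hT : 1 ≤ T) (m : Fin T → ℕ) (hm : Function.Injective m) (D : ℕ) (hD : 1 ≤ D)
    (ε : ℝ) (hε : 0 < ε) (hε1 : ε ≤ 1) : ∃ (C : ℕ) (κ : ℝ), 1 ≤ C ∧ 0 < κ ∧ κ ≤ 1 ∧
    ∀ H : ℕ, C ≤ H → ∀ u : ℕ, ∀ B : Finset ℕ, B ⊆ Ioc u (u + H) → ε * H ≤ B.card →
    κ * ∏ g : Fin T, ((Icc (u * m g) (u * m g + C * H)).card : ℝ) ≤
      (((Fintype.piFinset (fun g : Fin T => Icc (u * m g) (u * m g + C * H))).filter
        (fun x => PB B m D x)).card : ℝ) := by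
  have : Nonempty (Fin T) := ⟨⟨0, hT⟩⟩
  -- the multiplier
  obtain ⟨W, hW⟩ : ∃ W : ℕ, W = D * ∏ p ∈ (univ : Finset (Fin T)).offDiag,
    ((m p.1 : ℤ) - m p.2).natAbs := ⟨_, rfl⟩
  have hW0 : 0 < W := by
    rw [hW]
    refine Nat.mul_pos hD (prod_pos fun p hp => ?_)
    rw [mem_offDiag] at hp
    rw [Int.natAbs_pos, sub_ne_zero]
    intro h
    exact hp.2.2 (hm (by exact_mod_cast h))
  have hDW : D ∣ W := by rw [hW]; exact dvd_mul_right _ _
  have hw : ∀ p : Fin T × Fin T, ∃ w : ℤ, p.1 ≠ p.2 → ((m p.1 : ℤ) - m p.2) * w = W := by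
    intro p
    by_cases h : p.1 = p.2
    · exact ⟨0, fun h' => absurd h h'⟩
    · have h1 : ((m p.1 : ℤ) - m p.2).natAbs ∣ W := by
        rw [hW]
        have h2 := dvd_prod_of_mem (fun p : Fin T × Fin T => ((m p.1 : ℤ) - m p.2).natAbs)
          (mem_offDiag.2 ⟨mem_univ p.1, mem_univ p.2, h⟩)
        exact h2.trans (dvd_mul_left _ _)
      obtain ⟨w, hw⟩ := Int.natAbs_dvd.1 (Int.natCast_dvd_natCast.2 h1)
      exact ⟨w, fun _ => hw.symm⟩
  choose w hw using hw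
  obtain ⟨N, hN⟩ := dhjT (Fin T × Fin T) (ε / 8) (by positivity)
  obtain ⟨M, hM⟩ : ∃ M : ℕ, M = ∑ p, (w p).natAbs := ⟨_, rfl⟩
  have hwM : ∀ p, |w p| ≤ (M : ℤ) := by
    intro p
    rw [Int.abs_eq_natAbs, hM]
    exact_mod_cast single_le_sum (f := fun p => (w p).natAbs) (fun _ _ => Nat.zero_le _) (mem_univ p)
  obtain ⟨Q, hQ⟩ : ∃ Q : ℕ, Q = N * M + 1 := ⟨_, rfl⟩
  obtain ⟨C, hC⟩ : ∃ C : ℕ, C = Q + ∑ g, m g + W * N := ⟨_, rfl⟩
  have hQ0 : 0 < Q := by omega
  obtain ⟨L, hL⟩ : ∃ L : ℕ, L = Fintype.card (Fin N → (Fin T × Fin T) ⊕ Unit) := ⟨_, rfl⟩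
  have hL0 : 0 < L := by
    rw [hL]
    exact Fintype.card_pos
  have hL1 : (1 : ℝ) ≤ L := by exact_mod_cast hL0
  have hC1 : 1 ≤ C := by omega
  have hQr : (1 : ℝ) ≤ Q := by exact_mod_cast hQ0
  have hCr : (1 : ℝ) ≤ C := by exact_mod_cast hC1
  have hpow1 : (1 : ℝ) ≤ (4 * Q * C) ^ T := one_le_pow₀ (by nlinarith)
  refine ⟨C, ε / 2 / (L * (4 * Q * C) ^ T), hC1, by positivity, ?_, ?_⟩
  · rw [div_le_one (by positivity)]
    nlinarith
  intro H hCH u B hB hBc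
  have hH1 : 1 ≤ H := by omega
  have hHr : (1 : ℝ) ≤ H := by exact_mod_cast hH1
  obtain ⟨h₀, hh₀⟩ : ∃ h₀, h₀ = H / Q := ⟨_, rfl⟩
  have hQH : Q * h₀ ≤ H := by rw [hh₀]; exact Nat.mul_div_le H Q
  have hh₀r : (H : ℝ) / (2 * Q) ≤ h₀ := by
    have h1 : H < Q * (h₀ + 1) := by rw [hh₀]; exact Nat.lt_mul_div_succ H hQ0
    have h2 : 1 ≤ h₀ := by
      rw [hh₀]
      exact (Nat.one_le_div_iff hQ0).2 (by omega)
    rw [div_le_iff₀ (by positivity)]
    have h3 : H ≤ h₀ * (2 * Q) := by nlinarith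
    exact_mod_cast h3
  obtain ⟨v, hv⟩ : ∃ v : (Fin T → ℕ) → (Fin N → Fin T × Fin T) → ℤ,
    v = fun h t => ∑ j, w (t j) * ((h (t j).1 : ℤ) - h (t j).2) := ⟨_, rfl⟩
  have hvb : ∀ h : Fin T → ℕ, (∀ g, h g < h₀) → ∀ t, |v h t| ≤ H := by
    intro h hh t
    rw [hv]
    show |∑ j, w (t j) * ((h (t j).1 : ℤ) - h (t j).2)| ≤ H
    have h1 : ∀ j, |w (t j) * ((h (t j).1 : ℤ) - h (t j).2)| ≤ (M : ℤ) * h₀ := by
      intro j
      rw [abs_mul]
      refine mul_le_mul (hwM _) ?_ (abs_nonneg _) (Nat.cast_nonneg _)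
      have e1 := hh (t j).1
      have e2 := hh (t j).2
      rw [abs_le]
      constructor <;> omega
    calc |∑ j, w (t j) * ((h (t j).1 : ℤ) - h (t j).2)|
        ≤ ∑ j, |w (t j) * ((h (t j).1 : ℤ) - h (t j).2)| := abs_sum_le_sum_abs _ _
      _ ≤ ∑ _j : Fin N, (M : ℤ) * h₀ := sum_le_sum fun j _ => h1 j
      _ = (N * M : ℕ) * h₀ := by
          rw [sum_const, card_univ, Fintype.card_fin, nsmul_eq_mul]
          push_cast
          ring
      _ ≤ (Q : ℕ) * h₀ := by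
          apply mul_le_mul_of_nonneg_right _ (Nat.cast_nonneg _)
          rw [hQ]
          push_cast
          linarith
      _ ≤ H := by exact_mod_cast hQH
  have hline : ∀ (h : Fin T → ℕ) (V : Fin N → (Fin T × Fin T) ⊕ Unit), ∃ s : ℤ, ∀ a,
      v h (ap V (fun _ => a)) = s + act V * (w a * ((h a.1 : ℤ) - h a.2)) := by
    intro h V
    rw [hv]
    exact line_sum V (fun a => w a * ((h a.1 : ℤ) - h a.2))
  choose s hs using hline
  obtain ⟨Y, hY⟩ : ∃ Y, Y = Icc ((u : ℤ) - H) (u + 2 * H) := ⟨_, rfl⟩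
  obtain ⟨G, hG⟩ : ∃ G : (Fin T → ℕ) → Finset ℤ, G = fun h => Y.filter (fun z : ℤ =>
      ∃ V : Fin N → (Fin T × Fin T) ⊕ Unit, Pr V ∧ ∀ a, ∃ k ∈ B,
        z + v h (ap V (fun _ => a)) = (k : ℤ)) := ⟨_, rfl⟩
  obtain ⟨X, hX⟩ : ∃ X : Finset (Fin T → ℕ), X = Fintype.piFinset (fun _ : Fin T => range h₀) :=
    ⟨_, rfl⟩
  have hGc : ∀ h ∈ X, ε / 2 * H ≤ (G h).card := by
    intro h hh
    rw [hX, Fintype.mem_piFinset] at hh
    rw [hG, hY]
    exact count_z ε hN H hH1 u (v h) (hvb h fun g => mem_range.1 (hh g)) B hB hBc hε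
  obtain ⟨S, hS⟩ : ∃ S : Finset (Σ _ : Fin T → ℕ, ℤ), S = X.sigma G := ⟨_, rfl⟩
  have hXc : (X.card : ℝ) = (h₀ : ℝ) ^ T := by
    rw [hX, Fintype.card_piFinset]
    simp
  have hSc : (h₀ : ℝ) ^ T * (ε / 2 * H) ≤ S.card := by
    rw [hS, card_sigma, Nat.cast_sum, ← hXc, ← nsmul_eq_mul]
    exact card_nsmul_le_sum _ _ _ hGc
  have hVy : ∀ p : (Σ _ : Fin T → ℕ, ℤ), ∃ V : Fin N → (Fin T × Fin T) ⊕ Unit, p ∈ S → Pr V ∧
      ∀ a, ∃ k ∈ B, p.2 + v p.1 (ap V (fun _ => a)) = (k : ℤ) := by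
    intro p
    by_cases hp : p ∈ S
    · rw [hS, mem_sigma, hG] at hp
      obtain ⟨V, hV⟩ := (mem_filter.1 hp.2).2
      exact ⟨V, fun _ => hV⟩
    · exact ⟨fun _ => Sum.inr (), fun h => absurd h hp⟩
  choose Vy hVy using hVy
  obtain ⟨V, -, hVc⟩ := exists_le_card_fiber_of_nsmul_le_card_of_maps_to
    (s := S) (t := univ) (f := Vy) (b := (h₀ : ℝ) ^ T * (ε / 2 * H) / L)
    (fun _ _ => mem_univ _) univ_nonempty (by
      rw [card_univ, ← hL, nsmul_eq_mul, mul_div_cancel₀ _ (by positivity)]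
      exact hSc)
  have hpos : 0 < (h₀ : ℝ) ^ T * (ε / 2 * H) / L := by
    have h1 : (0 : ℝ) < h₀ := lt_of_lt_of_le (by positivity) hh₀r
    positivity
  obtain ⟨I, hI⟩ : ∃ I : ℕ, I = act V := ⟨_, rfl⟩
  have hne : (S.filter (fun p => Vy p = V)).Nonempty := by
    rw [← card_pos]
    exact_mod_cast hpos.trans_le hVc
  have hI0 : 0 < I := by
    obtain ⟨p, hp⟩ := hne
    have h1 := mem_filter.1 hp
    obtain ⟨h2, -⟩ := hVy p h1.1
    rw [h1.2] at h2
    rw [hI]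
    exact act_pos V h2
  have hIN : I ≤ N := by
    rw [hI]
    exact act_le V
  -- the injection
  obtain ⟨Tu, hTu⟩ : ∃ Tu, Tu = (Fintype.piFinset (fun g : Fin T => Icc (u * m g) (u * m g + C * H))).filter
        (fun x => PB B m D x) := ⟨_, rfl⟩
  have hinj : (S.filter (fun p => Vy p = V)).card ≤ (B ×ˢ Tu).card := by
    refine card_le_card_of_injOn (fun p : (Σ _ : Fin T → ℕ, ℤ) => (((p.2 + s p.1 V).toNat : ℕ),
      (fun g => (p.2 + s p.1 V).toNat * m g + W * I * p.1 g : Fin T → ℕ))) ?_ ?_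
    · rintro ⟨h, z⟩ hp
      have h1 := mem_filter.1 (mem_coe.1 hp)
      obtain ⟨h2, h3⟩ := hVy _ h1.1
      rw [h1.2] at h3
      simp only at h3
      have hhX := h1.1
      rw [hS, mem_sigma, hX, Fintype.mem_piFinset] at hhX
      have hhr : ∀ g, h g < h₀ := fun g => mem_range.1 (hhX.1 g)
      have h4 : ∀ a, ∃ k ∈ B, z + s h V + I * (w a * ((h a.1 : ℤ) - h a.2)) = (k : ℤ) := by
        intro a
        obtain ⟨k, hk, hk2⟩ := h3 a
        refine ⟨k, hk, ?_⟩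
        rw [hs, ← hI] at hk2
        rw [← hk2]
        ring
      obtain ⟨g₀⟩ := ‹Nonempty (Fin T)›
      obtain ⟨k, hk, hk2⟩ := h4 (g₀, g₀)
      have hk3 : z + s h V = (k : ℤ) := by
        rw [← hk2]
        simp
      have hk4 : (z + s h V).toNat = k := by rw [hk3, Int.toNat_natCast]
      have hkB := mem_Ioc.1 (hB hk)
      show ((z + s h V).toNat, (fun g => (z + s h V).toNat * m g + W * I * h g : Fin T → ℕ)) ∈
        ((B ×ˢ Tu : Finset (ℕ × (Fin T → ℕ))) : Set (ℕ × (Fin T → ℕ)))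
      rw [mem_coe, mem_product]
      simp only
      rw [hk4]
      refine ⟨hk, ?_⟩
      rw [hTu]
      refine mem_filter.2 ⟨Fintype.mem_piFinset.2 fun g => mem_Icc.2 ⟨?_, ?_⟩, ?_, ?_⟩
      · have : u * m g ≤ k * m g := Nat.mul_le_mul_right _ hkB.1.le
        omega
      · have e1 : k * m g ≤ (u + H) * m g := Nat.mul_le_mul_right _ hkB.2
        have e2 : m g ≤ ∑ g, m g := single_le_sum (f := m) (fun _ _ => Nat.zero_le _) (mem_univ g)
        have e3 : h g ≤ H := by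
          have e4 := hhr g
          have e5 : h₀ ≤ H := by
            calc h₀ ≤ Q * h₀ := Nat.le_mul_of_pos_left _ hQ0
              _ ≤ H := hQH
          omega
        have e6 : W * I * h g ≤ W * N * H := Nat.mul_le_mul (Nat.mul_le_mul_left _ hIN) e3
        have e7 : C * H = Q * H + (∑ g, m g) * H + W * N * H := by rw [hC]; ring
        have e8 : m g * H ≤ (∑ g, m g) * H := Nat.mul_le_mul_right _ e2
        calc k * m g + W * I * h g ≤ (u + H) * m g + W * N * H := Nat.add_le_add e1 e6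
          _ = u * m g + (m g * H + W * N * H) := by ring
          _ ≤ u * m g + C * H := by omega
      · intro g g'
        by_cases hgg : g = g'
        · subst hgg
          exact ⟨k, hk, by simp⟩
        · obtain ⟨k', hk', hk'2⟩ := h4 (g, g')
          refine ⟨k', hk', ?_⟩
          rw [← hk'2, hk3]
          have e1 := hw (g, g') hgg
          simp only at e1 ⊢
          push_cast
          calc ((k : ℤ) * m g + W * I * h g) - (k * m g' + W * I * h g')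
              = ((m g : ℤ) - m g') * k + W * (I * ((h g : ℤ) - h g')) := by ring
            _ = ((m g : ℤ) - m g') * k + (((m g : ℤ) - m g') * w (g, g')) * (I * ((h g : ℤ) - h g')) := by
                rw [e1]
            _ = _ := by ring
      · refine ⟨k, hk, fun g => ?_⟩
        have e1 : (D : ℤ) ∣ W := by exact_mod_cast hDW
        push_cast
        have e2 : (k : ℤ) * m g + W * I * h g - m g * k = W * (I * h g) := by ring
        rw [e2]
        exact e1.mul_right _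
    · rintro ⟨h, z⟩ hp ⟨h', z'⟩ hp' heq
      have key : ∀ (h : Fin T → ℕ) (z : ℤ), (⟨h, z⟩ : (Σ _ : Fin T → ℕ, ℤ)) ∈ S.filter (fun p => Vy p = V) →
          ∃ k ∈ B, z + s h V = (k : ℤ) := by
        intro h z hp
        have h1 := mem_filter.1 hp
        obtain ⟨h2, h3⟩ := hVy _ h1.1
        rw [h1.2] at h3
        simp only at h3
        obtain ⟨g₀⟩ := ‹Nonempty (Fin T)›
        obtain ⟨k, hk, hk2⟩ := h3 (g₀, g₀)
        refine ⟨k, hk, ?_⟩
        rw [hs, ← hI] at hk2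
        rw [← hk2]
        simp
      obtain ⟨k, -, hk⟩ := key h z (mem_coe.1 hp)
      obtain ⟨k', -, hk'⟩ := key h' z' (mem_coe.1 hp')
      simp only [Prod.mk.injEq] at heq
      obtain ⟨h1, h2⟩ := heq
      rw [hk, hk', Int.toNat_natCast, Int.toNat_natCast] at h1
      subst h1
      rw [hk, hk'] at h2
      have h3 : h = h' := by
        funext g
        have h4 := congrFun h2 g
        exact Nat.eq_of_mul_eq_mul_left (Nat.mul_pos hW0 hI0) (Nat.add_left_cancel h4)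
      subst h3
      have h4 : z = z' := by linarith
      rw [h4]
  rw [card_product] at hinj
  have hBH : B.card ≤ H := by
    refine (card_le_card hB).trans ?_
    rw [Nat.card_Ioc, Nat.add_sub_cancel_left]
  rw [← hTu]
  have h5 : (h₀ : ℝ) ^ T * (ε / 2 * H) / L ≤ H * Tu.card := by
    refine hVc.trans ?_
    have h6 : (S.filter (fun p => Vy p = V)).card ≤ H * Tu.card :=
      hinj.trans (Nat.mul_le_mul_right _ hBH)
    exact_mod_cast h6
  have h6 : (h₀ : ℝ) ^ T * (ε / 2) / L ≤ Tu.card := by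
    have h7 : (h₀ : ℝ) ^ T * (ε / 2 * H) / L = H * ((h₀ : ℝ) ^ T * (ε / 2) / L) := by ring
    rw [h7] at h5
    exact le_of_mul_le_mul_left h5 (by linarith)
  refine le_trans ?_ h6
  have h8 : ∏ g : Fin T, ((Icc (u * m g) (u * m g + C * H)).card : ℝ) = (C * H + 1 : ℝ) ^ T := by
    have h9 : ∀ g : Fin T, ((Icc (u * m g) (u * m g + C * H)).card : ℝ) = C * H + 1 := by
      intro g
      rw [Nat.card_Icc]
      have : u * m g + C * H + 1 - u * m g = C * H + 1 := by omega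
      rw [this]
      push_cast
      ring
    rw [prod_congr rfl fun g _ => h9 g, prod_const, card_univ, Fintype.card_fin]
  rw [h8]
  have h9 : (C * H + 1 : ℝ) ^ T ≤ ((4 * Q * C) * h₀) ^ T := by
    apply pow_le_pow_left₀ (by positivity)
    have h10 : (C * H + 1 : ℝ) ≤ 2 * C * H := by nlinarith
    refine h10.trans ?_
    have h11 : (H : ℝ) ≤ h₀ * (2 * Q) := by
      rw [div_le_iff₀ (by positivity)] at hh₀r
      exact hh₀r
    nlinarith
  rw [mul_pow] at h9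
  calc ε / 2 / (L * (4 * Q * C) ^ T) * (C * H + 1 : ℝ) ^ T
      ≤ ε / 2 / (L * (4 * Q * C) ^ T) * ((4 * Q * C) ^ T * (h₀ : ℝ) ^ T) :=
        mul_le_mul_of_nonneg_left h9 (by positivity)
    _ = (h₀ : ℝ) ^ T * (ε / 2) / L := by
        field_simp

end Pool.Agent.Y877
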