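import Mathlib

/-! Blow-ups of dense sets of functions (helper877). -/

set_option autoImplicit false

namespace Pool.Agent.Y877.RO

open Finset

theorem jens {ι : Type*} (s : Finset ι) (f : ι → ℝ) (hf : ∀ i ∈ s, 0 ≤ f i) (E : ℕ) (hE : 1 ≤ E) (a : ℝ)
    (ha : 0 ≤ a) (h : a * s.card ≤ ∑ i ∈ s, f i) : a ^ E * s.card ≤ ∑ i ∈ s, f i ^ E := by
  obtain ⟨n, rfl⟩ : ∃ n, E = n + 1 := ⟨E - 1, by omega⟩
  rcases Nat.eq_zero_or_pos s.card with h0 | h0
  · rw [h0, Nat.cast_zero, mul_zero]
    exact sum_nonneg fun i hi => pow_nonneg (hf i hi) _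
  · have h1 := pow_sum_div_card_le_sum_pow (s := s) (f := f) hf n
    refine le_trans ?_ h1
    have hc : (0 : ℝ) < s.card := by exact_mod_cast h0
    rw [le_div_iff₀ (by positivity)]
    calc a ^ (n + 1) * s.card * (s.card : ℝ) ^ n = (a * s.card) ^ (n + 1) := by ring
      _ ≤ _ := pow_le_pow_left₀ (by positivity) h _

open Classical in
/-- many blow-ups -/
theorem blow {α : Type} (K : ℕ) (hK : 1 ≤ K) : ∀ (n : ℕ) (I : Fin n → Finset α) (T : Finset (Fin n → α)) (κ : ℝ),
    0 ≤ κ → (∀ x ∈ T, ∀ g, x g ∈ I g) → κ * ∏ g, ((I g).card : ℝ) ≤ T.card →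
    κ ^ (K ^ n) * (∏ g, ((I g).card : ℝ)) ^ K ≤
      (((Fintype.piFinset (fun x : Fin n × Fin K => I x.1)).filter
        (fun A => ∀ c : Fin n → Fin K, (fun g => A (g, c g)) ∈ T)).card : ℝ) := by
  intro n
  induction n with
  | zero =>
    intro I T κ hκ _ hT
    simp only [univ_eq_empty, prod_empty, mul_one, one_pow, pow_zero, pow_one] at hT ⊢
    rcases T.eq_empty_or_nonempty with h0 | ⟨x, hx⟩
    · rw [h0, card_empty, Nat.cast_zero] at hT
      exact hT.trans (Nat.cast_nonneg _)
    · have h1 : T.card ≤ 1 := card_le_one.2 fun a _ b _ => Subsingleton.elim a b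
      have h2 : (T.card : ℝ) ≤ 1 := by exact_mod_cast h1
      have h3 : 1 ≤ ((Fintype.piFinset (fun x : Fin 0 × Fin K => I x.1)).filter
        (fun A => ∀ c : Fin 0 → Fin K, (fun g => A (g, c g)) ∈ T)).card := by
        rw [Nat.one_le_iff_ne_zero, ← pos_iff_ne_zero, card_pos]
        refine ⟨fun x => x.1.elim0, mem_filter.2 ⟨Fintype.mem_piFinset.2 fun x => x.1.elim0, fun c => ?_⟩⟩
        rwa [Subsingleton.elim (fun g : Fin 0 => (g.elim0 : α)) x]
      have h4 : (1 : ℝ) ≤ (((Fintype.piFinset (fun x : Fin 0 × Fin K => I x.1)).filter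
        (fun A => ∀ c : Fin 0 → Fin K, (fun g => A (g, c g)) ∈ T)).card : ℝ) := by exact_mod_cast h3
      linarith
  | succ n ih =>
    intro I T κ hκ hTI hT
    rw [Fin.prod_univ_succ] at hT ⊢
    obtain ⟨P, hP⟩ : ∃ P : ℝ, P = ∏ g : Fin n, ((I g.succ).card : ℝ) := ⟨_, rfl⟩
    rw [← hP] at hT ⊢
    have hP0 : 0 ≤ P := by rw [hP]; exact prod_nonneg fun _ _ => Nat.cast_nonneg _
    rcases hP0.eq_or_lt with hP1 | hP1
    · rw [← hP1, mul_zero, zero_pow (by omega), mul_zero]
      exact Nat.cast_nonneg _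
    obtain ⟨I', hI'⟩ : ∃ I' : Finset (Fin n → α), I' = Fintype.piFinset (fun g => I g.succ) := ⟨_, rfl⟩
    have hI'c : (I'.card : ℝ) = P := by
      rw [hI', Fintype.card_piFinset, hP]
      push_cast
      rfl
    obtain ⟨Ta, hTa⟩ : ∃ Ta : (Fin K → α) → Finset (Fin n → α), Ta = fun a => I'.filter
      (fun x' => ∀ j, (Fin.cons (a j) x' : Fin (n + 1) → α) ∈ T) := ⟨_, rfl⟩
    obtain ⟨d, hd⟩ : ∃ d : (Fin n → α) → ℕ, d = fun x' => ((I 0).filter
      (fun x0 => (Fin.cons x0 x' : Fin (n + 1) → α) ∈ T)).card := ⟨_, rfl⟩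
    -- the number of the elements of `T`
    have h1 : T.card ≤ ∑ x' ∈ I', d x' := by
      have hmap : ∀ x ∈ T, Fin.tail x ∈ I' := by
        intro x hx
        rw [hI', Fintype.mem_piFinset]
        intro g
        exact hTI x hx g.succ
      rw [card_eq_sum_card_fiberwise hmap]
      refine sum_le_sum fun x' _ => ?_
      rw [hd]
      refine card_le_card_of_injOn (fun x => x 0) ?_ ?_
      · intro x hx
        rw [mem_coe, mem_filter] at hx
        rw [mem_coe, mem_filter]
        refine ⟨hTI x hx.1 0, ?_⟩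
        have : (Fin.cons (x 0) x' : Fin (n + 1) → α) = x := by rw [← hx.2, Fin.cons_self_tail]
        rw [this]
        exact hx.1
      · intro x hx z hz hxz
        rw [mem_coe, mem_filter] at hx hz
        rw [← Fin.cons_self_tail x, ← Fin.cons_self_tail z, hx.2, hz.2]
        simp only at hxz
        rw [hxz]
    have h2 : κ * ((I 0).card : ℝ) * I'.card ≤ ∑ x' ∈ I', (d x' : ℝ) := by
      have h3 : (T.card : ℝ) ≤ ∑ x' ∈ I', (d x' : ℝ) := by exact_mod_cast h1
      rw [hI'c]
      calc κ * ((I 0).card : ℝ) * P = κ * (((I 0).card : ℝ) * P) := by ring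
        _ ≤ _ := hT.trans h3
    have h3 := jens I' (fun x' => (d x' : ℝ)) (fun _ _ => Nat.cast_nonneg _) K hK _ (by positivity) h2
    -- sum over the tuples
    have h4 : ∑ a ∈ Fintype.piFinset (fun _ : Fin K => I 0), ((Ta a).card : ℝ) = ∑ x' ∈ I', (d x' : ℝ) ^ K := by
      have e1 : ∀ a, ((Ta a).card : ℝ) = ∑ x' ∈ I', (if ∀ j, (Fin.cons (a j) x' : Fin (n + 1) → α) ∈ T then (1 : ℝ) else 0) := by
        intro a
        rw [hTa, card_filter]
        push_cast
        rfl
      rw [sum_congr rfl fun a _ => e1 a, sum_comm]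
      refine sum_congr rfl fun x' _ => ?_
      rw [← sum_filter, sum_const, nsmul_eq_mul, mul_one]
      have e2 : (Fintype.piFinset (fun _ : Fin K => I 0)).filter
          (fun a => ∀ j, (Fin.cons (a j) x' : Fin (n + 1) → α) ∈ T) =
          Fintype.piFinset (fun _ : Fin K => (I 0).filter (fun x0 => (Fin.cons x0 x' : Fin (n + 1) → α) ∈ T)) := by
        ext a
        simp only [mem_filter, Fintype.mem_piFinset]
        exact ⟨fun h j => ⟨h.1 j, h.2 j⟩, fun h => ⟨fun j => (h j).1, fun j => (h j).2⟩⟩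
      rw [e2, Fintype.card_piFinset, prod_const, card_univ, Fintype.card_fin, hd]
      push_cast
      rfl
    obtain ⟨cntA, hcnt⟩ : ∃ cntA : (Fin K → α) → Finset (Fin n × Fin K → α), cntA = fun a =>
      (Fintype.piFinset (fun x : Fin n × Fin K => I x.1.succ)).filter
        (fun A => ∀ c : Fin n → Fin K, (fun g => A (g, c g)) ∈ Ta a) := ⟨_, rfl⟩
    have h5 : ∀ a, (((Ta a).card : ℝ) / P) ^ (K ^ n) * P ^ K ≤ ((cntA a).card : ℝ) := by
      intro a
      have := ih (fun g => I g.succ) (Ta a) (((Ta a).card : ℝ) / P) (by positivity) (fun x hx g => by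
        rw [hTa] at hx
        have := (mem_filter.1 hx).1
        rw [hI', Fintype.mem_piFinset] at this
        exact this g) (by rw [← hP, div_mul_cancel₀ _ hP1.ne'])
      rw [← hP] at this
      rw [hcnt]
      exact this
    have hcardK : ((Fintype.piFinset (fun _ : Fin K => I 0)).card : ℝ) = ((I 0).card : ℝ) ^ K := by
      rw [Fintype.card_piFinset, prod_const, card_univ, Fintype.card_fin]
      push_cast
      rfl
    have h6 := jens (Fintype.piFinset (fun _ : Fin K => I 0)) (fun a => ((Ta a).card : ℝ) / P)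
      (fun _ _ => by positivity) (K ^ n) (Nat.one_le_pow _ _ (by omega)) (κ ^ K) (by positivity) (by
        rw [← sum_div, h4, le_div_iff₀ hP1, hcardK]
        refine le_trans (le_of_eq ?_) h3
        rw [hI'c, mul_pow])
    have h7 : ∑ a ∈ Fintype.piFinset (fun _ : Fin K => I 0), ((cntA a).card : ℝ) ≤
      (((Fintype.piFinset (fun x : Fin (n + 1) × Fin K => I x.1)).filter
        (fun A => ∀ c : Fin (n + 1) → Fin K, (fun g => A (g, c g)) ∈ T)).card : ℝ) := by
      rw [← Nat.cast_sum, ← card_sigma]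
      apply Nat.cast_le.2
      refine card_le_card_of_injOn (fun z => fun x : Fin (n + 1) × Fin K =>
        (Fin.cons (z.1 x.2) (fun g : Fin n => z.2 (g, x.2)) : Fin (n + 1) → α) x.1) ?_ ?_
      · rintro ⟨a, A⟩ hz
        rw [mem_coe, mem_sigma] at hz
        obtain ⟨hz1, hz2⟩ := hz
        simp only at hz1 hz2
        rw [hcnt, mem_filter, Fintype.mem_piFinset] at hz2
        rw [Fintype.mem_piFinset] at hz1
        rw [mem_coe, mem_filter, Fintype.mem_piFinset]
        refine ⟨fun x => ?_, fun c => ?_⟩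
        · obtain ⟨g, j⟩ := x
          refine Fin.cases ?_ (fun g => ?_) g
          · simp only [Fin.cons_zero]
            exact hz1 j
          · simp only [Fin.cons_succ]
            exact hz2.1 (g, j)
        · have h8 := hz2.2 (fun g => c g.succ)
          rw [hTa] at h8
          have h9 := (mem_filter.1 h8).2 (c 0)
          have h10 : (fun g : Fin (n + 1) => (Fin.cons (a (c g)) (fun g' : Fin n => A (g', c g)) : Fin (n + 1) → α) g) =
              (Fin.cons (a (c 0)) (fun g : Fin n => A (g, c g.succ)) : Fin (n + 1) → α) := by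
            funext g
            refine Fin.cases ?_ (fun g => ?_) g
            · simp only [Fin.cons_zero]
            · simp only [Fin.cons_succ]
          simp only [h10]
          exact h9
      · rintro ⟨a, A⟩ _ ⟨b, B⟩ _ hab
        simp only at hab
        have e1 : a = b := by
          funext j
          have := congrFun hab (0, j)
          simpa only [Fin.cons_zero] using this
        have e2 : A = B := by
          funext x
          have := congrFun hab (x.1.succ, x.2)
          simpa only [Fin.cons_succ] using this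
        subst e1 e2
        rfl
    refine le_trans ?_ h7
    refine le_trans ?_ (sum_le_sum fun a _ => h5 a)
    rw [← sum_mul]
    calc κ ^ (K ^ (n + 1)) * (((I 0).card : ℝ) * P) ^ K = (κ ^ K) ^ (K ^ n) * ((I 0).card : ℝ) ^ K * P ^ K := by
          rw [← pow_mul, mul_pow]; ring
      _ ≤ _ := by
          rw [hcardK] at h6
          exact mul_le_mul_of_nonneg_right h6 (by positivity)

/-- many blow-ups -/
theorem blow' {α : Type} (K : ℕ) (hK : 1 ≤ K) (n : ℕ) (I : Fin n → Finset α) (T : Finset (Fin n → α)) (κ : ℝ)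
    (hκ : 0 ≤ κ) (hI : ∀ x ∈ T, ∀ g, x g ∈ I g) (hT : κ * ∏ g, ((I g).card : ℝ) ≤ T.card) :
    ∃ A0 : Finset (Fin n × Fin K → α), (∀ A ∈ A0, (∀ x, A x ∈ I x.1) ∧
      ∀ c : Fin n → Fin K, (fun g => A (g, c g)) ∈ T) ∧
      κ ^ (K ^ n) * (∏ g, ((I g).card : ℝ)) ^ K ≤ A0.card := by
  classical
  refine ⟨(Fintype.piFinset (fun x : Fin n × Fin K => I x.1)).filter
        (fun A => ∀ c : Fin n → Fin K, (fun g => A (g, c g)) ∈ T), fun A hA => ?_, ?_⟩
  · rw [mem_filter, Fintype.mem_piFinset] at hA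
    exact hA
  · have := blow K hK n I T κ hκ hI hT
    convert this

end Pool.Agent.Y877.RO
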