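import Mathlib
import Pool.Agent.H387R2.MB10
import Pool.Agent.H387R2.U6

/-! Counting residue classes and admissible shifts in multiples of `D` (helper877). -/

set_option autoImplicit false

namespace Pool.Agent.Y877.RO

open Finset Pool.Agent.H387R2 Pool.Agent.H387R2.MB Pool.Agent.H387R2.Uni Pool.Agent.H386R2.HL

/-- the density of the classes prime to `D` -/
noncomputable def dD (D y : ℕ) : ℝ := ∏ p ∈ ((y + 1).primesBelow).filter (fun p => p ∣ D), (1 - 1 / (p : ℝ))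

/-- the density of the shifts -/
noncomputable def rD (D y : ℕ) : ℝ := ∏ p ∈ ((y + 1).primesBelow).filter (fun p => ¬ p ∣ D), (1 - 1 / (p : ℝ))

theorem fac_pos {p : ℕ} (hp : p.Prime) : 0 < 1 - 1 / (p : ℝ) := by
  have h1 : (1 : ℝ) < p := by exact_mod_cast hp.one_lt
  have h2 : 1 / (p : ℝ) < 1 := by rw [div_lt_one (by linarith)]; exact h1
  linarith

theorem fac_le {p : ℕ} : 1 - 1 / (p : ℝ) ≤ 1 := by
  have h2 : 0 ≤ 1 / (p : ℝ) := by positivity
  linarith

theorem dD_pos (D y : ℕ) : 0 < dD D y :=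
  prod_pos fun _ hp => fac_pos (Nat.prime_of_mem_primesBelow (mem_filter.1 hp).1)

theorem rD_pos (D y : ℕ) : 0 < rD D y :=
  prod_pos fun _ hp => fac_pos (Nat.prime_of_mem_primesBelow (mem_filter.1 hp).1)

theorem dD_le (D y : ℕ) : dD D y ≤ 1 :=
  prod_le_one (fun _ hp => (fac_pos (Nat.prime_of_mem_primesBelow (mem_filter.1 hp).1)).le) fun _ _ => fac_le

theorem rho_split (D y : ℕ) : rho y = dD D y * rD D y := by
  rw [rho_eq, dD, rD, prod_filter_mul_prod_filter_not]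

theorem rho_le_rD (D y : ℕ) : rho y ≤ rD D y := by
  rw [rho_split D y]
  exact mul_le_of_le_one_left (rD_pos D y).le (dD_le D y)

theorem tot_prod (s : Finset ℕ) (hs : ∀ p ∈ s, p.Prime) :
    (Nat.totient (∏ p ∈ s, p) : ℝ) = ((∏ p ∈ s, p : ℕ) : ℝ) * ∏ p ∈ s, (1 - 1 / (p : ℝ)) := by
  have h0 : (∏ p ∈ s, p).primeFactors = s := Nat.primeFactors_prod hs
  have := Nat.totient_eq_mul_prod_factors (∏ p ∈ s, p)
  rw [h0] at this
  have h2 : ((Nat.totient (∏ p ∈ s, p) : ℚ) : ℝ) = (((∏ p ∈ s, p : ℕ) : ℚ) * ∏ p ∈ s, (1 - (p : ℚ)⁻¹) : ℚ) := by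
    rw [this]
  push_cast at h2 ⊢
  rw [h2]
  simp only [one_div]

/-- lower bound for the local factor -/
theorem loc_ge (n p : ℕ) (hn : 1 ≤ n) (hp : 4 * n ^ 2 < p) :
    (1 - (n : ℝ) ^ 2 * ((p : ℝ) ^ 2)⁻¹) * (1 - 1 / (p : ℝ)) ^ n ≤ 1 - (n : ℝ) / p := by
  have hp0 : (0 : ℝ) < p := by
    have : 0 < p := by omega
    exact_mod_cast this
  have hn1 : (1 : ℝ) ≤ n := by exact_mod_cast hn
  have hp4 : 4 * (n : ℝ) ^ 2 < p := by exact_mod_cast hp
  have hnp : (n : ℝ) / p < 1 / 4 := by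
    rw [div_lt_iff₀ hp0]
    nlinarith
  obtain ⟨u, hu⟩ : ∃ u : ℝ, u = (n : ℝ) / p := ⟨_, rfl⟩
  have hu0 : 0 ≤ u := by rw [hu]; positivity
  have h1 : (1 - 1 / (p : ℝ)) ^ n * (1 + u) ≤ 1 := by
    have h2 : 1 + u ≤ (1 + 1 / (p : ℝ)) ^ n := by
      have := one_add_mul_le_pow (a := 1 / (p : ℝ)) (by have : (0:ℝ) ≤ 1 / p := by positivity
                                                        linarith) n
      refine le_trans (le_of_eq ?_) this
      rw [hu]; ring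
    have h3 : 0 ≤ (1 - 1 / (p : ℝ)) ^ n := by
      apply pow_nonneg
      have : 1 / (p : ℝ) ≤ 1 := by
        rw [div_le_one hp0]; nlinarith
      linarith
    calc (1 - 1 / (p : ℝ)) ^ n * (1 + u) ≤ (1 - 1 / (p : ℝ)) ^ n * (1 + 1 / (p : ℝ)) ^ n :=
          mul_le_mul_of_nonneg_left h2 h3
      _ = (1 - (1 / (p : ℝ)) ^ 2) ^ n := by rw [← mul_pow]; congr 1; ring
      _ ≤ 1 := by
          apply pow_le_one₀
          · have : 1 / (p : ℝ) ≤ 1 := by
              rw [div_le_one hp0]; nlinarith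
            have h5 : 0 ≤ 1 / (p : ℝ) := by positivity
            nlinarith
          · have : 0 ≤ (1 / (p : ℝ)) ^ 2 := by positivity
            linarith
  have e1 : (n : ℝ) ^ 2 * ((p : ℝ) ^ 2)⁻¹ = u ^ 2 := by rw [hu, div_pow]; rfl
  rw [e1, ← hu]
  have hu1 : u < 1 / 4 := by rw [hu]; exact hnp
  have h6 : 0 ≤ 1 - u := by linarith
  calc (1 - u ^ 2) * (1 - 1 / (p : ℝ)) ^ n = (1 - u) * ((1 - 1 / (p : ℝ)) ^ n * (1 + u)) := by ring
    _ ≤ (1 - u) * 1 := mul_le_mul_of_nonneg_left h1 h6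
    _ = _ := mul_one _

/-- lower bound for the number of the admissible classes of a configuration -/
theorem gT_lower (n D y : ℕ) (hn : 1 ≤ n) (hD : ∀ p : ℕ, p.Prime → p ≤ 4 * n ^ 2 → p ∣ D) (T : Finset ℕ)
    (hT : T.card ≤ n) (hTD : ∀ t ∈ T, D ∣ t) :
    1 / 2 * (WW y * dD D y) * rD D y ^ n ≤ gT (WW y) T := by
  classical
  have hW0 : (0 : ℝ) < WW y := by exact_mod_cast WW_pos y
  have h1 := prod_one_sub_nu (en T) ((y + 1).primesBelow) (fun p hp => Nat.prime_of_mem_primesBelow hp)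
  change _ = (gg (WW y) (en T) : ℝ) / (WW y : ℝ) at h1
  rw [gg_en] at h1
  have h2 : (gT (WW y) T : ℝ) = WW y * ∏ p ∈ (y + 1).primesBelow, (1 - (nuT T p : ℝ) / p) := by
    have h3 : ∏ p ∈ (y + 1).primesBelow, (1 - (nuT T p : ℝ) / p) = (gT (WW y) T : ℝ) / WW y := by
      rw [← h1]
      refine prod_congr rfl fun p _ => ?_
      rw [nu_en]
    rw [h3]
    field_simp
  rw [h2, ← prod_filter_mul_prod_filter_not ((y + 1).primesBelow) (fun p => p ∣ D)]
  have h3 : dD D y ≤ ∏ p ∈ ((y + 1).primesBelow).filter (fun p => p ∣ D), (1 - (nuT T p : ℝ) / p) := by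
    unfold dD
    refine prod_le_prod (fun p hp => (fac_pos (Nat.prime_of_mem_primesBelow (mem_filter.1 hp).1)).le) fun p hp => ?_
    have hpp := Nat.prime_of_mem_primesBelow (mem_filter.1 hp).1
    have hpD := (mem_filter.1 hp).2
    have h4 : nuT T p ≤ 1 := by
      unfold nuT
      apply card_le_one.2
      intro a ha b hb
      obtain ⟨t, ht, rfl⟩ := mem_image.1 ha
      obtain ⟨t', ht', rfl⟩ := mem_image.1 hb
      rw [Nat.mod_eq_zero_of_dvd (hpD.trans (hTD t ht)), Nat.mod_eq_zero_of_dvd (hpD.trans (hTD t' ht'))]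
    have h5 : (nuT T p : ℝ) ≤ 1 := by exact_mod_cast h4
    have hp0 : (0 : ℝ) < p := by exact_mod_cast hpp.pos
    have h6 : (nuT T p : ℝ) / p ≤ 1 / p := div_le_div_of_nonneg_right h5 hp0.le
    linarith
  have h4 : 1 / 2 * rD D y ^ n ≤
      ∏ p ∈ ((y + 1).primesBelow).filter (fun p => ¬ p ∣ D), (1 - (nuT T p : ℝ) / p) := by
    have h5 : ∀ p ∈ ((y + 1).primesBelow).filter (fun p => ¬ p ∣ D), 4 * n ^ 2 < p := by
      intro p hp
      by_contra hcon
      exact (mem_filter.1 hp).2 (hD p (Nat.prime_of_mem_primesBelow (mem_filter.1 hp).1) (not_lt.1 hcon))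
    have h6 : ∏ p ∈ ((y + 1).primesBelow).filter (fun p => ¬ p ∣ D),
        ((1 - (n : ℝ) ^ 2 * ((p : ℝ) ^ 2)⁻¹) * (1 - 1 / (p : ℝ)) ^ n) ≤
        ∏ p ∈ ((y + 1).primesBelow).filter (fun p => ¬ p ∣ D), (1 - (nuT T p : ℝ) / p) := by
      refine prod_le_prod (fun p hp => ?_) fun p hp => ?_
      · have hpp := Nat.prime_of_mem_primesBelow (mem_filter.1 hp).1
        have h7 := h5 p hp
        apply mul_nonneg _ (pow_nonneg (fac_pos hpp).le _)
        have hp0 : (0 : ℝ) < p := by exact_mod_cast hpp.pos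
        have h8 : (n : ℝ) ≤ p := by
          have : n ≤ p := by nlinarith
          exact_mod_cast this
        have h9 : (n : ℝ) ^ 2 * ((p : ℝ) ^ 2)⁻¹ ≤ 1 := by
          rw [← div_eq_mul_inv, div_le_one (by positivity)]
          exact pow_le_pow_left₀ (Nat.cast_nonneg _) h8 2
        linarith
      · refine (loc_ge n p hn (h5 p hp)).trans ?_
        have hpp := Nat.prime_of_mem_primesBelow (mem_filter.1 hp).1
        have hp0 : (0 : ℝ) < p := by exact_mod_cast hpp.pos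
        have h7 : (nuT T p : ℝ) ≤ n := by
          have : nuT T p ≤ n := (card_image_le.trans hT)
          exact_mod_cast this
        have h8 : (nuT T p : ℝ) / p ≤ n / p := div_le_div_of_nonneg_right h7 hp0.le
        linarith
    refine le_trans ?_ h6
    rw [prod_mul_distrib, prod_pow]
    refine mul_le_mul_of_nonneg_right ?_ (pow_nonneg (rD_pos D y).le _)
    refine le_trans ?_ (one_sub_sum_le _ (fun p : ℕ => (n : ℝ) ^ 2 * ((p : ℝ) ^ 2)⁻¹) (fun p _ => by positivity)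
      (fun p hp => ?_))
    · have h7 : ∑ p ∈ ((y + 1).primesBelow).filter (fun p => ¬ p ∣ D), (n : ℝ) ^ 2 * ((p : ℝ) ^ 2)⁻¹ ≤
          (n : ℝ) ^ 2 * ∑ p ∈ Ioc (4 * n ^ 2) (4 * n ^ 2 + y), (((p : ℕ) : ℝ) ^ 2)⁻¹ := by
        rw [mul_sum]
        refine sum_le_sum_of_subset_of_nonneg (fun p hp => ?_) (fun _ _ _ => by positivity)
        rw [mem_Ioc]
        refine ⟨h5 p hp, ?_⟩
        have := Nat.lt_of_mem_primesBelow (mem_filter.1 hp).1
        omega
      have hn0 : (0 : ℝ) < n := by exact_mod_cast hn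
      have h8 := sum_Ioc_inv_sq_le_sub (α := ℝ) (k := 4 * n ^ 2) (n := 4 * n ^ 2 + y)
        (Nat.mul_pos (by norm_num) (pow_pos hn 2)).ne' (by omega)
      have h9 : ((4 * n ^ 2 : ℕ) : ℝ)⁻¹ - ((4 * n ^ 2 + y : ℕ) : ℝ)⁻¹ ≤ (4 * (n : ℝ) ^ 2)⁻¹ := by
        have : (0 : ℝ) ≤ ((4 * n ^ 2 + y : ℕ) : ℝ)⁻¹ := by positivity
        push_cast at this ⊢
        linarith
      have h10 : (n : ℝ) ^ 2 * ∑ p ∈ Ioc (4 * n ^ 2) (4 * n ^ 2 + y), (((p : ℕ) : ℝ) ^ 2)⁻¹ ≤
          (n : ℝ) ^ 2 * (4 * (n : ℝ) ^ 2)⁻¹ := mul_le_mul_of_nonneg_left (h8.trans h9) (by positivity)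
      have h11 : (n : ℝ) ^ 2 * (4 * (n : ℝ) ^ 2)⁻¹ = 1 / 4 := by field_simp
      linarith
    · have h7 := h5 p hp
      have hpp := Nat.prime_of_mem_primesBelow (mem_filter.1 hp).1
      have hp0 : (0 : ℝ) < p := by exact_mod_cast hpp.pos
      have h8 : (n : ℝ) ≤ p := by
        have : n ≤ p := by nlinarith
        exact_mod_cast this
      rw [← div_eq_mul_inv, div_le_one (by positivity)]
      exact pow_le_pow_left₀ (Nat.cast_nonneg _) h8 2
  calc 1 / 2 * ((WW y : ℝ) * dD D y) * rD D y ^ n = WW y * (dD D y * (1 / 2 * rD D y ^ n)) := by ring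
    _ ≤ _ := by
        apply mul_le_mul_of_nonneg_left _ hW0.le
        exact mul_le_mul h3 h4 (mul_nonneg (by norm_num) (pow_nonneg (rD_pos D y).le _))
          ((dD_pos D y).le.trans h3)

open Classical in
/-- the number of the classes -/
theorem class_upper (D y : ℕ) :
    (((range (WW y)).filter (fun b => ∃ x : ℕ, Nat.Coprime (WW y) (b + D * x))).card : ℝ) ≤ 2 * (WW y * dD D y) := by
  classical
  obtain ⟨q, hq⟩ : ∃ q, q = ∏ p ∈ ((y + 1).primesBelow).filter (fun p => p ∣ D), p := ⟨_, rfl⟩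
  have hpr : ∀ p ∈ ((y + 1).primesBelow).filter (fun p => p ∣ D), p.Prime := fun p hp =>
    Nat.prime_of_mem_primesBelow (mem_filter.1 hp).1
  have hqW : q ∣ WW y := by
    rw [hq]
    unfold WW
    exact prod_dvd_prod_of_subset _ _ _ (filter_subset _ _)
  have hq1 : 1 ≤ q := Nat.pos_of_dvd_of_pos hqW (WW_pos y)
  have h1 : ((range (WW y)).filter (fun b => ∃ x : ℕ, Nat.Coprime (WW y) (b + D * x))).card ≤
      (gd (WW y) q 0).card := by
    apply card_le_card
    intro b hb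
    rw [mem_filter] at hb
    obtain ⟨hb1, x, hx⟩ := hb
    unfold gd
    rw [mem_filter, add_zero]
    refine ⟨hb1, ?_⟩
    rw [hq]
    apply Nat.Coprime.prod_left
    intro p hp
    rw [(hpr p hp).coprime_iff_not_dvd]
    intro hpb
    have h2 : p ∣ b + D * x := dvd_add hpb ((mem_filter.1 hp).2.mul_right x)
    have h3 : p ∣ WW y := (dvd_prod_of_mem (fun p => p) hp).trans (by rw [← hq]; exact hqW)
    exact (Nat.Prime.not_coprime_iff_dvd.2 ⟨p, hpr p hp, h3, h2⟩) hx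
  have h2 : ((gd (WW y) q 0).card : ℝ) ≤ Nat.totient q * ((WW y / q : ℕ) + 1) := by
    exact_mod_cast card_gd (WW y) q 0 hq1
  have hq0 : (0 : ℝ) < q := by exact_mod_cast hq1
  have h3 : ((WW y / q : ℕ) : ℝ) = WW y / q := Nat.cast_div hqW hq0.ne'
  have h4 : (1 : ℝ) ≤ (WW y : ℝ) / q := by
    rw [le_div_iff₀ hq0, one_mul]
    exact_mod_cast Nat.le_of_dvd (WW_pos y) hqW
  have h5 : (Nat.totient q : ℝ) = q * dD D y := by
    rw [hq, tot_prod _ hpr]
    rfl
  have h6 : (((range (WW y)).filter (fun b => ∃ x : ℕ, Nat.Coprime (WW y) (b + D * x))).card : ℝ) ≤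
      ((gd (WW y) q 0).card : ℝ) := by exact_mod_cast h1
  refine h6.trans (h2.trans ?_)
  rw [h3, h5]
  calc (q : ℝ) * dD D y * (WW y / q + 1) ≤ (q : ℝ) * dD D y * (WW y / q + WW y / q) := by
        have := (dD_pos D y).le
        gcongr
    _ = _ := by field_simp; ring

/-- the product over the primes in the upper half -/
theorem half_prod (y D : ℕ) (hy : 2 ≤ y) :
    1 / 4 ≤ ∏ p ∈ (((y + 1).primesBelow).filter (fun p => ¬ p ∣ D)).filter (fun p => y / 2 < p), (1 - 1 / (p : ℝ)) := by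
  have h1 : ∀ a b : ℕ, 1 ≤ a → a ≤ b → ∏ p ∈ Ioc a b, (1 - 1 / ((p : ℕ) : ℝ)) = a / b := by
    intro a b ha hab
    induction b, hab using Nat.le_induction with
    | base =>
      have : (a : ℝ) ≠ 0 := by exact_mod_cast (by omega : a ≠ 0)
      simp [this]
    | succ b hab ih =>
      have e1 : Ioc a (b + 1) = insert (b + 1) (Ioc a b) := by
        ext t
        simp only [mem_Ioc, mem_insert]
        omega
      rw [e1, prod_insert (by simp), ih]
      have h2 : (b : ℝ) ≠ 0 := by exact_mod_cast (by omega : b ≠ 0)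
      have h3 : ((b + 1 : ℕ) : ℝ) ≠ 0 := by exact_mod_cast (by omega : b + 1 ≠ 0)
      push_cast at h3 ⊢
      field_simp
      ring
  have hf0 : ∀ p ∈ Ioc (y / 2) y, 0 ≤ 1 - 1 / ((p : ℕ) : ℝ) := by
    intro p hp
    have hp1 : 1 ≤ p := by rw [mem_Ioc] at hp; omega
    have hp2 : (1 : ℝ) ≤ p := by exact_mod_cast hp1
    have : 1 / (p : ℝ) ≤ 1 := by rw [div_le_one (by linarith)]; exact hp2
    linarith
  have e2 : (((y + 1).primesBelow).filter (fun p => ¬ p ∣ D)).filter (fun p => y / 2 < p) =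
      (Ioc (y / 2) y).filter (fun p => p.Prime ∧ ¬ p ∣ D) := by
    ext p
    simp only [mem_filter, mem_Ioc, Nat.mem_primesBelow]
    constructor
    · rintro ⟨⟨⟨h2, h3⟩, h4⟩, h5⟩
      exact ⟨⟨h5, by omega⟩, h3, h4⟩
    · rintro ⟨⟨h2, h3⟩, h4, h5⟩
      exact ⟨⟨⟨by omega, h4⟩, h5⟩, h2⟩
  rw [e2]
  have h2 := h1 (y / 2) y (by omega) (by omega)
  rw [← prod_filter_mul_prod_filter_not (Ioc (y / 2) y) (fun p => p.Prime ∧ ¬ p ∣ D)] at h2
  have h3 : ∏ p ∈ (Ioc (y / 2) y).filter (fun p => ¬ (p.Prime ∧ ¬ p ∣ D)), (1 - 1 / ((p : ℕ) : ℝ)) ≤ 1 :=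
    prod_le_one (fun p hp => hf0 p (mem_filter.1 hp).1) fun p _ => fac_le
  have h4 : 0 ≤ ∏ p ∈ (Ioc (y / 2) y).filter (fun p => p.Prime ∧ ¬ p ∣ D), (1 - 1 / ((p : ℕ) : ℝ)) :=
    prod_nonneg fun p hp => hf0 p (mem_filter.1 hp).1
  have hy0 : (0 : ℝ) < y := by exact_mod_cast (by omega : 0 < y)
  have h5 : (1 : ℝ) / 4 ≤ ((y / 2 : ℕ) : ℝ) / y := by
    rw [div_le_div_iff₀ (by norm_num) hy0]
    have : 1 * y ≤ (y / 2) * 4 := by omega
    exact_mod_cast this
  rw [← h2] at h5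
  exact h5.trans (mul_le_of_le_one_right h4 h3)

/-- the number of the admissible shifts in a window -/
theorem shift_upper (D y b s M1 : ℕ) (hy : 2 ≤ y) (hM : 4 ^ (y / 2) ≤ M1) :
    (((Ico s (s + M1)).filter (fun x => Nat.Coprime (WW y) (b + D * x))).card : ℝ) ≤ 8 * M1 * rD D y := by
  classical
  obtain ⟨S, hS⟩ : ∃ S, S = (((y + 1).primesBelow).filter (fun p => ¬ p ∣ D)).filter (fun p => ¬ y / 2 < p) := ⟨_, rfl⟩
  have hpr : ∀ p ∈ S, p.Prime := by
    intro p hp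
    rw [hS] at hp
    exact Nat.prime_of_mem_primesBelow (mem_filter.1 (mem_filter.1 hp).1).1
  obtain ⟨W2, hW2⟩ : ∃ W2, W2 = ∏ p ∈ S, p := ⟨_, rfl⟩
  have hW20 : 0 < W2 := by rw [hW2]; exact prod_pos fun p hp => (hpr p hp).pos
  have hdvd : W2 ∣ WW y := by
    rw [hW2, hS]
    unfold WW
    exact prod_dvd_prod_of_subset _ _ _ ((filter_subset _ _).trans (filter_subset _ _))
  have hW2M : W2 ≤ M1 := by
    refine le_trans ?_ hM
    refine le_trans ?_ (primorial_le_four_pow (y / 2))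
    apply Nat.le_of_dvd (primorial_pos _)
    rw [hW2]
    unfold primorial
    apply prod_dvd_prod_of_subset
    intro p hp
    rw [hS] at hp
    rw [mem_filter, mem_range]
    refine ⟨?_, Nat.prime_of_mem_primesBelow (mem_filter.1 (mem_filter.1 hp).1).1⟩
    have := (mem_filter.1 hp).2
    omega
  have hDW : Nat.Coprime W2 D := by
    rw [hW2]
    apply Nat.Coprime.prod_left
    intro p hp
    rw [(hpr p hp).coprime_iff_not_dvd]
    rw [hS] at hp
    exact (mem_filter.1 (mem_filter.1 hp).1).2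
  -- counting
  have h1 : ((Ico s (s + M1)).filter (fun x => Nat.Coprime (WW y) (b + D * x))).card ≤
      Nat.totient W2 * (M1 / W2 + 1) := by
    obtain ⟨E, hE⟩ : ∃ E : ℕ, D * E ≡ 1 [MOD W2] := by
      rcases Nat.lt_or_ge 1 W2 with h | h
      · obtain ⟨E, hE⟩ := Nat.exists_mul_mod_eq_one_of_coprime hDW.symm h
        exact ⟨E, by unfold Nat.ModEq; rw [hE.2, Nat.mod_eq_of_lt h]⟩
      · exact ⟨0, by have : W2 = 1 := by omega
                     rw [this]; exact Nat.modEq_one⟩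
    have hEc : Nat.Coprime W2 E := by
      have h2 : Nat.gcd (D * E) W2 = Nat.gcd 1 W2 := hE.gcd_eq
      rw [Nat.gcd_one_left] at h2
      exact (Nat.Coprime.coprime_mul_left (show Nat.Coprime (D * E) W2 from h2)).symm
    refine le_trans ?_ (Nat.Ico_filter_coprime_le (a := W2) (E * b + s) M1 hW20.ne')
    refine card_le_card_of_injOn (fun x => E * b + x) ?_ ?_
    · intro x hx
      rw [mem_coe, mem_filter, mem_Ico] at hx
      rw [mem_coe, mem_filter, mem_Ico]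
      refine ⟨⟨Nat.add_le_add_left hx.1.1 _, by have := hx.1.2; simp only; omega⟩, ?_⟩
      have h2 : Nat.Coprime W2 (b + D * x) := Nat.Coprime.coprime_dvd_left hdvd hx.2
      have h3 : Nat.Coprime W2 (E * (b + D * x)) := Nat.Coprime.mul_right hEc h2
      have h4 : E * (b + D * x) ≡ E * b + x [MOD W2] := by
        have h5 : E * (b + D * x) = E * b + (D * E) * x := by ring
        rw [h5]
        have h6 : (D * E) * x ≡ 1 * x [MOD W2] := hE.mul_right x
        rw [one_mul] at h6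
        exact h6.add_left _
      unfold Nat.Coprime at h3 ⊢
      rw [Nat.gcd_comm, ← h4.gcd_eq, Nat.gcd_comm]
      exact h3
    · intro x _ x' _ h
      simp only at h
      omega
  have h2 : (((Ico s (s + M1)).filter (fun x => Nat.Coprime (WW y) (b + D * x))).card : ℝ) ≤
      (Nat.totient W2 : ℝ) * ((M1 / W2 : ℕ) + 1) := by exact_mod_cast h1
  have hW2r : (0 : ℝ) < W2 := by exact_mod_cast hW20
  have h3 : ((M1 / W2 : ℕ) : ℝ) ≤ M1 / W2 := Nat.cast_div_le
  have h4 : (1 : ℝ) ≤ (M1 : ℝ) / W2 := by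
    rw [le_div_iff₀ hW2r, one_mul]
    exact_mod_cast hW2M
  obtain ⟨φ, hφ⟩ : ∃ φ : ℝ, φ = ∏ p ∈ S, (1 - 1 / ((p : ℕ) : ℝ)) := ⟨_, rfl⟩
  have hφ0 : 0 < φ := by rw [hφ]; exact prod_pos fun p hp => fac_pos (hpr p hp)
  have h5 : (Nat.totient W2 : ℝ) = W2 * φ := by
    rw [hW2, tot_prod _ hpr, hφ]
  have h6 : φ * (1 / 4) ≤ rD D y := by
    have h7 := half_prod y D hy
    have h8 : rD D y = (∏ p ∈ (((y + 1).primesBelow).filter (fun p => ¬ p ∣ D)).filter (fun p => y / 2 < p),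
        (1 - 1 / ((p : ℕ) : ℝ))) * φ := by
      rw [hφ, hS]
      unfold rD
      rw [prod_filter_mul_prod_filter_not]
    rw [h8, mul_comm]
    exact mul_le_mul_of_nonneg_right h7 hφ0.le
  refine h2.trans ?_
  rw [h5]
  calc (W2 : ℝ) * φ * ((M1 / W2 : ℕ) + 1) ≤ (W2 : ℝ) * φ * (M1 / W2 + M1 / W2) := by gcongr
    _ = 8 * M1 * (φ * (1 / 4)) := by field_simp; ring
    _ ≤ _ := by
        apply mul_le_mul_of_nonneg_left h6
        positivity

end Pool.Agent.Y877.RO
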