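import Mathlib
import Pool.Agent.Y877.RoA
import Pool.Agent.H362R2.QT.Fin2

/-! Conversions (helper877). -/

set_option autoImplicit false

namespace Pool.Agent.Y877.RO

open Finset Filter Topology
open Pool.Agent.H378R2 Pool.Agent.H387R2 Pool.Agent.H387R2.MB Pool.Agent.H362R2.QT

theorem nuT_shift (T : Finset ℕ) (x0 p : ℕ) (hp : 0 < p) :
    Uni.nuT (T.image (fun t => t + x0)) p = Uni.nuT T p := by
  classical
  unfold Uni.nuT
  have h1 : (T.image (fun t => t + x0)).image (· % p) = (T.image (· % p)).image (fun r => (r + x0) % p) := by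
    rw [image_image, image_image]
    apply image_congr
    intro t _
    simp only [Function.comp_apply, Nat.mod_add_mod]
  rw [h1]
  apply card_image_of_injOn
  intro r hr r' hr' h
  rw [mem_coe, mem_image] at hr hr'
  obtain ⟨t, _, rfl⟩ := hr
  obtain ⟨t', _, rfl⟩ := hr'
  simp only at h ⊢
  have h2 : t % p + x0 ≡ t' % p + x0 [MOD p] := h
  have h3 : t % p ≡ t' % p [MOD p] := Nat.ModEq.add_right_cancel' x0 h2
  exact Nat.ModEq.eq_of_lt_of_lt h3 (Nat.mod_lt _ hp) (Nat.mod_lt _ hp)

theorem CT_shift (T : Finset ℕ) (x0 : ℕ) : Uni.CT (T.image (fun t => t + x0)) = Uni.CT T := by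
  classical
  unfold Uni.CT
  apply tprod_congr
  intro p
  unfold Uni.locT
  rw [nuT_shift T x0 p p.2.pos, card_image_of_injective _ (add_left_injective x0)]

/-- a translate of a pattern with few realisations is good in few classes -/
theorem bad_conv (k : ℕ) (C : ℝ) : ∀ᶠ N : ℕ in atTop, ∀ (κ κ' : ℝ), 0 ≤ κ → 0 < κ' →
    ∀ (T : Finset ℕ) (x0 : ℕ), T.card = k + 1 → (∀ t ∈ T, t + x0 ≤ ⌊Real.log N ^ C⌋₊) →
    (piN N T : ℝ) < κ * Uni.CT T * (N / Real.log N ^ (k + 1)) →
    κ' * nG κ' k N ⌊Real.log (Real.log N)⌋₊ (T.image (fun t => t + x0)) ≤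
      2 * κ * Uni.gT (Uni.WW ⌊Real.log (Real.log N)⌋₊) (T.image (fun t => t + x0)) := by
  classical
  have tN : Tendsto (fun N : ℕ => (N : ℝ)) atTop atTop := tendsto_natCast_atTop_atTop
  have tL : Tendsto (fun N : ℕ => Real.log (N : ℝ)) atTop atTop := Real.tendsto_log_atTop.comp tN
  have tX : Tendsto (fun N : ℕ => (N : ℝ) / 4) atTop atTop := tN.atTop_div_const (by norm_num)
  filter_upwards [CTS k 1 C (by norm_num), M_le_sqrt C, (LL_tendsto.comp tX).eventually_ge_atTop 1,
    tX.eventually_ge_atTop (40 + (k + 1)), tL.eventually_ge_atTop 1] with N h2 h5 h6 h7 hL1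
  intro κ κ' hκ hκ' T x0 hT hTM hbad
  set M := ⌊Real.log N ^ C⌋₊ with hM
  set X := (N:ℝ) / 4 with hX
  set y := ⌊Real.log (Real.log (N:ℝ))⌋₊ with hy
  set W := Uni.WW y with hW
  set L := Real.log (N:ℝ) with hL
  set T' := T.image (fun t => t + x0) with hT'
  have hL0 : 0 < L := by linarith
  have hLL1 : 1 ≤ LL X := h6
  have hLL0 : 0 < LL X := by linarith
  have hρ := rho_pos y
  have hWpos : 0 < W := Uni.WW_pos y
  have hW0 : (0:ℝ) < W := by exact_mod_cast hWpos
  have hk0 : (0:ℝ) ≤ k := Nat.cast_nonneg k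
  have hX40 : 40 ≤ X := by linarith
  have hX0 : 0 < X := by linarith
  have hNX : (N:ℝ) = 4 * X := by rw [hX]; ring
  have hLLL2 : 200 * LL X ≤ L := by
    unfold LL
    rw [show 200 * (Real.log X / 200) = Real.log X by ring, hL]
    apply Real.log_le_log hX0
    linarith
  set V : ℝ := N / L ^ (k + 1) with hV
  have hV0 : 0 ≤ V := by positivity
  have hMl : X / 20 ≤ MPhi X := MPhi_ge X hX40
  have hMP : 0 < MPhi X := lt_of_lt_of_le (by positivity) hMl
  have hUe : ∀ g : ℝ, g * UU (k + 1) X y = ((1 / rho y) ^ (k + 1) * (g / W)) * (MPhi X / LL X ^ (k + 1)) := by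
    intro g
    unfold UU
    rw [← hW, mul_pow, one_div_pow]
    field_simp
  have hU : 0 < UU (k + 1) X y := by unfold UU; positivity
  have hr1 : V ≤ MPhi X / LL X ^ (k + 1) := by
    have h9 : (200:ℝ) ^ (k + 1) / 80 * V ≤ MPhi X / LL X ^ (k + 1) := by
      rw [hV, hNX]
      have : (200:ℝ) ^ (k + 1) / 80 * (4 * X / L ^ (k + 1)) = (X / 20) / (L / 200) ^ (k + 1) := by
        rw [div_pow]; field_simp; ring
      rw [this]
      apply div_le_div₀ (MPhi_nonneg X) hMl (by positivity)
      apply pow_le_pow_left₀ hLL0.le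
      linarith
    refine le_trans ?_ h9
    have h10 : (1:ℝ) ≤ 200 ^ (k + 1) / 80 := by
      rw [le_div_iff₀ (by norm_num)]
      calc (1:ℝ) * 80 ≤ 200 ^ 1 := by norm_num
        _ ≤ 200 ^ (k + 1) := pow_le_pow_right₀ (by norm_num) (by omega)
    exact le_mul_of_one_le_left hV0 h10
  have hMX : (M:ℝ) ≤ X := by
    refine h5.trans ?_
    rw [Real.sqrt_le_left hX0.le, sq]
    calc X = X * 1 := (mul_one X).symm
      _ ≤ X * X := mul_le_mul_of_nonneg_left (by linarith) hX0.le
  -- the counts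
  have hMN : M ≤ N := by
    have h8 : (M : ℝ) ≤ N := by rw [hNX]; linarith
    exact_mod_cast h8
  obtain ⟨t0, ht0⟩ : T.Nonempty := by rw [← card_pos]; omega
  have hx0 : x0 ≤ M := by have := hTM t0 ht0; omega
  have p1 : ST N T' ≤ Uni.cnt k (N - M) T' := ST_le_cnt (k := k) (M := M) T' (by linarith) hMX
  have p2 : Uni.cnt k (N - M) T' ≤ piN N T := by
    unfold Uni.cnt piN
    refine card_le_card_of_injOn (fun n => n + x0) ?_ (fun a _ b _ h => by simpa using h)
    intro n hn
    rw [mem_coe, mem_filter, mem_Ioc] at hn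
    rw [mem_coe, mem_filter, mem_Icc]
    refine ⟨⟨by simp only; omega, by simp only; omega⟩, fun t ht => ?_⟩
    have := hn.2 (t + x0) (by rw [hT']; exact mem_image_of_mem _ ht)
    simp only
    rw [show n + x0 + t = n + (t + x0) by ring]
    exact this
  have p3 : ST N T' ≤ piN N T := p1.trans (by exact_mod_cast p2)
  have p4 := ST_ge κ' k N y T'
  have hT'c : T'.card = k + 1 := by rw [hT', card_image_of_injective _ (add_left_injective x0), hT]
  have p5 := (h2 T' hT'c (by
    intro t ht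
    rw [hT', mem_image] at ht
    obtain ⟨t1, ht1, rfl⟩ := ht
    exact hTM t1 ht1)).2
  rw [hT', CT_shift, ← hT'] at p5
  have hCT := Uni.CT_nonneg T
  have p6 : (nG κ' k N y T' : ℝ) * (κ' * UU (k + 1) X y) ≤ 2 * κ * Uni.gT W T' * UU (k + 1) X y := by
    refine p4.trans (p3.trans (hbad.le.trans ?_))
    rw [hUe]
    set zz := (1 / rho y) ^ (k + 1) * ((Uni.gT W T' : ℝ) / W) with hzz
    have hzz0 : 0 ≤ zz := by positivity
    calc κ * Uni.CT T * (N / L ^ (k + 1)) ≤ κ * ((1 + 1) * zz) * (MPhi X / LL X ^ (k + 1)) := by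
          gcongr
      _ = _ := by rw [hzz]; ring
  have p7 : (κ' * nG κ' k N y T') * UU (k + 1) X y ≤ (2 * κ * Uni.gT W T') * UU (k + 1) X y := by
    refine le_trans (le_of_eq ?_) p6
    ring
  exact le_of_mul_le_mul_right p7 hU

open Classical in
/-- few functions are not injective -/
theorem noninj {ι : Type} [Fintype ι] [DecidableEq ι] (J : ι → Finset ℕ) (M : ℕ) (hJ : ∀ x, (J x).card = M) :
    ((Fintype.piFinset J).filter (fun A => ¬ Function.Injective A)).card ≤
      (Fintype.card ι) ^ 2 * M ^ (Fintype.card ι - 1) := by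
  have h1 : (Fintype.piFinset J).filter (fun A => ¬ Function.Injective A) ⊆
      ((univ : Finset (ι × ι)).filter (fun z => z.1 ≠ z.2)).biUnion (fun z =>
        (Fintype.piFinset J).filter (fun A => A z.1 = A z.2)) := by
    intro A hA
    rw [mem_filter] at hA
    obtain ⟨hA1, hA2⟩ := hA
    unfold Function.Injective at hA2
    push Not at hA2
    obtain ⟨a, b, hab, hne⟩ := hA2
    rw [mem_biUnion]
    exact ⟨(a, b), mem_filter.2 ⟨mem_univ _, hne⟩, mem_filter.2 ⟨hA1, hab⟩⟩
  refine (card_le_card h1).trans (card_biUnion_le.trans ?_)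
  have h2 : ∀ z ∈ (univ : Finset (ι × ι)).filter (fun z => z.1 ≠ z.2),
      ((Fintype.piFinset J).filter (fun A => A z.1 = A z.2)).card ≤ M ^ (Fintype.card ι - 1) := by
    rintro ⟨a, b⟩ hz
    have hne : a ≠ b := (mem_filter.1 hz).2
    have h3 : ((Fintype.piFinset J).filter (fun A => A a = A b)).card ≤
        (Fintype.piFinset (fun x : {x : ι // x ≠ b} => J x.1)).card := by
      refine card_le_card_of_injOn (fun A => fun x => A x.1) ?_ ?_
      · intro A hA
        rw [mem_coe, mem_filter, Fintype.mem_piFinset] at hA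
        rw [mem_coe, Fintype.mem_piFinset]
        exact fun x => hA.1 x.1
      · intro A hA B hB hAB
        rw [mem_coe, mem_filter] at hA hB
        funext x
        by_cases hx : x = b
        · rw [hx, ← hA.2, ← hB.2]
          exact congrFun hAB ⟨a, hne⟩
        · exact congrFun hAB ⟨x, hx⟩
    refine h3.trans (le_of_eq ?_)
    rw [Fintype.card_piFinset]
    simp only [hJ, prod_const, card_univ]
    congr 1
    rw [Fintype.card_subtype_compl, Fintype.card_subtype_eq]
  refine (sum_le_card_nsmul _ _ _ h2).trans ?_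
  rw [smul_eq_mul]
  apply Nat.mul_le_mul_right
  refine (card_filter_le _ _).trans ?_
  rw [card_univ, Fintype.card_prod, sq]

end Pool.Agent.Y877.RO
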