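import Mathlib
import Pool.Agent.Y877.RoC
import Pool.Agent.Y877.RoB
import Pool.Agent.Y877.RoE
import Pool.Agent.Y877.CombA

/-! Configurations of pairs with small explicit multipliers (helper877). -/

set_option autoImplicit false

namespace Pool.Agent.Y877.RO

open Finset Filter Topology
open Pool.Agent.H387R2 Pool.Agent.H387R2.MB Pool.Agent.H387R2.Uni
open Pool.Agent.H386R2.HL

theorem prod_inv_ge (D : ℕ) (hD : 1 ≤ D) (s : Finset ℕ) (hs : ∀ p ∈ s, p.Prime ∧ p ∣ D) :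
    1 / (D : ℝ) ≤ ∏ p ∈ s, (1 / (p : ℝ)) := by
  have h1 : ∏ p ∈ s, p ∣ D := Finset.prod_primes_dvd D (fun p hp => (hs p hp).1.prime) (fun p hp => (hs p hp).2)
  have h2 : ∏ p ∈ s, p ≤ D := Nat.le_of_dvd hD h1
  have h3 : 0 < ∏ p ∈ s, p := prod_pos fun p hp => (hs p hp).1.pos
  have h4 : ∏ p ∈ s, (1 / (p : ℝ)) = 1 / ((∏ p ∈ s, p : ℕ) : ℝ) := by
    push_cast
    rw [prod_div_distrib, prod_const_one]
  rw [h4]
  apply one_div_le_one_div_of_le
  · exact_mod_cast h3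
  · exact_mod_cast h2

/-- lower bound for the number of the admissible classes of a configuration -/
theorem gT_lower2 (n D y : ℕ) (hn : 1 ≤ n) (hD0 : 1 ≤ D) (hD : ∀ p : ℕ, p.Prime → p ≤ 4 * n ^ 2 → p ∣ D)
    (T : Finset ℕ) (hT : T.card ≤ n) (hTD : ∀ p : ℕ, p.Prime → p ∣ D → nuT T p < p) :
    1 / (2 * (D : ℝ)) * WW y * rD D y ^ n ≤ gT (WW y) T := by
  classical
  have hW0 : (0 : ℝ) < WW y := by exact_mod_cast WW_pos y
  have hDr : (0 : ℝ) < D := by exact_mod_cast hD0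
  have h1 := prod_one_sub_nu (en T) ((y + 1).primesBelow) (fun p hp => Nat.prime_of_mem_primesBelow hp)
  change _ = (gg (WW y) (en T) : ℝ) / (WW y : ℝ) at h1
  rw [gg_en] at h1
  have h2 : (gT (WW y) T : ℝ) = WW y * ∏ p ∈ (y + 1).primesBelow, (1 - (nuT T p : ℝ) / p) := by
    have h3 : ∏ p ∈ (y + 1).primesBelow, (1 - (nuT T p : ℝ) / p) = (gT (WW y) T : ℝ) / WW y := by
      rw [← h1]
      refine prod_congr rfl fun p _ => ?_
      rw [nu_en]
    rw [h3]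
    field_simp
  rw [h2, ← prod_filter_mul_prod_filter_not ((y + 1).primesBelow) (fun p => p ∣ D)]
  have h3 : 1 / (D : ℝ) ≤ ∏ p ∈ ((y + 1).primesBelow).filter (fun p => p ∣ D), (1 - (nuT T p : ℝ) / p) := by
    refine (prod_inv_ge D hD0 (((y + 1).primesBelow).filter (fun p => p ∣ D)) fun p hp =>
      ⟨Nat.prime_of_mem_primesBelow (mem_filter.1 hp).1, (mem_filter.1 hp).2⟩).trans ?_
    refine prod_le_prod (fun p hp => by positivity) fun p hp => ?_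
    have hpp := Nat.prime_of_mem_primesBelow (mem_filter.1 hp).1
    have hpD := (mem_filter.1 hp).2
    have hp0 : (0 : ℝ) < p := by exact_mod_cast hpp.pos
    have h4 : (nuT T p : ℝ) + 1 ≤ p := by exact_mod_cast hTD p hpp hpD
    have h5 : 1 - (nuT T p : ℝ) / p = (p - nuT T p) / p := by field_simp
    rw [h5]
    apply div_le_div_of_nonneg_right _ hp0.le
    linarith
  have h4 : 1 / 2 * rD D y ^ n ≤
      ∏ p ∈ ((y + 1).primesBelow).filter (fun p => ¬ p ∣ D), (1 - (nuT T p : ℝ) / p) := by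
    have h5 : ∀ p ∈ ((y + 1).primesBelow).filter (fun p => ¬ p ∣ D), 4 * n ^ 2 < p := by
      intro p hp
      by_contra hcon
      exact (mem_filter.1 hp).2 (hD p (Nat.prime_of_mem_primesBelow (mem_filter.1 hp).1) (not_lt.1 hcon))
    have h6 : ∏ p ∈ ((y + 1).primesBelow).filter (fun p => ¬ p ∣ D),
        ((1 - (n : ℝ) ^ 2 * ((p : ℝ) ^ 2)⁻¹) * (1 - 1 / (p : ℝ)) ^ n) ≤
        ∏ p ∈ ((y + 1).primesBelow).filter (fun p => ¬ p ∣ D), (1 - (nuT T p : ℝ) / p) := by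
      refine prod_le_prod (fun p hp => ?_) fun p hp => ?_
      · have hpp := Nat.prime_of_mem_primesBelow (mem_filter.1 hp).1
        have h7 := h5 p hp
        apply mul_nonneg _ (pow_nonneg (fac_pos hpp).le _)
        have hp0 : (0 : ℝ) < p := by exact_mod_cast hpp.pos
        have h8 : (n : ℝ) ≤ p := by
          have : n ≤ p := by nlinarith
          exact_mod_cast this
        have h9 : (n : ℝ) ^ 2 * ((p : ℝ) ^ 2)⁻¹ ≤ 1 := by
          rw [← div_eq_mul_inv, div_le_one (by positivity)]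
          exact pow_le_pow_left₀ (Nat.cast_nonneg _) h8 2
        linarith
      · refine (loc_ge n p hn (h5 p hp)).trans ?_
        have hpp := Nat.prime_of_mem_primesBelow (mem_filter.1 hp).1
        have hp0 : (0 : ℝ) < p := by exact_mod_cast hpp.pos
        have h7 : (nuT T p : ℝ) ≤ n := by
          have : nuT T p ≤ n := (card_image_le.trans hT)
          exact_mod_cast this
        have h8 : (nuT T p : ℝ) / p ≤ n / p := div_le_div_of_nonneg_right h7 hp0.le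
        linarith
    refine le_trans ?_ h6
    rw [prod_mul_distrib, prod_pow]
    refine mul_le_mul_of_nonneg_right ?_ (pow_nonneg (rD_pos D y).le _)
    refine le_trans ?_ (one_sub_sum_le _ (fun p : ℕ => (n : ℝ) ^ 2 * ((p : ℝ) ^ 2)⁻¹) (fun p _ => by positivity)
      (fun p hp => ?_))
    · have h7 : ∑ p ∈ ((y + 1).primesBelow).filter (fun p => ¬ p ∣ D), (n : ℝ) ^ 2 * ((p : ℝ) ^ 2)⁻¹ ≤
          (n : ℝ) ^ 2 * ∑ p ∈ Ioc (4 * n ^ 2) (4 * n ^ 2 + y), (((p : ℕ) : ℝ) ^ 2)⁻¹ := by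
        rw [mul_sum]
        refine sum_le_sum_of_subset_of_nonneg (fun p hp => ?_) (fun _ _ _ => by positivity)
        rw [mem_Ioc]
        refine ⟨h5 p hp, ?_⟩
        have := Nat.lt_of_mem_primesBelow (mem_filter.1 hp).1
        omega
      have hn0 : (0 : ℝ) < n := by exact_mod_cast hn
      have h8 := sum_Ioc_inv_sq_le_sub (α := ℝ) (k := 4 * n ^ 2) (n := 4 * n ^ 2 + y)
        (Nat.mul_pos (by norm_num) (pow_pos hn 2)).ne' (by omega)
      have h9 : ((4 * n ^ 2 : ℕ) : ℝ)⁻¹ - ((4 * n ^ 2 + y : ℕ) : ℝ)⁻¹ ≤ (4 * (n : ℝ) ^ 2)⁻¹ := by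
        have : (0 : ℝ) ≤ ((4 * n ^ 2 + y : ℕ) : ℝ)⁻¹ := by positivity
        push_cast at this ⊢
        linarith
      have h10 : (n : ℝ) ^ 2 * ∑ p ∈ Ioc (4 * n ^ 2) (4 * n ^ 2 + y), (((p : ℕ) : ℝ) ^ 2)⁻¹ ≤
          (n : ℝ) ^ 2 * (4 * (n : ℝ) ^ 2)⁻¹ := mul_le_mul_of_nonneg_left (h8.trans h9) (by positivity)
      have h11 : (n : ℝ) ^ 2 * (4 * (n : ℝ) ^ 2)⁻¹ = 1 / 4 := by field_simp
      linarith
    · have h7 := h5 p hp
      have hpp := Nat.prime_of_mem_primesBelow (mem_filter.1 hp).1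
      have hp0 : (0 : ℝ) < p := by exact_mod_cast hpp.pos
      have h8 : (n : ℝ) ≤ p := by
        have : n ≤ p := by nlinarith
        exact_mod_cast this
      rw [← div_eq_mul_inv, div_le_one (by positivity)]
      exact pow_le_pow_left₀ (Nat.cast_nonneg _) h8 2
  calc 1 / (2 * (D : ℝ)) * WW y * rD D y ^ n = WW y * (1 / (D : ℝ) * (1 / 2 * rD D y ^ n)) := by
        field_simp
    _ ≤ _ := by
        apply mul_le_mul_of_nonneg_left _ hW0.le
        exact mul_le_mul h3 h4 (mul_nonneg (by norm_num) (pow_nonneg (rD_pos D y).le _))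
          (le_trans (by positivity) h3)

/-- the density of the shifts is at most `b` times the density of the reduced classes -/
theorem rD_le (b y : ℕ) (hb : 1 ≤ b) : rD b y ≤ b * rho y := by
  have h1 := rho_split b y
  have h2 : 1 / (b : ℝ) ≤ dD b y := by
    unfold dD
    refine (prod_inv_ge b hb (((y + 1).primesBelow).filter (fun p => p ∣ b)) fun p hp =>
      ⟨Nat.prime_of_mem_primesBelow (mem_filter.1 hp).1, (mem_filter.1 hp).2⟩).trans ?_
    refine prod_le_prod (fun p hp => by positivity) fun p hp => ?_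
    have hpp := Nat.prime_of_mem_primesBelow (mem_filter.1 hp).1
    have h3 : (2 : ℝ) ≤ p := by exact_mod_cast hpp.two_le
    have h4 : 1 / (p : ℝ) ≤ 1 / 2 := one_div_le_one_div_of_le (by norm_num) h3
    linarith
  have hb0 : (0 : ℝ) < b := by exact_mod_cast hb
  have h3 := rD_pos b y
  rw [h1]
  have h4 : 1 / (b : ℝ) * rD b y ≤ dD b y * rD b y := mul_le_mul_of_nonneg_right h2 h3.le
  calc rD b y = b * (1 / (b : ℝ) * rD b y) := by field_simp
    _ ≤ _ := mul_le_mul_of_nonneg_left h4 hb0.le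

open Classical in
/-- many configurations whose differences are multiples of members of a dense set -/
theorem cfgs (T K' : ℕ) (hT : 1 ≤ T) (hK' : 1 ≤ K') (m : Fin T → ℕ) (hm : Function.Injective m)
    (D : ℕ) (hD : 1 ≤ D) (ε : ℝ) (hε : 0 < ε) (hε1 : ε ≤ 1) : ∃ (C₁ : ℕ) (κA : ℝ), 1 ≤ C₁ ∧ 0 < κA ∧ κA ≤ 1 ∧
    ∀ H : ℕ, C₁ ≤ H → ∀ u : ℕ, ∀ B : Finset ℕ, B ⊆ Ioc u (u + H) → ε * H ≤ B.card →
    ∃ (Ac : Finset (Fin T × Fin K' → ℕ)) (k0 : ℕ), (∀ A ∈ Ac, Function.Injective A ∧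
      (∀ x, A x ∈ Icc (u * m x.1) (u * m x.1 + C₁ * H)) ∧
      (∀ x x', x.1 ≠ x'.1 → ∃ k ∈ B, (A x : ℤ) - A x' = ((m x.1 : ℤ) - m x'.1) * k) ∧
      ∀ x, (D : ℤ) ∣ (A x : ℤ) - m x.1 * k0) ∧
      κA * ((C₁ * H + 1 : ℕ) : ℝ) ^ (T * K') ≤ Ac.card := by
  obtain ⟨C, κ, hC, hκ, hκ1, HA⟩ := combA T hT m hm D hD ε hε hε1
  have hDr : (0 : ℝ) < D := by exact_mod_cast hD
  have hD1 : (1 : ℝ) ≤ D := by exact_mod_cast hD
  obtain ⟨κ₁, hκ₁⟩ : ∃ κ₁, κ₁ = κ / D := ⟨_, rfl⟩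
  have hκ₁0 : 0 < κ₁ := by rw [hκ₁]; positivity
  have hκ₁1 : κ₁ ≤ 1 := by rw [hκ₁, div_le_one hDr]; linarith
  obtain ⟨κB, hκB⟩ : ∃ κB, κB = κ₁ ^ (K' ^ T) := ⟨_, rfl⟩
  have hκB0 : 0 < κB := by rw [hκB]; positivity
  have hκB1 : κB ≤ 1 := by rw [hκB]; exact pow_le_one₀ hκ₁0.le hκ₁1
  obtain ⟨n, hn⟩ : ∃ n, n = T * K' := ⟨_, rfl⟩
  have hn1 : 1 ≤ n := by rw [hn]; exact Nat.mul_pos hT hK'
  obtain ⟨C₁, hC₁⟩ : ∃ C₁ : ℕ, C₁ = C + ⌈2 * (n : ℝ) ^ 2 / κB⌉₊ := ⟨_, rfl⟩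
  refine ⟨C₁, κB / 2 * (1 / (C₁ + 1 : ℕ) : ℝ) ^ n, by omega, by positivity, ?_, fun H hH u B hB hBc => ?_⟩
  · have h1 : ((1 : ℝ) / ((C₁ + 1 : ℕ) : ℝ)) ^ n ≤ 1 := by
      apply pow_le_one₀ (by positivity)
      rw [div_le_one (by positivity)]
      push_cast
      linarith [(Nat.cast_nonneg C₁ : (0 : ℝ) ≤ C₁)]
    have h2 : 0 ≤ ((1 : ℝ) / ((C₁ + 1 : ℕ) : ℝ)) ^ n := by positivity
    nlinarith
  have hCH : C ≤ H := by omega
  have hHn : 2 * (n : ℝ) ^ 2 / κB ≤ H := by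
    refine (Nat.le_ceil _).trans ?_
    exact_mod_cast (by omega : ⌈2 * (n : ℝ) ^ 2 / κB⌉₊ ≤ H)
  have hH1 : 1 ≤ H := by omega
  have hHr : (1 : ℝ) ≤ H := by exact_mod_cast hH1
  obtain ⟨J, hJ⟩ : ∃ J : Fin T → Finset ℕ, J = fun g => Icc (u * m g) (u * m g + C * H) := ⟨_, rfl⟩
  obtain ⟨M1, hM1⟩ : ∃ M1, M1 = C * H + 1 := ⟨_, rfl⟩
  have hJc : ∀ g, (J g).card = M1 := by
    intro g
    rw [hJ, hM1]
    simp only [Nat.card_Icc]
    omega
  have hM1H : (H : ℝ) ≤ M1 := by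
    have : H ≤ M1 := by
      rw [hM1]
      exact (Nat.le_mul_of_pos_left H hC).trans (Nat.le_succ _)
    exact_mod_cast this
  have hM10 : (0 : ℝ) < M1 := lt_of_lt_of_le (by linarith) hM1H
  obtain ⟨Tc, hTc⟩ : ∃ Tc, Tc = (Fintype.piFinset J).filter (fun x => PB B m D x) := ⟨_, rfl⟩
  have hTcc : κ * ∏ g : Fin T, ((J g).card : ℝ) ≤ Tc.card := by
    rw [hTc, hJ]
    exact HA H hCH u B hB hBc
  -- one residue class
  have hres : ∀ x ∈ Tc, ∃ k0 ∈ range D, ∀ g, (D : ℤ) ∣ (x g : ℤ) - m g * k0 := by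
    intro x hx
    rw [hTc, mem_filter] at hx
    obtain ⟨k, _, hk⟩ := hx.2.2
    refine ⟨k % D, mem_range.2 (Nat.mod_lt _ hD), fun g => ?_⟩
    have h1 := hk g
    have h2 : (D : ℤ) ∣ (k : ℤ) - (k % D : ℕ) := by
      rw [Int.natCast_mod]
      exact Int.dvd_self_sub_emod
    have h3 : (x g : ℤ) - m g * (k % D : ℕ) = ((x g : ℤ) - m g * k) + m g * ((k : ℤ) - (k % D : ℕ)) := by ring
    rw [h3]
    exact dvd_add h1 (dvd_mul_of_dvd_right h2 _)
  choose! cl hcl hcl2 using hres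
  obtain ⟨k0, -, hk0⟩ := exists_le_card_fiber_of_nsmul_le_card_of_maps_to
    (s := Tc) (t := range D) (f := cl) (b := κ₁ * ∏ g : Fin T, ((J g).card : ℝ))
    hcl (by rw [nonempty_range_iff]; omega) (by
      rw [card_range, nsmul_eq_mul, hκ₁]
      refine le_trans (le_of_eq ?_) hTcc
      field_simp)
  obtain ⟨Tk, hTk⟩ : ∃ Tk, Tk = Tc.filter (fun x => cl x = k0) := ⟨_, rfl⟩
  rw [← hTk] at hk0
  obtain ⟨A0, hA0, hblow⟩ := blow' K' hK' T J Tk κ₁ hκ₁0.le (fun x hx g => by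
    rw [hTk, hTc, mem_filter, mem_filter, Fintype.mem_piFinset] at hx
    exact hx.1.1 g) hk0
  have hblow' : κB * (M1 : ℝ) ^ n ≤ A0.card := by
    have e0 : (∏ g, ((J g).card : ℝ)) ^ K' = (M1 : ℝ) ^ n := by
      rw [prod_congr rfl (fun g _ => by rw [hJc g]), prod_const, card_univ, Fintype.card_fin, ← pow_mul, hn]
    rw [e0, ← hκB] at hblow
    exact hblow
  obtain ⟨Ac, hAc⟩ : ∃ Ac, Ac = A0.filter (fun A => Function.Injective A) := ⟨_, rfl⟩
  have hcI : Fintype.card (Fin T × Fin K') = n := by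
    rw [Fintype.card_prod, Fintype.card_fin, Fintype.card_fin, hn]
  have hAcc : κB / 2 * (M1 : ℝ) ^ n ≤ Ac.card := by
    have e1 := noninj (ι := Fin T × Fin K') (fun x => J x.1) M1 (fun x => hJc x.1)
    rw [hcI] at e1
    have e2 : A0.card ≤ Ac.card + ((Fintype.piFinset (fun x : Fin T × Fin K' => J x.1)).filter
        (fun A => ¬ Function.Injective A)).card := by
      rw [hAc, ← card_filter_add_card_filter_not (s := A0) (fun A => Function.Injective A)]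
      apply Nat.add_le_add_left
      apply card_le_card
      apply filter_subset_filter
      intro A hA
      rw [Fintype.mem_piFinset]
      exact (hA0 A hA).1
    have e3 : (A0.card : ℝ) ≤ Ac.card + (n : ℝ) ^ 2 * (M1 : ℝ) ^ (n - 1) := by
      exact_mod_cast e2.trans (Nat.add_le_add_left e1 _)
    have e4 : (n : ℝ) ^ 2 * (M1 : ℝ) ^ (n - 1) ≤ κB / 2 * (M1 : ℝ) ^ n := by
      have e5 : (M1 : ℝ) ^ n = M1 * (M1 : ℝ) ^ (n - 1) := by
        rw [← pow_succ', Nat.sub_add_cancel hn1]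
      rw [e5, ← mul_assoc]
      apply mul_le_mul_of_nonneg_right _ (by positivity)
      have e6 := hHn.trans hM1H
      rw [div_le_iff₀ hκB0] at e6
      linarith
    linarith
  refine ⟨Ac, k0, fun A hA => ?_, ?_⟩
  · rw [hAc, mem_filter] at hA
    obtain ⟨hA1, hAinj⟩ := hA
    obtain ⟨hAJ, hAc2⟩ := hA0 A hA1
    have hne : ∀ x : Fin T × Fin K', ∃ c : Fin T → Fin K', c x.1 = x.2 := fun x => ⟨fun _ => x.2, rfl⟩
    have hch : ∀ x x' : Fin T × Fin K', x.1 ≠ x'.1 → ∃ c : Fin T → Fin K', c x.1 = x.2 ∧ c x'.1 = x'.2 := by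
      intro x x' hxx
      refine ⟨fun g => if g = x.1 then x.2 else x'.2, if_pos rfl, if_neg (Ne.symm hxx)⟩
    have hin : ∀ c : Fin T → Fin K', (fun g => A (g, c g)) ∈ Tc ∧ cl (fun g => A (g, c g)) = k0 := by
      intro c
      have := hAc2 c
      rw [hTk, mem_filter] at this
      exact this
    refine ⟨hAinj, fun x => ?_, fun x x' hxx => ?_, fun x => ?_⟩
    · have h1 := hAJ x
      rw [hJ] at h1
      have h2 := mem_Icc.1 h1
      rw [mem_Icc]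
      refine ⟨h2.1, h2.2.trans ?_⟩
      apply Nat.add_le_add_left
      exact Nat.mul_le_mul_right H (by omega)
    · obtain ⟨c, hc1, hc2⟩ := hch x x' hxx
      have h1 := (hin c).1
      rw [hTc, mem_filter] at h1
      obtain ⟨k, hk, hk2⟩ := h1.2.1 x.1 x'.1
      refine ⟨k, hk, ?_⟩
      simp only [hc1, hc2, Prod.mk.eta] at hk2
      exact hk2
    · obtain ⟨c, hc1⟩ := hne x
      have h1 := hcl2 _ (hin c).1 x.1
      rw [(hin c).2] at h1
      simp only [hc1, Prod.mk.eta] at h1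
      exact h1
  · refine le_trans ?_ hAcc
    have h1 : ((C₁ * H + 1 : ℕ) : ℝ) ≤ ((C₁ + 1 : ℕ) : ℝ) * M1 := by
      push_cast
      have h2 : (0 : ℝ) ≤ C₁ := Nat.cast_nonneg _
      have h3 : (C₁ : ℝ) * H ≤ C₁ * M1 := mul_le_mul_of_nonneg_left hM1H h2
      have h4 : (1 : ℝ) ≤ M1 := hHr.trans hM1H
      nlinarith
    have h2 : ((C₁ * H + 1 : ℕ) : ℝ) ^ n ≤ (((C₁ + 1 : ℕ) : ℝ) * M1) ^ n := pow_le_pow_left₀ (by positivity) h1 n
    rw [← hn]
    calc κB / 2 * (1 / ((C₁ + 1 : ℕ) : ℝ)) ^ n * ((C₁ * H + 1 : ℕ) : ℝ) ^ n ≤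
        κB / 2 * (1 / ((C₁ + 1 : ℕ) : ℝ)) ^ n * (((C₁ + 1 : ℕ) : ℝ) * M1) ^ n := by gcongr
      _ = κB / 2 * (M1 : ℝ) ^ n := by
          rw [mul_pow, one_div_pow]
          field_simp

end Pool.Agent.Y877.RO
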