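import Mathlib
import Pool.Agent.Y877.Comb

/-! Many homothetic configurations in dense sets of vectors (helper877). -/

set_option autoImplicit false

namespace Pool.Agent.Y877

open Finset Pool.Agent.H602R3.DHJ

open Classical in
/-- many translates contain a line -/
theorem count_zr {α : Type} [Fintype α] [Nonempty α] {N : ℕ} (r : ℕ) (ε : ℝ)
    (hN : ∀ A : Set (Fin N → α), LFr A → dn A < ε / (2 * 4 ^ r))
    (H : ℕ) (hH : 1 ≤ H) (u₀ : Fin r → ℤ) (v : (Fin N → α) → Fin r → ℤ) (hv : ∀ t l, |v t l| ≤ H)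
    (B : Finset (Fin r → ℤ)) (hB : B ⊆ Fintype.piFinset (fun l => Ioc (u₀ l) (u₀ l + H)))
    (hBc : ε * (H : ℝ) ^ r ≤ B.card) (hε : 0 < ε) :
    ε / 2 * (H : ℝ) ^ r ≤ (((Fintype.piFinset (fun l => Icc (u₀ l - H) (u₀ l + 2 * H))).filter
      (fun z : Fin r → ℤ => ∃ V : Fin N → α ⊕ Unit, Pr V ∧ ∀ a, z + v (ap V (fun _ => a)) ∈ B)).card : ℝ) := by
  obtain ⟨Y, hY⟩ : ∃ Y, Y = Fintype.piFinset (fun l => Icc (u₀ l - H) (u₀ l + 2 * H)) := ⟨_, rfl⟩
  rw [← hY]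
  have hHr : (1 : ℝ) ≤ H := by exact_mod_cast hH
  have hYc : (Y.card : ℝ) ≤ (4 * H) ^ r := by
    rw [hY, Fintype.card_piFinset]
    have h1 : ∀ l, (Icc (u₀ l - H) (u₀ l + 2 * H)).card = 3 * H + 1 := by
      intro l
      rw [Int.card_Icc]
      omega
    simp only [h1, prod_const, card_univ, Fintype.card_fin]
    push_cast
    apply pow_le_pow_left₀ (by positivity)
    linarith
  have hcnt : ∀ t, (B.card : ℝ) ≤ ∑ z ∈ Y, (if z + v t ∈ B then (1 : ℝ) else 0) := by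
    intro t
    rw [← sum_filter, sum_const, nsmul_eq_mul, mul_one, Nat.cast_le]
    apply card_le_card_of_injOn (fun b : Fin r → ℤ => b - v t)
    · intro b hb
      have hb1 := Fintype.mem_piFinset.1 (hB (mem_coe.1 hb))
      rw [mem_coe, mem_filter, hY, Fintype.mem_piFinset]
      refine ⟨fun l => ?_, ?_⟩
      · have h1 := mem_Ioc.1 (hb1 l)
        have h2 := abs_le.1 (hv t l)
        rw [mem_Icc]
        show u₀ l - H ≤ b l - v t l ∧ b l - v t l ≤ u₀ l + 2 * H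
        constructor <;> linarith [h1.1, h1.2, h2.1, h2.2]
      · show b - v t + v t ∈ B
        rw [sub_add_cancel]
        exact hb
    · intro b _ b' _ h
      have h1 : b - v t = b' - v t := h
      exact sub_left_injective h1
  obtain ⟨W, hW⟩ : ∃ W : (Fin r → ℤ) → Set (Fin N → α), ∀ z t, t ∈ W z ↔ z + v t ∈ B :=
    ⟨fun z => {t | z + v t ∈ B}, fun z t => Iff.rfl⟩
  have hTpos : (0 : ℝ) < Fintype.card (Fin N → α) := by exact_mod_cast Fintype.card_pos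
  have hdn : ∀ z, dn (W z) = (∑ t, (if z + v t ∈ B then (1 : ℝ) else 0)) /
      Fintype.card (Fin N → α) := by
    intro z
    unfold dn av
    congr 1
    refine sum_congr rfl fun t _ => ?_
    rw [Set.indicator_apply]
    exact if_congr (hW z t) rfl rfl
  have hdn1 : ∀ z, dn (W z) ≤ 1 := fun z => dn_le_one _
  have hsum : ε * (H : ℝ) ^ r ≤ ∑ z ∈ Y, dn (W z) := by
    simp_rw [hdn]
    rw [← sum_div, sum_comm, le_div_iff₀ hTpos]
    have h1 : ∑ _t : Fin N → α, (B.card : ℝ) ≤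
        ∑ t, ∑ z ∈ Y, (if z + v t ∈ B then (1 : ℝ) else 0) :=
      sum_le_sum fun t _ => hcnt t
    rw [sum_const, card_univ, nsmul_eq_mul] at h1
    calc ε * (H : ℝ) ^ r * (Fintype.card (Fin N → α) : ℝ)
        ≤ B.card * (Fintype.card (Fin N → α) : ℝ) := mul_le_mul_of_nonneg_right hBc hTpos.le
      _ = (Fintype.card (Fin N → α) : ℝ) * B.card := mul_comm _ _
      _ ≤ _ := h1
  obtain ⟨Gd, hG⟩ : ∃ Gd : Finset (Fin r → ℤ), Gd = Y.filter (fun z => ε / (2 * 4 ^ r) ≤ dn (W z)) :=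
    ⟨_, rfl⟩
  have hGc : ε / 2 * (H : ℝ) ^ r ≤ Gd.card := by
    have h1 : ∑ z ∈ Y, dn (W z) ≤
        ∑ z ∈ Y, ((if ε / (2 * 4 ^ r) ≤ dn (W z) then (1 : ℝ) else 0) + ε / (2 * 4 ^ r)) := by
      refine sum_le_sum fun z _ => ?_
      split_ifs with h0
      · have := hdn1 z
        have h2 : 0 < ε / (2 * 4 ^ r) := by positivity
        linarith
      · push Not at h0
        linarith
    rw [sum_add_distrib, ← sum_filter, sum_const, sum_const, nsmul_eq_mul, nsmul_eq_mul, mul_one,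
      ← hG] at h1
    have h2 : (Y.card : ℝ) * (ε / (2 * 4 ^ r)) ≤ (4 * H) ^ r * (ε / (2 * 4 ^ r)) :=
      mul_le_mul_of_nonneg_right hYc (by positivity)
    have h3 : (4 * (H : ℝ)) ^ r * (ε / (2 * 4 ^ r)) = ε / 2 * (H : ℝ) ^ r := by
      rw [mul_pow]
      field_simp
    linarith
  refine hGc.trans ?_
  rw [Nat.cast_le]
  apply card_le_card
  intro z hz
  rw [hG, mem_filter] at hz
  refine mem_filter.2 ⟨hz.1, ?_⟩
  have hnl : ¬ LFr (W z) := fun hl => absurd (hN _ hl) (not_lt.2 hz.2)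
  unfold LFr at hnl
  push Not at hnl
  obtain ⟨V, hV, hVW⟩ := hnl
  exact ⟨V, hV, fun a => (hW z _).1 (hVW a)⟩

/-- the displacement -/
def dsp {Λ ι : Type} [Fintype ι] {r : ℕ} (w : Λ → ι → Fin r → ℤ) (a : Λ) (y : ι → ℕ) : Fin r → ℤ :=
  fun l => ∑ g, w a g l * y g

open Classical in
/-- **Many configurations.** -/
theorem varn {Λ ι : Type} [Fintype Λ] [Fintype ι] (r : ℕ) (w : Λ → ι → Fin r → ℤ) (l₀ : Λ)
    (hl₀ : ∀ g l, w l₀ g l = 0) (ε : ℝ) (hε : 0 < ε) (hε1 : ε ≤ 1) : ∃ (C : ℕ) (κ : ℝ), 1 ≤ C ∧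
    0 < κ ∧ κ ≤ 1 ∧ ∀ H : ℕ, C ≤ H → ∀ u : Fin r → ℤ, ∀ E : Finset (Fin r → ℤ),
    E ⊆ Fintype.piFinset (fun l => Ioc (u l) (u l + H)) → ε * (H : ℝ) ^ r ≤ E.card →
    κ * (H : ℝ) ^ (r + Fintype.card ι) ≤ (((E ×ˢ (Fintype.piFinset (fun _ : ι => range H))).filter
      (fun p => ∀ a, p.1 + dsp w a p.2 ∈ E)).card : ℝ) := by
  have : Nonempty Λ := ⟨l₀⟩
  obtain ⟨N, hN⟩ := dhjT Λ (ε / (2 * 4 ^ r)) (by positivity)
  obtain ⟨M, hM⟩ : ∃ M : ℕ, M = ∑ a, ∑ g, ∑ l, (w a g l).natAbs := ⟨_, rfl⟩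
  have hwM : ∀ a l, ∑ g, |w a g l| ≤ (M : ℤ) := by
    intro a l
    have h1 : ∑ g, (w a g l).natAbs ≤ M := by
      rw [hM]
      have h2 : ∑ g, (w a g l).natAbs ≤ ∑ g, ∑ l, (w a g l).natAbs :=
        sum_le_sum fun g _ => single_le_sum (f := fun l => (w a g l).natAbs)
          (fun _ _ => Nat.zero_le _) (mem_univ l)
      exact h2.trans (single_le_sum (f := fun a => ∑ g, ∑ l, (w a g l).natAbs)
        (fun _ _ => Nat.zero_le _) (mem_univ a))
    have h2 : ∑ g, |w a g l| = ((∑ g, (w a g l).natAbs : ℕ) : ℤ) := by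
      push_cast
      rfl
    rw [h2]
    exact_mod_cast h1
  obtain ⟨Q, hQ⟩ : ∃ Q : ℕ, Q = N * M + N + 1 := ⟨_, rfl⟩
  have hQ0 : 0 < Q := by omega
  obtain ⟨L, hL⟩ : ∃ L : ℕ, L = Fintype.card (Fin N → Λ ⊕ Unit) := ⟨_, rfl⟩
  have hL0 : 0 < L := by
    rw [hL]
    exact Fintype.card_pos
  have hL1 : (1 : ℝ) ≤ L := by exact_mod_cast hL0
  have hQr : (1 : ℝ) ≤ Q := by exact_mod_cast hQ0
  obtain ⟨T, hT⟩ : ∃ T, T = Fintype.card ι := ⟨_, rfl⟩
  have hpow1 : (1 : ℝ) ≤ (2 * Q) ^ T := one_le_pow₀ (by linarith)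
  rw [← hT]
  refine ⟨Q, ε / 2 / (L * (2 * Q) ^ T), hQ0, by positivity, ?_, ?_⟩
  · rw [div_le_one (by positivity)]
    nlinarith
  intro H hQH' u E hE hEc
  have hH1 : 1 ≤ H := by omega
  have hHr : (1 : ℝ) ≤ H := by exact_mod_cast hH1
  obtain ⟨h₀, hh₀⟩ : ∃ h₀, h₀ = H / Q := ⟨_, rfl⟩
  have hQH : Q * h₀ ≤ H := by rw [hh₀]; exact Nat.mul_div_le H Q
  have hh₀1 : 1 ≤ h₀ := by
    rw [hh₀]
    exact (Nat.one_le_div_iff hQ0).2 (by omega)
  have hh₀r : (H : ℝ) / (2 * Q) ≤ h₀ := by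
    have h1 : H < Q * (h₀ + 1) := by rw [hh₀]; exact Nat.lt_mul_div_succ H hQ0
    rw [div_le_iff₀ (by positivity)]
    have h3 : H ≤ h₀ * (2 * Q) := by nlinarith
    exact_mod_cast h3
  obtain ⟨v, hv⟩ : ∃ v : (ι → ℕ) → (Fin N → Λ) → Fin r → ℤ,
    ∀ h t l, v h t l = ∑ j, dsp w (t j) h l := ⟨fun h t l => ∑ j, dsp w (t j) h l, fun _ _ _ => rfl⟩
  have hvb : ∀ h : ι → ℕ, (∀ g, h g < h₀) → ∀ t l, |v h t l| ≤ H := by
    intro h hh t l
    rw [hv]
    have h1 : ∀ j, |dsp w (t j) h l| ≤ (M : ℤ) * h₀ := by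
      intro j
      unfold dsp
      calc |∑ g, w (t j) g l * (h g : ℤ)| ≤ ∑ g, |w (t j) g l * (h g : ℤ)| := abs_sum_le_sum_abs _ _
        _ ≤ ∑ g, |w (t j) g l| * (h₀ : ℤ) := by
            refine sum_le_sum fun g _ => ?_
            rw [abs_mul, Nat.abs_cast]
            apply mul_le_mul_of_nonneg_left _ (abs_nonneg _)
            exact_mod_cast (hh g).le
        _ = (∑ g, |w (t j) g l|) * h₀ := by rw [sum_mul]
        _ ≤ (M : ℤ) * h₀ := mul_le_mul_of_nonneg_right (hwM _ _) (Nat.cast_nonneg _)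
    calc |∑ j, dsp w (t j) h l|
        ≤ ∑ j, |dsp w (t j) h l| := abs_sum_le_sum_abs _ _
      _ ≤ ∑ _j : Fin N, (M : ℤ) * h₀ := sum_le_sum fun j _ => h1 j
      _ = (N * M : ℕ) * h₀ := by
          rw [sum_const, card_univ, Fintype.card_fin, nsmul_eq_mul]
          push_cast
          ring
      _ ≤ (Q : ℕ) * h₀ := by
          apply mul_le_mul_of_nonneg_right _ (Nat.cast_nonneg _)
          rw [hQ]
          push_cast
          have : (0 : ℤ) ≤ N := Nat.cast_nonneg _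
          linarith
      _ ≤ H := by exact_mod_cast hQH
  have hline : ∀ (h : ι → ℕ) (V : Fin N → Λ ⊕ Unit) (l : Fin r), ∃ s : ℤ, ∀ a,
      v h (ap V (fun _ => a)) l = s + act V * dsp w a h l := by
    intro h V l
    simp only [hv]
    exact line_sum V (fun a => dsp w a h l)
  choose s hs using hline
  obtain ⟨Y, hY⟩ : ∃ Y, Y = Fintype.piFinset (fun l => Icc (u l - H) (u l + 2 * H)) := ⟨_, rfl⟩
  obtain ⟨G, hG⟩ : ∃ G : (ι → ℕ) → Finset (Fin r → ℤ), G = fun h => Y.filter (fun z =>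
      ∃ V : Fin N → Λ ⊕ Unit, Pr V ∧ ∀ a, z + v h (ap V (fun _ => a)) ∈ E) := ⟨_, rfl⟩
  obtain ⟨X, hX⟩ : ∃ X : Finset (ι → ℕ), X = Fintype.piFinset (fun _ : ι => range h₀) := ⟨_, rfl⟩
  have hGc : ∀ h ∈ X, ε / 2 * (H : ℝ) ^ r ≤ (G h).card := by
    intro h hh
    rw [hX, Fintype.mem_piFinset] at hh
    rw [hG, hY]
    exact count_zr r ε hN H hH1 u (v h) (hvb h fun g => mem_range.1 (hh g)) E hE hEc hε
  obtain ⟨S, hS⟩ : ∃ S : Finset (Σ _ : ι → ℕ, Fin r → ℤ), S = X.sigma G := ⟨_, rfl⟩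
  have hXc : (X.card : ℝ) = (h₀ : ℝ) ^ T := by
    rw [hX, Fintype.card_piFinset, hT]
    simp
  have hSc : (h₀ : ℝ) ^ T * (ε / 2 * (H : ℝ) ^ r) ≤ S.card := by
    rw [hS, card_sigma, Nat.cast_sum, ← hXc, ← nsmul_eq_mul]
    exact card_nsmul_le_sum _ _ _ hGc
  have hVy : ∀ p : (Σ _ : ι → ℕ, Fin r → ℤ), ∃ V : Fin N → Λ ⊕ Unit, p ∈ S → Pr V ∧
      ∀ a, p.2 + v p.1 (ap V (fun _ => a)) ∈ E := by
    intro p
    by_cases hp : p ∈ S
    · rw [hS, mem_sigma, hG] at hp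
      obtain ⟨V, hV⟩ := (mem_filter.1 hp.2).2
      exact ⟨V, fun _ => hV⟩
    · exact ⟨fun _ => Sum.inr (), fun h => absurd h hp⟩
  choose Vy hVy using hVy
  obtain ⟨V, -, hVc⟩ := exists_le_card_fiber_of_nsmul_le_card_of_maps_to
    (s := S) (t := univ) (f := Vy) (b := (h₀ : ℝ) ^ T * (ε / 2 * (H : ℝ) ^ r) / L)
    (fun _ _ => mem_univ _) univ_nonempty (by
      rw [card_univ, ← hL, nsmul_eq_mul, mul_div_cancel₀ _ (by positivity)]
      exact hSc)
  have hpos : 0 < (h₀ : ℝ) ^ T * (ε / 2 * (H : ℝ) ^ r) / L := by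
    have h1 : (0 : ℝ) < h₀ := lt_of_lt_of_le (by positivity) hh₀r
    positivity
  obtain ⟨I, hI⟩ : ∃ I : ℕ, I = act V := ⟨_, rfl⟩
  have hne : (S.filter (fun p => Vy p = V)).Nonempty := by
    rw [← card_pos]
    exact_mod_cast hpos.trans_le hVc
  have hI0 : 0 < I := by
    obtain ⟨p, hp⟩ := hne
    have h1 := mem_filter.1 hp
    obtain ⟨h2, -⟩ := hVy p h1.1
    rw [h1.2] at h2
    rw [hI]
    exact act_pos V h2
  have hIN : I ≤ N := by
    rw [hI]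
    exact act_le V
  have hdsp : ∀ a h, dsp w a (fun g => I * h g) = fun l => (I : ℤ) * dsp w a h l := by
    intro a h
    funext l
    unfold dsp
    rw [mul_sum]
    refine sum_congr rfl fun g _ => ?_
    push_cast
    ring
  -- the configuration given by a member of the fibre
  have key : ∀ (h : ι → ℕ) (z : Fin r → ℤ),
      (⟨h, z⟩ : (Σ _ : ι → ℕ, Fin r → ℤ)) ∈ S.filter (fun p => Vy p = V) →
      (∀ g, h g < h₀) ∧ ∀ a, (fun l => z l + s h V l) + dsp w a (fun g => I * h g) ∈ E := by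
    intro h z hp
    have h1 := mem_filter.1 hp
    obtain ⟨h2, h3⟩ := hVy _ h1.1
    rw [h1.2] at h3
    simp only at h3
    have hhX := h1.1
    rw [hS, mem_sigma, hX, Fintype.mem_piFinset] at hhX
    refine ⟨fun g => mem_range.1 (hhX.1 g), fun a => ?_⟩
    have h4 := h3 a
    have h5 : z + v h (ap V (fun _ => a)) = (fun l => z l + s h V l) + dsp w a (fun g => I * h g) := by
      rw [hdsp]
      funext l
      rw [Pi.add_apply, Pi.add_apply, hs, ← hI]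
      ring
    rw [h5] at h4
    exact h4
  have hzero : ∀ y : ι → ℕ, dsp w l₀ y = 0 := by
    intro y
    funext l
    unfold dsp
    simp [hl₀]
  obtain ⟨Tu, hTu⟩ : ∃ Tu, Tu = (E ×ˢ (Fintype.piFinset (fun _ : ι => range H))).filter
      (fun p => ∀ a, p.1 + dsp w a p.2 ∈ E) := ⟨_, rfl⟩
  rw [← hTu]
  have hinj : (S.filter (fun p => Vy p = V)).card ≤ Tu.card := by
    refine card_le_card_of_injOn (fun p : (Σ _ : ι → ℕ, Fin r → ℤ) =>
      ((fun l => p.2 l + s p.1 V l : Fin r → ℤ), (fun g => I * p.1 g : ι → ℕ))) ?_ ?_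
    · rintro ⟨h, z⟩ hp
      obtain ⟨h1, h2⟩ := key h z (mem_coe.1 hp)
      rw [mem_coe, hTu, mem_filter, mem_product, Fintype.mem_piFinset]
      refine ⟨⟨?_, fun g => ?_⟩, h2⟩
      · have h3 := h2 l₀
        rw [hzero, add_zero] at h3
        exact h3
      · rw [mem_range]
        show I * h g < H
        calc I * h g < I * h₀ := Nat.mul_lt_mul_of_pos_left (h1 g) hI0
          _ ≤ Q * h₀ := Nat.mul_le_mul_right _ (by omega)
          _ ≤ H := hQH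
    · rintro ⟨h, z⟩ _ ⟨h', z'⟩ _ heq
      simp only [Prod.mk.injEq] at heq
      obtain ⟨h1, h2⟩ := heq
      have h3 : h = h' := by
        funext g
        exact Nat.eq_of_mul_eq_mul_left hI0 (congrFun h2 g)
      subst h3
      have h4 : z = z' := by
        funext l
        have h5 : z l + s h V l = z' l + s h V l := congrFun h1 l
        linarith
      rw [h4]
  have h5 : (h₀ : ℝ) ^ T * (ε / 2 * (H : ℝ) ^ r) / L ≤ Tu.card := hVc.trans (by exact_mod_cast hinj)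
  refine le_trans ?_ h5
  have h9 : (H : ℝ) ^ T ≤ ((2 * Q) * h₀) ^ T := by
    apply pow_le_pow_left₀ (by positivity)
    rw [div_le_iff₀ (by positivity)] at hh₀r
    linarith
  rw [mul_pow] at h9
  rw [pow_add]
  calc ε / 2 / (L * (2 * Q) ^ T) * ((H : ℝ) ^ r * (H : ℝ) ^ T)
      ≤ ε / 2 / (L * (2 * Q) ^ T) * ((H : ℝ) ^ r * ((2 * Q) ^ T * (h₀ : ℝ) ^ T)) :=
        mul_le_mul_of_nonneg_left (mul_le_mul_of_nonneg_left h9 (by positivity)) (by positivity)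
    _ = (h₀ : ℝ) ^ T * (ε / 2 * (H : ℝ) ^ r) / L := by
        field_simp

end Pool.Agent.Y877
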