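import Mathlib
import Pool.Agent.Y877.Varn
import Pool.Agent.TH899.UG.BoxP

/-! Blow-ups of homothetic configurations in dense sets of vectors (helper877). -/

set_option autoImplicit false

namespace Pool.Agent.Y877

open Finset Pool.Agent.H602R3.DHJ

/-- words -/
abbrev Wd (k N : ℕ) : Type := Fin N → Fin (k + 1)

/-- lines -/
abbrev Ln (k N : ℕ) : Type := Fin N → Fin (k + 1) ⊕ Unit

/-- the point number `i` of a line -/
def pt {k N : ℕ} (V : Ln k N) (i : Fin (k + 1)) : Wd k N := ap V (fun _ => i)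

open Classical in
theorem pt_active {k N : ℕ} (V : Ln k N) (i : Fin (k + 1)) (j : Fin N) :
    pt V i j = (match V j with | Sum.inl b => b | Sum.inr _ => i) := by
  unfold pt ap
  rcases V j with b | u <;> rfl

theorem pt_inj {k N : ℕ} (V : Ln k N) (hV : Pr V) : Function.Injective (pt V) := by
  intro i i' h
  obtain ⟨j, hj⟩ := hV ()
  have h1 := congrFun h j
  unfold pt ap at h1
  rw [hj] at h1
  exact h1

/-- the number of the letters `l + 1` -/
def cnt {k N : ℕ} (t : Wd k N) (l : Fin k) : ℕ := (univ.filter (fun j => t j = l.succ)).card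

theorem sum_cnt {k N : ℕ} (t : Wd k N) : ∑ l, cnt t l ≤ N := by
  classical
  unfold cnt
  have h1 : ∑ l : Fin k, (univ.filter (fun j => t j = l.succ)).card =
      (univ.filter (fun j => t j ≠ 0)).card := by
    rw [← card_biUnion]
    · congr 1
      ext j
      simp only [mem_biUnion, mem_univ, true_and, mem_filter]
      constructor
      · rintro ⟨l, hl⟩
        rw [hl]
        exact Fin.succ_ne_zero l
      · intro h
        obtain ⟨l, hl⟩ := Fin.exists_succ_eq.2 h
        exact ⟨l, hl.symm⟩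
    · intro l _ l' _ hll
      rw [Function.onFun, disjoint_left]
      intro j hj hj'
      have h1 := (mem_filter.1 hj).2
      have h2 := (mem_filter.1 hj').2
      rw [h1] at h2
      exact hll (Fin.succ_injective k h2)
  rw [h1]
  exact (card_le_univ _).trans (by rw [Fintype.card_fin])

/-- along a line -/
theorem cnt_pt {k N : ℕ} (V : Ln k N) (l l' : Fin k) :
    (cnt (pt V l.succ) l' : ℤ) - cnt (pt V 0) l' = if l' = l then (act V : ℤ) else 0 := by
  classical
  have h1 : ∀ i : Fin (k + 1), (cnt (pt V i) l' : ℤ) =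
      ((univ.filter (fun j => V j = Sum.inl l'.succ)).card : ℤ) +
      ((univ.filter (fun j => V j = Sum.inr () ∧ i = l'.succ)).card : ℤ) := by
    intro i
    unfold cnt
    rw [← Nat.cast_add, ← card_union_of_disjoint]
    · congr 2
      ext j
      simp only [mem_filter, mem_univ, true_and, mem_union]
      unfold pt ap
      rcases hVj : V j with b | u
      · simp
      · simp
    · rw [disjoint_left]
      intro j hj hj'
      have h2 := (mem_filter.1 hj).2
      have h3 := (mem_filter.1 hj').2.1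
      rw [h2] at h3
      exact absurd h3 (by simp)
  rw [h1, h1]
  have h0 : (univ.filter (fun j => V j = Sum.inr () ∧ (0 : Fin (k + 1)) = l'.succ)) = (∅ : Finset (Fin N)) := by
    apply filter_false_of_mem
    rintro j _ ⟨-, h⟩
    exact Fin.succ_ne_zero l' h.symm
  rw [h0, card_empty]
  by_cases hl : l' = l
  · subst hl
    rw [if_pos rfl]
    have h2 : (univ.filter (fun j => V j = Sum.inr () ∧ l'.succ = l'.succ)) =
        (univ.filter (fun j => V j = Sum.inr ())) := by
      apply filter_congr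
      intro j _
      simp
    rw [h2]
    have h3 : (univ.filter (fun j => V j = Sum.inr ())).card = act V := by
      unfold act
      congr 1
      ext j
      simp only [mem_filter]
    rw [h3, Nat.cast_zero, add_zero, add_sub_cancel_left]
  · rw [if_neg hl]
    have h2 : (univ.filter (fun j => V j = Sum.inr () ∧ l.succ = l'.succ)) = (∅ : Finset (Fin N)) := by
      apply filter_false_of_mem
      rintro j _ ⟨-, h⟩
      exact hl (Fin.succ_injective k h).symm
    rw [h2, card_empty, sub_self]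

/-- the configurations -/
def PT {k N : ℕ} (E : Finset (Fin k → ℤ)) (x : Wd k N → ℤ) : Prop :=
  ∀ V : Ln k N, Pr V → ∃ h ∈ E, ∀ l, x (pt V l.succ) - x (pt V 0) = act V * h l

open Classical in
/-- many configurations -/
theorem combC (k N : ℕ) (ε : ℝ) (hε : 0 < ε) (hε1 : ε ≤ 1) : ∃ (C : ℕ) (κ : ℝ), 1 ≤ C ∧
    0 < κ ∧ κ ≤ 1 ∧ ∀ H : ℕ, C ≤ H → ∀ u : Fin k → ℤ, ∀ E : Finset (Fin k → ℤ),
    E ⊆ Fintype.piFinset (fun l => Ioc (u l) (u l + H)) → ε * (H : ℝ) ^ k ≤ E.card →
    κ * ∏ t : Wd k N, ((Icc (∑ l, (cnt t l : ℤ) * u l) (∑ l, (cnt t l : ℤ) * u l + C * H)).card : ℝ) ≤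
      (((Fintype.piFinset (fun t : Wd k N => Icc (∑ l, (cnt t l : ℤ) * u l)
        (∑ l, (cnt t l : ℤ) * u l + C * H))).filter (fun x => PT E x)).card : ℝ) := by
  -- the multiplier
  obtain ⟨W, hW⟩ : ∃ W : ℕ, W = N.factorial := ⟨_, rfl⟩
  have hW0 : 0 < W := by rw [hW]; exact Nat.factorial_pos _
  have hdW : ∀ V : Ln k N, Pr V → act V * (W / act V) = W := by
    intro V hV
    apply Nat.mul_div_cancel'
    rw [hW]
    exact Nat.dvd_factorial (act_pos V hV) (act_le V)
  obtain ⟨w, hw0, hw1⟩ : ∃ w : Option (Ln k N) → Wd k N → Fin k → ℤ, (∀ g l, w none g l = 0) ∧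
      ∀ V g l, w (some V) g l = ((W / act V : ℕ) : ℤ) *
        ((if g = pt V l.succ then 1 else 0) - (if g = pt V 0 then 1 else 0)) :=
    ⟨fun a g l => match a with
      | none => 0
      | some V => ((W / act V : ℕ) : ℤ) * ((if g = pt V l.succ then 1 else 0) - (if g = pt V 0 then 1 else 0)),
      fun _ _ => rfl, fun _ _ _ => rfl⟩
  have hdsp : ∀ (V : Ln k N) (y : Wd k N → ℕ) (l : Fin k), dsp w (some V) y l =
      ((W / act V : ℕ) : ℤ) * ((y (pt V l.succ) : ℤ) - y (pt V 0)) := by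
    intro V y l
    unfold dsp
    simp only [hw1, mul_assoc]
    rw [← mul_sum]
    congr 1
    simp only [sub_mul, ite_mul, one_mul, zero_mul, sum_sub_distrib, sum_ite_eq', mem_univ, if_true]
  obtain ⟨T, hT⟩ : ∃ T, T = Fintype.card (Wd k N) := ⟨_, rfl⟩
  obtain ⟨C₁, κ₁, hC₁, hκ₁, hκ₁1, HV⟩ := varn k w none hw0 ε hε hε1
  obtain ⟨C, hC⟩ : ∃ C : ℕ, C = C₁ + N + W := ⟨_, rfl⟩
  have hC1 : 1 ≤ C := by omega
  have hCr : (1 : ℝ) ≤ C := by exact_mod_cast hC1
  have hpow1 : (1 : ℝ) ≤ (2 * C) ^ T := one_le_pow₀ (by linarith)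
  refine ⟨C, κ₁ / (2 * C) ^ T, hC1, by positivity, ?_, ?_⟩
  · rw [div_le_one (by positivity)]
    linarith
  intro H hCH u E hE hEc
  have hH1 : 1 ≤ H := by omega
  have hHr : (1 : ℝ) ≤ H := by exact_mod_cast hH1
  have h1 := HV H (by omega) u E hE hEc
  rw [← hT] at h1
  obtain ⟨Tu, hTu⟩ : ∃ Tu, Tu = (Fintype.piFinset (fun t : Wd k N => Icc (∑ l, (cnt t l : ℤ) * u l)
        (∑ l, (cnt t l : ℤ) * u l + C * H))).filter (fun x => PT E x) := ⟨_, rfl⟩
  obtain ⟨Gd, hGd⟩ : ∃ Gd, Gd = (E ×ˢ (Fintype.piFinset (fun _ : Wd k N => range H))).filter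
      (fun p => ∀ a, p.1 + dsp w a p.2 ∈ E) := ⟨_, rfl⟩
  have h1' : κ₁ * (H : ℝ) ^ (k + T) ≤ Gd.card := by
    refine h1.trans (le_of_eq (Nat.cast_inj.2 (congrArg Finset.card ?_)))
    rw [hGd]
    ext p
    simp only [mem_filter, mem_product, Fintype.mem_piFinset]
  rw [← hTu]
  have hinj : Gd.card ≤ (E ×ˢ Tu).card := by
    refine card_le_card_of_injOn (fun p : (Fin k → ℤ) × (Wd k N → ℕ) =>
      (p.1, (fun t => ∑ l, (cnt t l : ℤ) * p.1 l + W * p.2 t : Wd k N → ℤ))) ?_ ?_
    · rintro ⟨h, y⟩ hp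
      rw [mem_coe, hGd, mem_filter, mem_product, Fintype.mem_piFinset] at hp
      obtain ⟨⟨hp1, hp2⟩, hp3⟩ := hp
      simp only at hp1 hp2 hp3
      rw [mem_coe, mem_product]
      refine ⟨hp1, ?_⟩
      have hu := Fintype.mem_piFinset.1 (hE hp1)
      show (fun t => ∑ l, (cnt t l : ℤ) * h l + W * y t : Wd k N → ℤ) ∈ Tu
      rw [hTu]
      refine mem_filter.2 ⟨Fintype.mem_piFinset.2 fun t => mem_Icc.2 ⟨?_, ?_⟩, fun V hV => ?_⟩
      · have h2 : ∑ l, (cnt t l : ℤ) * u l ≤ ∑ l, (cnt t l : ℤ) * h l :=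
          sum_le_sum fun l _ => mul_le_mul_of_nonneg_left (mem_Ioc.1 (hu l)).1.le (Nat.cast_nonneg _)
        have h3 : (0 : ℤ) ≤ W * y t := by positivity
        linarith
      · have h2 : ∑ l, (cnt t l : ℤ) * h l ≤ ∑ l, (cnt t l : ℤ) * u l + N * H := by
          have h3 : ∑ l, (cnt t l : ℤ) * h l ≤ ∑ l, ((cnt t l : ℤ) * u l + (cnt t l : ℤ) * H) := by
            refine sum_le_sum fun l _ => ?_
            rw [← mul_add]
            exact mul_le_mul_of_nonneg_left (mem_Ioc.1 (hu l)).2 (Nat.cast_nonneg _)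
          rw [sum_add_distrib, ← sum_mul] at h3
          have h4 : (∑ l, (cnt t l : ℤ)) * (H : ℤ) ≤ N * H := by
            apply mul_le_mul_of_nonneg_right _ (Nat.cast_nonneg _)
            exact_mod_cast sum_cnt t
          linarith
        have h3 : (W : ℤ) * y t ≤ W * H := by
          apply mul_le_mul_of_nonneg_left _ (Nat.cast_nonneg _)
          exact_mod_cast (mem_range.1 (hp2 t)).le
        have h4 : (C : ℤ) * H = C₁ * H + N * H + W * H := by rw [hC]; push_cast; ring
        have h5 : (0 : ℤ) ≤ C₁ * H := by positivity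
        linarith
      · refine ⟨h + dsp w (some V) y, hp3 (some V), fun l => ?_⟩
        have e1 : (act V : ℤ) * ((W / act V : ℕ) : ℤ) = W := by exact_mod_cast hdW V hV
        rw [Pi.add_apply, hdsp]
        have e2 : (∑ l', (cnt (pt V l.succ) l' : ℤ) * h l') - ∑ l', (cnt (pt V 0) l' : ℤ) * h l' =
            act V * h l := by
          rw [← sum_sub_distrib]
          have e3 : ∀ l', (cnt (pt V l.succ) l' : ℤ) * h l' - (cnt (pt V 0) l' : ℤ) * h l' =
              if l' = l then (act V : ℤ) * h l' else 0 := by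
            intro l'
            rw [← sub_mul, cnt_pt]
            split_ifs <;> ring
          simp only [e3, sum_ite_eq', mem_univ, if_true]
        calc (∑ l', (cnt (pt V l.succ) l' : ℤ) * h l' + W * y (pt V l.succ)) -
              (∑ l', (cnt (pt V 0) l' : ℤ) * h l' + W * y (pt V 0))
            = ((∑ l', (cnt (pt V l.succ) l' : ℤ) * h l') - ∑ l', (cnt (pt V 0) l' : ℤ) * h l') +
              W * ((y (pt V l.succ) : ℤ) - y (pt V 0)) := by ring
          _ = act V * h l + (act V * ((W / act V : ℕ) : ℤ)) * ((y (pt V l.succ) : ℤ) - y (pt V 0)) := by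
              rw [e2, e1]
          _ = _ := by ring
    · rintro ⟨h, y⟩ _ ⟨h', y'⟩ _ heq
      simp only [Prod.mk.injEq] at heq
      obtain ⟨h2, h3⟩ := heq
      subst h2
      have h4 : y = y' := by
        funext t
        have h5 := congrFun h3 t
        have h6 : (W : ℤ) * y t = W * y' t := by linarith
        have h7 : (y t : ℤ) = y' t := mul_left_cancel₀ (by exact_mod_cast hW0.ne') h6
        exact_mod_cast h7
      rw [h4]
  rw [card_product] at hinj
  have hEH : (E.card : ℝ) ≤ (H : ℝ) ^ k := by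
    have h2 := card_le_card hE
    rw [Fintype.card_piFinset] at h2
    have h3 : ∀ l, (Ioc (u l) (u l + (H : ℤ))).card = H := by
      intro l
      rw [Int.card_Ioc]
      omega
    simp only [h3, prod_const, card_univ, Fintype.card_fin] at h2
    exact_mod_cast h2
  have h5 : κ₁ * (H : ℝ) ^ (k + T) ≤ (H : ℝ) ^ k * Tu.card := by
    refine h1'.trans ?_
    have h6 : (Gd.card : ℝ) ≤ (E.card : ℝ) * Tu.card := by exact_mod_cast hinj
    exact h6.trans (mul_le_mul_of_nonneg_right hEH (Nat.cast_nonneg _))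
  have h6 : κ₁ * (H : ℝ) ^ T ≤ Tu.card := by
    have h7 : κ₁ * (H : ℝ) ^ (k + T) = (H : ℝ) ^ k * (κ₁ * (H : ℝ) ^ T) := by rw [pow_add]; ring
    rw [h7] at h5
    exact le_of_mul_le_mul_left h5 (by positivity)
  refine le_trans ?_ h6
  have h8 : ∏ t : Wd k N, ((Icc (∑ l, (cnt t l : ℤ) * u l) (∑ l, (cnt t l : ℤ) * u l + C * H)).card : ℝ) =
      (C * H + 1 : ℝ) ^ T := by
    have h9 : ∀ t : Wd k N, ((Icc (∑ l, (cnt t l : ℤ) * u l)
        (∑ l, (cnt t l : ℤ) * u l + C * H)).card : ℝ) = C * H + 1 := by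
      intro t
      rw [Int.card_Icc]
      have : (∑ l, (cnt t l : ℤ) * u l + C * H + 1 - ∑ l, (cnt t l : ℤ) * u l).toNat = C * H + 1 := by
        have e : ∑ l, (cnt t l : ℤ) * u l + C * H + 1 - ∑ l, (cnt t l : ℤ) * u l = ((C * H + 1 : ℕ) : ℤ) := by
          push_cast; ring
        rw [e, Int.toNat_natCast]
      rw [this]
      push_cast
      ring
    rw [prod_congr rfl fun g _ => h9 g, prod_const, card_univ, hT]
  rw [h8]
  have h9 : (C * H + 1 : ℝ) ^ T ≤ ((2 * C) * H) ^ T := by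
    apply pow_le_pow_left₀ (by positivity)
    nlinarith
  rw [mul_pow] at h9
  calc κ₁ / (2 * C) ^ T * (C * H + 1 : ℝ) ^ T
      ≤ κ₁ / (2 * C) ^ T * ((2 * C) ^ T * (H : ℝ) ^ T) :=
        mul_le_mul_of_nonneg_left h9 (by positivity)
    _ = κ₁ * (H : ℝ) ^ T := by
        field_simp

end Pool.Agent.Y877
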