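import Mathlib
import Pool.Agent.Y877.RoB
import Pool.Agent.Y877.RoC
import Pool.Agent.Y877.RoD
import Pool.Agent.Y877.RoE
import Pool.Agent.Y877.CombR
import Pool.Agent.Y877.Comb

/-! Almost all tuples have a bounded multiple with the right number of realisations (helper877). -/

set_option autoImplicit false

namespace Pool.Agent.Y877.RO

open Finset Filter Topology Pool.Agent.H602R3.DHJ
open Pool.Agent.H378R2 Pool.Agent.H387R2 Pool.Agent.H387R2.MB Pool.Agent.H362R2.QT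
open Pool.Agent.Y877

/-- a line in every small proportion of the words -/
theorem prop_line (k : ℕ) (δ : ℝ) (hδ : 0 < δ) : ∃ N : ℕ, ∀ S : Finset (Wd k N),
    δ * Fintype.card (Wd k N) ≤ S.card → ∃ V : Ln k N, Pr V ∧ ∀ i, pt V i ∈ S := by
  classical
  obtain ⟨N, hN⟩ := dhjT (Fin (k + 1)) δ hδ
  refine ⟨N, fun S hS => ?_⟩
  have hpos : (0 : ℝ) < Fintype.card (Wd k N) := by exact_mod_cast Fintype.card_pos
  have h1 : δ ≤ dn (S : Set (Wd k N)) := by
    unfold dn av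
    rw [le_div_iff₀ hpos]
    have h2 : ∑ x : Wd k N, (S : Set (Wd k N)).indicator (fun _ => (1 : ℝ)) x = S.card := by
      simp only [Set.indicator_apply, mem_coe]
      rw [sum_ite_mem, univ_inter, sum_const, nsmul_eq_mul, mul_one]
    rw [h2]
    exact hS
  have hnl : ¬ LFr (S : Set (Wd k N)) := fun hl => absurd (hN _ hl) (not_lt.2 h1)
  unfold LFr at hnl
  push Not at hnl
  obtain ⟨V, hV, hVW⟩ := hnl
  exact ⟨V, hV, fun i => mem_coe.1 (hVW i)⟩

/-- the pattern `0, d h 0, d h 1, ...` -/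
def patt {k : ℕ} (d : ℕ) (h : Fin k → ℕ) : Finset ℕ := insert 0 (univ.image (fun l => d * h l))

/-- an admissible pattern of `k + 1` shifts with the expected number of realisations up to a constant -/
def GoodP (κ : ℝ) (k N : ℕ) (T : Finset ℕ) : Prop :=
  T.card = k + 1 ∧ (∀ p : ℕ, p.Prime → Uni.nuT T p < p) ∧
    κ * Uni.CT T * (N / Real.log N ^ (k + 1)) ≤ piN N T

theorem patt_card {k : ℕ} (d : ℕ) (hd : 1 ≤ d) (h : Fin k → ℕ) (hh : Function.Injective h) (h1 : ∀ l, 1 ≤ h l) :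
    (patt d h).card = k + 1 := by
  unfold patt
  rw [card_insert_of_notMem, card_image_of_injective, card_univ, Fintype.card_fin]
  · intro a b hab
    exact hh (Nat.eq_of_mul_eq_mul_left hd hab)
  · intro h2
    obtain ⟨l, _, hl⟩ := mem_image.1 h2
    have := Nat.mul_pos hd (h1 l)
    omega

theorem patt_adm {k : ℕ} (d : ℕ) (hd : ∀ p : ℕ, p.Prime → p ≤ k + 1 → p ∣ d) (h : Fin k → ℕ) (p : ℕ) (hp : p.Prime) :
    Uni.nuT (patt d h) p < p := by
  classical
  unfold Uni.nuT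
  by_cases hpk : p ≤ k + 1
  · have h1 : (patt d h).image (· % p) ⊆ {0} := by
      intro r hr
      obtain ⟨t, ht, rfl⟩ := mem_image.1 hr
      rw [mem_singleton]
      unfold patt at ht
      rw [mem_insert, mem_image] at ht
      rcases ht with rfl | ⟨l, _, rfl⟩
      · exact Nat.zero_mod p
      · exact Nat.mod_eq_zero_of_dvd ((hd p hp hpk).mul_right _)
    have h2 := card_le_card h1
    rw [card_singleton] at h2
    exact lt_of_le_of_lt h2 hp.one_lt
  · have h1 : (patt d h).card ≤ k + 1 := by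
      unfold patt
      refine (card_insert_le _ _).trans ?_
      have := card_image_le (s := (univ : Finset (Fin k))) (f := fun l => d * h l)
      rw [card_univ, Fintype.card_fin] at this
      omega
    exact lt_of_le_of_lt (card_image_le.trans h1) (not_le.1 hpk)

/-- the final computation -/
theorem fincomp (n k : ℕ) (hn : 1 ≤ n) (κA Cs κ' M r a w Ac G : ℝ) (hκA : 0 < κA) (hκA1 : κA ≤ 1) (hCs : 0 < Cs)
    (hκ' : 0 < κ') (hM : 0 < M) (hr : 0 < r) (ha : 0 ≤ a) (hw : 0 < w) (ha1 : a ≤ κA / 32 * (M * r))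
    (h1 : κA / 2 * M ^ n ≤ Ac) (h2 : Ac * (1 / 2 * w * r ^ n) ≤ G)
    (h3 : G ≤ 2 * w * (a ^ n + κA / (32 * Cs ^ n) * (Cs * (M * r)) ^ n +
      2 * (κ' * κA / (64 * ((n : ℝ) ^ (k + 1) * Cs ^ n))) / κ' * ((n : ℝ) ^ (k + 1) * (Cs * (M * r)) ^ n))) : False := by
  have hn0 : (0 : ℝ) < n := by exact_mod_cast hn
  have e1 : κA / (32 * Cs ^ n) * (Cs * (M * r)) ^ n = κA / 32 * (M * r) ^ n := by
    rw [mul_pow]; field_simp
  have e2 : 2 * (κ' * κA / (64 * ((n : ℝ) ^ (k + 1) * Cs ^ n))) / κ' * ((n : ℝ) ^ (k + 1) * (Cs * (M * r)) ^ n) =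
      κA / 32 * (M * r) ^ n := by
    rw [mul_pow]; field_simp; norm_num
  rw [e1, e2] at h3
  have e3 : a ^ n ≤ κA / 32 * (M * r) ^ n := by
    calc a ^ n ≤ (κA / 32 * (M * r)) ^ n := pow_le_pow_left₀ ha ha1 n
      _ = (κA / 32) ^ n * (M * r) ^ n := by rw [mul_pow]
      _ ≤ κA / 32 * (M * r) ^ n := by
          apply mul_le_mul_of_nonneg_right _ (by positivity)
          exact pow_le_of_le_one (by positivity) (by linarith) (by omega)
  have e4 : κA / 4 * w * (M * r) ^ n ≤ G := by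
    refine le_trans ?_ h2
    calc κA / 4 * w * (M * r) ^ n = κA / 2 * M ^ n * (1 / 2 * w * r ^ n) := by rw [mul_pow]; ring
      _ ≤ _ := mul_le_mul_of_nonneg_right h1 (by positivity)
  have e5 : G ≤ 2 * w * (3 * (κA / 32) * (M * r) ^ n) := by
    refine h3.trans (mul_le_mul_of_nonneg_left ?_ (by positivity))
    linarith
  have e6 : 0 < w * (M * r) ^ n * κA := by positivity
  have e7 := e4.trans e5
  nlinarith

/-- the numerical conditions -/
theorem num_ev (lam A₀ : ℝ) (hlam : 0 < lam) : ∀ᶠ N : ℕ in atTop,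
    2 ≤ ⌊Real.log (Real.log (N : ℝ))⌋₊ ∧
    (4 : ℝ) ^ (⌊Real.log (Real.log (N : ℝ))⌋₊ / 2) ≤ lam * Real.log N ∧ A₀ ≤ lam * Real.log N ∧
    A₀ ≤ Real.log N ∧ 1 ≤ Real.log N := by
  have tN : Tendsto (fun N : ℕ => (N : ℝ)) atTop atTop := tendsto_natCast_atTop_atTop
  have tL : Tendsto (fun N : ℕ => Real.log (N : ℝ)) atTop atTop := Real.tendsto_log_atTop.comp tN
  have tu : Tendsto (fun N : ℕ => Real.log (Real.log (N : ℝ))) atTop atTop := Real.tendsto_log_atTop.comp tL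
  have ty : Tendsto (fun N : ℕ => ⌊Real.log (Real.log (N : ℝ))⌋₊) atTop atTop :=
    tendsto_nat_floor_atTop.comp tu
  have te : Tendsto (fun N : ℕ => Real.exp (3 / 10 * Real.log (Real.log (N : ℝ)))) atTop atTop :=
    Real.tendsto_exp_atTop.comp (tu.const_mul_atTop (by norm_num))
  filter_upwards [ty.eventually_ge_atTop 2, te.eventually_ge_atTop (1 / lam), (tL.const_mul_atTop hlam).eventually_ge_atTop A₀,
    tL.eventually_ge_atTop A₀, tL.eventually_ge_atTop 1, tu.eventually_ge_atTop 0] with N h1 h2 h3 h4 h5 h6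
  refine ⟨h1, ?_, h3, h4, h5⟩
  obtain ⟨v, hv⟩ : ∃ v, v = Real.log (Real.log (N : ℝ)) := ⟨_, rfl⟩
  rw [← hv] at h2 h6 ⊢
  have h7 : Real.log N = Real.exp v := by rw [hv, Real.exp_log (by linarith)]
  rw [h7]
  have h8 : (4 : ℝ) ^ (⌊v⌋₊ / 2) ≤ Real.exp (7 / 10 * v) := by
    have e1 : (4 : ℝ) ^ (⌊v⌋₊ / 2) = 2 ^ (2 * (⌊v⌋₊ / 2)) := by rw [pow_mul]; norm_num
    have e2 : (2 : ℝ) ^ (2 * (⌊v⌋₊ / 2)) ≤ 2 ^ ⌊v⌋₊ := pow_le_pow_right₀ (by norm_num) (by omega)
    have e3 : (2 : ℝ) ^ ⌊v⌋₊ = Real.exp (⌊v⌋₊ * Real.log 2) := by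
      rw [Real.exp_nat_mul, Real.exp_log (by norm_num)]
    rw [e1]
    refine e2.trans ?_
    rw [e3]
    apply Real.exp_le_exp.2
    have e4 : (⌊v⌋₊ : ℝ) ≤ v := Nat.floor_le h6
    have e5 : Real.log 2 ≤ 7 / 10 := by have := Real.log_two_lt_d9; linarith
    have e6 : 0 ≤ Real.log 2 := Real.log_nonneg (by norm_num)
    nlinarith
  refine h8.trans ?_
  have h9 : 1 ≤ lam * Real.exp (3 / 10 * v) := by
    rw [div_le_iff₀ hlam] at h2
    linarith
  have h10 : Real.exp v = Real.exp (3 / 10 * v) * Real.exp (7 / 10 * v) := by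
    rw [← Real.exp_add]; congr 1; ring
  rw [h10, ← mul_assoc]
  exact le_mul_of_one_le_left (Real.exp_pos _).le h9

end Pool.Agent.Y877.RO
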