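import Mathlib
import Pool.Agent.Y877.RgB
import Pool.Agent.Y877.RgC
import Pool.Agent.Y877.RoF

/-! Prime pairs of the right order for almost all differences, up to small explicit multipliers (helper877). -/

set_option autoImplicit false

namespace Pool.Agent.Y877.RO

open Finset Filter Topology
open Pool.Agent.H378R2 Pool.Agent.H387R2 Pool.Agent.H387R2.MB Pool.Agent.H362R2.QT

/-- the pair of the shifts `0`, `t` -/
def pp (t : ℕ) : Finset ℕ := {0, t}

theorem pp_card (t : ℕ) (ht : 1 ≤ t) : (pp t).card = 2 := by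
  unfold pp
  rw [card_pair]
  omega

theorem pp_adm (t : ℕ) (ht : 2 ∣ t) (p : ℕ) (hp : p.Prime) : Uni.nuT (pp t) p < p := by
  unfold Uni.nuT pp
  rcases hp.eq_two_or_odd with h | h
  · subst h
    rw [image_insert, image_singleton, Nat.mod_eq_zero_of_dvd ht, Nat.zero_mod]
    simp
  · have h1 : (({0, t} : Finset ℕ).image (· % p)).card ≤ 2 := card_image_le.trans card_le_two
    have h2 := hp.two_le
    omega

/-- the admissibility at one prime of the multiples of a multiplier -/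
theorem nuT_fam (T K' bb k0 p : ℕ) (hp : p.Prime) (m : Fin T → ℕ) (D : ℕ) (hpD : p ∣ D)
    (hadm : ∃ r : ℕ, r < p ∧ ∀ i, bb * m i % p ≠ r)
    (A : Fin T × Fin K' → ℕ) (hA : ∀ x, (D : ℤ) ∣ (A x : ℤ) - m x.1 * k0) :
    Uni.nuT (univ.image (fun x => bb * A x)) p < p := by
  classical
  obtain ⟨r, hr, hmr⟩ := hadm
  unfold Uni.nuT
  have hmod : ∀ x, bb * A x % p = bb * m x.1 * k0 % p := by
    intro x
    have h1 : (p : ℤ) ∣ (A x : ℤ) - m x.1 * k0 := (Int.natCast_dvd_natCast.2 hpD).trans (hA x)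
    have h2 : (p : ℤ) ∣ ((bb * A x : ℕ) : ℤ) - ((bb * m x.1 * k0 : ℕ) : ℤ) := by
      have h3 : ((bb * A x : ℕ) : ℤ) - ((bb * m x.1 * k0 : ℕ) : ℤ) = bb * ((A x : ℤ) - m x.1 * k0) := by
        push_cast; ring
      rw [h3]
      exact dvd_mul_of_dvd_right h1 _
    exact (Nat.modEq_iff_dvd.2 (by
      have := (dvd_neg.2 h2)
      rw [neg_sub] at this
      exact this) : bb * A x ≡ bb * m x.1 * k0 [MOD p])
  have hsub : (univ.image (fun x : Fin T × Fin K' => bb * A x)).image (· % p) ⊆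
      (univ.image (fun i : Fin T => bb * m i % p)).image (fun s => s * k0 % p) := by
    intro s hs
    obtain ⟨t, ht, rfl⟩ := mem_image.1 hs
    obtain ⟨x, -, rfl⟩ := mem_image.1 ht
    rw [mem_image]
    refine ⟨bb * m x.1 % p, mem_image_of_mem _ (mem_univ _), ?_⟩
    rw [hmod x, Nat.mod_mul_mod]
  refine lt_of_le_of_lt ((card_le_card hsub).trans card_image_le) ?_
  have hsub2 : univ.image (fun i : Fin T => bb * m i % p) ⊆ (range p).erase r := by
    intro s hs
    obtain ⟨i, -, rfl⟩ := mem_image.1 hs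
    rw [mem_erase, mem_range]
    exact ⟨hmr i, Nat.mod_lt _ hp.pos⟩
  have h3 := card_le_card hsub2
  rw [card_erase_of_mem (mem_range.2 hr), card_range] at h3
  have := hp.pos
  omega

open Classical in
/-- the number of the admissible shifts of a class in the windows -/
theorem Sb_upper2 {T : ℕ} (bb C₁ H y u : ℕ) (hbb : 1 ≤ bb) (hy : 2 ≤ y) (hM : 4 ^ (y / 2) ≤ C₁ * H + 1)
    (m : Fin T → ℕ) (b : ℕ) :
    ((Sb y (univ.biUnion (fun g : Fin T => (Icc (u * m g) (u * m g + C₁ * H)).image (fun x => bb * x))) b).card : ℝ) ≤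
      (8 * T * bb : ℝ) * (((C₁ * H + 1 : ℕ) : ℝ) * rho y) := by
  have h1 : Sb y (univ.biUnion (fun g : Fin T => (Icc (u * m g) (u * m g + C₁ * H)).image (fun x => bb * x))) b ⊆
      (univ : Finset (Fin T)).biUnion (fun g =>
      ((Icc (u * m g) (u * m g + C₁ * H)).filter (fun x => Nat.Coprime (Uni.WW y) (b + bb * x))).image
        (fun x => bb * x)) := by
    intro t ht
    unfold Sb at ht
    rw [mem_filter, mem_biUnion] at ht
    obtain ⟨⟨g, hg, hti⟩, ht2⟩ := ht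
    obtain ⟨x, hx, rfl⟩ := mem_image.1 hti
    rw [mem_biUnion]
    exact ⟨g, hg, mem_image.2 ⟨x, mem_filter.2 ⟨hx, ht2⟩, rfl⟩⟩
  have h2 : ∀ g : Fin T, (((Icc (u * m g) (u * m g + C₁ * H)).filter
      (fun x => Nat.Coprime (Uni.WW y) (b + bb * x))).card : ℝ) ≤
      8 * ((C₁ * H + 1 : ℕ) : ℝ) * rD bb y := by
    intro g
    have h3 := shift_upper bb y b (u * m g) (C₁ * H + 1) hy hM
    have h4 : Icc (u * m g) (u * m g + C₁ * H) = Ico (u * m g) (u * m g + (C₁ * H + 1)) := by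
      ext x
      rw [mem_Icc, mem_Ico]
      omega
    rw [h4]
    exact h3
  have h3 : ((Sb y (univ.biUnion (fun g : Fin T => (Icc (u * m g) (u * m g + C₁ * H)).image
      (fun x => bb * x))) b).card : ℝ) ≤
      ∑ _g : Fin T, 8 * ((C₁ * H + 1 : ℕ) : ℝ) * rD bb y := by
    refine le_trans (Nat.cast_le.2 ((card_le_card h1).trans card_biUnion_le)) ?_
    push_cast
    refine sum_le_sum fun g _ => ?_
    refine le_trans (Nat.cast_le.2 card_image_le) ?_
    have := h2 g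
    push_cast at this
    exact this
  refine h3.trans ?_
  rw [sum_const, card_univ, Fintype.card_fin, nsmul_eq_mul]
  have h4 := rD_le bb y hbb
  calc (T : ℝ) * (8 * ((C₁ * H + 1 : ℕ) : ℝ) * rD bb y) ≤ (T : ℝ) * (8 * ((C₁ * H + 1 : ℕ) : ℝ) * (bb * rho y)) := by
        gcongr
    _ = _ := by ring

/-- final computation -/
theorem fincomp2 (n : ℕ) (hn : 1 ≤ n) (κA Cs κ' D M r a w Ac G : ℝ) (hκA : 0 < κA) (hκA1 : κA ≤ 1) (hCs : 0 < Cs)
    (hκ' : 0 < κ') (hD : 1 ≤ D) (hM : 0 < M) (hr : 0 < r) (ha : 0 ≤ a) (hw : 0 < w)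
    (ha1 : a ≤ κA / (16 * D) * (M * r))
    (h1 : κA * M ^ n ≤ Ac) (h2 : Ac * (1 / (2 * D) * w * r ^ n) ≤ G)
    (h3 : G ≤ w * (a ^ n + κA / (16 * D * Cs ^ n) * (Cs * (M * r)) ^ n +
      2 * (κ' * κA / (32 * D * ((n : ℝ) ^ 2 * Cs ^ n))) / κ' * ((n : ℝ) ^ (1 + 1) * (Cs * (M * r)) ^ n))) : False := by
  have hn0 : (0 : ℝ) < n := by exact_mod_cast hn
  have hD0 : 0 < D := by linarith
  have e1 : κA / (16 * D * Cs ^ n) * (Cs * (M * r)) ^ n = κA / (16 * D) * (M * r) ^ n := by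
    rw [mul_pow]; field_simp
  have e2 : 2 * (κ' * κA / (32 * D * ((n : ℝ) ^ 2 * Cs ^ n))) / κ' * ((n : ℝ) ^ (1 + 1) * (Cs * (M * r)) ^ n) =
      κA / (16 * D) * (M * r) ^ n := by
    rw [mul_pow]; field_simp; ring
  rw [e1, e2] at h3
  have hc1 : κA / (16 * D) ≤ 1 := by
    rw [div_le_one (by positivity)]
    linarith
  have e3 : a ^ n ≤ κA / (16 * D) * (M * r) ^ n := by
    calc a ^ n ≤ (κA / (16 * D) * (M * r)) ^ n := pow_le_pow_left₀ ha ha1 n
      _ = (κA / (16 * D)) ^ n * (M * r) ^ n := by rw [mul_pow]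
      _ ≤ κA / (16 * D) * (M * r) ^ n := by
          apply mul_le_mul_of_nonneg_right _ (by positivity)
          exact pow_le_of_le_one (by positivity) hc1 (by omega)
  have e4 : κA * M ^ n * (1 / (2 * D) * w * r ^ n) ≤ G := (mul_le_mul_of_nonneg_right h1 (by positivity)).trans h2
  have e5 : κA * M ^ n * (1 / (2 * D) * w * r ^ n) = 8 * (w * (κA / (16 * D) * (M * r) ^ n)) := by
    rw [mul_pow]; field_simp; norm_num
  have e6 : 0 < w * (κA / (16 * D) * (M * r) ^ n) := by positivity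
  have e7 : w * (a ^ n + κA / (16 * D) * (M * r) ^ n + κA / (16 * D) * (M * r) ^ n) ≤
      3 * (w * (κA / (16 * D) * (M * r) ^ n)) := by
    have := mul_le_mul_of_nonneg_left e3 hw.le
    nlinarith
  linarith

end Pool.Agent.Y877.RO
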