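import Mathlib
import Pool.Agent.Y877.RgE

/-! The singular series of a pair and the count of prime pairs (helper877). -/

set_option autoImplicit false

namespace Pool.Agent.Y877.RO

open Finset Filter Topology
open Pool.Agent.H387R2 Pool.Agent.H387R2.MB

/-- the product over the odd primes dividing `d` -/
noncomputable def Sd (d : ℕ) : ℝ := ∏ p ∈ d.primeFactors.filter (fun p => 3 ≤ p), (((p : ℝ) - 1) / (p - 2))

theorem Sd_pos (d : ℕ) : 0 < Sd d := by
  unfold Sd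
  refine prod_pos fun p hp => ?_
  have h1 : (3 : ℝ) ≤ p := by exact_mod_cast (mem_filter.1 hp).2
  apply div_pos <;> linarith

theorem nuT_pp (t p : ℕ) : Uni.nuT (pp t) p = if p ∣ t then 1 else 2 := by
  unfold Uni.nuT pp
  rw [image_insert, image_singleton, Nat.zero_mod]
  split_ifs with h
  · rw [Nat.mod_eq_zero_of_dvd h]
    simp
  · rw [card_pair]
    intro h2
    exact h (Nat.dvd_of_mod_eq_zero h2.symm)

theorem locT_pp (t p : ℕ) (hp : p.Prime) (ht : 1 ≤ t) (h2 : 2 ∣ t) :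
    Uni.locT (pp t) p = Uni.locT (pp 2) p * (if p ∣ t ∧ 3 ≤ p then ((p : ℝ) - 1) / (p - 2) else 1) := by
  unfold Uni.locT
  rw [pp_card t ht, pp_card 2 (by norm_num), nuT_pp, nuT_pp]
  have hp1 : (1 : ℝ) < p := by exact_mod_cast hp.one_lt
  have hd : (1 - 1 / (p : ℝ)) ≠ 0 := by
    have : 1 / (p : ℝ) < 1 := by rw [div_lt_one (by linarith)]; exact hp1
    linarith
  by_cases hp3 : 3 ≤ p
  · have h3 : ¬ p ∣ 2 := fun h => by
      have := Nat.le_of_dvd (by norm_num) h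
      omega
    have hp3' : (3 : ℝ) ≤ p := by exact_mod_cast hp3
    rw [if_neg h3]
    by_cases h4 : p ∣ t
    · rw [if_pos h4, if_pos ⟨h4, hp3⟩]
      have h5 : (p : ℝ) - 2 ≠ 0 := by linarith
      have h6 : (p : ℝ) - 1 ≠ 0 := by linarith
      have h7 : (p : ℝ) ≠ 0 := by linarith
      push_cast
      field_simp
    · rw [if_neg h4, if_neg (fun h => h4 h.1), mul_one]
  · obtain rfl : p = 2 := by
      have := hp.two_le
      omega
    rw [if_pos h2, if_pos (dvd_refl 2), if_neg (by rintro ⟨_, h⟩; omega), mul_one]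

theorem CT_pp (t : ℕ) (ht : 1 ≤ t) (h2 : 2 ∣ t) : Uni.CT (pp t) = Uni.CT (pp 2) * Sd t := by
  have h3 := Uni.CT_hasProd (pp t)
  have h4 := Uni.CT_hasProd (pp 2)
  obtain ⟨S, hS⟩ : ∃ S, S = t.primeFactors.filter (fun p => 3 ≤ p) := ⟨_, rfl⟩
  have hSp : ∀ p ∈ S, p.Prime := fun p hp => by
    rw [hS, mem_filter] at hp
    exact Nat.prime_of_mem_primeFactors hp.1
  obtain ⟨mk, hmk⟩ : ∃ mk : {x // x ∈ S} → Nat.Primes, ∀ p, ((mk p : Nat.Primes) : ℕ) = p.1 :=
    ⟨fun p => ⟨p.1, hSp p.1 p.2⟩, fun p => rfl⟩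
  have hmki : Function.Injective mk := by
    intro p q h
    apply Subtype.ext
    rw [← hmk p, ← hmk q, h]
  obtain ⟨s, hs⟩ : ∃ s : Finset Nat.Primes, s = S.attach.image mk := ⟨_, rfl⟩
  have hmem : ∀ p : Nat.Primes, (p : ℕ) ∈ S → p ∈ s := by
    intro p hp
    rw [hs, mem_image]
    exact ⟨⟨p, hp⟩, mem_attach _ _, Subtype.ext (hmk ⟨p, hp⟩)⟩
  have h5 : HasProd (fun p : Nat.Primes => (if (p : ℕ) ∣ t ∧ 3 ≤ (p : ℕ) then (((p : ℕ) : ℝ) - 1) / ((p : ℕ) - 2) else 1))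
      (∏ p ∈ s, (if (p : ℕ) ∣ t ∧ 3 ≤ (p : ℕ) then (((p : ℕ) : ℝ) - 1) / ((p : ℕ) - 2) else 1)) := by
    apply hasProd_prod_of_ne_finset_one
    intro p hp
    rw [if_neg]
    rintro ⟨h6, h7⟩
    apply hp
    apply hmem
    rw [hS, mem_filter, Nat.mem_primeFactors]
    exact ⟨⟨p.2, h6, by omega⟩, h7⟩
  have h6 : ∏ p ∈ s, (if ((p : Nat.Primes) : ℕ) ∣ t ∧ 3 ≤ (p : ℕ) then (((p : ℕ) : ℝ) - 1) / ((p : ℕ) - 2) else 1) = Sd t := by
    unfold Sd
    rw [hs, prod_image (fun a _ b _ h => hmki h), ← hS, ← prod_attach S]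
    refine prod_congr rfl fun p _ => ?_
    have h9 : ∀ q ∈ S, q ∣ t ∧ 3 ≤ q := by
      intro q hq
      rw [hS, mem_filter, Nat.mem_primeFactors] at hq
      exact ⟨hq.1.2.1, hq.2⟩
    rw [hmk, if_pos (h9 p.1 p.2)]
  rw [h6] at h5
  have h7 := h4.mul h5
  have h8 : (fun p : Nat.Primes => Uni.locT (pp 2) p * (if (p : ℕ) ∣ t ∧ 3 ≤ (p : ℕ) then
      (((p : ℕ) : ℝ) - 1) / ((p : ℕ) - 2) else 1)) = fun p : Nat.Primes => Uni.locT (pp t) p := by
    funext p
    exact (locT_pp t p p.2 ht h2).symm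
  rw [h8] at h7
  exact h3.unique h7

theorem CT2_pos : 0 < Uni.CT (pp 2) := by
  rw [← Uni.CT_en]
  apply Pool.Agent.H386R2.HL.singularSeries_pos (Uni.en_inj _)
  intro p hp
  rw [Uni.nu_en]
  exact pp_adm 2 (dvd_refl 2) p hp

/-- the number of the primes `p ≤ x` for which `p - d` is a prime -/
def pi2 (x d : ℕ) : ℕ := ((Icc 1 x).filter (fun p => p.Prime ∧ (p - d).Prime)).card

open Classical in
/-- **The right order for prime pairs**, up to small explicit multipliers. -/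
theorem pairs2 (M : ℕ) (hM : 1 ≤ M) (m : Fin (4 * M) → ℕ) (hm : Function.Injective m) (bb : ℕ) (hbb : 1 ≤ bb)
    (hadm : ∀ p : ℕ, p.Prime → ∃ r : ℕ, ∀ i, ¬ bb * m i ≡ r [MOD p]) (ε lam : ℝ) (hε : 0 < ε)
    (hlam : 0 < lam) : ∃ κ : ℝ, 0 < κ ∧ ∀ C : ℝ, ∀ᶠ x : ℕ in atTop, ∀ H u : ℕ, lam * Real.log x ≤ H →
    ((u : ℝ) + H ≤ Real.log x ^ C) →
    (1 - ε) * (H : ℝ) ≤ (((Ioc u (u + H)).filter (fun k => ∃ S : Finset (Fin (4 * M)), M ≤ S.card ∧
      ∀ i ∈ S, ∀ j ∈ S, m i < m j → κ * Sd (bb * (m j - m i) * k) * (x / Real.log x ^ 2) ≤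
        pi2 x (bb * (m j - m i) * k))).card : ℝ) := by
  have hadm' : ∀ p : ℕ, p.Prime → ∃ r : ℕ, r < p ∧ ∀ i, bb * m i % p ≠ r := by
    intro p hp
    obtain ⟨r, hr⟩ := hadm p hp
    refine ⟨r % p, Nat.mod_lt _ hp.pos, fun i h => hr i ?_⟩
    exact h
  obtain ⟨κ, hκ, hmain⟩ := pairsRO M hM m hm bb hbb hadm' ε lam hε hlam
  have hC2 := CT2_pos
  obtain ⟨mx, hmx⟩ : ∃ mx : ℕ, mx = ∑ i, m i := ⟨_, rfl⟩
  have hmm : ∀ i, m i ≤ mx := fun i => by
    rw [hmx]
    exact single_le_sum (f := m) (fun _ _ => Nat.zero_le _) (mem_univ i)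
  refine ⟨κ * Uni.CT (pp 2) / 4, by positivity, fun C => ?_⟩
  have hhalf : Tendsto (fun x : ℕ => x / 2) atTop atTop := Nat.tendsto_div_const_atTop (by norm_num)
  have tN : Tendsto (fun N : ℕ => (N : ℝ)) atTop atTop := tendsto_natCast_atTop_atTop
  have tL : Tendsto (fun N : ℕ => Real.log (N : ℝ)) atTop atTop := Real.tendsto_log_atTop.comp tN
  obtain ⟨C', hC'⟩ : ∃ C', C' = max C 0 := ⟨_, rfl⟩
  have hC'0 : 0 ≤ C' := by rw [hC']; exact le_max_right _ _
  have hlit : ∀ᶠ x : ℕ in atTop, (bb * mx : ℝ) * Real.log x ^ C' ≤ x / 2 := by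
    have h1 := (isLittleO_log_rpow_rpow_atTop C' (by norm_num : (0 : ℝ) < 1)).comp_tendsto tN
    have h2 := h1.bound (c := 1 / (2 * (bb * mx + 1))) (by positivity)
    filter_upwards [h2, eventually_ge_atTop 1] with x h3 h4
    simp only [Function.comp_apply, Real.rpow_one, Real.norm_eq_abs] at h3
    have h5 : (0 : ℝ) ≤ x := Nat.cast_nonneg _
    have h6 := (le_abs_self _).trans h3
    rw [abs_of_nonneg h5] at h6
    have h7 : (0 : ℝ) ≤ (bb * mx : ℝ) := by positivity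
    calc (bb * mx : ℝ) * Real.log x ^ C' ≤ (bb * mx : ℝ) * (1 / (2 * (bb * mx + 1)) * x) :=
          mul_le_mul_of_nonneg_left h6 h7
      _ = (bb * mx : ℝ) / (bb * mx + 1) * (x / 2) := by field_simp
      _ ≤ 1 * (x / 2) := by
          apply mul_le_mul_of_nonneg_right _ (by positivity)
          rw [div_le_one (by positivity)]
          linarith
      _ = x / 2 := one_mul _
  have hlogs : ∀ᶠ x : ℕ in atTop, Real.log x ^ C ≤ Real.log ((x / 2 : ℕ) : ℝ) ^ (C' + 1) := by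
    filter_upwards [tL.eventually_ge_atTop (2 ^ (C' + 2)), tL.eventually_ge_atTop 4, eventually_ge_atTop 4] with x h1 h2 h3
    have h4 : (x : ℝ) / 4 ≤ ((x / 2 : ℕ) : ℝ) := by
      have : x ≤ 4 * (x / 2) := by omega
      have h5 : (x : ℝ) ≤ 4 * ((x / 2 : ℕ) : ℝ) := by exact_mod_cast this
      linarith
    have hx0 : (0 : ℝ) < x := by exact_mod_cast (by omega : 0 < x)
    have h5 : Real.log x / 2 ≤ Real.log ((x / 2 : ℕ) : ℝ) := by
      have h6 : Real.log ((x : ℝ) / 4) ≤ Real.log ((x / 2 : ℕ) : ℝ) := Real.log_le_log (by positivity) h4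
      rw [Real.log_div hx0.ne' (by norm_num)] at h6
      have h7 : Real.log 4 ≤ 2 := by
        have : Real.log 4 = 2 * Real.log 2 := by
          rw [show (4 : ℝ) = 2 ^ 2 by norm_num, Real.log_pow]
          norm_num
        rw [this]
        have := Real.log_two_lt_d9
        linarith
      linarith
    have hL0 : 0 < Real.log x := by linarith
    have h6 : Real.log x ^ C ≤ Real.log x ^ C' := by
      apply Real.rpow_le_rpow_of_exponent_le (by linarith)
      rw [hC']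
      exact le_max_left _ _
    have h7 : (Real.log x / 2) ^ (C' + 1) ≤ Real.log ((x / 2 : ℕ) : ℝ) ^ (C' + 1) :=
      Real.rpow_le_rpow (by linarith) h5 (by linarith)
    refine h6.trans (le_trans ?_ h7)
    rw [Real.div_rpow hL0.le (by norm_num), Real.rpow_add hL0, Real.rpow_one,
      le_div_iff₀ (by positivity)]
    apply mul_le_mul_of_nonneg_left _ (by positivity)
    refine le_trans ?_ h1
    apply Real.rpow_le_rpow_of_exponent_le (by norm_num)
    linarith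
  filter_upwards [hhalf.eventually (hmain (C' + 1)), hlit, hlogs, eventually_ge_atTop 4, tL.eventually_ge_atTop 1]
    with x h1 h2 h3 h4 hL1
  intro H u hH hu
  have hx0 : (0 : ℝ) < x := by exact_mod_cast (by omega : 0 < x)
  have hN2 : (x : ℝ) / 4 ≤ ((x / 2 : ℕ) : ℝ) := by
    have : x ≤ 4 * (x / 2) := by omega
    have h5 : (x : ℝ) ≤ 4 * ((x / 2 : ℕ) : ℝ) := by exact_mod_cast this
    linarith
  have hN3 : ((x / 2 : ℕ) : ℝ) ≤ x := by exact_mod_cast Nat.div_le_self x 2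
  have hN1 : (1 : ℝ) < ((x / 2 : ℕ) : ℝ) := by
    have : 1 < x / 2 := by omega
    exact_mod_cast this
  have hlog : Real.log ((x / 2 : ℕ) : ℝ) ≤ Real.log x := Real.log_le_log (by linarith) hN3
  have hlog0 : 0 < Real.log ((x / 2 : ℕ) : ℝ) := Real.log_pos hN1
  refine (h1 H u (le_trans (mul_le_mul_of_nonneg_left hlog hlam.le) hH) (hu.trans h3)).trans ?_
  rw [Nat.cast_le]
  apply card_le_card
  intro k hk
  rw [mem_filter] at hk ⊢
  obtain ⟨hk1, S, hS, hgood⟩ := hk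
  refine ⟨hk1, S, hS, fun i hi j hj hij => ?_⟩
  obtain ⟨t, ht⟩ : ∃ t, t = bb * (m j - m i) * k := ⟨_, rfl⟩
  have h5 := hgood i hi j hj hij
  rw [← ht] at h5 ⊢
  obtain ⟨hc, ha, hcount⟩ := h5
  have ht1 : 1 ≤ t := by
    by_contra hcon
    have : t = 0 := by omega
    rw [this] at hc
    unfold pp at hc
    simp at hc
  have ht2 : 2 ∣ t := by
    by_contra hcon
    have := ha 2 Nat.prime_two
    rw [nuT_pp, if_neg hcon] at this
    exact lt_irrefl _ this
  have htx : t ≤ x / 2 := by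
    have h6 : (t : ℝ) ≤ (bb * mx : ℝ) * Real.log x ^ C' := by
      have h7 : (k : ℝ) ≤ Real.log x ^ C' := by
        have h8 : (k : ℝ) ≤ u + H := by exact_mod_cast (mem_Ioc.1 hk1).2
        refine h8.trans (hu.trans ?_)
        apply Real.rpow_le_rpow_of_exponent_le hL1
        rw [hC']
        exact le_max_left _ _
      have h8 : ((m j - m i : ℕ) : ℝ) ≤ mx := by exact_mod_cast (Nat.sub_le _ _).trans (hmm j)
      rw [ht]
      push_cast
      calc (bb : ℝ) * ((m j - m i : ℕ) : ℝ) * k ≤ bb * mx * Real.log x ^ C' := by gcongr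
        _ = _ := by ring
    have h7 : (t : ℝ) ≤ x / 2 := h6.trans h2
    rw [Nat.le_div_iff_mul_le (by norm_num)]
    have h8 : (t : ℝ) * 2 ≤ x := by linarith
    exact_mod_cast h8
  have h6 : piN (x / 2) (pp t) ≤ pi2 x t := by
    unfold piN pi2
    refine card_le_card_of_injOn (fun n => n + t) ?_ (fun a _ b _ h => by simpa using h)
    intro n hn
    rw [mem_coe, mem_filter, mem_Icc] at hn
    rw [mem_coe, mem_filter, mem_Icc]
    have h7 : t ∈ pp t := by unfold pp; simp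
    have h8 : 0 ∈ pp t := by unfold pp; simp
    refine ⟨⟨by simp only; omega, by simp only; omega⟩, hn.2 t h7, ?_⟩
    simp only [Nat.add_sub_cancel]
    exact hn.2 0 h8
  rw [CT_pp t ht1 ht2] at hcount
  have hSd := Sd_pos t
  refine le_trans ?_ (hcount.trans (by exact_mod_cast h6))
  have h7 : x / Real.log x ^ 2 / 4 ≤ ((x / 2 : ℕ) : ℝ) / Real.log ((x / 2 : ℕ) : ℝ) ^ (1 + 1) := by
    rw [div_right_comm]
    apply div_le_div₀ (by positivity) hN2 (by positivity)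
    exact pow_le_pow_left₀ hlog0.le hlog 2
  calc κ * Uni.CT (pp 2) / 4 * Sd t * (x / Real.log x ^ 2) =
      κ * (Uni.CT (pp 2) * Sd t) * (x / Real.log x ^ 2 / 4) := by ring
    _ ≤ _ := mul_le_mul_of_nonneg_left h7 (by positivity)

end Pool.Agent.Y877.RO
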