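import Mathlib
import Pool.Agent.H362R2.QT.SMa

/-! The second moment argument for general events (helper877; from SMa.lean of helper362). -/

set_option autoImplicit false

namespace Pool.Agent.Y877.RO

open Finset
open Pool.Agent.H362R2.QT

open Classical in
/-- cross moment with a bad tuple -/
theorem crossE (I : Finset ℕ) (w : ℕ → ℝ) (hw : ∀ n, 0 ≤ w n) (P : ℕ → ℕ → Prop) (Ev : ℕ → Finset ℕ → Prop) (S : Finset ℕ) (r J : ℕ)
    (U g D κ0 : ℝ) (_hU : 0 ≤ U) (hg : 0 < g) (hκ : 0 < κ0) (hs : 0 < (S.card : ℝ))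
    (T : Finset ℕ)
    (h2 : ∑ n ∈ I, w n * (if ∀ a ∈ T, P n a then ((r : ℝ) + ((S \ T).filter (fun a => P n a)).card) ^ (2 * J) else 0) ≤
      D * ((S.card : ℝ) / g) ^ (2 * J) * U)
    (hbad : ∑ n ∈ I, w n * (if Ev n T then 1 else 0) ≤ κ0 ^ 2 * U) :
    ∑ n ∈ I, w n * (if Ev n T ∧ ∀ a ∈ T, P n a then ((r : ℝ) + ((S \ T).filter (fun a => P n a)).card) ^ J else 0) ≤
      κ0 * ((1 + D) / 2) * (((S.card : ℝ) / g) ^ J * U) := by
  set l : ℝ := ((S.card : ℝ) / g) ^ J / κ0 with hl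
  have hsg : 0 < (S.card : ℝ) / g := by positivity
  have hl0 : 0 < l := by positivity
  have h3 : ∀ n ∈ I, w n * (if Ev n T ∧ ∀ a ∈ T, P n a then
        ((r : ℝ) + ((S \ T).filter (fun a => P n a)).card) ^ J else 0) ≤
      l / 2 * (w n * (if Ev n T then 1 else 0)) + 1 / (2 * l) *
        (w n * (if ∀ a ∈ T, P n a then ((r : ℝ) + ((S \ T).filter (fun a => P n a)).card) ^ (2 * J) else 0)) := by
    intro n _
    have hwn := hw n
    by_cases hQ : Ev n T
    · by_cases hP : ∀ a ∈ T, P n a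
      · rw [if_pos ⟨hQ, hP⟩, if_pos hQ, if_pos hP, pow_mul', mul_one]
        set x := ((r : ℝ) + ((S \ T).filter (fun a => P n a)).card) ^ J
        have : x ≤ l / 2 + 1 / (2 * l) * x ^ 2 := by
          rw [← sub_nonneg]
          have e : l / 2 + 1 / (2 * l) * x ^ 2 - x = (l - x) ^ 2 / (2 * l) := by
            field_simp
            ring
          rw [e]
          positivity
        calc w n * x ≤ w n * (l / 2 + 1 / (2 * l) * x ^ 2) := mul_le_mul_of_nonneg_left this hwn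
          _ = _ := by ring
      · rw [if_neg (fun h => hP h.2), if_pos hQ, if_neg hP]
        have : 0 ≤ l / 2 * (w n * 1) := by positivity
        linarith
    · rw [if_neg (fun h => hQ h.1), if_neg hQ]
      have : (0:ℝ) ≤ (if ∀ a ∈ T, P n a then ((r : ℝ) + ((S \ T).filter (fun a => P n a)).card) ^ (2 * J) else 0) := by
        split_ifs <;> positivity
      have : 0 ≤ 1 / (2 * l) * (w n * (if ∀ a ∈ T, P n a then ((r : ℝ) + ((S \ T).filter (fun a => P n a)).card) ^ (2 * J) else 0)) := by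
        positivity
      linarith
  refine (sum_le_sum h3).trans ?_
  rw [sum_add_distrib, ← mul_sum, ← mul_sum]
  calc _ ≤ l / 2 * (κ0 ^ 2 * U) + 1 / (2 * l) * (D * ((S.card : ℝ) / g) ^ (2 * J) * U) :=
        add_le_add (mul_le_mul_of_nonneg_left hbad (by positivity)) (mul_le_mul_of_nonneg_left h2 (by positivity))
    _ = _ := by
      rw [hl, pow_mul']
      have : ((S.card : ℝ) / g) ^ J ≠ 0 := by positivity
      field_simp

open Classical in
theorem absSME {ι : Type} [Fintype ι] [DecidableEq ι] (I : Finset ℕ) (w : ℕ → ℝ) (hw : ∀ n, 0 ≤ w n) (P : ℕ → ℕ → Prop) (Ev : ℕ → Finset ℕ → Prop)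
    (S : Finset ℕ) (r J : ℕ) (hK : Fintype.card ι = r + J) (U g c0 C1 C2 lam1 κ0 : ℝ) (hU : 0 < U) (hg : 0 < g)
    (hC1 : 0 ≤ C1) (hC2 : 0 ≤ C2) (hl : 0 < lam1) (hs : lam1 * g ≤ S.card) (hκ : 0 < κ0)
    (h1 : ∀ T ⊆ S, T.card = r → ∑ n ∈ I, w n * (if ∀ a ∈ T, P n a then 1 else 0) ≤ C1 * U)
    (h2 : ∀ R ⊆ S, R.card = r + 2 * J → ∑ n ∈ I, w n * (if ∀ a ∈ R, P n a then 1 else 0) ≤ C2 * (U / g ^ (2 * J)))
    (Fail : Finset (ι → ℕ))
    (hF : ∀ A ∈ Fail, (∀ x, A x ∈ S) ∧ c0 * (U / g ^ J) ≤ ∑ n ∈ I, w n *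
      (if (∃ T ⊆ univ.image A, T.card = r ∧ ∑ n ∈ I, w n * (if Ev n T then 1 else 0) < κ0 ^ 2 * U ∧
        Ev n T) ∧ ∀ x, P n (A x) then 1 else 0)) :
    c0 * Fail.card ≤ κ0 * ((1 + Dc r J * (C1 / lam1 ^ (2 * J) + C2)) / 2) * ((Fintype.card ι : ℝ) ^ r * (S.card : ℝ) ^ (r + J)) := by
  have hs0 : 0 < (S.card : ℝ) := lt_of_lt_of_le (by positivity) hs
  set D := Dc r J * (C1 / lam1 ^ (2 * J) + C2) with hD
  have hD0 : 0 ≤ D := by
    have : 0 ≤ Dc r J := by unfold Dc; positivity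
    positivity
  set Bd := (S.powersetCard r).filter (fun T => ∑ n ∈ I, w n * (if Ev n T then (1:ℝ) else 0) < κ0 ^ 2 * U) with hBd
  have key : c0 * (U / g ^ J) * Fail.card ≤ ∑ T ∈ Bd, (Fintype.card ι : ℝ) ^ r * (κ0 * ((1 + D) / 2) * (((S.card : ℝ) / g) ^ J * U)) := by
    have s1 : c0 * (U / g ^ J) * Fail.card ≤ ∑ A ∈ Fail, ∑ n ∈ I, ∑ T ∈ Bd, w n *
        (if (T ⊆ univ.image A) ∧ Ev n T ∧ ∀ x, P n (A x) then 1 else 0) := by
      rw [mul_comm, ← nsmul_eq_mul]
      apply card_nsmul_le_sum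
      intro A hA
      obtain ⟨hAS, hA2⟩ := hF A hA
      refine hA2.trans (sum_le_sum fun n _ => ?_)
      by_cases hc : (∃ T ⊆ univ.image A, T.card = r ∧ ∑ n ∈ I, w n * (if Ev n T then (1:ℝ) else 0) < κ0 ^ 2 * U ∧
        Ev n T) ∧ ∀ x, P n (A x)
      · rw [if_pos hc]
        obtain ⟨⟨T, hT1, hT2, hT3, hT4⟩, hP⟩ := hc
        have hTB : T ∈ Bd := by
          rw [hBd, mem_filter, mem_powersetCard]
          refine ⟨⟨fun a ha => ?_, hT2⟩, hT3⟩
          have := hT1 ha
          rw [mem_image] at this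
          obtain ⟨x, _, hx⟩ := this
          rw [← hx]
          exact hAS x
        have := single_le_sum (f := fun T => w n * (if (T ⊆ univ.image A) ∧ Ev n T ∧ ∀ x, P n (A x) then (1:ℝ) else 0))
          (fun T _ => mul_nonneg (hw n) (by split_ifs <;> norm_num)) hTB
        simp only [if_pos (show (T ⊆ univ.image A) ∧ Ev n T ∧ ∀ x, P n (A x) from ⟨hT1, hT4, hP⟩)] at this
        exact this
      · rw [if_neg hc, mul_zero]
        apply sum_nonneg
        intro T _
        exact mul_nonneg (hw n) (by split_ifs <;> norm_num)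
    have s2 : ∑ A ∈ Fail, ∑ n ∈ I, ∑ T ∈ Bd, w n *
        (if (T ⊆ univ.image A) ∧ Ev n T ∧ ∀ x, P n (A x) then (1:ℝ) else 0) =
        ∑ T ∈ Bd, ∑ n ∈ I, w n * ∑ A ∈ Fail, (if (T ⊆ univ.image A) ∧ Ev n T ∧ ∀ x, P n (A x) then (1:ℝ) else 0) := by
      rw [sum_comm]
      have : ∀ n ∈ I, ∑ A ∈ Fail, ∑ T ∈ Bd, w n *
        (if (T ⊆ univ.image A) ∧ Ev n T ∧ ∀ x, P n (A x) then (1:ℝ) else 0) =
        ∑ T ∈ Bd, w n * ∑ A ∈ Fail, (if (T ⊆ univ.image A) ∧ Ev n T ∧ ∀ x, P n (A x) then (1:ℝ) else 0) := by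
        intro n _
        rw [sum_comm]
        apply sum_congr rfl
        intro T _
        rw [mul_sum]
      rw [sum_congr rfl this, sum_comm]
    rw [s2] at s1
    refine s1.trans (sum_le_sum fun T hT => ?_)
    rw [hBd, mem_filter, mem_powersetCard] at hT
    obtain ⟨⟨hTS, hTr⟩, hTb⟩ := hT
    have hcr := crossE I w hw P Ev S r J U g D κ0 hU.le hg hκ hs0 T
      (mom2 I w hw P S r J U g C1 C2 lam1 hU.le hg hC1 hC2 hl hs T hTS hTr (h1 T hTS hTr) h2) hTb.le
    refine le_trans ?_ (mul_le_mul_of_nonneg_left hcr (by positivity))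
    rw [mul_sum]
    apply sum_le_sum
    intro n _
    have s3 : ∑ A ∈ Fail, (if (T ⊆ univ.image A) ∧ Ev n T ∧ ∀ x, P n (A x) then (1:ℝ) else 0) ≤
        (Fintype.card ι : ℝ) ^ r * (if Ev n T ∧ ∀ a ∈ T, P n a then
          ((r : ℝ) + ((S \ T).filter (fun a => P n a)).card) ^ J else 0) := by
      by_cases hc : Ev n T ∧ ∀ a ∈ T, P n a
      · rw [if_pos hc, sum_ite, sum_const_zero, add_zero, sum_const, nsmul_eq_mul, mul_one]
        have s4 : Fail.filter (fun A => (T ⊆ univ.image A) ∧ Ev n T ∧ ∀ x, P n (A x)) ⊆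
            (Fintype.piFinset (fun _ : ι => S.filter (fun a => P n a))).filter (fun A => T ⊆ univ.image A) := by
          intro A hA
          rw [mem_filter] at hA
          rw [mem_filter, Fintype.mem_piFinset]
          refine ⟨fun x => ?_, hA.2.1⟩
          rw [mem_filter]
          exact ⟨(hF A hA.1).1 x, hA.2.2.2 x⟩
        have s5 := (card_le_card s4).trans (card_through (I := ι) (S.filter (fun a => P n a)) T r hTr)
        rw [hK, Nat.add_sub_cancel_left] at s5
        have s6 : (S.filter (fun a => P n a)).card ≤ r + ((S \ T).filter (fun a => P n a)).card := by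
          have : S.filter (fun a => P n a) ⊆ T ∪ (S \ T).filter (fun a => P n a) := by
            intro a ha
            rw [mem_filter] at ha
            rw [mem_union, mem_filter, mem_sdiff]
            by_cases haT : a ∈ T
            · exact Or.inl haT
            · exact Or.inr ⟨⟨ha.1, haT⟩, ha.2⟩
          refine (card_le_card this).trans ((card_union_le _ _).trans ?_)
          rw [hTr]
        have s7 : ((Fail.filter (fun A => (T ⊆ univ.image A) ∧ Ev n T ∧ ∀ x, P n (A x))).card : ℝ) ≤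
            (((r + J) ^ r * (S.filter (fun a => P n a)).card ^ J : ℕ) : ℝ) := by exact_mod_cast s5
        refine s7.trans ?_
        rw [hK]
        push_cast
        apply mul_le_mul_of_nonneg_left _ (by positivity)
        apply pow_le_pow_left₀ (Nat.cast_nonneg _)
        exact_mod_cast s6
      · rw [if_neg hc, mul_zero]
        apply le_of_eq
        apply sum_eq_zero
        intro A _
        rw [if_neg]
        rintro ⟨hTA, hQ, hP⟩
        apply hc
        refine ⟨hQ, fun a ha => ?_⟩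
        have := hTA ha
        rw [mem_image] at this
        obtain ⟨x, _, hx⟩ := this
        rw [← hx]
        exact hP x
    calc _ ≤ w n * ((Fintype.card ι : ℝ) ^ r * (if Ev n T ∧ ∀ a ∈ T, P n a then
          ((r : ℝ) + ((S \ T).filter (fun a => P n a)).card) ^ J else 0)) := mul_le_mul_of_nonneg_left s3 (hw n)
      _ = _ := by ring
  rw [sum_const, nsmul_eq_mul] at key
  have hcard : (Bd.card : ℝ) ≤ (S.card : ℝ) ^ r := by
    have h3 : Bd.card ≤ S.card ^ r := by
      refine (card_filter_le _ _).trans ?_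
      rw [card_powersetCard]
      exact Nat.choose_le_pow _ _
    exact_mod_cast h3
  have h4 : c0 * (U / g ^ J) * Fail.card ≤ (S.card : ℝ) ^ r * ((Fintype.card ι : ℝ) ^ r * (κ0 * ((1 + D) / 2) * (((S.card : ℝ) / g) ^ J * U))) :=
    key.trans (mul_le_mul_of_nonneg_right hcard (by positivity))
  have h5 : (S.card : ℝ) ^ r * ((Fintype.card ι : ℝ) ^ r * (κ0 * ((1 + D) / 2) * (((S.card : ℝ) / g) ^ J * U))) =
      (κ0 * ((1 + D) / 2) * ((Fintype.card ι : ℝ) ^ r * (S.card : ℝ) ^ (r + J))) * (U / g ^ J) := by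
    rw [div_pow, pow_add]
    ring
  rw [h5] at h4
  have h6 : 0 < U / g ^ J := by positivity
  have h7 : (c0 * Fail.card) * (U / g ^ J) ≤ (κ0 * ((1 + D) / 2) * ((Fintype.card ι : ℝ) ^ r * (S.card : ℝ) ^ (r + J))) * (U / g ^ J) := by
    linarith [h4, (by ring : (c0 * Fail.card) * (U / g ^ J) = c0 * (U / g ^ J) * Fail.card)]
  exact le_of_mul_le_mul_right h7 h6

end Pool.Agent.Y877.RO
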