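import Mathlib
import Pool.Agent.Y877.RgC
import Pool.Agent.Y877.RgG
import Pool.Agent.Y877.RoF

/-! The coloured lower bound without further primes in a short interval (helper877). -/

set_option autoImplicit false

namespace Pool.Agent.Y877.RO

open Finset Filter Topology
open Pool.Agent.H378R2 Pool.Agent.H387R2 Pool.Agent.H387R2.MB Pool.Agent.H362R2.QT

/-- the support of the weights -/
theorem nu_supp {X : ℝ} {W b n : ℕ} (hX : 0 < X) (h : nu X W b n ≠ 0) : n ≡ b [MOD W] ∧ X < n := by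
  unfold nu at h
  split_ifs at h with h1
  · refine ⟨h1, ?_⟩
    by_contra hle
    apply h
    apply Phi_eq_zero_of_le (by positivity)
    rw [div_le_one hX]
    exact not_lt.1 hle
  · exact absurd rfl h

/-- prime translates are rough and in an admissible class -/
theorem nu_prime {X δ : ℝ} {y b n j : ℕ} (hX : 1 ≤ X) (hδ1 : δ ≤ 1) (hyX : (y : ℝ) ≤ X)
    (h : nu X (Uni.WW y) b n ≠ 0) (hp : (n + j).Prime) :
    Nat.Coprime (Uni.WW y) (b + j) ∧ Rg δ X (n + j) := by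
  obtain ⟨h1, h2⟩ := nu_supp (by linarith) h
  have h3 : X < ((n + j : ℕ) : ℝ) := by
    push_cast
    have : (0 : ℝ) ≤ j := Nat.cast_nonneg j
    linarith
  constructor
  · by_contra hc
    obtain ⟨p, hp1, hp2, hp3⟩ := Nat.Prime.not_coprime_iff_dvd.1 hc
    have h4 : p ∣ n + j := by
      have h5 : n + j ≡ b + j [MOD p] := (h1.of_dvd hp2).add_right j
      exact (h5.dvd_iff (dvd_refl p)).2 hp3
    have h6 : p = n + j := (Nat.prime_dvd_prime_iff_eq hp1 hp).1 h4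
    have h7 : p ≤ y := (dvd_WW hp1).1 hp2
    have h8 : (p : ℝ) ≤ y := by exact_mod_cast h7
    rw [← h6] at h3
    linarith
  · intro p hp1 hp2
    obtain ⟨hp3, hp4⟩ := mem_PS.1 hp1
    have h6 : p = n + j := (Nat.prime_dvd_prime_iff_eq hp3 hp).1 hp2
    rw [← h6] at h3
    have h7 : Real.exp (δ * LL X) ≤ X := by
      have h8 : 0 ≤ Real.log X := Real.log_nonneg hX
      calc Real.exp (δ * LL X) ≤ Real.exp (Real.log X) := by
            apply Real.exp_le_exp.2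
            unfold LL
            nlinarith
        _ = X := Real.exp_log (by linarith)
    linarith

open Classical in
/-- **Few interlopers.** -/
theorem interlop (J M0 M N y b : ℕ) (δ C1 : ℝ) (hδ1 : δ ≤ 1) (hy : 2 ≤ y) (hX : 1 ≤ (N : ℝ) / 4)
    (hyX : (y : ℝ) ≤ (N : ℝ) / 4) (hM0 : M0 ≤ M) (h4 : 4 ^ (y / 2) ≤ M0 + 1) (hUp : Upp (J + 1) δ C1 N M y)
    (T : Finset ℕ) (hT : T.card = J) (hTM : ∀ t ∈ T, t ≤ M) (hC1 : 0 ≤ C1) (hLL : 0 ≤ LL ((N : ℝ) / 4)) :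
    ∑ n ∈ Icc 1 ⌊3 * ((N : ℝ) / 4)⌋₊, nu ((N : ℝ) / 4) (Uni.WW y) b n *
      (if (∀ t ∈ T, Rg δ ((N : ℝ) / 4) (n + t)) ∧ ∃ j ≤ M0, j ∉ T ∧ (n + j).Prime then 1 else 0) ≤
      8 * ((M0 + 1 : ℕ) : ℝ) * rho y * (C1 * UU (J + 1) ((N : ℝ) / 4) y) := by
  obtain ⟨Js, hJs⟩ : ∃ Js : Finset ℕ, Js = ((Ico 0 (0 + (M0 + 1))).filter
    (fun x => Nat.Coprime (Uni.WW y) (b + 1 * x))).filter (fun j => j ∉ T) := ⟨_, rfl⟩
  have hJsc : (Js.card : ℝ) ≤ 8 * ((M0 + 1 : ℕ) : ℝ) * rho y := by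
    have h1 := shift_upper 1 y b 0 (M0 + 1) hy h4
    have h2 : (Js.card : ℝ) ≤ (((Ico 0 (0 + (M0 + 1))).filter
      (fun x => Nat.Coprime (Uni.WW y) (b + 1 * x))).card : ℝ) := by
      rw [hJs]
      exact_mod_cast card_filter_le _ _
    have h3 := rD_le 1 y le_rfl
    rw [Nat.cast_one, one_mul] at h3
    refine h2.trans (h1.trans ?_)
    gcongr
  have h1 : ∀ n ∈ Icc 1 ⌊3 * ((N : ℝ) / 4)⌋₊, nu ((N : ℝ) / 4) (Uni.WW y) b n *
      (if (∀ t ∈ T, Rg δ ((N : ℝ) / 4) (n + t)) ∧ ∃ j ≤ M0, j ∉ T ∧ (n + j).Prime then 1 else 0) ≤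
      ∑ j ∈ Js, nu ((N : ℝ) / 4) (Uni.WW y) b n *
        (if ∀ a ∈ insert j T, Rg δ ((N : ℝ) / 4) (n + a) then 1 else 0) := by
    intro n _
    have hnn : 0 ≤ ∑ j ∈ Js, nu ((N : ℝ) / 4) (Uni.WW y) b n *
        (if ∀ a ∈ insert j T, Rg δ ((N : ℝ) / 4) (n + a) then (1 : ℝ) else 0) :=
      sum_nonneg fun j _ => mul_nonneg (nu_nonneg _ _ _ _) (by split_ifs <;> norm_num)
    by_cases hz : nu ((N : ℝ) / 4) (Uni.WW y) b n = 0
    · rw [hz, zero_mul]
      rw [hz] at hnn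
      exact hnn
    by_cases hc : (∀ t ∈ T, Rg δ ((N : ℝ) / 4) (n + t)) ∧ ∃ j ≤ M0, j ∉ T ∧ (n + j).Prime
    · rw [if_pos hc]
      obtain ⟨hR, j, hj, hjT, hjp⟩ := hc
      obtain ⟨h5, h6⟩ := nu_prime hX hδ1 hyX hz hjp
      have hjJ : j ∈ Js := by
        rw [hJs, mem_filter, mem_filter, mem_Ico]
        refine ⟨⟨⟨Nat.zero_le _, by omega⟩, by rwa [one_mul]⟩, hjT⟩
      have h7 := single_le_sum (f := fun j => nu ((N : ℝ) / 4) (Uni.WW y) b n *
        (if ∀ a ∈ insert j T, Rg δ ((N : ℝ) / 4) (n + a) then (1 : ℝ) else 0))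
        (fun j _ => mul_nonneg (nu_nonneg _ _ _ _) (by split_ifs <;> norm_num)) hjJ
      refine le_trans (le_of_eq ?_) h7
      rw [if_pos]
      intro a ha
      rw [mem_insert] at ha
      rcases ha with rfl | ha
      · exact h6
      · exact hR a ha
    · rw [if_neg hc, mul_zero]
      exact hnn
  refine (sum_le_sum h1).trans ?_
  rw [sum_comm]
  have h2 : ∀ j ∈ Js, ∑ n ∈ Icc 1 ⌊3 * ((N : ℝ) / 4)⌋₊, nu ((N : ℝ) / 4) (Uni.WW y) b n *
        (if ∀ a ∈ insert j T, Rg δ ((N : ℝ) / 4) (n + a) then (1 : ℝ) else 0) ≤ C1 * UU (J + 1) ((N : ℝ) / 4) y := by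
    intro j hj
    rw [hJs, mem_filter, mem_filter, mem_Ico] at hj
    refine hUp b (insert j T) (by rw [card_insert_of_notMem hj.2, hT]) fun a ha => ?_
    rw [mem_insert] at ha
    rcases ha with rfl | ha
    · have := hj.1.1.2
      omega
    · exact hTM a ha
  refine (sum_le_card_nsmul _ _ _ h2).trans ?_
  rw [nsmul_eq_mul]
  exact mul_le_mul_of_nonneg_right hJsc (mul_nonneg hC1 (UU_nonneg _ hLL y))

open Classical in
/-- the coloured lower bound, with no primes in `n + [0, M0]` besides the translates -/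
def LowD (m K' : ℕ) (δ c0 : ℝ) (N M0 y : ℕ) : Prop :=
  ∀ (b : ℕ) (R : Fin (4 * m) × Fin K' → ℕ), Function.Injective R → (∀ x, R x ≤ M0) →
    (∀ x, Nat.Coprime (Uni.WW y) (b + R x)) →
    c0 * UU (4 * m * K') ((N : ℝ) / 4) y ≤ ∑ n ∈ Icc 1 ⌊3 * ((N : ℝ) / 4)⌋₊, nu ((N : ℝ) / 4) (Uni.WW y) b n *
      (if ((m ≤ ((univ : Finset (Fin (4 * m))).filter (fun g => ∃ j, (n + R (g, j)).Prime)).card) ∧
        (∀ x, Rg δ ((N : ℝ) / 4) (n + R x))) ∧ ∀ j ≤ M0, (n + j).Prime → ∃ x, R x = j then 1 else 0)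

open Classical in
theorem low_clean (m K' : ℕ) (δ c0 : ℝ) (hδ : 0 < δ) (hδ1 : δ ≤ 1) (hc0 : 0 < c0)
    (hlow : ∀ C : ℝ, ∀ᶠ N : ℕ in atTop, LowC m K' δ c0 N ⌊Real.log N ^ C⌋₊ ⌊Real.log (Real.log N)⌋₊) :
    ∃ l0 : ℝ, 0 < l0 ∧ ∀ᶠ N : ℕ in atTop,
      LowD m K' δ (c0 / 2) N ⌊l0 * Real.log N⌋₊ ⌊Real.log (Real.log N)⌋₊ := by
  obtain ⟨C1, hC1, hup⟩ := upp_eventually (4 * m * K' + 1) hδ
  obtain ⟨l0, hl0⟩ : ∃ l0, l0 = c0 / (12800 * C1) := ⟨_, rfl⟩
  have hl00 : 0 < l0 := by rw [hl0]; positivity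
  refine ⟨l0, hl00, ?_⟩
  have tN : Tendsto (fun N : ℕ => (N : ℝ)) atTop atTop := tendsto_natCast_atTop_atTop
  have tL : Tendsto (fun N : ℕ => Real.log (N : ℝ)) atTop atTop := Real.tendsto_log_atTop.comp tN
  have tX : Tendsto (fun N : ℕ => (N : ℝ) / 4) atTop atTop := tN.atTop_div_const (by norm_num)
  filter_upwards [hlow 2, hup 2, (LL_tendsto.comp tX).eventually_ge_atTop 1, tX.eventually_ge_atTop 4,
    num_ev l0 0 hl00, tL.eventually_ge_atTop l0, tL.eventually_ge_atTop (1 / l0), tX.eventually MPhi_big] with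
    N h1 h2 h3 h4 h5 h6 h7 h8
  obtain ⟨hy2, hy4, -, -, hL1⟩ := h5
  intro b R hR hRM hRc
  obtain ⟨y, hy⟩ : ∃ y, y = ⌊Real.log (Real.log (N : ℝ))⌋₊ := ⟨_, rfl⟩
  obtain ⟨M0, hM0⟩ : ∃ M0, M0 = ⌊l0 * Real.log (N : ℝ)⌋₊ := ⟨_, rfl⟩
  rw [← hy] at h1 h2 hy2 hy4 hRc ⊢
  rw [← hM0] at hRM ⊢
  obtain ⟨M, hM⟩ : ∃ M, M = ⌊Real.log (N : ℝ) ^ (2 : ℝ)⌋₊ := ⟨_, rfl⟩
  rw [← hM] at h1 h2
  have hL0 : 0 < Real.log (N : ℝ) := by linarith
  have hM0M : M0 ≤ M := by
    rw [hM0, hM]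
    apply Nat.floor_le_floor
    rw [Real.rpow_two, sq]
    exact mul_le_mul_of_nonneg_right h6 hL0.le
  obtain ⟨X, hX⟩ : ∃ X, X = (N : ℝ) / 4 := ⟨_, rfl⟩
  have hLLX : LL X = Real.log X / 200 := rfl
  have hLL1 : 1 ≤ LL X := by rw [hX]; exact h3
  have hX4 : 4 ≤ X := by rw [hX]; exact h4
  have hρ := rho_pos y
  have hyL : (y : ℝ) ≤ Real.log (Real.log (N : ℝ)) := by
    rw [hy]
    exact Nat.floor_le (Real.log_nonneg hL1)
  have hyX : (y : ℝ) ≤ (N : ℝ) / 4 := by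
    rw [← hX]
    have e1 : Real.log (Real.log (N : ℝ)) ≤ Real.log (N : ℝ) - 1 := Real.log_le_sub_one_of_pos hL0
    have e2 : Real.log (N : ℝ) = Real.log 4 + Real.log X := by
      rw [← Real.log_mul (by norm_num) (by positivity), hX]
      congr 1
      ring
    have e3 : Real.log X ≤ X - 1 := Real.log_le_sub_one_of_pos (by linarith)
    have e4 : Real.log 4 ≤ 2 := by
      have : Real.log 4 = 2 * Real.log 2 := by
        rw [show (4 : ℝ) = 2 ^ 2 by norm_num, Real.log_pow]; norm_num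
      have := Real.log_two_lt_d9
      linarith
    linarith
  have h4' : 4 ^ (y / 2) ≤ M0 + 1 := by
    have e1 : l0 * Real.log N < (M0 : ℝ) + 1 := by rw [hM0]; exact Nat.lt_floor_add_one _
    have e2 : ((4 ^ (y / 2) : ℕ) : ℝ) ≤ ((M0 + 1 : ℕ) : ℝ) := by
      push_cast
      linarith
    exact_mod_cast e2
  have hTc : (univ.image R).card = 4 * m * K' := by
    rw [card_image_of_injective _ hR, card_univ, Fintype.card_prod, Fintype.card_fin, Fintype.card_fin]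
  have hlo := h1 b R hR (fun x => (hRM x).trans hM0M) hRc
  have hin := interlop (4 * m * K') M0 M N y b δ C1 hδ1 hy2 (by linarith) hyX hM0M h4' h2 (univ.image R) hTc
    (fun t ht => by
      obtain ⟨x, _, rfl⟩ := mem_image.1 ht
      exact (hRM x).trans hM0M) hC1.le (by rw [← hX]; linarith)
  rw [← hX] at hlo hin ⊢
  -- the interlopers are few
  have hU : 0 ≤ UU (4 * m * K') X y := UU_nonneg _ (by linarith) y
  have hsmall : 8 * ((M0 + 1 : ℕ) : ℝ) * rho y * (C1 * UU (4 * m * K' + 1) X y) ≤ c0 / 2 * UU (4 * m * K') X y := by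
    rw [UU_add, pow_one]
    have e1 : ((M0 + 1 : ℕ) : ℝ) ≤ 2 * l0 * Real.log N := by
      push_cast
      have e2 : (M0 : ℝ) ≤ l0 * Real.log N := by rw [hM0]; exact Nat.floor_le (by positivity)
      have e3 : 1 ≤ l0 * Real.log N := by
        rw [div_le_iff₀ hl00] at h7
        linarith
      linarith
    have e4 : Real.log N ≤ 400 * LL X := by
      rw [hLLX]
      have e2 : Real.log (N : ℝ) = Real.log 4 + Real.log X := by
        rw [← Real.log_mul (by norm_num) (by positivity), hX]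
        congr 1
        ring
      have e3 : Real.log 4 ≤ Real.log X := Real.log_le_log (by norm_num) hX4
      linarith
    have hLLp : 0 < LL X := by linarith
    calc 8 * ((M0 + 1 : ℕ) : ℝ) * rho y * (C1 * (UU (4 * m * K') X y / (LL X * rho y))) =
        (8 * C1 * UU (4 * m * K') X y / LL X) * ((M0 + 1 : ℕ) : ℝ) := by field_simp
      _ ≤ (8 * C1 * UU (4 * m * K') X y / LL X) * (2 * l0 * (400 * LL X)) := by
          apply mul_le_mul_of_nonneg_left _ (by positivity)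
          refine e1.trans ?_
          apply mul_le_mul_of_nonneg_left e4 (by positivity)
      _ = c0 / 2 * UU (4 * m * K') X y := by
          rw [hl0]
          field_simp
          ring
  have hsplit : ∀ n ∈ Icc 1 ⌊3 * X⌋₊, nu X (Uni.WW y) b n *
      (if (m ≤ ((univ : Finset (Fin (4 * m))).filter (fun g => ∃ j, (n + R (g, j)).Prime)).card) ∧
        (∀ x, Rg δ X (n + R x)) then 1 else 0) ≤
      nu X (Uni.WW y) b n *
      (if ((m ≤ ((univ : Finset (Fin (4 * m))).filter (fun g => ∃ j, (n + R (g, j)).Prime)).card) ∧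
        (∀ x, Rg δ X (n + R x))) ∧ ∀ j ≤ M0, (n + j).Prime → ∃ x, R x = j then 1 else 0) +
      nu X (Uni.WW y) b n *
      (if (∀ t ∈ univ.image R, Rg δ X (n + t)) ∧ ∃ j ≤ M0, j ∉ univ.image R ∧ (n + j).Prime then 1 else 0) := by
    intro n _
    rw [← mul_add]
    apply mul_le_mul_of_nonneg_left _ (nu_nonneg _ _ _ _)
    by_cases hc : (m ≤ ((univ : Finset (Fin (4 * m))).filter (fun g => ∃ j, (n + R (g, j)).Prime)).card) ∧
        (∀ x, Rg δ X (n + R x))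
    · rw [if_pos hc]
      by_cases hd : ∀ j ≤ M0, (n + j).Prime → ∃ x, R x = j
      · rw [if_pos ⟨hc, hd⟩]
        have : (0 : ℝ) ≤ (if (∀ t ∈ univ.image R, Rg δ X (n + t)) ∧ ∃ j ≤ M0, j ∉ univ.image R ∧ (n + j).Prime then 1 else 0) := by
          split_ifs <;> norm_num
        linarith
      · rw [if_neg (fun h => hd h.2), if_pos, zero_add]
        push Not at hd
        obtain ⟨j, hj1, hj2, hj3⟩ := hd
        refine ⟨fun t ht => ?_, j, hj1, fun h => ?_, hj2⟩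
        · obtain ⟨x, _, rfl⟩ := mem_image.1 ht
          exact hc.2 x
        · obtain ⟨x, _, hx⟩ := mem_image.1 h
          exact hj3 x hx
    · rw [if_neg hc]
      apply add_nonneg <;> split_ifs <;> norm_num
  have hfin := hlo.trans (sum_le_sum hsplit)
  rw [sum_add_distrib] at hfin
  linarith

end Pool.Agent.Y877.RO
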