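import Mathlib
import Pool.Agent.Y877.RgH
import Pool.Agent.Y877.RoA

/-! Few configurations fail for consecutive primes (helper877; from SM.lean of helper362). -/

set_option autoImplicit false

namespace Pool.Agent.Y877.RO

open Finset Filter Topology
open Pool.Agent.H378R2 Pool.Agent.H387R2 Pool.Agent.H387R2.MB Pool.Agent.H362R2.QT

/-- all `n + t`, `t ∈ T`, are prime, and nothing between two of them is -/
def EvC (n : ℕ) (T : Finset ℕ) : Prop :=
  (∀ t ∈ T, (n + t).Prime) ∧ ∀ t ∈ T, ∀ t' ∈ T, ∀ s, t < s → s < t' → ¬ (n + s).Prime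

open Classical in
/-- the pairs of shifts with many consecutive primes in the class `b` -/
def GoodC (κ : ℝ) (N y b : ℕ) (T : Finset ℕ) : Prop :=
  κ * UU 2 ((N : ℝ) / 4) y ≤ ∑ n ∈ Icc 1 ⌊3 * ((N : ℝ) / 4)⌋₊, nu ((N : ℝ) / 4) (Uni.WW y) b n *
    (if EvC n T then 1 else 0)

open Classical in
/-- the failing configurations -/
noncomputable def FailC {β : Type} (m K' : ℕ) (κ : ℝ) (N y b : ℕ) (S : Finset ℕ) (comp : Fin (4 * m) → β) :
    Finset (Fin (4 * m) × Fin K' → ℕ) :=
  (Fintype.piFinset (fun _ => S)).filter (fun A => Function.Injective A ∧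
    ∀ x x', comp x.1 ≠ comp x'.1 → ¬ GoodC κ N y b {A x, A x'})

open Classical in
theorem mem_FailC {β : Type} (m K' : ℕ) (κ : ℝ) (N y b : ℕ) (S : Finset ℕ) (comp : Fin (4 * m) → β)
    (A : Fin (4 * m) × Fin K' → ℕ) : A ∈ FailC m K' κ N y b S comp ↔ (∀ x, A x ∈ S) ∧ Function.Injective A ∧
      ∀ x x', comp x.1 ≠ comp x'.1 → ¬ GoodC κ N y b {A x, A x'} := by
  unfold FailC
  rw [mem_filter, Fintype.mem_piFinset]

open Classical in
/-- a pair of consecutive primes in different components -/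
theorem cross_pair {β : Type} (m K' : ℕ) (hm1 : 1 ≤ m) (comp : Fin (4 * m) → β)
    (hcomp : ∀ (c : β) (I : Finset (Fin (4 * m))), (∀ i ∈ I, comp i = c) → I.card < m)
    (A : Fin (4 * m) × Fin K' → ℕ) (n M0 : ℕ) (hAM : ∀ x, A x ≤ M0)
    (h1 : m ≤ ((univ : Finset (Fin (4 * m))).filter (fun g => ∃ j, (n + A (g, j)).Prime)).card)
    (h2 : ∀ j ≤ M0, (n + j).Prime → ∃ x, A x = j) :
    ∃ x x', comp x.1 ≠ comp x'.1 ∧ A x ≤ A x' ∧ EvC n {A x, A x'} := by
  -- the pairs in different components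
  obtain ⟨P, hP⟩ : ∃ P : Finset ((Fin (4 * m) × Fin K') × (Fin (4 * m) × Fin K')), P = univ.filter (fun z =>
    comp z.1.1 ≠ comp z.2.1 ∧ A z.1 ≤ A z.2 ∧ (n + A z.1).Prime ∧ (n + A z.2).Prime) := ⟨_, rfl⟩
  have hne : P.Nonempty := by
    by_contra hempty
    rw [not_nonempty_iff_eq_empty] at hempty
    have hsame : ∀ x x' : Fin (4 * m) × Fin K', (n + A x).Prime → (n + A x').Prime → comp x.1 = comp x'.1 := by
      intro x x' hx hx'
      by_contra hc
      rcases le_total (A x) (A x') with h | h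
      · have : (x, x') ∈ P := by
          rw [hP, mem_filter]
          exact ⟨mem_univ _, hc, h, hx, hx'⟩
        rw [hempty] at this
        exact absurd this (notMem_empty _)
      · have : (x', x) ∈ P := by
          rw [hP, mem_filter]
          exact ⟨mem_univ _, fun h3 => hc h3.symm, h, hx', hx⟩
        rw [hempty] at this
        exact absurd this (notMem_empty _)
    have hpos : 0 < ((univ : Finset (Fin (4 * m))).filter (fun g => ∃ j, (n + A (g, j)).Prime)).card := by omega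
    obtain ⟨g0, hg0⟩ := card_pos.1 hpos
    obtain ⟨j0, hj0⟩ := (mem_filter.1 hg0).2
    have := hcomp (comp g0) ((univ : Finset (Fin (4 * m))).filter (fun g => ∃ j, (n + A (g, j)).Prime)) (by
      intro g hg
      rw [mem_filter] at hg
      obtain ⟨j, hj⟩ := hg.2
      exact hsame (g, j) (g0, j0) hj hj0)
    omega
  obtain ⟨z, hz, hmin⟩ := exists_min_image P (fun z => A z.2 - A z.1) hne
  rw [hP, mem_filter] at hz
  obtain ⟨-, hz1, hz2, hz3, hz4⟩ := hz
  refine ⟨z.1, z.2, hz1, hz2, ?_, ?_⟩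
  · intro t ht
    rw [mem_insert, mem_singleton] at ht
    rcases ht with rfl | rfl
    · exact hz3
    · exact hz4
  · have hno : ∀ s, A z.1 < s → s < A z.2 → ¬ (n + s).Prime := by
      intro s hs1 hs2 hsp
      obtain ⟨w, hw⟩ := h2 s (hs2.le.trans (hAM _)) hsp
      by_cases hc : comp z.1.1 = comp w.1
      · have hwP : (w, z.2) ∈ P := by
          rw [hP, mem_filter]
          refine ⟨mem_univ _, fun h3 => hz1 (hc.trans h3), ?_, ?_, hz4⟩
          · rw [hw]; exact hs2.le
          · rw [hw]; exact hsp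
        have := hmin _ hwP
        simp only [hw] at this
        omega
      · have hwP : (z.1, w) ∈ P := by
          rw [hP, mem_filter]
          refine ⟨mem_univ _, hc, ?_, hz3, ?_⟩
          · rw [hw]; exact hs1.le
          · rw [hw]; exact hsp
        have := hmin _ hwP
        simp only [hw] at this
        omega
    intro t ht t' ht' s hs1 hs2
    rw [mem_insert, mem_singleton] at ht ht'
    rcases ht with rfl | rfl <;> rcases ht' with rfl | rfl
    · omega
    · exact hno s hs1 hs2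
    · omega
    · omega

open Classical in
/-- few configurations fail -/
theorem fail_smallC (m K' : ℕ) (hm1 : 1 ≤ m) (hK' : 1 ≤ K') (δ c0 l0 : ℝ) (hδ : 0 < δ)
    (hc0 : 0 < c0) 
    (hlow : ∀ᶠ N : ℕ in atTop, LowD m K' δ c0 N ⌊l0 * Real.log N⌋₊ ⌊Real.log (Real.log N)⌋₊)
    (δ' lam : ℝ) (hδ' : 0 < δ') (hlam : 0 < lam) : ∃ κ : ℝ, 0 < κ ∧
    ∀ᶠ N : ℕ in atTop, ∀ (β : Type) (comp : Fin (4 * m) → β)
      (_ : ∀ (c : β) (I : Finset (Fin (4 * m))), (∀ i ∈ I, comp i = c) → I.card < m)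
      (b : ℕ) (S : Finset ℕ), (∀ a ∈ S, a ≤ ⌊l0 * Real.log N⌋₊) →
      (∀ a ∈ S, Nat.Coprime (Uni.WW ⌊Real.log (Real.log N)⌋₊) (b + a)) →
      lam * rho ⌊Real.log (Real.log N)⌋₊ * Real.log N ≤ S.card →
      ((FailC m K' κ N ⌊Real.log (Real.log N)⌋₊ b S comp).card : ℝ) ≤ δ' * (S.card : ℝ) ^ (4 * m * K') := by
  have hKr : 1 + 1 ≤ 4 * m * K' := by
    calc 1 + 1 ≤ 4 * m := by omega
      _ ≤ _ := Nat.le_mul_of_pos_right _ hK'
  set J := 4 * m * K' - (1 + 1) with hJ
  obtain ⟨C1, hC1, hupp1⟩ := upp_eventually (1 + 1) hδ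
  obtain ⟨C2, hC2, hupp2⟩ := upp_eventually (1 + 1 + 2 * J) hδ
  set D := Dc (1 + 1) J * (C1 / lam ^ (2 * J) + C2) with hD
  have hD0 : 0 ≤ D := by
    have : 0 ≤ Dc (1 + 1) J := by unfold Dc; positivity
    positivity
  have hKpos : (0:ℝ) < ((4 * m * K' : ℕ) : ℝ) := by exact_mod_cast (by omega : 0 < 4 * m * K')
  set κ0 : ℝ := 2 * c0 * δ' / ((1 + D) * ((4 * m * K' : ℕ) : ℝ) ^ (1 + 1)) with hκ0
  have hκ : 0 < κ0 := by positivity
  refine ⟨κ0 ^ 2, by positivity, ?_⟩
  have tN : Tendsto (fun N : ℕ => (N : ℝ)) atTop atTop := tendsto_natCast_atTop_atTop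
  have tL : Tendsto (fun N : ℕ => Real.log (N : ℝ)) atTop atTop := Real.tendsto_log_atTop.comp tN
  have tX : Tendsto (fun N : ℕ => (N : ℝ) / 4) atTop atTop := tN.atTop_div_const (by norm_num)
  filter_upwards [hlow, hupp1 2, hupp2 2, (LL_tendsto.comp tX).eventually_ge_atTop 1, tX.eventually MPhi_big,
    tX.eventually_ge_atTop 4, tL.eventually_gt_atTop 0, tL.eventually_ge_atTop l0] with N h1 h2 h3 h4 h5 h6 h8 h9
  set X := (N:ℝ) / 4 with hX
  set y := ⌊Real.log (Real.log (N:ℝ))⌋₊ with hy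
  have hL0 : 0 < LL X := by
    have : 1 ≤ LL X := h4
    linarith
  have hρ := rho_pos y
  have hMP : 0 < MPhi X := lt_of_lt_of_le (by positivity) h5
  have hMM : ⌊l0 * Real.log (N : ℝ)⌋₊ ≤ ⌊Real.log (N : ℝ) ^ (2 : ℝ)⌋₊ := by
    apply Nat.floor_le_floor
    rw [Real.rpow_two, sq]
    exact mul_le_mul_of_nonneg_right h9 h8.le
  intro β comp hcomp b S hSM0 hSc hScard
  have hSM : ∀ a ∈ S, a ≤ ⌊Real.log (N : ℝ) ^ (2 : ℝ)⌋₊ := fun a ha => (hSM0 a ha).trans hMM
  set g := LL X * rho y with hg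
  have hg0 : 0 < g := by positivity
  have hW0 : (0:ℝ) < (Uni.WW y : ℝ) := by exact_mod_cast Uni.WW_pos y
  have hU : 0 < UU (1 + 1) X y := by unfold UU; positivity
  have hsg : lam * g ≤ S.card := by
    refine le_trans ?_ hScard
    have : LL X ≤ Real.log N := by
      unfold LL
      have e1 : Real.log X ≤ Real.log N := Real.log_le_log (by linarith) (by
        have : (0:ℝ) ≤ N := Nat.cast_nonneg N
        rw [hX]; linarith)
      linarith
    calc lam * g = lam * rho y * LL X := by rw [hg]; ring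
      _ ≤ _ := mul_le_mul_of_nonneg_left this (by positivity)
  have hcardI : Fintype.card (Fin (4 * m) × Fin K') = 1 + 1 + J := by
    rw [Fintype.card_prod, Fintype.card_fin, Fintype.card_fin]
    omega
  have hbound := absSME (ι := Fin (4 * m) × Fin K') (Icc 1 ⌊3 * X⌋₊) (fun n => nu X (Uni.WW y) b n)
    (fun n => nu_nonneg X _ b n) (fun n a => Rg δ X (n + a)) EvC S (1 + 1) J hcardI
    (UU (1 + 1) X y) g c0 C1 C2 lam κ0 hU hg0 hC1.le hC2.le hlam hsg hκ
    (fun T hT hTr => h2 b T hTr (fun a ha => hSM a (hT ha)))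
    (fun R hR hRr => by
      have := h3 b R hRr (fun a ha => hSM a (hR ha))
      rw [UU_add] at this
      exact this)
    (FailC m K' (κ0 ^ 2) N y b S comp) (by
      intro A hA
      unfold FailC at hA
      rw [mem_filter, Fintype.mem_piFinset] at hA
      obtain ⟨hAS, hAinj, hAn⟩ := hA
      refine ⟨hAS, ?_⟩
      have hl := h1 b A hAinj (fun x => hSM0 _ (hAS x)) (fun x => hSc _ (hAS x))
      have e1 : UU (4 * m * K') X y = UU (1 + 1) X y / g ^ J := by
        rw [← UU_add]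
        congr 1
        omega
      rw [e1] at hl
      refine hl.trans (sum_le_sum fun n _ => ?_)
      apply mul_le_mul_of_nonneg_left _ (nu_nonneg X _ b n)
      by_cases hc : ((m ≤ ((univ : Finset (Fin (4 * m))).filter (fun g => ∃ j, (n + A (g, j)).Prime)).card) ∧
        (∀ x, Rg δ X (n + A x))) ∧ ∀ j ≤ ⌊l0 * Real.log (N : ℝ)⌋₊, (n + j).Prime → ∃ x, A x = j
      · rw [if_pos hc, if_pos]
        refine ⟨?_, hc.1.2⟩
        obtain ⟨x, x', hxx, hle, hev⟩ := cross_pair m K' hm1 comp hcomp A n _ (fun x => hSM0 _ (hAS x)) hc.1.1 hc.2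
        have hxne : A x ≠ A x' := fun h => hxx (by rw [hAinj h])
        refine ⟨{A x, A x'}, ?_, by rw [card_pair hxne], ?_, hev⟩
        · intro t ht
          rw [mem_insert, mem_singleton] at ht
          rcases ht with rfl | rfl
          · exact mem_image_of_mem _ (mem_univ _)
          · exact mem_image_of_mem _ (mem_univ _)
        · have hU3 := hAn x x' hxx
          unfold GoodC at hU3
          rw [not_le] at hU3
          refine lt_of_le_of_lt (le_of_eq (sum_congr rfl fun n' _ => congrArg _ ?_)) hU3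
          by_cases h9 : EvC n' {A x, A x'}
          · rw [if_pos h9]
          · rw [if_neg h9]
      · rw [if_neg hc]
        split_ifs <;> norm_num)
  rw [← hD] at hbound
  have e2 : κ0 * ((1 + D) / 2) * ((Fintype.card (Fin (4 * m) × Fin K') : ℝ) ^ (1 + 1) * (S.card : ℝ) ^ (1 + 1 + J)) =
      c0 * (δ' * (S.card : ℝ) ^ (4 * m * K')) := by
    have e3 : 1 + 1 + J = 4 * m * K' := by omega
    rw [hcardI, e3, hκ0]
    field_simp
  rw [e2] at hbound
  exact le_of_mul_le_mul_left hbound hc0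

end Pool.Agent.Y877.RO
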