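import Mathlib
import Pool.Agent.Y877.RgI
import Pool.Agent.Y877.RgD
import Pool.Agent.Y877.RoE

/-! Rare gaps are good in few classes (helper877). -/

set_option autoImplicit false

namespace Pool.Agent.Y877.RO

open Finset Filter Topology
open Pool.Agent.H378R2 Pool.Agent.H387R2 Pool.Agent.H387R2.MB Pool.Agent.H362R2.QT

open Classical in
/-- the number of the primes `p ≤ N` for which `p + d` is the next prime -/
noncomputable def gapc (N d : ℕ) : ℕ :=
  ((Icc 1 N).filter (fun p => p.Prime ∧ (p + d).Prime ∧ ∀ q, p < q → q < p + d → ¬ q.Prime)).card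

/-- the gap `d` has the right order -/
def GoodG (κ : ℝ) (N d : ℕ) : Prop := κ * Uni.CT (pp d) * (N / Real.log N ^ 2) ≤ gapc N d

open Classical in
/-- the smoothed count of an event -/
noncomputable def STE (N : ℕ) (T : Finset ℕ) : ℝ :=
  ∑ n ∈ Icc 1 ⌊3 * ((N:ℝ) / 4)⌋₊, Phi ((n:ℝ) / ((N:ℝ) / 4)) * (if EvC n T then 1 else 0)

open Classical in
theorem STE_le (N M x0 t : ℕ) (hX : 0 < (N : ℝ) / 4) (hM : (M:ℝ) ≤ (N:ℝ) / 4) (hx0 : x0 ≤ M) :
    STE N ((pp t).image (fun z => z + x0)) ≤ gapc N t := by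
  unfold STE gapc
  have h1 : ∀ n ∈ Icc 1 ⌊3 * ((N:ℝ) / 4)⌋₊, Phi ((n:ℝ) / ((N:ℝ) / 4)) *
      (if EvC n ((pp t).image (fun z => z + x0)) then 1 else 0) ≤
      (if EvC n ((pp t).image (fun z => z + x0)) then (1 : ℝ) else 0) := by
    intro n _
    have h2 := Phi_le_one ((n:ℝ) / ((N:ℝ) / 4))
    split_ifs
    · linarith
    · simp
  refine (sum_le_sum h1).trans ?_
  rw [← sum_filter, sum_const, nsmul_eq_mul, mul_one]
  apply Nat.cast_le.2
  refine card_le_card_of_injOn (fun n => n + x0) ?_ (fun a _ b _ h => by simpa using h)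
  intro n hn
  rw [mem_coe, mem_filter, mem_Icc] at hn
  obtain ⟨⟨hn1, hn2⟩, hev1, hev2⟩ := hn
  have hn3 : (n:ℝ) ≤ 3 * ((N:ℝ) / 4) := (Nat.le_floor_iff (by linarith)).1 hn2
  have hx0m : x0 ∈ (pp t).image (fun z => z + x0) := by
    rw [mem_image]
    exact ⟨0, by unfold pp; simp, by simp⟩
  have htm : t + x0 ∈ (pp t).image (fun z => z + x0) := by
    rw [mem_image]
    exact ⟨t, by unfold pp; simp, rfl⟩
  rw [mem_coe, mem_filter, mem_Icc]
  refine ⟨⟨by simp only; omega, ?_⟩, ?_, ?_, ?_⟩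
  · simp only
    have h3 : ((n + x0 : ℕ) : ℝ) ≤ N := by
      push_cast
      have : (x0 : ℝ) ≤ M := by exact_mod_cast hx0
      linarith
    exact_mod_cast h3
  · exact hev1 _ hx0m
  · have := hev1 _ htm
    simp only
    rw [show n + x0 + t = n + (t + x0) by ring]
    exact this
  · intro q hq1 hq2
    simp only at hq1 hq2
    have h4 := hev2 _ hx0m _ htm (q - n) (by omega) (by omega)
    rw [show n + (q - n) = q by omega] at h4
    exact h4

open Classical in
theorem STE_ge (κ : ℝ) (N y : ℕ) (T : Finset ℕ) :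
    (nGG (fun b X => GoodC κ N y b X) y T : ℝ) * (κ * UU 2 ((N : ℝ) / 4) y) ≤ STE N T := by
  have h1 : ∑ b ∈ range (Uni.WW y), ∑ n ∈ Icc 1 ⌊3 * ((N : ℝ) / 4)⌋₊, nu ((N : ℝ) / 4) (Uni.WW y) b n *
    (if EvC n T then 1 else 0) = STE N T := by
    unfold STE
    rw [sum_comm]
    apply sum_congr rfl
    intro n _
    rw [← sum_mul]
    congr 1
    have h2 : ∑ b ∈ range (Uni.WW y), nu ((N:ℝ) / 4) (Uni.WW y) b n =
      nu ((N:ℝ) / 4) (Uni.WW y) (n % Uni.WW y) n := by
      apply sum_eq_single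
      · intro b hb hne
        unfold nu
        rw [if_neg]
        intro h
        apply hne
        rw [Nat.ModEq, Nat.mod_eq_of_lt (mem_range.1 hb)] at h
        exact h.symm
      · intro h
        exact absurd (mem_range.2 (Nat.mod_lt _ (Uni.WW_pos y))) h
    rw [h2]
    unfold nu
    rw [if_pos (Nat.mod_modEq n _).symm]
  rw [← h1]
  unfold nGG
  rw [← nsmul_eq_mul]
  refine le_trans ?_ (sum_le_sum_of_subset_of_nonneg (filter_subset (fun b => (∀ t ∈ T, Nat.Coprime (Uni.WW y) (b + t)) ∧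
      GoodC κ N y b T) _)
    (fun b _ _ => sum_nonneg fun n _ => mul_nonneg (nu_nonneg _ _ _ _) (by split_ifs <;> norm_num)))
  apply card_nsmul_le_sum
  intro b hb
  rw [mem_filter] at hb
  have := hb.2.2
  unfold GoodC at this
  refine this.trans (le_of_eq (sum_congr rfl fun n _ => ?_))
  congr

/-- a rare gap is good in few classes -/
theorem bad_convC (C : ℝ) : ∀ᶠ N : ℕ in atTop, ∀ (κ κ' : ℝ), 0 ≤ κ → 0 < κ' →
    ∀ (t x0 : ℕ), 1 ≤ t → t + x0 ≤ ⌊Real.log N ^ C⌋₊ → ¬ GoodG κ N t →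
    κ' * nGG (fun b X => GoodC κ' N ⌊Real.log (Real.log N)⌋₊ b X) ⌊Real.log (Real.log N)⌋₊
      ((pp t).image (fun z => z + x0)) ≤
      2 * κ * Uni.gT (Uni.WW ⌊Real.log (Real.log N)⌋₊) ((pp t).image (fun z => z + x0)) := by
  classical
  have tN : Tendsto (fun N : ℕ => (N : ℝ)) atTop atTop := tendsto_natCast_atTop_atTop
  have tL : Tendsto (fun N : ℕ => Real.log (N : ℝ)) atTop atTop := Real.tendsto_log_atTop.comp tN
  have tX : Tendsto (fun N : ℕ => (N : ℝ) / 4) atTop atTop := tN.atTop_div_const (by norm_num)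
  filter_upwards [CTS 1 1 C (by norm_num), M_le_sqrt C, (LL_tendsto.comp tX).eventually_ge_atTop 1,
    tX.eventually_ge_atTop 42, tL.eventually_ge_atTop 1] with N h2 h5 h6 h7 hL1
  intro κ κ' hκ hκ' t x0 ht hTM hbad
  have hbad2 : (gapc N t : ℝ) < κ * Uni.CT (pp t) * (N / Real.log N ^ 2) := not_le.1 hbad
  set M := ⌊Real.log N ^ C⌋₊ with hM
  set X := (N:ℝ) / 4 with hX
  set y := ⌊Real.log (Real.log (N:ℝ))⌋₊ with hy
  set W := Uni.WW y with hW
  set L := Real.log (N:ℝ) with hL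
  set T' := (pp t).image (fun z => z + x0) with hT'
  have hL0 : 0 < L := by linarith
  have hLL1 : 1 ≤ LL X := h6
  have hLL0 : 0 < LL X := by linarith
  have hρ := rho_pos y
  have hWpos : 0 < W := Uni.WW_pos y
  have hW0 : (0:ℝ) < W := by exact_mod_cast hWpos
  have hX40 : 40 ≤ X := by linarith
  have hX0 : 0 < X := by linarith
  have hNX : (N:ℝ) = 4 * X := by rw [hX]; ring
  have hLLL2 : 200 * LL X ≤ L := by
    unfold LL
    rw [show 200 * (Real.log X / 200) = Real.log X by ring, hL]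
    apply Real.log_le_log hX0
    linarith
  set V : ℝ := N / L ^ 2 with hV
  have hV0 : 0 ≤ V := by positivity
  have hMl : X / 20 ≤ MPhi X := MPhi_ge X hX40
  have hMP : 0 < MPhi X := lt_of_lt_of_le (by positivity) hMl
  have hUe : ∀ g : ℝ, g * UU 2 X y = ((1 / rho y) ^ 2 * (g / W)) * (MPhi X / LL X ^ 2) := by
    intro g
    unfold UU
    rw [← hW, mul_pow, one_div_pow]
    field_simp
  have hU : 0 < UU 2 X y := by unfold UU; positivity
  have hr1 : V ≤ MPhi X / LL X ^ 2 := by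
    have h9 : (200:ℝ) ^ 2 / 80 * V ≤ MPhi X / LL X ^ 2 := by
      rw [hV, hNX]
      have : (200:ℝ) ^ 2 / 80 * (4 * X / L ^ 2) = (X / 20) / (L / 200) ^ 2 := by
        rw [div_pow]; field_simp; ring
      rw [this]
      apply div_le_div₀ (MPhi_nonneg X) hMl (by positivity)
      apply pow_le_pow_left₀ hLL0.le
      linarith
    refine le_trans ?_ h9
    exact le_mul_of_one_le_left hV0 (by norm_num)
  have hMX : (M:ℝ) ≤ X := by
    refine h5.trans ?_
    rw [Real.sqrt_le_left hX0.le, sq]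
    calc X = X * 1 := (mul_one X).symm
      _ ≤ X * X := mul_le_mul_of_nonneg_left (by linarith) hX0.le
  have p3 : STE N T' ≤ gapc N t := STE_le N M x0 t hX0 hMX (by omega)
  have p4 := STE_ge κ' N y T'
  have hT'c : T'.card = 1 + 1 := by
    rw [hT', card_image_of_injective _ (add_left_injective x0), pp_card t ht]
  have p5 := (h2 T' hT'c (by
    intro z hz
    rw [hT', mem_image] at hz
    obtain ⟨z1, hz1, rfl⟩ := hz
    unfold pp at hz1
    rw [mem_insert, mem_singleton] at hz1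
    rcases hz1 with rfl | rfl <;> omega)).2
  rw [hT', CT_shift, ← hT'] at p5
  have hCT := Uni.CT_nonneg (pp t)
  have p6 : (nGG (fun b X => GoodC κ' N y b X) y T' : ℝ) * (κ' * UU 2 X y) ≤ 2 * κ * Uni.gT W T' * UU 2 X y := by
    refine p4.trans (p3.trans (hbad2.le.trans ?_))
    rw [hUe]
    set zz := (1 / rho y) ^ 2 * ((Uni.gT W T' : ℝ) / W) with hzz
    have hzz0 : 0 ≤ zz := by positivity
    have p5' : Uni.CT (pp t) ≤ (1 + 1) * zz := p5
    calc κ * Uni.CT (pp t) * (N / L ^ 2) ≤ κ * ((1 + 1) * zz) * (MPhi X / LL X ^ 2) := by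
          gcongr
      _ = _ := by rw [hzz]; ring
  have p7 : (κ' * nGG (fun b X => GoodC κ' N y b X) y T') * UU 2 X y ≤ (2 * κ * Uni.gT W T') * UU 2 X y := by
    refine le_trans (le_of_eq ?_) p6
    ring
  exact le_of_mul_le_mul_right p7 hU

end Pool.Agent.Y877.RO
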