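import Mathlib
import Pool.Agent.Y877.RgJ

/-! Gaps of the right order for almost all multiples: main theorem (helper877). -/

set_option autoImplicit false

namespace Pool.Agent.Y877.RO

open Finset Filter Topology
open Pool.Agent.H378R2 Pool.Agent.H387R2 Pool.Agent.H387R2.MB Pool.Agent.H362R2.QT

open Classical in
/-- the component of an index -/
noncomputable def cmp {ι : Type} [Fintype ι] (r : ι → ι → Prop) (i : ι) : Finset ι :=
  univ.filter (fun j => Relation.ReflTransGen r i j)

theorem rtg_symm {ι : Type} (r : ι → ι → Prop) (hr : ∀ i j, r i j → r j i) {i j : ι}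
    (h : Relation.ReflTransGen r i j) : Relation.ReflTransGen r j i := by
  induction h with
  | refl => exact Relation.ReflTransGen.refl
  | tail _ hb ih => exact Relation.ReflTransGen.head (hr _ _ hb) ih

theorem cmp_eq {ι : Type} [Fintype ι] (r : ι → ι → Prop) (hr : ∀ i j, r i j → r j i) {i j : ι}
    (h : r i j) : cmp r i = cmp r j := by
  unfold cmp
  ext l
  simp only [mem_filter, mem_univ, true_and]
  constructor
  · intro h2
    exact Relation.ReflTransGen.head (hr _ _ h) h2
  · intro h2
    exact Relation.ReflTransGen.head h h2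

open Classical in
/-- components are connected -/
theorem cmp_conn {ι : Type} [Fintype ι] (r : ι → ι → Prop) (hr : ∀ i j, r i j → r j i) (c I : Finset ι)
    (hI : ∀ i, i ∈ I ↔ cmp r i = c) (J : Finset ι) (hJ : J ⊆ I) (hne : J.Nonempty) (hJ2 : J ≠ I) :
    ∃ i ∈ J, ∃ j ∈ I, j ∉ J ∧ r i j := by
  by_contra hcon
  push Not at hcon
  apply hJ2
  apply Subset.antisymm hJ
  obtain ⟨i0, hi0⟩ := hne
  have hi0c : cmp r i0 = c := (hI _).1 (hJ hi0)
  have key : ∀ l, Relation.ReflTransGen r i0 l → l ∈ J := by
    intro l hl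
    induction hl with
    | refl => exact hi0
    | tail _ hb ih =>
      rename_i l1 l2 _
      by_contra hn
      refine hcon l1 ih l2 ?_ hn hb
      rw [hI, ← cmp_eq r hr hb]
      exact (hI _).1 (hJ ih)
  intro l hl
  have hlc : cmp r l = c := (hI _).1 hl
  apply key
  have h1 : l ∈ cmp r l := by
    unfold cmp
    rw [mem_filter]
    exact ⟨mem_univ _, Relation.ReflTransGen.refl⟩
  rw [hlc, ← hi0c] at h1
  unfold cmp at h1
  exact (mem_filter.1 h1).2

/-- a dense set is dense in a short subwindow -/
theorem subwin (u H h : ℕ) (hh : 1 ≤ h) (e : ℝ) (he : 0 < e) (B : Finset ℕ) (hB : B ⊆ Ioc u (u + H))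
    (hBc : e * H ≤ B.card) (hhH : (h : ℝ) ≤ e / 2 * H) :
    ∃ v, u ≤ v ∧ v + h ≤ u + H ∧ e / 2 * h ≤ (B.filter (fun k => k ∈ Ioc v (v + h))).card := by
  by_contra hcon
  push Not at hcon
  obtain ⟨q, hq⟩ : ∃ q, q = H / h := ⟨_, rfl⟩
  have hqh : q * h ≤ H := by rw [hq]; exact Nat.div_mul_le_self H h
  have hqh2 : H < (q + 1) * h := by
    rw [hq]
    have := Nat.lt_div_mul_add (a := H) (b := h) (by omega)
    linarith [this, (by ring : (H / h + 1) * h = H / h * h + h)]
  have h1 : B ⊆ (range q).biUnion (fun i => B.filter (fun k => k ∈ Ioc (u + i * h) (u + i * h + h))) ∪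
      Ioc (u + q * h) (u + H) := by
    intro k hk
    have hk2 := mem_Ioc.1 (hB hk)
    rw [mem_union, mem_biUnion]
    rcases Nat.lt_or_ge (u + q * h) k with h2 | h2
    · right
      rw [mem_Ioc]
      omega
    · left
      obtain ⟨i, hi⟩ : ∃ i, i = (k - u - 1) / h := ⟨_, rfl⟩
      have h3 : i * h ≤ k - u - 1 := by rw [hi]; exact Nat.div_mul_le_self _ _
      have h4 : k - u - 1 < i * h + h := by
        rw [hi]
        exact Nat.lt_div_mul_add (by omega)
      have h5 : i < q := by
        rw [hi, Nat.div_lt_iff_lt_mul (by omega)]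
        omega
      refine ⟨i, mem_range.2 h5, ?_⟩
      rw [mem_filter, mem_Ioc]
      exact ⟨hk, by omega, by omega⟩
  have h2 : (B.card : ℝ) ≤ ∑ i ∈ range q, ((B.filter (fun k => k ∈ Ioc (u + i * h) (u + i * h + h))).card : ℝ) +
      ((Ioc (u + q * h) (u + H)).card : ℝ) := by
    have := (card_le_card h1).trans ((card_union_le _ _).trans (Nat.add_le_add_right card_biUnion_le _))
    exact_mod_cast this
  have h3 : ((Ioc (u + q * h) (u + H)).card : ℝ) ≤ e / 2 * H := by
    refine le_trans ?_ hhH
    rw [Nat.card_Ioc]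
    have : u + H - (u + q * h) ≤ h := by
      have e1 : (q + 1) * h = q * h + h := by ring
      omega
    exact_mod_cast this
  have hh0 : (0 : ℝ) < h := by exact_mod_cast hh
  have hH0 : 0 < (H : ℝ) := by
    by_contra hneg
    have : (H : ℝ) = 0 := le_antisymm (not_lt.1 hneg) (Nat.cast_nonneg _)
    rw [this, mul_zero] at hhH
    linarith
  have hq1 : 1 ≤ q ∨ q = 0 := by omega
  have h4 : ∑ i ∈ range q, ((B.filter (fun k => k ∈ Ioc (u + i * h) (u + i * h + h))).card : ℝ) ≤
      ∑ _i ∈ range q, e / 2 * h := by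
    refine sum_le_sum fun i hi => ?_
    have hi2 := mem_range.1 hi
    refine (hcon (u + i * h) (Nat.le_add_right _ _) ?_).le
    have : (i + 1) * h ≤ q * h := Nat.mul_le_mul_right _ (by omega)
    have e1 : (i + 1) * h = i * h + h := by ring
    omega
  rw [sum_const, card_range, nsmul_eq_mul] at h4
  have h5 : (q : ℝ) * (e / 2 * h) ≤ e / 2 * H := by
    have : ((q * h : ℕ) : ℝ) ≤ H := by exact_mod_cast hqh
    push_cast at this
    calc (q : ℝ) * (e / 2 * h) = e / 2 * (q * h) := by ring
      _ ≤ _ := mul_le_mul_of_nonneg_left this (by linarith)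
  rcases hq1 with hq1 | hq1
  · -- strict inequality in one window
    have h6 : ∑ i ∈ range q, ((B.filter (fun k => k ∈ Ioc (u + i * h) (u + i * h + h))).card : ℝ) <
        ∑ _i ∈ range q, e / 2 * h := by
      refine sum_lt_sum_of_nonempty ⟨0, mem_range.2 (by omega)⟩ fun i hi => ?_
      have hi2 := mem_range.1 hi
      refine hcon (u + i * h) (Nat.le_add_right _ _) ?_
      have : (i + 1) * h ≤ q * h := Nat.mul_le_mul_right _ (by omega)
      have e1 : (i + 1) * h = i * h + h := by ring
      omega
    rw [sum_const, card_range, nsmul_eq_mul] at h6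
    linarith
  · rw [hq1] at h2 h3
    rw [range_zero, sum_empty] at h2
    have : 0 < e * H := by positivity
    linarith

end Pool.Agent.Y877.RO
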