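import Mathlib
import Pool.Agent.Y877.RgK

/-! Gaps of the right order for almost all multiples: main theorem (helper877). -/

set_option autoImplicit false

namespace Pool.Agent.Y877.RO

open Finset Filter Topology
open Pool.Agent.H378R2 Pool.Agent.H387R2 Pool.Agent.H387R2.MB Pool.Agent.H362R2.QT

open Classical in
/-- **Connected sets of multipliers.** -/
theorem gapsRO (M : ℕ) (hM : 1 ≤ M) (m : Fin (4 * M) → ℕ) (hm : Function.Injective m) (bb : ℕ) (hbb : 1 ≤ bb)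
    (hadm : ∀ p : ℕ, p.Prime → ∃ r : ℕ, r < p ∧ ∀ i, bb * m i % p ≠ r) : ∃ l1 : ℝ, 0 < l1 ∧
    ∀ ε lam : ℝ, 0 < ε → 0 < lam → ∃ κ : ℝ, 0 < κ ∧ ∀ᶠ N : ℕ in atTop, ∀ H u : ℕ, lam * Real.log N ≤ H →
    ((u : ℝ) + H ≤ l1 * Real.log N) →
    (1 - ε) * (H : ℝ) ≤ (((Ioc u (u + H)).filter (fun k => ∃ I : Finset (Fin (4 * M)), M ≤ I.card ∧
      ∀ J ⊆ I, J.Nonempty → J ≠ I → ∃ i ∈ J, ∃ j ∈ I, j ∉ J ∧
        GoodG κ N (bb * Nat.dist (m i) (m j) * k))).card : ℝ) := by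
  obtain ⟨K', hK', δ, hδ, hδ1, c0, hc0, hlow⟩ := low_holds M hM
  obtain ⟨l0, hl0, hlowD⟩ := low_clean M K' δ c0 hδ (hδ1.trans (by norm_num)) hc0 hlow
  obtain ⟨n, hn⟩ : ∃ n, n = 4 * M * K' := ⟨_, rfl⟩
  have hn1 : 1 ≤ n := by rw [hn]; exact Nat.mul_pos (by omega) hK'
  have hn2 : 1 + 1 ≤ n := by
    rw [hn]
    calc 1 + 1 ≤ 4 * M := by omega
      _ ≤ _ := Nat.le_mul_of_pos_right _ hK'
  obtain ⟨D, hD⟩ : ∃ D, D = (4 * n ^ 2).factorial := ⟨_, rfl⟩
  have hD1 : 1 ≤ D := by rw [hD]; exact Nat.factorial_pos _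
  have hDr : (1 : ℝ) ≤ D := by exact_mod_cast hD1
  obtain ⟨mx, hmx⟩ : ∃ mx : ℕ, mx = ∑ i, m i := ⟨_, rfl⟩
  have hmm : ∀ i, m i ≤ mx := fun i => by
    rw [hmx]
    exact single_le_sum (f := m) (fun _ _ => Nat.zero_le _) (mem_univ i)
  have hbbr : (0 : ℝ) < bb := by exact_mod_cast hbb
  refine ⟨l0 / (2 * bb * (mx + 1)), by positivity, fun ε lam hε hlam => ?_⟩
  obtain ⟨Lc, hLc⟩ : ∃ Lc : ℕ, Lc = Fintype.card (Fin (4 * M) → Finset (Fin (4 * M))) := ⟨_, rfl⟩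
  have hLc0 : 0 < Lc := by rw [hLc]; exact Fintype.card_pos
  have hLcr : (0 : ℝ) < Lc := by exact_mod_cast hLc0
  have hmin : 0 < min ε 1 := lt_min hε (by norm_num)
  obtain ⟨e, he⟩ : ∃ e, e = min ε 1 := ⟨_, rfl⟩
  have he0 : 0 < e := by rw [he]; exact hmin
  obtain ⟨ε', hε'⟩ : ∃ ε', ε' = e / 2 / Lc := ⟨_, rfl⟩
  have hε'0 : 0 < ε' := by rw [hε']; positivity
  have hε'1 : ε' ≤ 1 := by
    rw [hε', div_le_one hLcr]
    have h1 := min_le_right ε (1 : ℝ)
    have h2 : (1 : ℝ) ≤ Lc := by exact_mod_cast hLc0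
    rw [he]
    linarith
  obtain ⟨C₁, κA, hC₁, hκA, hκA1, HC⟩ := cfgs (4 * M) K' (by omega) hK' m hm D hD1 ε' hε'0 hε'1
  have hC₁r : (1 : ℝ) ≤ C₁ := by exact_mod_cast hC₁
  obtain ⟨Cs, hCs⟩ : ∃ Cs : ℝ, Cs = 8 * ((4 * M : ℕ) : ℝ) * bb := ⟨_, rfl⟩
  have hCs0 : 0 < Cs := by
    rw [hCs]
    have : (0 : ℝ) < ((4 * M : ℕ) : ℝ) := by exact_mod_cast (by omega : 0 < 4 * M)
    positivity
  obtain ⟨c, hc⟩ : ∃ c : ℝ, c = min (l0 / (2 * bb * C₁)) (e / 2 * lam) := ⟨_, rfl⟩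
  have hc0' : 0 < c := by rw [hc]; exact lt_min (by positivity) (by positivity)
  have hc1 : c ≤ l0 / (2 * bb * C₁) := by rw [hc]; exact min_le_left _ _
  have hc2 : c ≤ e / 2 * lam := by rw [hc]; exact min_le_right _ _
  obtain ⟨κ', hκ', hfail⟩ := fail_smallC M K' hM hK' δ (c0 / 2) l0 hδ (by positivity) hlowD
    (κA / (16 * D * Cs ^ n)) (κA / (16 * D) * c) (by positivity) (by positivity)
  obtain ⟨κ, hκd⟩ : ∃ κ, κ = κ' * κA / (32 * D * ((n : ℝ) ^ 2 * Cs ^ n)) := ⟨_, rfl⟩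
  have hn0 : (0 : ℝ) < n := by exact_mod_cast hn1
  have hκ : 0 < κ := by rw [hκd]; positivity
  refine ⟨κ, hκ, ?_⟩
  have tN : Tendsto (fun N : ℕ => (N : ℝ)) atTop atTop := tendsto_natCast_atTop_atTop
  have tL : Tendsto (fun N : ℕ => Real.log (N : ℝ)) atTop atTop := Real.tendsto_log_atTop.comp tN
  filter_upwards [hfail, bad_convC 2, num_ev c (C₁ + 1) hc0', tL.eventually_ge_atTop l0] with N h1 h2 h3 h4
  obtain ⟨hy2, hy4, hA1, hA2, hL1⟩ := h3
  intro H u hH hu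
  obtain ⟨y, hy⟩ : ∃ y, y = ⌊Real.log (Real.log (N : ℝ))⌋₊ := ⟨_, rfl⟩
  obtain ⟨M0, hM0⟩ : ∃ M0, M0 = ⌊l0 * Real.log (N : ℝ)⌋₊ := ⟨_, rfl⟩
  rw [← hy] at h1 h2 hy2 hy4
  rw [← hM0] at h1
  have hL0 : 0 < Real.log (N : ℝ) := by linarith
  have hM02 : M0 ≤ ⌊Real.log (N : ℝ) ^ (2 : ℝ)⌋₊ := by
    rw [hM0]
    apply Nat.floor_le_floor
    rw [Real.rpow_two, sq]
    exact mul_le_mul_of_nonneg_right h4 hL0.le
  -- the parity of the differences
  have heven : ∀ i j, m i < m j → 2 ∣ bb * (m j - m i) := by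
    intro i j hij
    obtain ⟨r, hr, hmr⟩ := hadm 2 Nat.prime_two
    have h3 := hmr i
    have h4 := hmr j
    have h5 : bb * (m j - m i) = bb * m j - bb * m i := Nat.mul_sub bb _ _
    have h6 : bb * m i ≤ bb * m j := Nat.mul_le_mul_left _ hij.le
    omega
  -- the contradiction
  by_contra hcon
  push Not at hcon
  obtain ⟨Good, hGood⟩ : ∃ Good : ℕ → Prop, Good = fun k => ∃ I : Finset (Fin (4 * M)), M ≤ I.card ∧
      ∀ J ⊆ I, J.Nonempty → J ≠ I → ∃ i ∈ J, ∃ j ∈ I, j ∉ J ∧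
        GoodG κ N (bb * Nat.dist (m i) (m j) * k) := ⟨_, rfl⟩
  have hcon' : (((Ioc u (u + H)).filter Good).card : ℝ) < (1 - ε) * (H : ℝ) := by
    rw [hGood]
    convert hcon
    rfl
  have hH00 : 0 < (H : ℝ) := lt_of_lt_of_le (by positivity) hH
  obtain ⟨Bd, hBd⟩ : ∃ Bd, Bd = (Ioc u (u + H)).filter (fun k => ¬ Good k) := ⟨_, rfl⟩
  have hBdc : e * (H : ℝ) ≤ Bd.card := by
    have e1 := card_filter_add_card_filter_not (s := Ioc u (u + H)) Good
    rw [Nat.card_Ioc, Nat.add_sub_cancel_left, ← hBd] at e1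
    have e2 : (((Ioc u (u + H)).filter Good).card : ℝ) + Bd.card = H := by exact_mod_cast e1
    have e3 := min_le_left ε (1 : ℝ)
    have e4 : e * (H : ℝ) ≤ ε * H := mul_le_mul_of_nonneg_right (by rw [he]; exact e3) hH00.le
    linarith
  -- a short window
  obtain ⟨h, hh⟩ : ∃ h, h = ⌊c * Real.log (N : ℝ)⌋₊ := ⟨_, rfl⟩
  have hhr : (h : ℝ) ≤ c * Real.log N := by rw [hh]; exact Nat.floor_le (by positivity)
  have hhr2 : c * Real.log N < (h : ℝ) + 1 := by rw [hh]; exact Nat.lt_floor_add_one _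
  have hC₁h : C₁ ≤ h := by
    have : (C₁ : ℝ) < h + 1 := by linarith
    have h5 : C₁ < h + 1 := by exact_mod_cast this
    omega
  have hh1 : 1 ≤ h := hC₁.trans hC₁h
  have hh0 : (0 : ℝ) < h := by exact_mod_cast hh1
  obtain ⟨v, huv, hvH, hBv⟩ := subwin u H h hh1 e he0 Bd (by rw [hBd]; exact filter_subset _ _) hBdc (by
    refine hhr.trans ?_
    calc c * Real.log N ≤ e / 2 * lam * Real.log N := mul_le_mul_of_nonneg_right hc2 hL0.le
      _ = e / 2 * (lam * Real.log N) := by ring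
      _ ≤ _ := mul_le_mul_of_nonneg_left hH (by positivity))
  obtain ⟨Bv, hBvd⟩ : ∃ Bv, Bv = Bd.filter (fun k => k ∈ Ioc v (v + h)) := ⟨_, rfl⟩
  rw [← hBvd] at hBv
  obtain ⟨M1, hM1⟩ : ∃ M1, M1 = C₁ * h + 1 := ⟨_, rfl⟩
  have hM1h : (h : ℝ) + 1 ≤ M1 := by
    have : h + 1 ≤ M1 := by
      rw [hM1]
      exact Nat.add_le_add_right (Nat.le_mul_of_pos_left h hC₁) 1
    exact_mod_cast this
  have hM10 : (0 : ℝ) < M1 := by linarith
  have hcM1 : c * Real.log N ≤ M1 := by linarith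
  have hdvd : ∀ p : ℕ, p.Prime → p ≤ 4 * n ^ 2 → p ∣ D := by
    intro p hp hpn
    rw [hD]
    exact (hp.dvd_factorial).2 hpn
  -- the graphs
  obtain ⟨rr, hrr⟩ : ∃ rr : ℕ → Fin (4 * M) → Fin (4 * M) → Prop, rr = fun k i j =>
    GoodG κ N (bb * Nat.dist (m i) (m j) * k) := ⟨_, rfl⟩
  have hrs : ∀ k i j, rr k i j → rr k j i := by
    intro k i j hij
    rw [hrr] at hij ⊢
    simp only at hij ⊢
    rw [Nat.dist_comm]
    exact hij
  obtain ⟨Γ0, -, hΓ0⟩ := exists_le_card_fiber_of_nsmul_le_card_of_maps_to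
    (s := Bv) (t := univ) (f := fun k => cmp (rr k)) (b := ε' * (h : ℝ))
    (fun _ _ => mem_univ _) univ_nonempty (by
      rw [card_univ, ← hLc, nsmul_eq_mul, hε']
      refine le_trans (le_of_eq ?_) hBv
      field_simp)
  obtain ⟨B, hB⟩ : ∃ B, B = Bv.filter (fun k => cmp (rr k) = Γ0) := ⟨_, rfl⟩
  rw [← hB] at hΓ0
  have hBI : B ⊆ Ioc v (v + h) := by
    intro k hk
    rw [hB, mem_filter, hBvd, mem_filter] at hk
    exact hk.1.2
  have hBne : B.Nonempty := by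
    rw [← card_pos]
    have : (0 : ℝ) < B.card := lt_of_lt_of_le (by positivity) hΓ0
    exact_mod_cast this
  -- the components are small
  have hcomp : ∀ (d : Finset (Fin (4 * M))) (I : Finset (Fin (4 * M))), (∀ i ∈ I, Γ0 i = d) → I.card < M := by
    intro d I0 hI0
    by_contra hge0
    obtain ⟨I, hI⟩ : ∃ I : Finset (Fin (4 * M)), ∀ i, i ∈ I ↔ Γ0 i = d :=
      ⟨univ.filter (fun i => Γ0 i = d), fun i => by simp⟩
    have hge : M ≤ I.card := by
      refine (not_lt.1 hge0).trans (card_le_card fun i hi => ?_)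
      rw [hI]
      exact hI0 i hi
    obtain ⟨kb, hkb⟩ := hBne
    rw [hB, mem_filter, hBvd, mem_filter, hBd, mem_filter, hGood] at hkb
    obtain ⟨⟨⟨_, hkb3⟩, _⟩, hkb4⟩ := hkb
    apply hkb3
    refine ⟨I, hge, fun J hJ hne hJ2 => ?_⟩
    obtain ⟨i, hi, j, hj, hjJ, hij⟩ := cmp_conn (rr kb) (hrs kb) d I (fun i => by rw [hkb4]; exact hI i) J hJ hne hJ2
    refine ⟨i, hi, j, hj, hjJ, ?_⟩
    rw [hrr] at hij
    exact hij
  have hcross : ∀ k ∈ B, ∀ i j, Γ0 i ≠ Γ0 j → ¬ GoodG κ N (bb * Nat.dist (m i) (m j) * k) := by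
    intro k hk i j hne hg
    rw [hB, mem_filter] at hk
    apply hne
    rw [← hk.2]
    exact cmp_eq (rr k) (hrs k) (by rw [hrr]; exact hg)
  obtain ⟨Ac, k0, hAc, hAcc⟩ := HC h hC₁h v B hBI hΓ0
  rw [← hn, ← hM1] at hAcc
  -- scaled configurations
  obtain ⟨Sc, hSc⟩ : ∃ Sc : (Fin (4 * M) × Fin K' → ℕ) → (Fin (4 * M) × Fin K' → ℕ), Sc = fun A x => bb * A x :=
    ⟨_, rfl⟩
  have hScinj : Function.Injective Sc := by
    intro A A' h
    funext x
    have h3 := congrFun h x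
    rw [hSc] at h3
    exact Nat.eq_of_mul_eq_mul_left hbb h3
  obtain ⟨Ac', hAc'⟩ : ∃ Ac', Ac' = Ac.image Sc := ⟨_, rfl⟩
  have hAc'c : Ac'.card = Ac.card := by rw [hAc']; exact card_image_of_injective _ hScinj
  obtain ⟨V, hV⟩ : ∃ V : Finset ℕ, V = univ.biUnion (fun g : Fin (4 * M) =>
    (Icc (v * m g) (v * m g + C₁ * h)).image (fun x => bb * x)) := ⟨_, rfl⟩
  have hAV : ∀ A ∈ Ac', ∀ x, A x ∈ V := by
    intro A hA x
    rw [hAc', mem_image] at hA
    obtain ⟨A0, hA0, rfl⟩ := hA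
    rw [hV, mem_biUnion]
    refine ⟨x.1, mem_univ _, ?_⟩
    rw [hSc]
    exact mem_image_of_mem _ ((hAc A0 hA0).2.1 x)
  have hVM : ∀ t ∈ V, t ≤ M0 := by
    intro t ht
    rw [hV, mem_biUnion] at ht
    obtain ⟨g, _, hg⟩ := ht
    obtain ⟨x, hx, rfl⟩ := mem_image.1 hg
    rw [hM0]
    apply Nat.le_floor
    have hx2 := (mem_Icc.1 hx).2
    have e4 : (x : ℝ) ≤ mx * v + C₁ * h := by
      have e5 : x ≤ mx * v + C₁ * h := by
        have e6 : v * m g ≤ v * mx := Nat.mul_le_mul_left _ (hmm g)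
        rw [mul_comm mx v]
        omega
      exact_mod_cast e5
    have e7 : (v : ℝ) ≤ l0 / (2 * bb * (mx + 1)) * Real.log N := by
      refine le_trans ?_ hu
      have : v ≤ u + H := by omega
      exact_mod_cast this
    have e8 : (h : ℝ) ≤ l0 / (2 * bb * C₁) * Real.log N := hhr.trans (mul_le_mul_of_nonneg_right hc1 hL0.le)
    have hmx0 : (0 : ℝ) ≤ mx := Nat.cast_nonneg _
    push_cast
    calc (bb : ℝ) * x ≤ bb * (mx * v + C₁ * h) := mul_le_mul_of_nonneg_left e4 hbbr.le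
      _ ≤ bb * (mx * (l0 / (2 * bb * (mx + 1)) * Real.log N) + C₁ * (l0 / (2 * bb * C₁) * Real.log N)) := by
          gcongr
      _ = l0 * Real.log N * (mx / (mx + 1) / 2 + 1 / 2) := by
          have : (0 : ℝ) < C₁ := by linarith
          field_simp
      _ ≤ l0 * Real.log N * 1 := by
          apply mul_le_mul_of_nonneg_left _ (by positivity)
          have : (mx : ℝ) / (mx + 1) ≤ 1 := by
            rw [div_le_one (by positivity)]
            linarith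
          linarith
      _ = _ := mul_one _
  -- the bad sets
  obtain ⟨GG, hGG⟩ : ∃ GG : ℕ → Finset ℕ → Prop, GG = fun b X => GoodC κ' N y b X := ⟨_, rfl⟩
  obtain ⟨Xc, hXc⟩ : ∃ Xc, Xc = (V.powersetCard (1 + 1)).filter (fun X =>
    κ' * nGG GG y X ≤ 2 * κ * Uni.gT (Uni.WW y) X) := ⟨_, rfl⟩
  have hcI : Fintype.card (Fin (4 * M) × Fin K') = n := by
    rw [Fintype.card_prod, Fintype.card_fin, Fintype.card_fin, hn]
  have hne : Nonempty (Fin (4 * M) × Fin K') := ⟨(⟨0, by omega⟩, ⟨0, hK'⟩)⟩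
  have hpair0 : ∀ A ∈ Ac', ∀ i j, m i < m j → Γ0 i ≠ Γ0 j → ∀ s s' : Fin K', ({A (i, s), A (j, s')} : Finset ℕ) ∈ Xc := by
    intro A hA i j hij hΓij s s'
    have hA' := hA
    rw [hAc', mem_image] at hA
    obtain ⟨A0, hA0, rfl⟩ := hA
    have hne2 : ((j, s') : Fin (4 * M) × Fin K').1 ≠ ((i, s) : Fin (4 * M) × Fin K').1 := by
      intro h
      have h3 : j = i := h
      rw [h3] at hij
      exact lt_irrefl _ hij
    obtain ⟨k1, hk1, hk2⟩ := (hAc A0 hA0).2.2.1 (j, s') (i, s) hne2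
    have hbad := hcross k1 hk1 i j hΓij
    have hk1pos : 1 ≤ k1 := by
      have := (mem_Ioc.1 (hBI hk1)).1
      omega
    obtain ⟨t, ht⟩ : ∃ t, t = bb * (m j - m i) * k1 := ⟨_, rfl⟩
    have hbad' : ¬ GoodG κ N t := by
      rw [ht]
      rw [Nat.dist_eq_sub_of_le hij.le] at hbad
      exact hbad
    have ht1 : 1 ≤ t := by
      rw [ht]
      exact Nat.mul_pos (Nat.mul_pos hbb (by omega)) hk1pos
    have hrel : Sc A0 (j, s') = Sc A0 (i, s) + t := by
      rw [hSc, ht]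
      have h3 : ((bb * A0 (j, s') : ℕ) : ℤ) = ((bb * A0 (i, s) + bb * (m j - m i) * k1 : ℕ) : ℤ) := by
        push_cast [Nat.cast_sub hij.le]
        have h4 : (A0 (j, s') : ℤ) = A0 (i, s) + ((m j : ℤ) - m i) * k1 := by
          have h5 : (A0 (j, s') : ℤ) - A0 (i, s) = ((m j : ℤ) - m i) * k1 := hk2
          linarith
        rw [h4]
        ring
      exact_mod_cast h3
    have himg : (pp t).image (fun z => z + Sc A0 (i, s)) = ({Sc A0 (i, s), Sc A0 (j, s')} : Finset ℕ) := by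
      unfold pp
      rw [image_insert, image_singleton, zero_add, hrel, add_comm t]
    have hXV : ({Sc A0 (i, s), Sc A0 (j, s')} : Finset ℕ) ⊆ V := by
      intro z hz
      rw [mem_insert, mem_singleton] at hz
      rcases hz with rfl | rfl
      · exact hAV _ hA' _
      · exact hAV _ hA' _
    rw [hXc, mem_filter, mem_powersetCard]
    refine ⟨⟨hXV, ?_⟩, ?_⟩
    · rw [card_pair]
      rw [hrel]
      omega
    · rw [← himg, hGG]
      refine h2 κ κ' hκ.le hκ' t (Sc A0 (i, s)) ht1 ?_ hbad'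
      refine le_trans ?_ hM02
      rw [add_comm, ← hrel]
      exact hVM _ (hAV _ hA' _)
  have hpair : ∀ A ∈ Ac', ∀ x x' : Fin (4 * M) × Fin K', Γ0 x.1 ≠ Γ0 x'.1 → ({A x, A x'} : Finset ℕ) ∈ Xc := by
    intro A hA x x' hne2
    have hne3 : m x.1 ≠ m x'.1 := fun h => hne2 (by rw [hm h])
    rcases lt_or_gt_of_ne hne3 with h5 | h5
    · exact hpair0 A hA x.1 x'.1 h5 hne2 x.2 x'.2
    · rw [pair_comm]
      exact hpair0 A hA x'.1 x.1 h5 (fun h => hne2 h.symm) x'.2 x.2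
  -- the double counting
  have hup := classArg2 (ι := Fin (4 * M) × Fin K') 1 y (by rw [hcI]; exact hn2) κ' κ (κA / (16 * D * Cs ^ n))
    (κA / (16 * D) * c * rho y * Real.log N)
    (Cs * (M1 * rho y)) hκ' hκ.le (by positivity)
    (by have := (rho_pos y).le; positivity) (by have := (rho_pos y).le; positivity) V Ac' Xc GG
    (fun b => FailC M K' κ' N y b (Sb y V b) Γ0) hAV
    (fun b A hA hcop _ hF => by
      have hinj : Function.Injective A := by
        have hA' := hA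
        rw [hAc', mem_image] at hA'
        obtain ⟨A0, hA0, rfl⟩ := hA'
        intro x x' hxx
        apply (hAc A0 hA0).1
        rw [hSc] at hxx
        exact Nat.eq_of_mul_eq_mul_left hbb hxx
      have hAp : ∀ x, A x ∈ Sb y V b := by
        intro x
        unfold Sb
        rw [mem_filter]
        exact ⟨hAV A hA x, hcop x⟩
      have h3 : ∃ x x' : Fin (4 * M) × Fin K', Γ0 x.1 ≠ Γ0 x'.1 ∧ GoodC κ' N y b {A x, A x'} := by
        by_contra hcon2
        push Not at hcon2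
        apply hF
        rw [mem_FailC]
        exact ⟨hAp, hinj, hcon2⟩
      obtain ⟨x, x', hxx, hgood⟩ := h3
      have hX := hpair A hA x x' hxx
      refine ⟨_, hX, ?_, ?_⟩
      · intro z hz
        rw [mem_insert, mem_singleton] at hz
        rcases hz with rfl | rfl
        · exact mem_image_of_mem _ (mem_univ _)
        · exact mem_image_of_mem _ (mem_univ _)
      · rw [hGG]
        exact hgood)
    (fun X hX => by
      rw [hXc, mem_filter, mem_powersetCard] at hX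
      exact ⟨hX.1.2, hX.1.1, hX.2⟩)
    (fun b => by
      have := Sb_upper2 bb C₁ h y v hbb hy2 (by
        have e1 : ((4 ^ (y / 2) : ℕ) : ℝ) ≤ ((C₁ * h + 1 : ℕ) : ℝ) := by
          rw [← hM1]
          push_cast
          exact hy4.trans hcM1
        exact_mod_cast e1) m b
      rw [← hV, ← hM1, ← hCs] at this
      exact this)
    (fun b hb => by
      rw [hcI, hn]
      have h3 := h1 (Finset (Fin (4 * M))) Γ0 hcomp b (Sb y V b) (fun t ht => by
        unfold Sb at ht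
        exact hVM t (mem_filter.1 ht).1) (fun t ht => by
        unfold Sb at ht
        exact (mem_filter.1 ht).2) hb
      rw [hn] at h3
      exact h3)
  rw [hcI] at hup
  have hlo : (Ac'.card : ℝ) * (1 / (2 * D) * Uni.WW y * rho y ^ n) ≤
      ∑ A ∈ Ac', (Uni.gT (Uni.WW y) (univ.image A) : ℝ) := by
    rw [← nsmul_eq_mul]
    apply card_nsmul_le_sum
    intro A hA
    rw [hAc', mem_image] at hA
    obtain ⟨A0, hA0, rfl⟩ := hA
    have h3 := gT_lower2 n D y hn1 hD1 hdvd (univ.image (Sc A0)) (by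
      refine card_image_le.trans ?_
      rw [card_univ, hcI]) (fun p hp hpD => by
        rw [hSc]
        exact nuT_fam (4 * M) K' bb k0 p hp m D hpD (hadm p hp) A0 (hAc A0 hA0).2.2.2)
    refine le_trans ?_ h3
    have h4 := rho_le_rD D y
    have h5 := (rho_pos y).le
    have h6 : rho y ^ n ≤ rD D y ^ n := pow_le_pow_left₀ h5 h4 n
    apply mul_le_mul_of_nonneg_left h6
    positivity
  have hW0 : (0 : ℝ) < Uni.WW y := by exact_mod_cast Uni.WW_pos y
  have hAcc' : κA * (M1 : ℝ) ^ n ≤ Ac'.card := by rw [hAc'c]; exact hAcc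
  refine fincomp2 n hn1 κA Cs κ' D M1 (rho y) (κA / (16 * D) * c * rho y * Real.log N) (Uni.WW y)
    Ac'.card _ hκA hκA1 hCs0 hκ' hDr hM10 (rho_pos y) (by have := (rho_pos y).le; positivity) hW0 ?_ hAcc' hlo ?_
  · calc κA / (16 * D) * c * rho y * Real.log N = κA / (16 * D) * ((c * Real.log N) * rho y) := by ring
      _ ≤ κA / (16 * D) * (M1 * rho y) := by
          have := (rho_pos y).le
          gcongr
  · rw [hκd] at hup
    exact hup

end Pool.Agent.Y877.RO
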