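import Mathlib
import Pool.Agent.Y877.RgL
import Pool.Agent.Y877.RgF

/-! Gaps of the right order for almost all multiples: final form (helper877). -/

set_option autoImplicit false

namespace Pool.Agent.Y877.RO

open Finset Filter Topology
open Pool.Agent.H378R2 Pool.Agent.H387R2 Pool.Agent.H387R2.MB Pool.Agent.H362R2.QT

open Classical in
theorem gaps2 (M : ℕ) (hM : 1 ≤ M) (m : Fin (4 * M) → ℕ) (hm : Function.Injective m) (bb : ℕ) (hbb : 1 ≤ bb)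
    (hadm : ∀ p : ℕ, p.Prime → ∃ r : ℕ, ∀ i, ¬ bb * m i ≡ r [MOD p]) : ∃ l1 : ℝ, 0 < l1 ∧
    ∀ ε lam : ℝ, 0 < ε → 0 < lam → ∃ κ : ℝ, 0 < κ ∧ ∀ᶠ x : ℕ in atTop, ∀ H u : ℕ, lam * Real.log x ≤ H →
    ((u : ℝ) + H ≤ l1 * Real.log x) →
    (1 - ε) * (H : ℝ) ≤ (((Ioc u (u + H)).filter (fun k => ∃ I : Finset (Fin (4 * M)), M ≤ I.card ∧
      ∀ J ⊆ I, J.Nonempty → J ≠ I → ∃ i ∈ J, ∃ j ∈ I, j ∉ J ∧
        κ * Sd (bb * Nat.dist (m i) (m j) * k) * (x / Real.log x ^ 2) ≤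
          gapc x (bb * Nat.dist (m i) (m j) * k))).card : ℝ) := by
  have hadm' : ∀ p : ℕ, p.Prime → ∃ r : ℕ, r < p ∧ ∀ i, bb * m i % p ≠ r := by
    intro p hp
    obtain ⟨r, hr⟩ := hadm p hp
    refine ⟨r % p, Nat.mod_lt _ hp.pos, fun i h => hr i ?_⟩
    exact h
  obtain ⟨l1, hl1, hmain⟩ := gapsRO M hM m hm bb hbb hadm'
  refine ⟨l1, hl1, fun ε lam hε hlam => ?_⟩
  obtain ⟨κ, hκ, h⟩ := hmain ε lam hε hlam
  have hC2 := CT2_pos
  refine ⟨κ * Uni.CT (pp 2), by positivity, ?_⟩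
  filter_upwards [h] with x hx
  intro H u hH hu
  refine (hx H u hH hu).trans ?_
  rw [Nat.cast_le]
  apply card_le_card
  intro k hk
  rw [mem_filter] at hk ⊢
  obtain ⟨hk1, I, hI, hgood⟩ := hk
  have hkpos : 1 ≤ k := by
    have := (mem_Ioc.1 hk1).1
    omega
  refine ⟨hk1, I, hI, fun J hJ hne hJI => ?_⟩
  obtain ⟨i, hi, j, hj, hjJ, hg⟩ := hgood J hJ hne hJI
  refine ⟨i, hi, j, hj, hjJ, ?_⟩
  have hij : m i ≠ m j := by
    intro h
    rw [hm h] at hi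
    exact hjJ hi
  obtain ⟨t, ht⟩ : ∃ t, t = bb * Nat.dist (m i) (m j) * k := ⟨_, rfl⟩
  rw [← ht] at hg ⊢
  have hd : 1 ≤ Nat.dist (m i) (m j) := Nat.dist_pos_of_ne hij
  have ht1 : 1 ≤ t := by
    rw [ht]
    exact Nat.mul_pos (Nat.mul_pos hbb hd) hkpos
  have ht2 : 2 ∣ t := by
    rw [ht]
    apply Dvd.dvd.mul_right
    obtain ⟨r, hr, hmr⟩ := hadm' 2 Nat.prime_two
    have h3 := hmr i
    have h4 := hmr j
    rcases le_total (m i) (m j) with h5 | h5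
    · rw [Nat.dist_eq_sub_of_le h5, Nat.mul_sub]
      have h6 : bb * m i ≤ bb * m j := Nat.mul_le_mul_left _ h5
      omega
    · rw [Nat.dist_eq_sub_of_le_right h5, Nat.mul_sub]
      have h6 : bb * m j ≤ bb * m i := Nat.mul_le_mul_left _ h5
      omega
  unfold GoodG at hg
  rw [CT_pp t ht1 ht2] at hg
  refine le_trans (le_of_eq ?_) hg
  ring

end Pool.Agent.Y877.RO
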