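import Mathlib
import Pool.Agent.Y877.RoF

/-! Almost all tuples have a bounded multiple with the right number of realisations: the configurations
(helper877). -/

set_option autoImplicit false

namespace Pool.Agent.Y877.RO

open Finset Filter Topology Pool.Agent.H602R3.DHJ
open Pool.Agent.H378R2 Pool.Agent.H387R2 Pool.Agent.H387R2.MB Pool.Agent.H362R2.QT
open Pool.Agent.Y877

/-- the left end points of the windows -/
def sN {k Nn : ℕ} (u : Fin k → ℕ) (t : Wd k Nn) : ℕ := ∑ l, cnt t l * u l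

/-- the windows -/
def Jw {k Nn a : ℕ} (D C₁ H : ℕ) (u : Fin k → ℕ) (g : Fin a → Wd k Nn) (i : Fin a) : Finset ℕ :=
  (Ico (sN u (g i)) (sN u (g i) + (C₁ * H + 1))).image (fun x => D * x)

theorem Jw_card {k Nn a : ℕ} (D C₁ H : ℕ) (hD : 1 ≤ D) (u : Fin k → ℕ) (g : Fin a → Wd k Nn) (i : Fin a) :
    (Jw D C₁ H u g i).card = C₁ * H + 1 := by
  unfold Jw
  rw [card_image_of_injective, Nat.card_Ico]
  · omega
  · intro x y hxy
    exact Nat.eq_of_mul_eq_mul_left hD hxy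

open Classical in
/-- many configurations with values in multiples of `D` -/
theorem confs (k Nn : ℕ) (ε : ℝ) (hε : 0 < ε) (hε1 : ε ≤ 1) : ∃ (C₁ : ℕ) (κ : ℝ), 1 ≤ C₁ ∧ 0 < κ ∧ κ ≤ 1 ∧
    ∀ (a : ℕ) (g : Fin a → Wd k Nn), Function.Injective g → ∀ D : ℕ, 1 ≤ D → ∀ H : ℕ, C₁ ≤ H → ∀ u : Fin k → ℕ,
    ∀ E : Finset (Fin k → ℕ), E ⊆ Fintype.piFinset (fun l => Ioc (u l) (u l + H)) → ε * (H : ℝ) ^ k ≤ E.card →
    ∃ T : Finset (Fin a → ℕ), (∀ x ∈ T, ∀ i, x i ∈ Jw D C₁ H u g i) ∧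
      κ * ∏ i : Fin a, ((Jw D C₁ H u g i).card : ℝ) ≤ T.card ∧
      ∀ x ∈ T, ∀ V : Ln k Nn, Pr V → (∀ j, ∃ i, g i = pt V j) → ∃ h ∈ E, ∀ (i0 : Fin a) (i : Fin k → Fin a),
        g i0 = pt V 0 → (∀ l, g (i l) = pt V l.succ) → ∀ l, x (i l) = x i0 + D * (act V * h l) := by
  obtain ⟨C₁, κ, hC₁, hκ, hκ1, HC⟩ := combC k Nn ε hε hε1
  refine ⟨C₁, κ, hC₁, hκ, hκ1, fun a g hg D hD H hH u E hE hEc => ?_⟩
  obtain ⟨M1, hM1⟩ : ∃ M1, M1 = C₁ * H + 1 := ⟨_, rfl⟩
  obtain ⟨uZ, huZ⟩ : ∃ uZ : Fin k → ℤ, uZ = fun l => (u l : ℤ) := ⟨_, rfl⟩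
  obtain ⟨EZ, hEZ⟩ : ∃ EZ : Finset (Fin k → ℤ), EZ = E.image (fun h l => (h l : ℤ)) := ⟨_, rfl⟩
  have hEZc : EZ.card = E.card := by
    rw [hEZ, card_image_of_injective]
    intro h h' hh
    funext l
    have := congrFun hh l
    simp only at this
    exact_mod_cast this
  have hEZs : EZ ⊆ Fintype.piFinset (fun l => Ioc (uZ l) (uZ l + H)) := by
    intro z hz
    rw [hEZ, mem_image] at hz
    obtain ⟨h, hh, rfl⟩ := hz
    have h1 := hE hh
    rw [Fintype.mem_piFinset] at h1 ⊢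
    intro l
    have h2 := mem_Ioc.1 (h1 l)
    rw [mem_Ioc, huZ]
    simp only
    constructor
    · exact_mod_cast h2.1
    · exact_mod_cast h2.2
  have h1 := HC H hH uZ EZ hEZs (by rw [hEZc]; exact hEc)
  have hs : ∀ t : Wd k Nn, (∑ l, (cnt t l : ℤ) * uZ l) = (sN u t : ℤ) := by
    intro t
    unfold sN
    rw [huZ]
    push_cast
    rfl
  simp only [hs] at h1
  obtain ⟨P, hP⟩ : ∃ P, P = (Fintype.piFinset (fun t : Wd k Nn => Icc (sN u t : ℤ) ((sN u t : ℤ) + C₁ * H))).filter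
    (fun x => PT EZ x) := ⟨_, rfl⟩
  rw [← hP] at h1
  have hIc : ∀ t : Wd k Nn, (Icc (sN u t : ℤ) ((sN u t : ℤ) + C₁ * H)).card = M1 := by
    intro t
    rw [Int.card_Icc, hM1]
    have : (sN u t : ℤ) + C₁ * H + 1 - sN u t = ((C₁ * H + 1 : ℕ) : ℤ) := by push_cast; ring
    rw [this, Int.toNat_natCast]
  have h2 : κ * (M1 : ℝ) ^ Fintype.card (Wd k Nn) ≤ P.card := by
    refine le_trans (le_of_eq ?_) h1
    simp only [hIc, prod_const, card_univ]
  have hmem : ∀ x ∈ P, ∀ t, (sN u t : ℤ) ≤ x t ∧ x t ≤ sN u t + C₁ * H := by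
    intro x hx t
    rw [hP, mem_filter, Fintype.mem_piFinset] at hx
    exact mem_Icc.1 (hx.1 t)
  have hmem2 : ∀ x ∈ P, ∀ t, ((x t).toNat : ℤ) = x t := by
    intro x hx t
    apply Int.toNat_of_nonneg
    have := (hmem x hx t).1
    have h3 : (0 : ℤ) ≤ sN u t := by positivity
    linarith
  obtain ⟨τ, hτ⟩ : ∃ τ : (Wd k Nn → ℤ) → (Fin a → ℕ), τ = fun x i => D * (x (g i)).toNat := ⟨_, rfl⟩
  have hac : a ≤ Fintype.card (Wd k Nn) := by
    have := Fintype.card_le_of_injective g hg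
    rwa [Fintype.card_fin] at this
  have h3 : P.card ≤ (P.image τ).card * M1 ^ (Fintype.card (Wd k Nn) - a) := by
    have h4 : (Fintype.piFinset (fun z : {t : Wd k Nn // ¬ ∃ i, g i = t} =>
        Icc (sN u z.1 : ℤ) ((sN u z.1 : ℤ) + C₁ * H))).card = M1 ^ (Fintype.card (Wd k Nn) - a) := by
      rw [Fintype.card_piFinset]
      simp only [hIc, prod_const, card_univ]
      congr 1
      rw [Fintype.card_subtype_compl]
      congr 1
      have := Fintype.card_congr (Equiv.ofInjective g hg)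
      rw [Fintype.card_fin] at this
      refine Eq.trans ?_ this.symm
      exact Fintype.card_congr (Equiv.refl _)
    rw [← h4, ← card_product]
    refine card_le_card_of_injOn (fun x => (τ x, fun z => x z.1)) ?_ ?_
    · intro x hx
      rw [mem_coe, mem_product, Fintype.mem_piFinset]
      exact ⟨mem_image_of_mem _ hx, fun z => mem_Icc.2 (hmem x hx z.1)⟩
    · intro x hx x' hx' hxx
      simp only [Prod.mk.injEq] at hxx
      obtain ⟨h5, h6⟩ := hxx
      funext t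
      by_cases ht : ∃ i, g i = t
      · obtain ⟨i, rfl⟩ := ht
        have h7 := congrFun h5 i
        rw [hτ] at h7
        have h8 : (x (g i)).toNat = (x' (g i)).toNat := Nat.eq_of_mul_eq_mul_left hD h7
        rw [← hmem2 x hx, ← hmem2 x' hx', h8]
      · exact congrFun h6 ⟨t, ht⟩
  have hM10 : (0 : ℝ) < M1 := by
    have : 0 < M1 := by omega
    exact_mod_cast this
  refine ⟨P.image τ, ?_, ?_, ?_⟩
  · intro z hz i
    obtain ⟨x, hx, rfl⟩ := mem_image.1 hz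
    rw [hτ]
    unfold Jw
    apply mem_image_of_mem
    rw [mem_Ico]
    have h4 := hmem x hx (g i)
    have h5 := hmem2 x hx (g i)
    constructor
    · have : (sN u (g i) : ℤ) ≤ ((x (g i)).toNat : ℤ) := by rw [h5]; exact h4.1
      exact_mod_cast this
    · have : ((x (g i)).toNat : ℤ) < ((sN u (g i) + (C₁ * H + 1) : ℕ) : ℤ) := by
        rw [h5]
        push_cast
        linarith [h4.2]
      exact_mod_cast this
  · have h4 : ∏ i : Fin a, ((Jw D C₁ H u g i).card : ℝ) = (M1 : ℝ) ^ a := by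
      simp only [Jw_card D C₁ H hD u g, ← hM1, prod_const, card_univ, Fintype.card_fin]
    rw [h4]
    have h5 : (P.card : ℝ) ≤ ((P.image τ).card : ℝ) * (M1 : ℝ) ^ (Fintype.card (Wd k Nn) - a) := by exact_mod_cast h3
    have h6 := h2.trans h5
    have h7 : (M1 : ℝ) ^ Fintype.card (Wd k Nn) = (M1 : ℝ) ^ a * (M1 : ℝ) ^ (Fintype.card (Wd k Nn) - a) := by
      rw [← pow_add, Nat.add_sub_cancel' hac]
    rw [h7, ← mul_assoc] at h6
    exact le_of_mul_le_mul_right h6 (by positivity)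
  · intro z hz V hV hVg
    obtain ⟨x, hx, rfl⟩ := mem_image.1 hz
    have hPT : PT EZ x := by
      rw [hP] at hx
      exact (mem_filter.1 hx).2
    obtain ⟨hZ, hhZ, hrel⟩ := hPT V hV
    rw [hEZ, mem_image] at hhZ
    obtain ⟨h, hh, rfl⟩ := hhZ
    refine ⟨h, hh, fun i0 i hi0 hi l => ?_⟩
    rw [hτ]
    simp only
    rw [hi0, hi l, ← Nat.mul_add]
    congr 1
    have h4 := hrel l
    have h5 := hmem2 x hx (pt V l.succ)
    have h6 := hmem2 x hx (pt V 0)
    have h7 : (((x (pt V l.succ)).toNat : ℕ) : ℤ) = (((x (pt V 0)).toNat + act V * h l : ℕ) : ℤ) := by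
      push_cast
      rw [h5, h6]
      linarith
    exact_mod_cast h7

end Pool.Agent.Y877.RO
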