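import Mathlib
import Pool.Agent.Y877.RoG

/-! Almost all tuples have a bounded multiple with the right number of realisations (helper877). -/

set_option autoImplicit false

namespace Pool.Agent.Y877.RO

open Finset Filter Topology Pool.Agent.H602R3.DHJ
open Pool.Agent.H378R2 Pool.Agent.H387R2 Pool.Agent.H387R2.MB Pool.Agent.H362R2.QT
open Pool.Agent.Y877

theorem Sb_upper {k Nn a : ℕ} (D C₁ H y : ℕ) (hD : 1 ≤ D) (hy : 2 ≤ y) (hM : 4 ^ (y / 2) ≤ C₁ * H + 1) (u : Fin k → ℕ)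
    (g : Fin a → Wd k Nn) (b : ℕ) :
    ((Sb y (univ.biUnion (Jw D C₁ H u g)) b).card : ℝ) ≤ (8 * a : ℝ) * (((C₁ * H + 1 : ℕ) : ℝ) * rD D y) := by
  classical
  have h1 : Sb y (univ.biUnion (Jw D C₁ H u g)) b ⊆ (univ : Finset (Fin a)).biUnion (fun i =>
      (Jw D C₁ H u g i).filter (fun a => Nat.Coprime (Uni.WW y) (b + a))) := by
    intro t ht
    unfold Sb at ht
    rw [mem_filter, mem_biUnion] at ht
    obtain ⟨⟨i, hi, hti⟩, ht2⟩ := ht
    rw [mem_biUnion]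
    exact ⟨i, hi, mem_filter.2 ⟨hti, ht2⟩⟩
  have h2 : ∀ i : Fin a, (((Jw D C₁ H u g i).filter (fun a => Nat.Coprime (Uni.WW y) (b + a))).card : ℝ) ≤
      8 * ((C₁ * H + 1 : ℕ) : ℝ) * rD D y := by
    intro i
    refine le_trans ?_ (shift_upper D y b (sN u (g i)) (C₁ * H + 1) hy hM)
    unfold Jw
    rw [filter_image]
    exact_mod_cast card_image_le
  have h3 : ((Sb y (univ.biUnion (Jw D C₁ H u g)) b).card : ℝ) ≤ ∑ i : Fin a,
      (((Jw D C₁ H u g i).filter (fun a => Nat.Coprime (Uni.WW y) (b + a))).card : ℝ) := by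
    exact_mod_cast (card_le_card h1).trans card_biUnion_le
  refine h3.trans ((sum_le_sum fun i _ => h2 i).trans (le_of_eq ?_))
  rw [sum_const, card_univ, Fintype.card_fin, nsmul_eq_mul]
  ring

theorem Sb_classes {k Nn a : ℕ} (D C₁ H y : ℕ) (u : Fin k → ℕ) (g : Fin a → Wd k Nn) :
    (((range (Uni.WW y)).filter (fun b => (Sb y (univ.biUnion (Jw D C₁ H u g)) b).Nonempty)).card : ℝ) ≤
      2 * (Uni.WW y * dD D y) := by
  classical
  refine le_trans ?_ (class_upper D y)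
  apply Nat.cast_le.2
  apply card_le_card
  intro b hb
  rw [mem_filter] at hb ⊢
  refine ⟨hb.1, ?_⟩
  obtain ⟨t, ht⟩ := hb.2
  unfold Sb at ht
  rw [mem_filter, mem_biUnion] at ht
  obtain ⟨⟨i, _, hti⟩, ht2⟩ := ht
  unfold Jw at hti
  obtain ⟨x, _, rfl⟩ := mem_image.1 hti
  exact ⟨x, ht2⟩

open Classical in
/-- **Main theorem.** -/
theorem rightOrder (k : ℕ) (hk : 1 ≤ k) : ∃ L : ℕ, ∀ ε lam : ℝ, 0 < ε → 0 < lam → ∃ κ : ℝ, 0 < κ ∧
    ∀ C : ℝ, ∀ᶠ N : ℕ in atTop, ∀ q : ℕ, 1 ≤ q → ∀ (H : ℕ) (u : Fin k → ℕ), lam * Real.log N ≤ H →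
    (∀ l, (q : ℝ) * (u l + H) ≤ Real.log N ^ C) →
    (1 - ε) * (H : ℝ) ^ k ≤ (((Fintype.piFinset (fun l => Ioc (u l) (u l + H))).filter
      (fun h => ∃ e : ℕ, 1 ≤ e ∧ e ≤ L ∧ GoodP κ k N (patt (e * q) h))).card : ℝ) := by
  obtain ⟨Nn, hNn⟩ := prop_line k (1 / (40 * (k + 1))) (by positivity)
  obtain ⟨T, hT⟩ : ∃ T, T = Fintype.card (Wd k Nn) := ⟨_, rfl⟩
  have hkr : (0 : ℝ) < 40 * ((k : ℝ) + 1) := by positivity
  -- the number of the words is large
  have hTbig : 40 * (k + 1) < T := by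
    by_contra hcon
    have h1 : (T : ℝ) ≤ 40 * ((k : ℝ) + 1) := by
      have : T ≤ 40 * (k + 1) := not_lt.1 hcon
      exact_mod_cast this
    obtain ⟨V, hV, hVS⟩ := hNn {fun _ => 0} (by
      rw [card_singleton, Nat.cast_one, ← hT, div_mul_eq_mul_div, one_mul, div_le_one hkr]
      exact h1)
    have h2 : pt V 0 = pt V (Fin.last k) := by
      rw [mem_singleton.1 (hVS 0), mem_singleton.1 (hVS (Fin.last k))]
    have h3 := pt_inj V hV h2
    have : (0 : ℕ) = k := by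
      have := congrArg Fin.val h3
      simpa using this
    omega
  obtain ⟨m, hm⟩ : ∃ m, m = T / 4 := ⟨_, rfl⟩
  have hm1 : 1 ≤ m := by omega
  have hkm : k + 1 ≤ 4 * m := by omega
  have hmT : 4 * m ≤ T := by omega
  have hTm : T ≤ 40 * (k + 1) * m := by
    have e1 : T ≤ 8 * m := by omega
    exact e1.trans (Nat.mul_le_mul_right m (by omega))
  obtain ⟨g⟩ : Nonempty (Fin (4 * m) ↪ Wd k Nn) := by
    apply Function.Embedding.nonempty_of_card_le
    rw [Fintype.card_fin, ← hT]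
    exact hmT
  obtain ⟨K', hK', δ, hδ, _, c0, hc0, hlow⟩ := low_holds m hm1
  obtain ⟨n, hn⟩ : ∃ n, n = 4 * m * K' := ⟨_, rfl⟩
  have hn1 : 1 ≤ n := by rw [hn]; exact Nat.mul_pos (by omega) hK'
  have hkn : k + 1 ≤ n := by rw [hn]; exact hkm.trans (Nat.le_mul_of_pos_right _ hK')
  have hn4 : n ≤ 4 * n ^ 2 := by nlinarith
  obtain ⟨P0, hP0⟩ : ∃ P0, P0 = (4 * n ^ 2).factorial := ⟨_, rfl⟩
  have hP01 : 1 ≤ P0 := by rw [hP0]; exact Nat.factorial_pos _
  refine ⟨P0 * Nn, fun ε lam hε hlam => ?_⟩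
  obtain ⟨ε', hε'⟩ : ∃ ε', ε' = min ε 1 / 2 := ⟨_, rfl⟩
  have hmin : 0 < min ε 1 := lt_min hε (by norm_num)
  have hε'0 : 0 < ε' := by rw [hε']; positivity
  have hε'1 : ε' ≤ 1 := by rw [hε']; have := min_le_right ε (1 : ℝ); linarith
  obtain ⟨C₁, κ₁, hC₁, hκ₁, hκ₁1, HC⟩ := confs k Nn ε' hε'0 hε'1
  obtain ⟨κA, hκAd⟩ : ∃ κA, κA = κ₁ ^ (K' ^ (4 * m)) := ⟨_, rfl⟩
  have hκA : 0 < κA := by rw [hκAd]; positivity
  have hκA1 : κA ≤ 1 := by rw [hκAd]; exact pow_le_one₀ hκ₁.le hκ₁1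
  obtain ⟨Cs, hCs⟩ : ∃ Cs : ℝ, Cs = 8 * ((4 * m : ℕ) : ℝ) := ⟨_, rfl⟩
  have hCs0 : 0 < Cs := by
    rw [hCs]
    have : (0 : ℝ) < ((4 * m : ℕ) : ℝ) := by exact_mod_cast (by omega : 0 < 4 * m)
    positivity
  obtain ⟨κ', hκ', hfail⟩ := fail_small k m K' hm1 hkm hK' δ c0 hδ hc0 hlow (κA / (32 * Cs ^ n)) (κA / 32 * lam)
    (by positivity) (by positivity)
  obtain ⟨κ, hκd⟩ : ∃ κ, κ = κ' * κA / (64 * ((n : ℝ) ^ (k + 1) * Cs ^ n)) := ⟨_, rfl⟩
  have hκ : 0 < κ := by rw [hκd]; positivity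
  refine ⟨κ, hκ, fun C => ?_⟩
  obtain ⟨A₀, hA₀⟩ : ∃ A₀ : ℝ, A₀ = C₁ + (k : ℝ) ^ 2 / ε' + 2 * (n : ℝ) ^ 2 / κA + P0 * (Nn + C₁) := ⟨_, rfl⟩
  filter_upwards [hfail (C + 1), bad_conv k (C + 1), num_ev lam A₀ hlam] with N h1 h2 h3
  obtain ⟨hy2, hy4, hA1, hA2, hL1⟩ := h3
  intro q hq H u hH hu
  obtain ⟨y, hy⟩ : ∃ y, y = ⌊Real.log (Real.log (N : ℝ))⌋₊ := ⟨_, rfl⟩
  obtain ⟨M, hM⟩ : ∃ M, M = ⌊Real.log (N : ℝ) ^ (C + 1)⌋₊ := ⟨_, rfl⟩
  rw [← hy] at h1 h2 hy2 hy4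
  rw [← hM] at h1 h2
  have hL0 : 0 < Real.log (N : ℝ) := by linarith
  have hH1 : A₀ ≤ H := hA1.trans hH
  have hp1 : 0 ≤ (k : ℝ) ^ 2 / ε' := by positivity
  have hp2 : 0 ≤ 2 * (n : ℝ) ^ 2 / κA := by positivity
  have hp3 : (0 : ℝ) ≤ P0 * (Nn + C₁) := by positivity
  have hp4 : (0 : ℝ) ≤ C₁ := Nat.cast_nonneg _
  have hC₁H : C₁ ≤ H := by
    have : (C₁ : ℝ) ≤ H := by linarith
    exact_mod_cast this
  have hHk : (k : ℝ) ^ 2 / ε' ≤ H := by linarith
  have hHn : 2 * (n : ℝ) ^ 2 / κA ≤ H := by linarith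
  have hLP : (P0 : ℝ) * (Nn + C₁) ≤ Real.log N := by linarith
  have hHpos : 1 ≤ H := hC₁.trans hC₁H
  have hH0 : (0 : ℝ) < H := by exact_mod_cast hHpos
  obtain ⟨M1, hM1⟩ : ∃ M1, M1 = C₁ * H + 1 := ⟨_, rfl⟩
  have hM1H : (H : ℝ) ≤ M1 := by
    have : H ≤ M1 := by
      rw [hM1]
      exact (Nat.le_mul_of_pos_left H hC₁).trans (Nat.le_succ _)
    exact_mod_cast this
  have hM10 : (0 : ℝ) < M1 := lt_of_lt_of_le hH0 hM1H
  obtain ⟨D, hD⟩ : ∃ D, D = P0 * q := ⟨_, rfl⟩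
  have hD1 : 1 ≤ D := by rw [hD]; exact Nat.mul_pos hP01 hq
  have hdvd : ∀ p : ℕ, p.Prime → p ≤ 4 * n ^ 2 → p ∣ P0 := by
    intro p hp hpn
    rw [hP0]
    exact (hp.dvd_factorial).2 hpn
  -- the contradiction
  by_contra hcon
  push Not at hcon
  obtain ⟨Y, hY⟩ : ∃ Y : Finset (Fin k → ℕ), Y = Fintype.piFinset (fun l => Ioc (u l) (u l + H)) := ⟨_, rfl⟩
  obtain ⟨Good, hGood⟩ : ∃ Good : (Fin k → ℕ) → Prop, Good = fun h => ∃ e : ℕ, 1 ≤ e ∧ e ≤ P0 * Nn ∧
    GoodP κ k N (patt (e * q) h) := ⟨_, rfl⟩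
  have hcon' : ((Y.filter (fun h => Good h)).card : ℝ) < (1 - ε) * (H : ℝ) ^ k := by
    rw [hY, hGood]
    exact hcon
  obtain ⟨E, hE⟩ : ∃ E, E = Y.filter (fun h => Function.Injective h ∧ ¬ Good h) := ⟨_, rfl⟩
  have hYc : Y.card = H ^ k := by
    rw [hY, Fintype.card_piFinset]
    have h3 : ∀ l, (Ioc (u l) (u l + H)).card = H := by
      intro l
      rw [Nat.card_Ioc]
      omega
    simp only [h3, prod_const, card_univ, Fintype.card_fin]
  have hEc : ε' * (H : ℝ) ^ k ≤ E.card := by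
    have e1 : Y.card ≤ (Y.filter (fun h => Good h)).card + (Y.filter (fun h => ¬ Function.Injective h)).card + E.card := by
      have e2 : Y ⊆ Y.filter (fun h => Good h) ∪ Y.filter (fun h => ¬ Function.Injective h) ∪ E := by
        intro h hh
        rw [mem_union, mem_union, hE, mem_filter, mem_filter, mem_filter]
        by_cases h3 : Good h
        · exact Or.inl (Or.inl ⟨hh, h3⟩)
        · by_cases h4 : Function.Injective h
          · exact Or.inr ⟨hh, h4, h3⟩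
          · exact Or.inl (Or.inr ⟨hh, h4⟩)
      refine (card_le_card e2).trans ((card_union_le _ _).trans ?_)
      exact Nat.add_le_add_right (card_union_le _ _) _
    have e3 := noninj (ι := Fin k) (fun l => Ioc (u l) (u l + H)) H (fun l => by rw [Nat.card_Ioc]; omega)
    rw [← hY, Fintype.card_fin] at e3
    have e4 : ((Y.filter (fun h => ¬ Function.Injective h)).card : ℝ) ≤ (k : ℝ) ^ 2 * (H : ℝ) ^ (k - 1) := by
      exact_mod_cast e3
    have e5 : (k : ℝ) ^ 2 * (H : ℝ) ^ (k - 1) ≤ ε' * (H : ℝ) ^ k := by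
      have e6 : (H : ℝ) ^ k = H * (H : ℝ) ^ (k - 1) := by
        rw [← pow_succ', Nat.sub_add_cancel hk]
      rw [e6, ← mul_assoc]
      apply mul_le_mul_of_nonneg_right _ (by positivity)
      rw [div_le_iff₀ hε'0] at hHk
      linarith
    have e6 : (H : ℝ) ^ k ≤ ((Y.filter (fun h => Good h)).card : ℝ) +
        ((Y.filter (fun h => ¬ Function.Injective h)).card : ℝ) + (E.card : ℝ) := by
      rw [hYc] at e1
      exact_mod_cast e1
    have e7 : (1 - ε) * (H : ℝ) ^ k ≤ (1 - 2 * ε') * (H : ℝ) ^ k := by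
      apply mul_le_mul_of_nonneg_right _ (by positivity)
      rw [hε']
      have := min_le_left ε (1 : ℝ)
      linarith
    linarith
  have hEY : E ⊆ Fintype.piFinset (fun l => Ioc (u l) (u l + H)) := by
    rw [← hY, hE]
    exact filter_subset _ _
  obtain ⟨Tc, hTc1, hTc2, hTc3⟩ := HC (4 * m) g g.injective D hD1 H hC₁H u E hEY hEc
  obtain ⟨J, hJ⟩ : ∃ J : Fin (4 * m) → Finset ℕ, J = Jw D C₁ H u g := ⟨_, rfl⟩
  rw [← hJ] at hTc1 hTc2
  have hJc : ∀ i, (J i).card = M1 := by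
    intro i
    rw [hJ, Jw_card D C₁ H hD1 u g i, hM1]
  obtain ⟨V, hV⟩ : ∃ V : Finset ℕ, V = univ.biUnion J := ⟨_, rfl⟩
  -- sizes of the shifts
  have hVM : ∀ t ∈ V, t ≤ M ∧ D ∣ t := by
    intro t ht
    rw [hV, mem_biUnion] at ht
    obtain ⟨i, _, hi⟩ := ht
    rw [hJ] at hi
    unfold Jw at hi
    obtain ⟨x, hx, rfl⟩ := mem_image.1 hi
    refine ⟨?_, Dvd.intro _ rfl⟩
    rw [hM]
    apply Nat.le_floor
    have hx2 : x ≤ sN u (g i) + C₁ * H := by
      have := (mem_Ico.1 hx).2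
      omega
    obtain ⟨B, hB⟩ : ∃ B : ℝ, B = Real.log (N : ℝ) ^ C := ⟨_, rfl⟩
    have hB0 : 0 ≤ B := by rw [hB]; exact Real.rpow_nonneg hL0.le _
    have hu' : ∀ l, (q : ℝ) * u l ≤ B ∧ (q : ℝ) * H ≤ B := by
      intro l
      have h3 := hu l
      rw [← hB] at h3
      have h4 : (0 : ℝ) ≤ (q : ℝ) * u l := by positivity
      have h5 : (0 : ℝ) ≤ (q : ℝ) * H := by positivity
      constructor <;> linarith
    have e1 : (q : ℝ) * sN u (g i) ≤ Nn * B := by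
      unfold sN
      push_cast
      rw [mul_sum]
      have e2 : ∑ l, (q : ℝ) * ((cnt (g i) l : ℝ) * u l) ≤ ∑ l, (cnt (g i) l : ℝ) * B := by
        refine sum_le_sum fun l _ => ?_
        calc (q : ℝ) * ((cnt (g i) l : ℝ) * u l) = (cnt (g i) l : ℝ) * ((q : ℝ) * u l) := by ring
          _ ≤ _ := mul_le_mul_of_nonneg_left (hu' l).1 (Nat.cast_nonneg _)
      refine e2.trans ?_
      rw [← sum_mul]
      apply mul_le_mul_of_nonneg_right _ hB0
      exact_mod_cast sum_cnt (g i)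
    have e2 : (q : ℝ) * (C₁ * H) ≤ C₁ * B := by
      calc (q : ℝ) * (C₁ * H) = C₁ * ((q : ℝ) * H) := by ring
        _ ≤ _ := mul_le_mul_of_nonneg_left (hu' ⟨0, hk⟩).2 hp4
    have e3 : Real.log (N : ℝ) ^ (C + 1) = Real.log N * B := by
      rw [hB, Real.rpow_add hL0, Real.rpow_one, mul_comm]
    rw [e3, hD]
    push_cast
    have e4 : (x : ℝ) ≤ sN u (g i) + C₁ * H := by exact_mod_cast hx2
    calc (P0 : ℝ) * q * x ≤ (P0 : ℝ) * q * (sN u (g i) + C₁ * H) := by gcongr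
      _ = (P0 : ℝ) * ((q : ℝ) * sN u (g i) + (q : ℝ) * (C₁ * H)) := by ring
      _ ≤ (P0 : ℝ) * (Nn * B + C₁ * B) := by gcongr
      _ = (P0 : ℝ) * (Nn + C₁) * B := by ring
      _ ≤ _ := mul_le_mul_of_nonneg_right hLP hB0
  -- the blow-ups
  obtain ⟨A0, hA0, hblow⟩ := blow' K' hK' (4 * m) J Tc κ₁ hκ₁.le hTc1 hTc2
  have hblow' : κA * (M1 : ℝ) ^ n ≤ A0.card := by
    have e0 : (∏ g, ((J g).card : ℝ)) ^ K' = (M1 : ℝ) ^ n := by
      rw [prod_congr rfl (fun g _ => by rw [hJc g]), prod_const, card_univ, Fintype.card_fin, ← pow_mul, hn]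
    rw [e0, ← hκAd] at hblow
    exact hblow
  obtain ⟨Ac, hAc⟩ : ∃ Ac, Ac = A0.filter (fun A => Function.Injective A) := ⟨_, rfl⟩
  have hcI : Fintype.card (Fin (4 * m) × Fin K') = n := by
    rw [Fintype.card_prod, Fintype.card_fin, Fintype.card_fin, hn]
  have hAcc : κA / 2 * (M1 : ℝ) ^ n ≤ Ac.card := by
    have e1 := noninj (ι := Fin (4 * m) × Fin K') (fun x => J x.1) M1 (fun x => hJc x.1)
    rw [hcI] at e1
    have e2 : A0.card ≤ Ac.card + ((Fintype.piFinset (fun x : Fin (4 * m) × Fin K' => J x.1)).filter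
        (fun A => ¬ Function.Injective A)).card := by
      rw [hAc, ← card_filter_add_card_filter_not (s := A0) (fun A => Function.Injective A)]
      apply Nat.add_le_add_left
      apply card_le_card
      apply filter_subset_filter
      intro A hA
      rw [Fintype.mem_piFinset]
      exact (hA0 A hA).1
    have e3 : (A0.card : ℝ) ≤ Ac.card + (n : ℝ) ^ 2 * (M1 : ℝ) ^ (n - 1) := by
      exact_mod_cast e2.trans (Nat.add_le_add_left e1 _)
    have e4 : (n : ℝ) ^ 2 * (M1 : ℝ) ^ (n - 1) ≤ κA / 2 * (M1 : ℝ) ^ n := by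
      have e5 : (M1 : ℝ) ^ n = M1 * (M1 : ℝ) ^ (n - 1) := by
        rw [← pow_succ', Nat.sub_add_cancel hn1]
      rw [e5, ← mul_assoc]
      apply mul_le_mul_of_nonneg_right _ (by positivity)
      have e6 := hHn.trans hM1H
      rw [div_le_iff₀ hκA] at e6
      linarith
    linarith
  have hAcJ : ∀ A ∈ Ac, ∀ x, A x ∈ J x.1 := by
    intro A hA x
    rw [hAc, mem_filter] at hA
    exact (hA0 A hA.1).1 x
  have hAcV : ∀ A ∈ Ac, ∀ x, A x ∈ V := by
    intro A hA x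
    rw [hV, mem_biUnion]
    exact ⟨x.1, mem_univ _, hAcJ A hA x⟩
  -- the bad sets
  obtain ⟨Xc, hXc⟩ : ∃ Xc, Xc = (V.powersetCard (k + 1)).filter (fun X =>
    κ' * nG κ' k N y X ≤ 2 * κ * Uni.gT (Uni.WW y) X) := ⟨_, rfl⟩
  have hline : ∀ A ∈ Ac, ∀ S' : Finset (Fin (4 * m)), m ≤ S'.card → ∀ c : Fin (4 * m) → Fin K',
      ∃ X ∈ Xc, X ⊆ S'.image (fun i => A (i, c i)) := by
    intro A hA S' hS' c
    obtain ⟨Vl, hVl, hVS⟩ := hNn (S'.image g) (by
      rw [card_image_of_injective _ g.injective, ← hT, div_mul_eq_mul_div, one_mul, div_le_iff₀ hkr]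
      have e1 : T ≤ S'.card * (40 * (k + 1)) := by
        rw [mul_comm]
        exact hTm.trans (Nat.mul_le_mul_left _ hS')
      exact_mod_cast e1)
    have e1 : ∀ j, ∃ i ∈ S', g i = pt Vl j := fun j => by
      obtain ⟨i, hi, hi2⟩ := mem_image.1 (hVS j)
      exact ⟨i, hi, hi2⟩
    choose ix hix hix2 using e1
    have hAT : (fun i => A (i, c i)) ∈ Tc := by
      rw [hAc, mem_filter] at hA
      exact (hA0 A hA.1).2 c
    obtain ⟨h, hhE, hrel⟩ := hTc3 _ hAT Vl hVl (fun j => ⟨ix j, hix2 j⟩)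
    have hrel' := hrel (ix 0) (fun l => ix l.succ) (hix2 0) (fun l => hix2 l.succ)
    rw [hE, mem_filter] at hhE
    obtain ⟨hhY, hhinj, hhbad⟩ := hhE
    obtain ⟨e, he⟩ : ∃ e, e = P0 * act Vl := ⟨_, rfl⟩
    have he1 : 1 ≤ e := by rw [he]; exact Nat.mul_pos hP01 (act_pos Vl hVl)
    have he2 : e ≤ P0 * Nn := by rw [he]; exact Nat.mul_le_mul_left _ (act_le Vl)
    obtain ⟨x0, hx0⟩ : ∃ x0, x0 = A (ix 0, c (ix 0)) := ⟨_, rfl⟩
    have hh1 : ∀ l, 1 ≤ h l := by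
      intro l
      rw [hY, Fintype.mem_piFinset] at hhY
      have := (mem_Ioc.1 (hhY l)).1
      omega
    have hpc := patt_card (e * q) (Nat.mul_pos he1 hq) h hhinj hh1
    have hpa : ∀ p : ℕ, p.Prime → Uni.nuT (patt (e * q) h) p < p := by
      intro p hp
      apply patt_adm _ _ h p hp
      intro p' hp' hp'k
      rw [he, mul_assoc]
      exact (hdvd p' hp' (hp'k.trans (hkn.trans hn4))).mul_right _
    have hXs : (patt (e * q) h).image (fun t => t + x0) ⊆ S'.image (fun i => A (i, c i)) := by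
      intro t ht
      obtain ⟨t', ht', rfl⟩ := mem_image.1 ht
      unfold patt at ht'
      rw [mem_insert, mem_image] at ht'
      rcases ht' with rfl | ⟨l, _, rfl⟩
      · rw [zero_add, hx0]
        exact mem_image_of_mem (fun i => A (i, c i)) (hix 0)
      · have e2 : e * q * h l + x0 = A (ix l.succ, c (ix l.succ)) := by
          rw [hrel' l, hx0, hD, he]
          ring
        rw [e2]
        exact mem_image_of_mem (fun i => A (i, c i)) (hix l.succ)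
    have hXV : (patt (e * q) h).image (fun t => t + x0) ⊆ V := by
      intro t ht
      obtain ⟨i, _, rfl⟩ := mem_image.1 (hXs ht)
      exact hAcV A hA _
    refine ⟨_, ?_, hXs⟩
    rw [hXc, mem_filter, mem_powersetCard]
    refine ⟨⟨hXV, ?_⟩, ?_⟩
    · rw [card_image_of_injective _ (add_left_injective x0), hpc]
    · refine h2 κ κ' hκ.le hκ' (patt (e * q) h) x0 hpc (fun t ht => ?_) ?_
      · exact (hVM _ (hXV (mem_image_of_mem _ ht))).1
      · by_contra hcon2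
        apply hhbad
        rw [hGood]
        exact ⟨e, he1, he2, hpc, hpa, not_lt.1 hcon2⟩
  -- the double counting
  have hup := classArg k m K' N y hm1 hkm hK' κ' κ (κA / (32 * Cs ^ n)) (κA / 32 * lam * rho y * Real.log N)
    (Cs * (M1 * rD D y)) (2 * (Uni.WW y * dD D y)) hκ' hκ.le (by positivity)
    (by have := (rho_pos y).le; positivity) (by have := (rD_pos D y).le; positivity) V Ac Xc hAcV
    (fun A hA => by rw [hAc, mem_filter] at hA; exact hA.2) hline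
    (fun X hX => by
      rw [hXc, mem_filter, mem_powersetCard] at hX
      exact ⟨hX.1.2, hX.1.1, hX.2⟩)
    (fun b => by
      have := Sb_upper D C₁ H y hD1 hy2 (by
        have e1 : ((4 ^ (y / 2) : ℕ) : ℝ) ≤ ((C₁ * H + 1 : ℕ) : ℝ) := by
          rw [← hM1]
          push_cast
          exact hy4.trans (hH.trans hM1H)
        exact_mod_cast e1) u g b
      rw [← hJ, ← hV, ← hM1, ← hCs] at this
      exact this)
    (by
      have := Sb_classes D C₁ H y u g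
      rw [← hJ, ← hV] at this
      exact this)
    (fun b hb => by
      refine h1 b (Sb y V b) (fun t ht => ?_) (fun t ht => ?_) hb
      · unfold Sb at ht
        exact (hVM t (mem_filter.1 ht).1).1
      · unfold Sb at ht
        exact (mem_filter.1 ht).2)
  rw [← hn] at hup
  have hlo : (Ac.card : ℝ) * (1 / 2 * (Uni.WW y * dD D y) * rD D y ^ n) ≤
      ∑ A ∈ Ac, (Uni.gT (Uni.WW y) (univ.image A) : ℝ) := by
    rw [← nsmul_eq_mul]
    apply card_nsmul_le_sum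
    intro A hA
    refine gT_lower n D y hn1 (fun p hp hpn => ?_) (univ.image A) ?_ ?_
    · rw [hD]
      exact (hdvd p hp hpn).mul_right _
    · refine card_image_le.trans ?_
      rw [card_univ, hcI]
    · intro t ht
      obtain ⟨x, _, rfl⟩ := mem_image.1 ht
      exact (hVM _ (hAcV A hA x)).2
  have hW0 : (0 : ℝ) < Uni.WW y := by exact_mod_cast Uni.WW_pos y
  have hdD := dD_pos D y
  have hrD := rD_pos D y
  refine fincomp n k hn1 κA Cs κ' M1 (rD D y) (κA / 32 * lam * rho y * Real.log N) (Uni.WW y * dD D y)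
    Ac.card _ hκA hκA1 hCs0 hκ' hM10 hrD (by have := (rho_pos y).le; positivity) (by positivity) ?_ hAcc hlo ?_
  · have e1 := rho_le_rD D y
    have e2 : lam * Real.log N ≤ M1 := hH.trans hM1H
    calc κA / 32 * lam * rho y * Real.log N = κA / 32 * ((lam * Real.log N) * rho y) := by ring
      _ ≤ κA / 32 * (M1 * rD D y) := by
          have := (rho_pos y).le
          gcongr
  · rw [hκd] at hup
    exact hup

end Pool.Agent.Y877.RO
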