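import Mathlib
import Pool.Agent.Y877.RoH

/-! A positive proportion of the multiples of almost all vectors is good (helper877). -/

set_option autoImplicit false

namespace Pool.Agent.Y877.RO

open Finset Filter Topology
open Pool.Agent.Y877

open Classical in
/-- **Proportion of the multiples.** -/
theorem propMult (k : ℕ) (hk : 1 ≤ k) : ∃ (L : ℕ) (c : ℝ), 0 < c ∧ ∀ ε lam : ℝ, 0 < ε → 0 < lam →
    ∃ κ : ℝ, 0 < κ ∧ ∀ C : ℝ, ∀ᶠ N : ℕ in atTop, ∀ q : ℕ, 1 ≤ q → ∀ E : ℕ, L ≤ E → ∀ (H : ℕ) (u : Fin k → ℕ),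
    lam * Real.log N ≤ H → (∀ l, (q : ℝ) * E * (u l + H) ≤ Real.log N ^ C) →
    (1 - ε) * (H : ℝ) ^ k ≤ (((Fintype.piFinset (fun l => Ioc (u l) (u l + H))).filter
      (fun h => c * E ≤ (((Icc 1 E).filter (fun e => GoodP κ k N (patt (e * q) h))).card : ℝ))).card : ℝ) := by
  obtain ⟨L0, hL0⟩ := rightOrder k hk
  obtain ⟨L, hL⟩ : ∃ L, L = L0 + 1 := ⟨_, rfl⟩
  have hL1 : 1 ≤ L := by omega
  have hLr : (0 : ℝ) < L := by exact_mod_cast hL1
  refine ⟨L, 1 / (4 * (L : ℝ) ^ 2), by positivity, fun ε lam hε hlam => ?_⟩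
  obtain ⟨ε0, hε0d⟩ : ∃ ε0, ε0 = min ε (1 / 2) := ⟨_, rfl⟩
  have hε0 : 0 < ε0 := by rw [hε0d]; exact lt_min hε (by norm_num)
  have hε0ε : ε0 ≤ ε := by rw [hε0d]; exact min_le_left _ _
  have hε02 : ε0 ≤ 1 / 2 := by rw [hε0d]; exact min_le_right _ _
  obtain ⟨κ, hκ, h1⟩ := hL0 (ε0 ^ 2) lam (by positivity) hlam
  refine ⟨κ, hκ, fun C => ?_⟩
  have tN : Tendsto (fun N : ℕ => (N : ℝ)) atTop atTop := tendsto_natCast_atTop_atTop
  have tL : Tendsto (fun N : ℕ => Real.log (N : ℝ)) atTop atTop := Real.tendsto_log_atTop.comp tN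
  filter_upwards [h1 C, tL.eventually_gt_atTop 0] with N h2 hlog
  intro q hq E hE H u hH hu
  obtain ⟨D, hD⟩ : ∃ D, D = E / L := ⟨_, rfl⟩
  have hD1 : 1 ≤ D := by rw [hD]; exact Nat.div_pos hE hL1
  have hDL : D * L ≤ E := by rw [hD]; exact Nat.div_mul_le_self E L
  have hDE : E ≤ 2 * (D * L) := by
    have e1 : E < (D + 1) * L := by
      rw [hD]
      have := Nat.lt_div_mul_add (a := E) hL1
      rw [Nat.add_mul, one_mul]
      exact this
    have e2 : L ≤ D * L := Nat.le_mul_of_pos_left _ hD1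
    rw [Nat.add_mul, one_mul] at e1
    omega
  have hDr : (0 : ℝ) < D := by exact_mod_cast hD1
  obtain ⟨Y, hY⟩ : ∃ Y : Finset (Fin k → ℕ), Y = Fintype.piFinset (fun l => Ioc (u l) (u l + H)) := ⟨_, rfl⟩
  have hYc : Y.card = H ^ k := by
    rw [hY, Fintype.card_piFinset]
    have h3 : ∀ l, (Ioc (u l) (u l + H)).card = H := by
      intro l
      rw [Nat.card_Ioc]
      omega
    simp only [h3, prod_const, card_univ, Fintype.card_fin]
  rw [← hY]
  obtain ⟨Q, hQ⟩ : ∃ Q : ℕ → (Fin k → ℕ) → Prop, Q = fun d h => ∃ e : ℕ, 1 ≤ e ∧ e ≤ L0 ∧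
    GoodP κ k N (patt (e * (q * d)) h) := ⟨_, rfl⟩
  have h3 : ∀ d ∈ Icc 1 D, ((Y.filter (fun h => ¬ Q d h)).card : ℝ) ≤ ε0 ^ 2 * (H : ℝ) ^ k := by
    intro d hd
    rw [mem_Icc] at hd
    have hdE : d ≤ E := hd.2.trans ((Nat.le_mul_of_pos_right D hL1).trans hDL)
    have e1 := h2 (q * d) (Nat.mul_pos hq hd.1) H u hH (fun l => by
      refine le_trans ?_ (hu l)
      push_cast
      have : (d : ℝ) ≤ E := by exact_mod_cast hdE
      gcongr)
    rw [← hY] at e1
    have e2 : (Y.filter (fun h => Q d h)).card + (Y.filter (fun h => ¬ Q d h)).card = H ^ k := by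
      rw [card_filter_add_card_filter_not, hYc]
    have e3 : ((Y.filter (fun h => Q d h)).card : ℝ) + ((Y.filter (fun h => ¬ Q d h)).card : ℝ) = (H : ℝ) ^ k := by
      exact_mod_cast e2
    have e4 : (1 - ε0 ^ 2) * (H : ℝ) ^ k ≤ ((Y.filter (fun h => Q d h)).card : ℝ) := by
      rw [hQ]
      exact e1
    linarith
  obtain ⟨B, hB⟩ : ∃ B : (Fin k → ℕ) → Finset ℕ, B = fun h => (Icc 1 D).filter (fun d => ¬ Q d h) := ⟨_, rfl⟩
  have h4 : ∑ h ∈ Y, ((B h).card : ℝ) ≤ D * (ε0 ^ 2 * (H : ℝ) ^ k) := by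
    have e1 : ∑ h ∈ Y, ((B h).card : ℝ) = ∑ d ∈ Icc 1 D, ((Y.filter (fun h => ¬ Q d h)).card : ℝ) := by
      have e2 : ∀ h ∈ Y, ((B h).card : ℝ) = ∑ d ∈ Icc 1 D, (if ¬ Q d h then (1 : ℝ) else 0) := by
        intro h _
        rw [hB, card_filter]
        push_cast
        rfl
      rw [sum_congr rfl e2, sum_comm]
      refine sum_congr rfl fun d _ => ?_
      rw [card_filter]
      push_cast
      rfl
    rw [e1]
    refine (sum_le_sum h3).trans (le_of_eq ?_)
    rw [sum_const, Nat.card_Icc, Nat.add_sub_cancel, nsmul_eq_mul]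
  have h5 : ((Y.filter (fun h => ε0 * D ≤ ((B h).card : ℝ))).card : ℝ) ≤ ε0 * (H : ℝ) ^ k := by
    have e1 : ((Y.filter (fun h => ε0 * D ≤ ((B h).card : ℝ))).card : ℝ) * (ε0 * D) ≤ ∑ h ∈ Y, ((B h).card : ℝ) := by
      rw [← nsmul_eq_mul]
      refine le_trans ?_ (sum_le_sum_of_subset_of_nonneg (filter_subset (fun h => ε0 * D ≤ ((B h).card : ℝ)) Y)
        fun _ _ _ => Nat.cast_nonneg _)
      exact card_nsmul_le_sum _ _ _ fun h hh => (mem_filter.1 hh).2
    have e2 := e1.trans h4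
    have e3 : (D : ℝ) * (ε0 ^ 2 * (H : ℝ) ^ k) = (ε0 * (H : ℝ) ^ k) * (ε0 * D) := by ring
    rw [e3] at e2
    exact le_of_mul_le_mul_right e2 (by positivity)
  have h6 : Y.filter (fun h => ¬ ε0 * D ≤ ((B h).card : ℝ)) ⊆ Y.filter (fun h =>
      1 / (4 * (L : ℝ) ^ 2) * E ≤ (((Icc 1 E).filter (fun e => GoodP κ k N (patt (e * q) h))).card : ℝ)) := by
    intro h hh
    rw [mem_filter, not_le] at hh
    rw [mem_filter]
    refine ⟨hh.1, ?_⟩
    obtain ⟨F, hF⟩ : ∃ F, F = (Icc 1 D).filter (fun d => Q d h) := ⟨_, rfl⟩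
    have e1 : (F.card : ℝ) + ((B h).card : ℝ) = D := by
      have e2 : F.card + (B h).card = D := by
        rw [hF, hB, card_filter_add_card_filter_not, Nat.card_Icc, Nat.add_sub_cancel]
      exact_mod_cast e2
    have e2 : (D : ℝ) / 2 ≤ F.card := by nlinarith [hh.2]
    obtain ⟨G, hG⟩ : ∃ G, G = (Icc 1 E).filter (fun e => GoodP κ k N (patt (e * q) h)) := ⟨_, rfl⟩
    rw [← hG]
    have e3 : ∀ d : ℕ, ∃ e : ℕ, d ∈ F → (1 ≤ e ∧ e ≤ L0 ∧ GoodP κ k N (patt (e * (q * d)) h)) := by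
      intro d
      by_cases hd : d ∈ F
      · have := (mem_filter.1 (hF ▸ hd)).2
        rw [hQ] at this
        obtain ⟨e, he⟩ := this
        exact ⟨e, fun _ => he⟩
      · exact ⟨0, fun h => absurd h hd⟩
    choose f hf using e3
    have e4 : F.card ≤ L * G.card := by
      have e5 : (F.image (fun d => f d * d)) ⊆ G := by
        intro t ht
        obtain ⟨d, hd, rfl⟩ := mem_image.1 ht
        obtain ⟨g1, g2, g3⟩ := hf d hd
        have hd2 := mem_Icc.1 (mem_filter.1 (hF ▸ hd)).1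
        rw [hG, mem_filter, mem_Icc]
        refine ⟨⟨Nat.mul_pos g1 hd2.1, ?_⟩, ?_⟩
        · calc f d * d ≤ L * D := Nat.mul_le_mul (by omega) hd2.2
            _ ≤ E := by rw [mul_comm]; exact hDL
        · rw [show f d * d * q = f d * (q * d) by ring]
          exact g3
      refine le_trans ?_ (Nat.mul_le_mul_left L (card_le_card e5))
      refine card_le_mul_card_image (f := fun d => f d * d) F L ?_
      intro t _
      have e6 : (F.filter (fun d => f d * d = t)).card ≤ (Icc 1 L).card := by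
        refine card_le_card_of_injOn f ?_ ?_
        · intro d hd
          rw [mem_coe, mem_filter] at hd
          obtain ⟨g1, g2, _⟩ := hf d hd.1
          rw [mem_coe, mem_Icc]
          exact ⟨g1, by omega⟩
        · intro d hd d' hd' hdd
          rw [mem_coe, mem_filter] at hd hd'
          obtain ⟨g1, _, _⟩ := hf d hd.1
          have e7 : f d * d = f d * d' := by rw [hd.2, hdd, hd'.2]
          exact Nat.eq_of_mul_eq_mul_left g1 e7
      rw [Nat.card_Icc, Nat.add_sub_cancel] at e6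
      exact e6
    have e5 : (F.card : ℝ) ≤ L * G.card := by exact_mod_cast e4
    have e6 : (E : ℝ) ≤ 2 * (D * L) := by exact_mod_cast hDE
    have e7 : (E : ℝ) ≤ 4 * (L : ℝ) ^ 2 * G.card := by
      calc (E : ℝ) ≤ 2 * (D * L) := e6
        _ = 4 * L * (D / 2) := by ring
        _ ≤ 4 * L * (L * G.card) := by gcongr; exact e2.trans e5
        _ = _ := by ring
    rw [div_mul_eq_mul_div, one_mul, div_le_iff₀ (by positivity)]
    linarith
  have h7 : (Y.filter (fun h => ε0 * D ≤ ((B h).card : ℝ))).card +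
      (Y.filter (fun h => ¬ ε0 * D ≤ ((B h).card : ℝ))).card = H ^ k := by
    rw [card_filter_add_card_filter_not, hYc]
  have h8 : ((Y.filter (fun h => ε0 * D ≤ ((B h).card : ℝ))).card : ℝ) +
      ((Y.filter (fun h => ¬ ε0 * D ≤ ((B h).card : ℝ))).card : ℝ) = (H : ℝ) ^ k := by exact_mod_cast h7
  have h9 : ((Y.filter (fun h => ¬ ε0 * D ≤ ((B h).card : ℝ))).card : ℝ) ≤ ((Y.filter (fun h =>
      1 / (4 * (L : ℝ) ^ 2) * E ≤ (((Icc 1 E).filter (fun e => GoodP κ k N (patt (e * q) h))).card : ℝ))).card : ℝ) := by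
    exact_mod_cast card_le_card h6
  have h10 : (1 - ε) * (H : ℝ) ^ k ≤ (1 - ε0) * (H : ℝ) ^ k :=
    mul_le_mul_of_nonneg_right (by linarith) (by positivity)
  linarith

end Pool.Agent.Y877.RO
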