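import Mathlib
import Pool.Agent.Y877.SxK

/-! Chen's theorem for one shift, with the size of the prime factors. -/

namespace Pool.Agent.Y877.SX
open Finset

open Classical in
/-- Chen's theorem: many primes `p ≤ X` with `h - p` a product of at most two primes in absolute value, all of them large -/
theorem chen_cnt' : ∃ c : ℝ, 0 < c ∧ ∃ X0 : ℕ, ∀ X : ℕ, X0 ≤ X → ∀ h : ℤ, h ≠ 0 → |h| ≤ X → Even h →
    c * X / Real.log X ^ 2 ≤ (((Ioc 0 X).filter (fun p : ℕ => p.Prime ∧ h - p ≠ 0 ∧ (h - p).natAbs.primeFactorsList.length ≤ 2 ∧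
      ∀ q : ℕ, q.Prime → (q : ℤ) ∣ h - p → X < q ^ 9)).card : ℝ) := by
  obtain ⟨t, ht, c, hc, H1, _⟩ := Pool.Agent.Y840.CT.genF 1
  obtain ⟨c1, hc1, hV⟩ := Pool.Agent.Y840.CT.VF_low 1
  obtain ⟨X0, hX0⟩ := H1 1 one_pos
  refine ⟨c * c1, by positivity, max X0 2, fun X hX h h0 hhX hev => ?_⟩
  have b1 : X0 ≤ X := (le_max_left _ _).trans hX
  have b2 : 2 ≤ X := (le_max_right _ _).trans hX
  have hS : Pool.Agent.Y840.CT.SysF 1 X (fun _ => {h}) h := by
    refine ⟨fun q _ => by simp, h0, hhX, fun q _ => mem_singleton_self _, fun q hq => rho_even h hev q hq⟩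
  have k1 := hX0 X b1 (fun _ => {h}) h hS 0 X le_rfl (by simp)
  have k2 := hV X b2 (fun _ => {h}) (fun q _ => by simp) (fun q hq => rho_even h hev q hq)
  have hlX : 0 < Real.log X := Real.log_pos (by exact_mod_cast (by omega : 1 < X))
  have h1 : (Pool.Agent.Y840.CT.GoodF t X 0 X (fun _ => {h}) h).card ≤
      ((Ioc 0 X).filter (fun p : ℕ => p.Prime ∧ h - p ≠ 0 ∧ (h - p).natAbs.primeFactorsList.length ≤ 2 ∧
      ∀ q : ℕ, q.Prime → (q : ℤ) ∣ h - p → X < q ^ 9)).card := by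
    classical
    apply card_le_card
    intro p hp
    unfold Pool.Agent.Y840.CT.GoodF at hp
    rw [mem_filter] at hp ⊢
    refine ⟨hp.1, hp.2.1, hp.2.2.2.1.1, hp.2.2.2.1.2.1, fun q hq hd => ?_⟩
    have h2 := hp.2.2.2.1.2.2 q hq hd
    have hX0' : (0 : ℝ) ≤ X := Nat.cast_nonneg X
    have h3 : ((X : ℝ) ^ (1 / 9 : ℝ)) ^ 9 < (q : ℝ) ^ 9 := pow_lt_pow_left₀ h2 (by positivity) (by norm_num)
    rw [← Real.rpow_natCast, ← Real.rpow_mul hX0'] at h3
    norm_num at h3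
    exact_mod_cast h3
  calc c * c1 * X / Real.log X ^ 2 = c * ((X : ℝ) - (0 : ℕ)) * (c1 / Real.log X ^ (1 + 1)) := by
        push_cast
        ring
    _ ≤ c * ((X : ℝ) - (0 : ℕ)) * Pool.Agent.Y840.CT.VF (fun _ => {h}) X := by
        apply mul_le_mul_of_nonneg_left k2
        have : (0 : ℝ) ≤ X := Nat.cast_nonneg X
        push_cast
        have : (0 : ℝ) ≤ c * X := by positivity
        linarith
    _ ≤ _ := k1
    _ ≤ _ := by exact_mod_cast h1

end Pool.Agent.Y877.SX
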