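import Mathlib

/-! Admissibility (helper877). -/

set_option autoImplicit false

namespace Pool.Agent.Y877

open Finset

/-- a residue which avoids a small set -/
theorem exresA (p : ℕ) (S : Finset ℤ) (hS : S.card < p) : ∃ n : ℤ, ∀ s ∈ S, ¬ (p : ℤ) ∣ n + s := by
  classical
  have hp : (0 : ℤ) < p := by
    have : 0 < p := by omega
    exact_mod_cast this
  have h1 : (S.image (fun s => (-s) % (p : ℤ))).card < (Ico (0 : ℤ) p).card := by
    refine card_image_le.trans_lt ?_
    rw [Int.card_Ico]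
    simpa using hS
  obtain ⟨n, hn1, hn2⟩ := exists_mem_notMem_of_card_lt_card h1
  have hn3 := mem_Ico.1 hn1
  refine ⟨n, fun s hs hd => hn2 ?_⟩
  refine mem_image.2 ⟨s, hs, ?_⟩
  have h2 : (-s) % (p : ℤ) = n % (p : ℤ) := by
    have h3 : (p : ℤ) ∣ n - (-s) := by
      have : n - (-s) = n + s := by ring
      rw [this]; exact hd
    exact Int.modEq_iff_dvd.2 h3
  rw [h2, Int.emod_eq_of_lt hn3.1 hn3.2]

/-- admissibility of a blow-up -/
theorem admT (T K b : ℕ) (m : Fin T → ℕ) (p : ℕ) (hp : p.Prime)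
    (hb : ∃ r : ℤ, ∀ g, ¬ (p : ℤ) ∣ b * m g + r)
    (A : Fin T → Fin K → ℕ) (r : Fin T → ℕ) (k : ℕ)
    (hr : ∀ g i, A g i % (T * K).factorial = r g)
    (hk : ∀ g i, (T.factorial : ℤ) ∣ (A g i : ℤ) - m g * k) :
    ∃ n : ℤ, ∀ g i, ¬ ((p : ℤ) ∣ ((b * A g i : ℕ) : ℤ) + n) := by
  classical
  have hpp : Prime (p : ℤ) := Nat.prime_iff_prime_int.1 hp
  by_cases hpT : p ≤ T
  · have hpT' : (p : ℤ) ∣ (T.factorial : ℤ) := by
      exact_mod_cast (hp.dvd_factorial).2 hpT
    by_cases hpk : p ∣ k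
    · refine ⟨1, fun g i h => ?_⟩
      have h1 : (p : ℤ) ∣ (A g i : ℤ) := by
        have h2 := dvd_add (hpT'.trans (hk g i)) ((Int.natCast_dvd_natCast.2 hpk).mul_left (m g : ℤ))
        rwa [sub_add_cancel] at h2
      have h2 : (1 : ℤ) = (((b * A g i : ℕ) : ℤ) + 1) - b * (A g i) := by
        push_cast; ring
      have h3 : (p : ℤ) ∣ 1 := by
        rw [h2]
        exact dvd_sub h (h1.mul_left _)
      exact hpp.not_isUnit (isUnit_of_dvd_one h3)
    · obtain ⟨r₁, hr₁⟩ := hb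
      refine ⟨k * r₁, fun g i h => ?_⟩
      have h2 : (k : ℤ) * (b * m g + r₁) = (((b * A g i : ℕ) : ℤ) + k * r₁) -
          ((A g i : ℤ) - m g * k) * b := by
        push_cast
        ring
      have h3 : (p : ℤ) ∣ (k : ℤ) * (b * m g + r₁) := by
        rw [h2]
        exact dvd_sub h ((hpT'.trans (hk g i)).mul_right _)
      rcases hpp.dvd_or_dvd h3 with h4 | h4
      · exact hpk (by exact_mod_cast h4)
      · exact hr₁ g h4
  push Not at hpT
  by_cases hpK : p ≤ T * K
  · obtain ⟨n, hn⟩ := exresA p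
      ((univ : Finset (Fin T)).image (fun g => (b * r g : ℤ))) (by
      refine card_image_le.trans_lt ?_
      rw [card_univ, Fintype.card_fin]; omega)
    refine ⟨n, fun g i h => hn (b * r g) (mem_image.2 ⟨g, mem_univ _, rfl⟩) ?_⟩
    have h1 : (p : ℤ) ∣ (A g i : ℤ) - r g := by
      have h2 : (p : ℤ) ∣ ((T * K).factorial : ℕ) := by
        exact_mod_cast (hp.dvd_factorial).2 hpK
      refine h2.trans ?_
      have h4 : ((r g : ℕ) : ℤ) = (A g i : ℤ) % ((T * K).factorial : ℕ) := by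
        rw [← hr g i]; push_cast; rfl
      rw [h4]
      exact Int.dvd_self_sub_emod
    have h2 : n + (b * r g : ℤ) = (((b * A g i : ℕ) : ℤ) + n) -
        ((A g i : ℤ) - r g) * b := by push_cast; ring
    rw [h2]
    exact dvd_sub h (h1.mul_right _)
  · obtain ⟨n, hn⟩ := exresA p ((univ : Finset (Fin T × Fin K)).image
      (fun z => ((b * A z.1 z.2 : ℕ) : ℤ))) (by
      refine card_image_le.trans_lt ?_
      rw [card_univ, Fintype.card_prod, Fintype.card_fin, Fintype.card_fin]; omega)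
    refine ⟨n, fun g i h => hn _ (mem_image.2 ⟨(g, i), mem_univ _, rfl⟩) ?_⟩
    rw [add_comm]
    exact h

end Pool.Agent.Y877
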