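import Mathlib
import Pool.Agent.Y877.CombA

/-! The blow-up (helper877). -/

set_option autoImplicit false

namespace Pool.Agent.Y877

open Finset

/-- pigeonhole -/
theorem pigk (W K : ℕ) (hW : 0 < W) (f : Fin (W * K) → ℕ) :
    ∃ e : Fin K → Fin (W * K), Function.Injective e ∧ ∃ r, ∀ i, f (e i) % W = r := by
  classical
  obtain ⟨y, -, hy⟩ := exists_le_card_fiber_of_mul_le_card_of_maps_to
    (s := (univ : Finset (Fin (W * K)))) (t := range W) (f := fun i => f i % W) (n := K)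
    (fun i _ => mem_range.2 (Nat.mod_lt _ hW)) ⟨0, mem_range.2 hW⟩
    (by rw [card_range, card_univ, Fintype.card_fin])
  refine ⟨fun i => orderEmbOfCardLe _ hy i, (orderEmbOfCardLe _ hy).injective, y, fun i => ?_⟩
  exact (mem_filter.1 (orderEmbOfCardLe_mem _ hy i)).2

/-- **The blow-up.** -/
theorem combB (T K : ℕ) (hT : 1 ≤ T) (hK : 1 ≤ K) (m : Fin T → ℕ) (hm : Function.Injective m)
    (D W : ℕ) (hD : 1 ≤ D) (hDW : D ∣ W) (hW : 1 ≤ W)
    (ε : ℝ) (hε : 0 < ε) : ∃ C : ℕ, 1 ≤ C ∧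
    ∀ H : ℕ, C ≤ H → ∀ u : ℕ, ∀ B : Finset ℕ, B ⊆ Ioc u (u + H) → ε * H ≤ B.card →
    ∃ A : Fin T → Fin K → ℕ, (Function.Injective (fun z : Fin T × Fin K => A z.1 z.2)) ∧
      (∀ g i, A g i ≤ C * (u + H)) ∧
      (∀ g g' i j, g ≠ g' → ∃ k ∈ B, (A g i : ℤ) - A g' j = ((m g : ℤ) - m g') * k) ∧
      ∃ (r : Fin T → ℕ) (k : ℕ), (∀ g i, A g i % W = r g) ∧ ∀ g i, (D : ℤ) ∣ (A g i : ℤ) - m g * k := by
  classical
  obtain ⟨C, κ, hC, hκ, hκ1, HA⟩ := combA T hT m hm D hD (min ε 1) (by positivity) (min_le_right _ _)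
  obtain ⟨C₁, E, hC₁, HB⟩ := Pool.Agent.TH899.UG.box_pow (W * K) T
  obtain ⟨R, hR⟩ := exists_nat_ge (C₁ / κ ^ E)
  refine ⟨C + R + ∑ g, m g, by omega, fun H hH u B hB hBc => ?_⟩
  have hH0 : (0 : ℝ) ≤ H := Nat.cast_nonneg _
  have h1 := HA H (by omega) u B hB ((mul_le_mul_of_nonneg_right (min_le_left _ _) hH0).trans hBc)
  obtain ⟨Af, hA1, hA2⟩ := HB κ hκ hκ1 ℕ (fun g : Fin T => Icc (u * m g) (u * m g + C * H))
    (fun g => by
      refine hR.trans ?_
      rw [Nat.cast_le, Nat.card_Icc]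
      have e1 : 1 * H ≤ C * H := Nat.mul_le_mul_right _ hC
      omega) _ (filter_subset _ _) h1
  have hPB : ∀ c : Fin T → Fin (W * K), PB B m D (fun g => Af g (c g)) := fun c =>
    (mem_filter.1 (hA2 c)).2
  have hWK : 0 < W * K := Nat.mul_pos hW hK
  haveI : NeZero (W * K) := ⟨hWK.ne'⟩
  have hdiff : ∀ g g' i j, g ≠ g' → ∃ k ∈ B, (Af g i : ℤ) - Af g' j = ((m g : ℤ) - m g') * k := by
    intro g g' i j hgg
    have h2 := (hPB (Function.update (fun _ => i) g' j)).1 g g'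
    simp only [Function.update_self, Function.update_of_ne hgg] at h2
    exact h2
  choose em hem r hr using fun g => pigk W K hW (Af g)
  have hrng : ∀ g i, Af g i ≤ (C + R + ∑ g, m g) * (u + H) := fun g i => by
    have h2 := (mem_Icc.1 (Fintype.mem_piFinset.1 (mem_filter.1 (hA2 (fun _ => i))).1 g)).2
    have e2 : m g ≤ ∑ g, m g := single_le_sum (f := m) (fun _ _ => Nat.zero_le _) (mem_univ g)
    have e3 : u * m g ≤ (∑ g, m g) * u := by rw [mul_comm]; exact Nat.mul_le_mul_right _ e2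
    have e4 : (C + R + ∑ g, m g) * (u + H) = C * H + (∑ g, m g) * u + (C * u + R * (u + H) +
      (∑ g, m g) * H) := by ring
    rw [e4]
    have e5 : 0 ≤ C * u + R * (u + H) + (∑ g, m g) * H := Nat.zero_le _
    have h2' : Af g i ≤ u * m g + C * H := h2
    omega
  refine ⟨fun g i => Af g (em g i), ?_, fun g i => hrng _ _, fun g g' i j hgg => hdiff _ _ _ _ hgg, r, ?_⟩
  · rintro ⟨g, i⟩ ⟨g', j⟩ h
    have h' : Af g (em g i) = Af g' (em g' j) := h
    by_cases hgg : g = g'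
    · subst hgg
      rw [hem g (hA1 g h')]
    · obtain ⟨k, hk, hk2⟩ := hdiff g g' (em g i) (em g' j) hgg
      rw [h', sub_self] at hk2
      have hk0 := (mem_Ioc.1 (hB hk)).1
      rcases mul_eq_zero.1 hk2.symm with h3 | h3
      · exact absurd (hm (by exact_mod_cast sub_eq_zero.1 h3)) hgg
      · have : k = 0 := by exact_mod_cast h3
        omega
  · obtain ⟨k, -, hk⟩ := (hPB (fun g => em g ⟨0, hK⟩)).2
    refine ⟨k, fun g i => hr g i, fun g i => ?_⟩
    have h2 := hk g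
    simp only at h2
    have h3 : (D : ℤ) ∣ (Af g (em g i) : ℤ) - Af g (em g ⟨0, hK⟩) := by
      have h4 : ((W : ℕ) : ℤ) ∣ (Af g (em g i) : ℤ) - Af g (em g ⟨0, hK⟩) := by
        apply Int.ModEq.dvd
        exact (Int.natCast_modEq_iff.2 ((hr g ⟨0, hK⟩).trans (hr g i).symm))
      exact (Int.natCast_dvd_natCast.2 hDW).trans h4
    have h4 := dvd_add h3 h2
    have h5 : ((Af g (em g i) : ℤ) - Af g (em g ⟨0, hK⟩)) + ((Af g (em g ⟨0, hK⟩) : ℤ) - m g * k) =
        (Af g (em g i) : ℤ) - m g * k := by ring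
    rw [h5] at h4
    exact h4

end Pool.Agent.Y877
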