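import Mathlib
import Pool.Agent.TH899.UG.TD6

/-! The coloured theorem at a given scale (helper877). -/

set_option autoImplicit false

namespace Pool.Agent.Y877

open Finset Filter Topology Pool.Agent.TH899.UG.TD
open Pool.Agent.TH899.UG (NW.exactW)

open Classical in
theorem coreT : ∃ c : ℝ, 0 < c ∧ c < 1 ∧ ∀ T M : ℕ, 1 ≤ T → (4 - c) * M < T →
    ∀ s : ℝ, 0 < s → s ≤ 1 → ∃ K : ℕ, 1 ≤ K ∧ ∀ q : ℕ, 1 ≤ q →
    ∀ η : ℝ, 0 < η → η ≤ 1 →
    ∀ᶠ y : ℕ in atTop, ∀ A : Fin T → Fin K → ℕ,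
      (Function.Injective (fun z : Fin T × Fin K => A z.1 z.2)) → (∀ g i, A g i ≤ 9 * y) →
      (∀ p : ℕ, p.Prime → ∃ n : ℤ, ∀ g i, ¬ ((p : ℤ) ∣ q * n + (A g i : ℕ))) →
      ∃ (S : Finset (Fin T)) (σ : Fin T → Fin K), M + 1 ≤ S.card ∧
        (y : ℝ) ^ (1 - η) ≤ (((Icc 1 (8 * y)).filter (fun n : ℕ =>
        (y : ℝ) ≤ n ∧ (n : ℝ) ≤ (1 + s) * y ∧ ∀ g ∈ S, (q * n + A g (σ g)).Prime)).card : ℝ) := by
  obtain ⟨c, hc, hc1, H⟩ := Pool.Agent.TH899.UG.NW.exactW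
  refine ⟨c, hc, hc1, fun T M hT hTM s hs hs1 => ?_⟩
  obtain ⟨K, hK, H⟩ := H (1 / 8) ((1 + s) / 8) le_rfl (by linarith) (by linarith) T M hT hTM
  refine ⟨K, hK, fun q hq η hη hη1 => ?_⟩
  have htend : Tendsto (fun x : ℕ => 8 * x) atTop atTop :=
    tendsto_atTop.2 fun b => by
      filter_upwards [eventually_ge_atTop b] with x hx
      omega
  filter_upwards [htend.eventually (H q η hη), eventually_ge_atTop 1]
    with y hN hy A hinj hA hloc
  obtain ⟨S, σ, hS, hcnt⟩ := hN (fun _ _ => (q : ℤ)) (fun g i => (A g i : ℕ))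
    (fun _ _ => by
      show (q : ℤ) ≠ 0
      omega) (fun _ _ => by
      show |(q : ℤ)| ≤ q
      rw [Nat.abs_cast])
    (fun g i => by
      have h1 := hA g i
      show 5 * |((A g i : ℕ) : ℤ)| ≤ 6 * ((8 * y : ℕ) : ℤ)
      rw [Nat.abs_cast]
      push_cast
      omega)
    (fun g i z h1 h2 => by
      have h3 : (0 : ℝ) ≤ (A g i : ℝ) := Nat.cast_nonneg _
      have h4 : (0 : ℝ) ≤ (y : ℝ) := Nat.cast_nonneg _
      have h5 : (1 : ℝ) ≤ (q : ℝ) := by exact_mod_cast hq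
      push_cast at h1 h2 ⊢
      nlinarith)
    (by
      rintro z z' h
      apply hinj
      have h2 : ((A z.1 z.2 : ℕ) : ℤ) = (A z'.1 z'.2 : ℕ) := congrArg Prod.snd h
      show A z.1 z.2 = A z'.1 z'.2
      exact_mod_cast h2)
    hloc
  refine ⟨S, σ, hS, ?_⟩
  have hxN : (y : ℝ) ^ (1 - η) ≤ ((8 * y : ℕ) : ℝ) ^ (1 - η) := by
    have h4 : (1 : ℝ) ≤ y := by exact_mod_cast hy
    exact Real.rpow_le_rpow (by linarith) (by push_cast; linarith) (by linarith)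
  refine hxN.trans (hcnt.trans ?_)
  rw [Nat.cast_le]
  apply card_le_card
  intro n hn
  obtain ⟨h4, h5, h6, h7⟩ := mem_filter.1 hn
  have key : ∀ k ∈ S, (q * n + A k (σ k)).Prime := by
    intro k hk
    have h8 := h7 k hk
    have h9 : ((q : ℤ) * (n : ℤ) + (A k (σ k) : ℕ)).toNat = q * n + A k (σ k) := by
      have : (q : ℤ) * (n : ℤ) + (A k (σ k) : ℕ) = ((q * n + A k (σ k) : ℕ) : ℤ) := by
        push_cast; ring
      rw [this, Int.toNat_natCast]
    rw [h9] at h8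
    exact h8
  push_cast at h5 h6
  exact mem_filter.2 ⟨h4, by linarith, by linarith, key⟩

/-- from a set of shifts to forms in an arithmetic progression -/
theorem adm_q (q a : ℕ) (hqa : a.Coprime q) (p : ℕ) (hp : p.Prime) {T K : ℕ} (A : Fin T → Fin K → ℕ)
    (h : ∃ r : ℤ, ∀ g i, ¬ (p : ℤ) ∣ (A g i : ℤ) + r) :
    ∃ n : ℤ, ∀ g i, ¬ ((p : ℤ) ∣ q * n + ((a + q * A g i : ℕ) : ℤ)) := by
  by_cases hpq : p ∣ q
  · refine ⟨0, fun g i h => ?_⟩
    have hpq' : (p : ℤ) ∣ q := by exact_mod_cast hpq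
    have h1 : (p : ℤ) ∣ a := by
      have h2 : (a : ℤ) = (q * 0 + ((a + q * A g i : ℕ) : ℤ)) - q * (A g i) := by
        push_cast; ring
      rw [h2]
      exact dvd_sub h (hpq'.mul_right _)
    have h2 : p ∣ a := by exact_mod_cast h1
    have h4 := Nat.dvd_gcd h2 hpq
    rw [hqa] at h4
    exact hp.one_lt.ne' (Nat.dvd_one.1 h4)
  · obtain ⟨r, hr⟩ := h
    have hco : IsCoprime (q : ℤ) (p : ℤ) :=
      Nat.isCoprime_iff_coprime.2 ((Nat.Prime.coprime_iff_not_dvd hp).2 hpq).symm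
    obtain ⟨u, v, huv⟩ := hco
    refine ⟨r - u * a, fun g i h => ?_⟩
    have hpp : Prime (p : ℤ) := Nat.prime_iff_prime_int.1 hp
    have h2 : (q : ℤ) * ((A g i : ℤ) + r) = (q * (r - u * a) + ((a + q * A g i : ℕ) : ℤ)) -
        p * (v * a) := by
      have h3 : (a : ℤ) = (u * q + v * p) * a := by rw [huv, one_mul]
      push_cast
      linear_combination -h3
    have h3 : (p : ℤ) ∣ (q : ℤ) * ((A g i : ℤ) + r) := by
      rw [h2]
      exact dvd_sub h (dvd_mul_right _ _)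
    rcases hpp.dvd_or_dvd h3 with h4 | h4
    · exact hpq (by exact_mod_cast h4)
    · exact hr g i h4

open Classical in
/-- **The coloured theorem at the scale `x`.** -/
theorem coreX : ∃ c : ℝ, 0 < c ∧ c < 1 ∧ ∀ T M : ℕ, 1 ≤ T → (4 - c) * M < T →
    ∀ s : ℝ, 0 < s → ∃ K C : ℕ, 1 ≤ K ∧ ∀ q : ℕ, 1 ≤ q → ∀ η : ℝ, 0 < η →
    ∀ᶠ x : ℕ in atTop, ∀ a : ℕ, a.Coprime q → ∀ A : Fin T → Fin K → ℕ,
      (Function.Injective (fun z : Fin T × Fin K => A z.1 z.2)) →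
      (∀ g i, C * (q ^ 2 * A g i) ≤ x) →
      (∀ p : ℕ, p.Prime → ∃ n : ℤ, ∀ g i, ¬ ((p : ℤ) ∣ (A g i : ℤ) + n)) →
      ∃ (S : Finset (Fin T)) (σ : Fin T → Fin K), M + 1 ≤ S.card ∧
        ∀ i ∈ S, ∀ j ∈ S, A i (σ i) < A j (σ j) →
          (x : ℝ) ^ (1 - η) ≤ prq s x q a (q * (A j (σ j) - A i (σ i))) := by
  obtain ⟨c, hc, hc1, HC⟩ := coreT
  refine ⟨c, hc, hc1, fun T M hT hTM s hs => ?_⟩
  obtain ⟨s', hs'⟩ : ∃ s', s' = min (s / 2) 1 := ⟨_, rfl⟩
  have hs'0 : 0 < s' := by rw [hs']; positivity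
  have hs'1 : s' ≤ 1 := by rw [hs']; exact min_le_right _ _
  have hs'2 : s' ≤ s / 2 := by rw [hs']; exact min_le_left _ _
  obtain ⟨K, hK, HC⟩ := HC T M hT hTM s' hs'0 hs'1
  obtain ⟨R₃, hR₃⟩ := exists_nat_ge (4 / s)
  refine ⟨K, R₃ + 1, hK, fun q hq η hη => ?_⟩
  have hdiv : Tendsto (fun x : ℕ => x / q + 1) atTop atTop :=
    tendsto_atTop.2 fun t => by
      filter_upwards [eventually_ge_atTop (t * q)] with x hx
      have : t ≤ x / q := (Nat.le_div_iff_mul_le (by omega)).2 hx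
      omega
  obtain ⟨R₄, hR₄⟩ := exists_nat_ge (12 * (q : ℝ) / s)
  filter_upwards [hdiv.eventually (HC q hq (min (η / 2) 1) (by positivity) (min_le_right _ _)),
    expo q hq η hη, eventually_ge_atTop (q * q), eventually_ge_atTop R₄, eventually_ge_atTop 1] with
    x hx hexp hxq hx4 hx1 a₀ ha₀ A hinj hAx hadm
  -- the residue
  obtain ⟨a, ha⟩ : ∃ a, a = a₀ % q := ⟨_, rfl⟩
  have haq : a < q := by rw [ha]; exact Nat.mod_lt _ (by omega)
  have haco : a.Coprime q := by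
    rw [ha]
    show Nat.gcd (a₀ % q) q = 1
    rw [← Nat.gcd_rec, Nat.gcd_comm]
    exact ha₀
  have haa : a ≡ a₀ [MOD q] := by rw [ha]; exact Nat.mod_modEq _ _
  obtain ⟨y, hy⟩ : ∃ y, y = x / q + 1 := ⟨_, rfl⟩
  rw [← hy] at hx hexp
  have hqy : x ≤ q * y := by
    rw [hy]
    exact (Nat.lt_mul_div_succ x (by omega : 0 < q)).le
  have hqy2 : q * y ≤ x + q := by
    rw [hy, mul_add, mul_one]
    have := Nat.mul_div_le x q
    omega
  have hqley : q ≤ y := by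
    have : q ≤ x / q := (Nat.le_div_iff_mul_le (by omega)).2 hxq
    omega
  -- sizes
  have hq1 : (1 : ℝ) ≤ q := by exact_mod_cast hq
  have hx0 : (0 : ℝ) ≤ x := Nat.cast_nonneg _
  have hqq : ∀ g i, q * A g i ≤ q ^ 2 * A g i := by
    intro g i
    have h1 : q ≤ q ^ 2 := by nlinarith
    exact Nat.mul_le_mul_right _ h1
  have hbigr : ∀ g i, ((q * A g i : ℕ) : ℝ) ≤ s / 4 * x := by
    intro g i
    have h1 : (R₃ : ℝ) * ((q * A g i : ℕ) : ℝ) ≤ x := by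
      have : R₃ * (q * A g i) ≤ x :=
        (Nat.mul_le_mul (by omega : R₃ ≤ R₃ + 1) (hqq g i)).trans (hAx g i)
      exact_mod_cast this
    have h2 : 4 / s * ((q * A g i : ℕ) : ℝ) ≤ x :=
      (mul_le_mul_of_nonneg_right hR₃ (Nat.cast_nonneg _)).trans h1
    have h4 : 4 / s * ((q * A g i : ℕ) : ℝ) = 4 * ((q * A g i : ℕ) : ℝ) / s := by ring
    rw [h4, div_le_iff₀ hs] at h2
    linarith
  have hbign : ∀ g i, q * A g i ≤ y := by
    intro g i
    have h1 : q * A g i ≤ x / q := by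
      rw [Nat.le_div_iff_mul_le (by omega)]
      have h2 : q * A g i * q = 1 * (q ^ 2 * A g i) := by ring
      rw [h2]
      exact (Nat.mul_le_mul_right _ (by omega)).trans (hAx g i)
    omega
  have hqs : 3 * (q : ℝ) ≤ s / 4 * x := by
    have h1 : 12 * (q : ℝ) / s ≤ x := hR₄.trans (by exact_mod_cast hx4)
    rw [div_le_iff₀ hs] at h1
    linarith
  obtain ⟨S, σ, hS, hcnt⟩ := hx (fun g i => a + q * A g i) (by
      intro z z' h
      apply hinj
      have h2 : a + q * A z.1 z.2 = a + q * A z'.1 z'.2 := h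
      exact Nat.eq_of_mul_eq_mul_left (by omega : 0 < q) (Nat.add_left_cancel h2))
    (fun g i => by
      have := hbign g i
      show a + q * A g i ≤ 9 * y
      omega)
    (fun p hp => adm_q q a haco p hp A (hadm p hp))
  refine ⟨S, σ, hS, fun i hi j hj hij => ?_⟩
  refine hexp.trans (hcnt.trans ?_)
  rw [Nat.cast_le]
  refine prq_ge s x q a₀ (q * (A j (σ j) - A i (σ i))) a (A i (σ i)) hq _ haa fun n hn => ?_
  obtain ⟨-, h3, h4, h5⟩ := mem_filter.1 hn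
  have h7 : q * n + (a + q * A i (σ i)) + q * (A j (σ j) - A i (σ i)) =
      q * n + (a + q * A j (σ j)) := by
    have e2 : q * A i (σ i) + q * (A j (σ j) - A i (σ i)) = q * A j (σ j) := by
      rw [← Nat.mul_add, Nat.add_sub_cancel' hij.le]
    rw [← e2]; ring
  rw [h7]
  refine ⟨h5 i hi, h5 j hj, ?_, ?_⟩
  · have h8 : (x : ℝ) ≤ q * y := by exact_mod_cast hqy
    exact h8.trans (mul_le_mul_of_nonneg_left h3 (by linarith))
  · have h8 := hbigr j (σ j)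
    have h9 : (q : ℝ) * n ≤ (1 + s') * (x + q) := by
      have h10 : (q : ℝ) * y ≤ x + q := by exact_mod_cast hqy2
      calc (q : ℝ) * n ≤ q * ((1 + s') * y) := mul_le_mul_of_nonneg_left h4 (by linarith)
        _ = (1 + s') * (q * y) := by ring
        _ ≤ (1 + s') * (x + q) := mul_le_mul_of_nonneg_left h10 (by linarith)
    have h10 : (a : ℝ) ≤ q := by exact_mod_cast haq.le
    have h11 : ((q * n + (a + q * A j (σ j)) : ℕ) : ℝ) =
        (q : ℝ) * n + (a + ((q * A j (σ j) : ℕ) : ℝ)) := by push_cast; ring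
    rw [h11]
    nlinarith

end Pool.Agent.Y877
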