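import Mathlib
import Pool.Agent.Y877.CombB
import Pool.Agent.Y877.Core
import Pool.Agent.Y877.Adm

/-! Almost all multipliers (helper877). -/

set_option autoImplicit false

namespace Pool.Agent.Y877

open Finset Filter Topology Pool.Agent.TH899.UG.TD

open Classical in
/-- **Main theorem.** -/
theorem almostAll : ∃ c : ℝ, 0 < c ∧ c < 1 ∧ ∀ T M : ℕ, 1 ≤ T → (4 - c) * M < T →
    ∀ m : Fin T → ℕ, Function.Injective m → ∀ ε s : ℝ, 0 < ε → 0 < s →
    ∃ C : ℕ, ∀ q : ℕ, 1 ≤ q → ∀ η : ℝ, 0 < η →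
    ∀ᶠ x : ℕ in atTop, ∀ a : ℕ, a.Coprime q → ∀ b : ℕ, 1 ≤ b →
    (∀ p : ℕ, p.Prime → ∃ r : ℤ, ∀ g, ¬ (p : ℤ) ∣ b * m g + r) →
    ∀ u H : ℕ, C ≤ H → C * (q ^ 2 * b * (u + H)) ≤ x →
    (1 - ε) * (H : ℝ) ≤
      (((Ioc u (u + H)).filter (fun k : ℕ => ∃ S : Finset (Fin T), M + 1 ≤ S.card ∧
        ∀ i ∈ S, ∀ j ∈ S, m i < m j →
          (x : ℝ) ^ (1 - η) ≤ prq s x q a (q * b * ((m j - m i) * k)))).card : ℝ) := by
  obtain ⟨c, hc, hc1, HC⟩ := coreX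
  refine ⟨c, hc, hc1, fun T M hT hTM m hm ε s hε hs => ?_⟩
  obtain ⟨K, C₂, hK, HC⟩ := HC T M hT hTM s hs
  obtain ⟨L, hL⟩ : ∃ L : ℕ, L = Fintype.card (Finset (Fin T × Fin T)) := ⟨_, rfl⟩
  have hL0 : 0 < L := by rw [hL]; exact Fintype.card_pos
  have hLr : (0 : ℝ) < L := by exact_mod_cast hL0
  obtain ⟨C₁, hC₁, HB⟩ := combB T K hT hK m hm T.factorial (T * K).factorial
    (Nat.factorial_pos _) (Nat.factorial_dvd_factorial (Nat.le_mul_of_pos_right _ hK))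
    (Nat.factorial_pos _) (ε / L) (by positivity)
  refine ⟨C₂ * C₁ + C₁, fun q hq η hη => ?_⟩
  filter_upwards [HC q hq η hη] with x hx a ha b hb hbadm u H hCH hHx
  by_contra hcon
  push Not at hcon
  obtain ⟨Good, hGood⟩ : ∃ Good : ℕ → Prop, Good = fun d => (x : ℝ) ^ (1 - η) ≤ prq s x q a (q * b * d) :=
    ⟨_, rfl⟩
  obtain ⟨B, hBdef⟩ : ∃ B, B = (Ioc u (u + H)).filter
      (fun k : ℕ => ¬ ∃ S : Finset (Fin T), M + 1 ≤ S.card ∧
        ∀ i ∈ S, ∀ j ∈ S, m i < m j → Good ((m j - m i) * k)) := ⟨_, rfl⟩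
  have hgoodeq : ((Ioc u (u + H)).filter (fun k : ℕ => ∃ S : Finset (Fin T), M + 1 ≤ S.card ∧
        ∀ i ∈ S, ∀ j ∈ S, m i < m j →
          (x : ℝ) ^ (1 - η) ≤ prq s x q a (q * b * ((m j - m i) * k)))) =
      (Ioc u (u + H)).filter (fun k : ℕ => ∃ S : Finset (Fin T), M + 1 ≤ S.card ∧
        ∀ i ∈ S, ∀ j ∈ S, m i < m j → Good ((m j - m i) * k)) := by
    rw [hGood]
  rw [hgoodeq] at hcon
  have hsum : ((Ioc u (u + H)).filter (fun k : ℕ => ∃ S : Finset (Fin T), M + 1 ≤ S.card ∧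
        ∀ i ∈ S, ∀ j ∈ S, m i < m j → Good ((m j - m i) * k))).card + B.card = H := by
    rw [hBdef, card_filter_add_card_filter_not, Nat.card_Ioc, Nat.add_sub_cancel_left]
  have hsumr : ((((Ioc u (u + H)).filter (fun k : ℕ => ∃ S : Finset (Fin T), M + 1 ≤ S.card ∧
        ∀ i ∈ S, ∀ j ∈ S, m i < m j → Good ((m j - m i) * k))).card : ℕ) : ℝ) +
      (B.card : ℝ) = H := by exact_mod_cast hsum
  have hH0 : (0 : ℝ) ≤ H := Nat.cast_nonneg _
  have hBr : ε * (H : ℝ) ≤ B.card := by nlinarith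
  -- the graph of the bad pairs
  obtain ⟨G, -, hG⟩ := exists_le_card_fiber_of_nsmul_le_card_of_maps_to
    (s := B) (t := (univ : Finset (Finset (Fin T × Fin T))))
    (f := fun k => univ.filter (fun p : Fin T × Fin T => m p.1 < m p.2 ∧ ¬ Good ((m p.2 - m p.1) * k)))
    (b := ε / L * (H : ℝ)) (fun _ _ => mem_univ _) univ_nonempty (by
      rw [card_univ, ← hL, nsmul_eq_mul, ← mul_assoc, mul_div_cancel₀ _ hLr.ne']
      exact hBr)
  obtain ⟨B', hB'⟩ : ∃ B', B' = B.filter (fun k => univ.filter (fun p : Fin T × Fin T =>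
    m p.1 < m p.2 ∧ ¬ Good ((m p.2 - m p.1) * k)) = G) := ⟨_, rfl⟩
  rw [← hB'] at hG
  have hB'I : B' ⊆ Ioc u (u + H) := by
    rw [hB', hBdef]
    exact (filter_subset _ _).trans (filter_subset _ _)
  have hCH' : C₁ ≤ H := by
    have : C₁ ≤ C₂ * C₁ + C₁ := Nat.le_add_left _ _
    omega
  obtain ⟨A, hinj, hAle, hAd, r, k₀, hr, hk₀⟩ := HB H hCH' u B' hB'I hG
  obtain ⟨S, σ, hS, hcnt⟩ := hx a ha (fun g i => b * A g i) (by
      intro z z' h
      apply hinj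
      exact Nat.eq_of_mul_eq_mul_left (by omega : 0 < b) h)
    (fun g i => by
      calc C₂ * (q ^ 2 * (b * A g i)) ≤ C₂ * (q ^ 2 * (b * (C₁ * (u + H)))) := by
            apply Nat.mul_le_mul_left
            apply Nat.mul_le_mul_left
            exact Nat.mul_le_mul_left _ (hAle g i)
        _ = (C₂ * C₁) * (q ^ 2 * b * (u + H)) := by ring
        _ ≤ (C₂ * C₁ + C₁) * (q ^ 2 * b * (u + H)) := Nat.mul_le_mul_right _ (Nat.le_add_right _ _)
        _ ≤ x := hHx)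
    (fun p hp => admT T K b m p hp (hbadm p hp) A r k₀ hr hk₀)
  -- a bad multiplier
  have hne : B'.Nonempty := by
    by_contra hcon'
    rw [not_nonempty_iff_eq_empty] at hcon'
    rw [hcon', card_empty, Nat.cast_zero] at hG
    have h1 : (1 : ℝ) ≤ H := by exact_mod_cast (by omega : 1 ≤ H)
    have : 0 < ε / L * (H : ℝ) := by positivity
    linarith
  obtain ⟨k₁, hk₁⟩ := hne
  have hk₁' := hk₁
  rw [hB', mem_filter, hBdef, mem_filter] at hk₁'
  obtain ⟨⟨-, hk₁b⟩, hk₁G⟩ := hk₁'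
  push Not at hk₁b
  obtain ⟨i, hi, j, hj, hij, hbad⟩ := hk₁b S hS
  have hijG : (i, j) ∈ G := by
    rw [← hk₁G]
    exact mem_filter.2 ⟨mem_univ _, hij, hbad⟩
  have hne : j ≠ i := by
    rintro rfl
    exact lt_irrefl _ hij
  obtain ⟨k₂, hk₂, hk₂e⟩ := hAd j i (σ j) (σ i) hne
  have hk₂' := hk₂
  rw [hB', mem_filter] at hk₂'
  have hk₂G := hk₂'.2
  rw [← hk₂G] at hijG
  have hbad₂ := (mem_filter.1 hijG).2.2
  apply hbad₂
  rw [hGood]
  show (x : ℝ) ^ (1 - η) ≤ prq s x q a (q * b * ((m j - m i) * k₂))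
  have hdif : A j (σ j) = A i (σ i) + (m j - m i) * k₂ := by
    have h1 : ((m j - m i : ℕ) : ℤ) = (m j : ℤ) - m i := by
      rw [Nat.cast_sub hij.le]
    have h2 : (A j (σ j) : ℤ) = ((A i (σ i) + (m j - m i) * k₂ : ℕ) : ℤ) := by
      push_cast
      rw [h1]
      linarith
    exact_mod_cast h2
  have hk₂0 : 0 < (m j - m i) * k₂ := by
    have h1 := (mem_Ioc.1 (hB'I hk₂)).1
    have h2 : 0 < m j - m i := by omega
    exact Nat.mul_pos h2 (by omega)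
  have h8 := hcnt i hi j hj (Nat.mul_lt_mul_of_pos_left (by omega) (by omega))
  have h9 : q * (b * A j (σ j) - b * A i (σ i)) = q * b * ((m j - m i) * k₂) := by
    rw [← Nat.mul_sub, hdif, Nat.add_sub_cancel_left]
    ring
  rw [h9] at h8
  exact h8

end Pool.Agent.Y877
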