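import Mathlib
import Pool.Agent.Y877.CombR
import Pool.Agent.W142.TF.Sel

/-! Blow-ups of homothetic configurations in dense sets of vectors (helper877). -/

set_option autoImplicit false

namespace Pool.Agent.Y877

open Finset Pool.Agent.H602R3.DHJ

/-- selection of distinct points -/
theorem selF (T K : ℕ) (f : Fin T → Fin (T * K) → ℤ) (hinj : ∀ g, Function.Injective (f g)) :
    ∃ σ : Fin T → Fin K → Fin (T * K),
      Function.Injective (fun z : Fin T × Fin K => f z.1 (σ z.1 z.2)) := by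
  obtain ⟨f', hf'⟩ : ∃ f' : ℕ → ℕ → ℤ, (∀ (g : Fin T) (i : Fin (T * K)), f' g i = f g i) ∧
      ∀ g, Set.InjOn (f' g) {k | k < T * K} := by
    refine ⟨fun g i => if hg : g < T then (if hi : i < T * K then f ⟨g, hg⟩ ⟨i, hi⟩ else 0) else (i : ℤ),
      fun g i => ?_, fun g => ?_⟩
    · simp only [Fin.is_lt, dif_pos, Fin.eta]
    · intro x hx y hy hxy
      have hx' : x < T * K := hx
      have hy' : y < T * K := hy
      by_cases hg : g < T
      · simp only [hg, hx', hy', dif_pos] at hxy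
        have h := hinj ⟨g, hg⟩ hxy
        exact congrArg Fin.val h
      · simp only [hg, dif_neg, not_false_iff] at hxy
        exact_mod_cast hxy
  obtain ⟨σ, h1, h2⟩ := Pool.Agent.W142.TF.select_aux T K f' hf'.2 T le_rfl
  refine ⟨fun g i => ⟨σ g i, h1 g g.2 i i.2⟩, ?_⟩
  rintro ⟨g, i⟩ ⟨g', i'⟩ h
  have h3 : f g ⟨σ g i, h1 g g.2 i i.2⟩ = f g' ⟨σ g' i', h1 g' g'.2 i' i'.2⟩ := h
  rw [← hf'.1, ← hf'.1] at h3
  have h4 := h2 g g.2 g' g'.2 i i.2 i' i'.2 h3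
  exact Prod.ext (Fin.ext h4.1) (Fin.ext h4.2)

/-- pigeonhole -/
theorem pigz (W K : ℕ) (hW : 0 < W) (f : Fin (W * K) → ℤ) :
    ∃ e : Fin K → Fin (W * K), Function.Injective e ∧ ∃ r, ∀ i, f (e i) % (W : ℤ) = r := by
  classical
  have hWz : (0 : ℤ) < W := by exact_mod_cast hW
  obtain ⟨y, -, hy⟩ := exists_le_card_fiber_of_mul_le_card_of_maps_to
    (s := (univ : Finset (Fin (W * K)))) (t := Ico (0 : ℤ) W) (f := fun i => f i % (W : ℤ)) (n := K)
    (fun i _ => mem_Ico.2 ⟨Int.emod_nonneg _ hWz.ne', Int.emod_lt_of_pos _ hWz⟩)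
    ⟨0, mem_Ico.2 ⟨le_rfl, hWz⟩⟩
    (by rw [Int.card_Ico, card_univ, Fintype.card_fin]; simp)
  refine ⟨fun i => orderEmbOfCardLe _ hy i, (orderEmbOfCardLe _ hy).injective, y, fun i => ?_⟩
  exact (mem_filter.1 (orderEmbOfCardLe_mem _ hy i)).2

open Classical in
/-- **The blow-up.** -/
theorem combD (k N K W : ℕ) (hK : 1 ≤ K) (hW : 1 ≤ W) (ε : ℝ) (hε : 0 < ε) : ∃ C : ℕ, 1 ≤ C ∧
    ∀ H : ℕ, C ≤ H →
    ∀ (U : ℕ) (u : Fin k → ℤ), (∀ l, |u l| ≤ U) → ∀ E : Finset (Fin k → ℤ),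
    E ⊆ Fintype.piFinset (fun l => Ioc (u l) (u l + H)) → ε * (H : ℝ) ^ k ≤ E.card →
    ∃ A : Wd k N → Fin K → ℕ, (Function.Injective (fun z : Wd k N × Fin K => A z.1 z.2)) ∧
      (∀ t i, A t i ≤ C * (U + H)) ∧ (∃ r : Wd k N → ℤ, ∀ t i, (W : ℤ) ∣ (A t i : ℤ) - r t) ∧
      ∀ V : Ln k N, Pr V → ∀ φ : Wd k N → Fin K, ∃ h ∈ E, ∀ l,
        (A (pt V l.succ) (φ (pt V l.succ)) : ℤ) - A (pt V 0) (φ (pt V 0)) = act V * h l := by
  obtain ⟨T, hT⟩ : ∃ T, Fintype.card (Wd k N) = T := ⟨_, rfl⟩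
  have e : Fin T ≃ Wd k N := (Fintype.equivFinOfCardEq hT).symm
  obtain ⟨C₁, κ, hC₁, hκ, hκ1, HA⟩ := combC k N (min ε 1) (by positivity) (min_le_right _ _)
  obtain ⟨C₂, E₂, hC₂, HB⟩ := Pool.Agent.TH899.UG.box_pow (W * (T * K)) T
  obtain ⟨R, hR⟩ := exists_nat_ge (C₂ / κ ^ E₂)
  refine ⟨C₁ + R + 2 * N + 1, by omega, fun H hH U u hu E hE hEc => ?_⟩
  have hH0 : (0 : ℝ) ≤ (H : ℝ) ^ k := by positivity
  have h1 := HA H (by omega) u E hE ((mul_le_mul_of_nonneg_right (min_le_left _ _) hH0).trans hEc)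
  obtain ⟨c, hc⟩ : ∃ c : Wd k N → ℤ, ∀ t, c t = ∑ l, (cnt t l : ℤ) * u l := ⟨_, fun _ => rfl⟩
  simp only [← hc] at h1
  have hcU : ∀ t, |c t| ≤ (N : ℤ) * U := by
    intro t
    rw [hc]
    calc |∑ l, (cnt t l : ℤ) * u l| ≤ ∑ l, |(cnt t l : ℤ) * u l| := abs_sum_le_sum_abs _ _
      _ ≤ ∑ l, (cnt t l : ℤ) * U := by
          refine sum_le_sum fun l _ => ?_
          rw [abs_mul, Nat.abs_cast]
          exact mul_le_mul_of_nonneg_left (hu l) (Nat.cast_nonneg _)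
      _ = (∑ l, (cnt t l : ℤ)) * U := by rw [sum_mul]
      _ ≤ (N : ℤ) * U := by
          apply mul_le_mul_of_nonneg_right _ (Nat.cast_nonneg _)
          exact_mod_cast sum_cnt t
  obtain ⟨Tu, hTu⟩ : ∃ Tu, Tu = (Fintype.piFinset (fun t : Wd k N => Icc (c t) (c t + C₁ * H))).filter
    (fun x => PT E x) := ⟨_, rfl⟩
  obtain ⟨Bf, hBf⟩ : ∃ Bf, Bf = (Fintype.piFinset (fun i : Fin T => Icc (c (e i)) (c (e i) + C₁ * H))).filter
    (fun x => PT E (fun t => x (e.symm t))) := ⟨_, rfl⟩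
  have h2 : Tu.card ≤ Bf.card := by
    refine card_le_card_of_injOn (fun x => fun i => x (e i)) ?_ ?_
    · intro x hx
      rw [mem_coe, hTu, mem_filter, Fintype.mem_piFinset] at hx
      rw [mem_coe, hBf, mem_filter, Fintype.mem_piFinset]
      refine ⟨fun i => hx.1 (e i), ?_⟩
      have h3 : (fun t => x (e (e.symm t))) = x := by
        funext t
        rw [e.apply_symm_apply]
      show PT E (fun t => x (e (e.symm t)))
      rw [h3]
      exact hx.2
    · intro x _ x' _ h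
      funext t
      have h3 := congrFun h (e.symm t)
      have h4 : x (e (e.symm t)) = x' (e (e.symm t)) := h3
      rwa [e.apply_symm_apply] at h4
  have h3 : κ * ∏ i : Fin T, ((Icc (c (e i)) (c (e i) + C₁ * H)).card : ℝ) ≤ Bf.card := by
    have h4 : ∏ i : Fin T, ((Icc (c (e i)) (c (e i) + C₁ * H)).card : ℝ) =
        ∏ t : Wd k N, ((Icc (c t) (c t + C₁ * H)).card : ℝ) :=
      Fintype.prod_equiv e _ _ fun _ => rfl
    rw [h4]
    refine h1.trans ?_
    have h5 : (((Fintype.piFinset (fun t : Wd k N => Icc (c t) (c t + C₁ * H))).filter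
      (fun x => PT E x)).card : ℝ) = Tu.card := by
      rw [hTu]
    rw [h5]
    exact_mod_cast h2
  obtain ⟨Af₀, hA1₀, hA2₀⟩ := HB κ hκ hκ1 ℤ (fun i : Fin T => Icc (c (e i)) (c (e i) + C₁ * H))
    (fun i => by
      refine hR.trans ?_
      rw [Nat.cast_le, Int.card_Icc]
      have e1 : (c (e i) + C₁ * H + 1 - c (e i)).toNat = C₁ * H + 1 := by
        have e2 : c (e i) + C₁ * H + 1 - c (e i) = ((C₁ * H + 1 : ℕ) : ℤ) := by push_cast; ring
        rw [e2, Int.toNat_natCast]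
      rw [e1]
      have e3 : 1 * H ≤ C₁ * H := Nat.mul_le_mul_right _ hC₁
      omega) Bf (by rw [hBf]; exact filter_subset _ _) h3
  choose em hem r₀ hr₀ using fun g => pigz W (T * K) hW (Af₀ g)
  obtain ⟨Af, hAf⟩ : ∃ Af : Fin T → Fin (T * K) → ℤ, ∀ g i, Af g i = Af₀ g (em g i) :=
    ⟨fun g i => Af₀ g (em g i), fun _ _ => rfl⟩
  have hA1 : ∀ g, Function.Injective (Af g) := by
    intro g i j h
    rw [hAf, hAf] at h
    exact hem g (hA1₀ g h)
  have hA2 : ∀ c : Fin T → Fin (T * K), (fun i => Af i (c i)) ∈ Bf := by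
    intro c
    have h4 := hA2₀ (fun g => em g (c g))
    simp only [hAf]
    exact h4
  have hmodW : ∀ g i, (W : ℤ) ∣ Af g i - r₀ g := by
    intro g i
    rw [hAf]
    have h4 := hr₀ g i
    rw [← h4]
    exact Int.dvd_self_sub_emod
  obtain ⟨σ, hσ⟩ := selF T K Af hA1
  have hT0 : 0 < T := by
    rw [← hT]
    exact Fintype.card_pos
  have hTK : 0 < T * K := Nat.mul_pos hT0 hK
  have : Nonempty (Fin (T * K)) := ⟨⟨0, hTK⟩⟩
  have hrng : ∀ i j, c (e i) ≤ Af i j ∧ Af i j ≤ c (e i) + C₁ * H := fun i j => by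
    have h4 := hA2 (fun _ => j)
    rw [hBf, mem_filter, Fintype.mem_piFinset] at h4
    exact mem_Icc.1 (h4.1 i)
  obtain ⟨A, hA⟩ : ∃ A : Wd k N → Fin K → ℕ, ∀ t i, (A t i : ℤ) = Af (e.symm t) (σ (e.symm t) i) + N * U := by
    refine ⟨fun t i => (Af (e.symm t) (σ (e.symm t) i) + N * U).toNat, fun t i => ?_⟩
    apply Int.toNat_of_nonneg
    have h4 := (hrng (e.symm t) (σ (e.symm t) i)).1
    have h5 := neg_abs_le (c (e (e.symm t)))
    have h6 := hcU (e (e.symm t))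
    linarith
  refine ⟨A, ?_, fun t i => ?_, ⟨fun t => r₀ (e.symm t) + N * U, fun t i => ?_⟩, fun V hV φ => ?_⟩
  · rintro ⟨t, i⟩ ⟨t', i'⟩ h
    have h4 : A t i = A t' i' := h
    have h5 : (A t i : ℤ) = A t' i' := by exact_mod_cast h4
    rw [hA, hA] at h5
    have h6 : Af (e.symm t) (σ (e.symm t) i) = Af (e.symm t') (σ (e.symm t') i') := by linarith
    have h7 := hσ (a₁ := (e.symm t, i)) (a₂ := (e.symm t', i')) h6
    have h8 : e.symm t = e.symm t' := congrArg Prod.fst h7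
    have h9 : i = i' := congrArg Prod.snd h7
    exact Prod.ext (e.symm.injective h8) h9
  · have h4 := (hrng (e.symm t) (σ (e.symm t) i)).2
    have h5 := le_abs_self (c (e (e.symm t)))
    have h6 := hcU (e (e.symm t))
    have h7 : (A t i : ℤ) ≤ ((C₁ + R + 2 * N + 1 : ℕ) : ℤ) * (U + H) := by
      rw [hA]
      have h8 : ((C₁ + R + 2 * N + 1 : ℕ) : ℤ) * (U + H) = (N * U + C₁ * H + N * U) +
        (C₁ * U + R * (U + H) + 2 * N * H + U + H) := by push_cast; ring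
      rw [h8]
      have h9 : (0 : ℤ) ≤ C₁ * U + R * (U + H) + 2 * N * H + U + H := by positivity
      linarith
    exact_mod_cast h7
  · rw [hA]
    have h4 : Af (e.symm t) (σ (e.symm t) i) + (N : ℤ) * U - (r₀ (e.symm t) + N * U) =
        Af (e.symm t) (σ (e.symm t) i) - r₀ (e.symm t) := by ring
    rw [h4]
    exact hmodW _ _
  · have h4 := hA2 (fun i => σ i (φ (e i)))
    rw [hBf, mem_filter] at h4
    obtain ⟨h, hh, hl⟩ := h4.2 V hV
    refine ⟨h, hh, fun l => ?_⟩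
    have h5 := hl l
    simp only [e.apply_symm_apply] at h5
    rw [hA, hA, ← h5]
    ring

end Pool.Agent.Y877
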