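import Mathlib
import Pool.Agent.W25.UB.Stm7
import Pool.Agent.W150.UBC1a
import Pool.Agent.Y877.CombB
import Pool.Agent.Y877.Adm

/-! Almost all multipliers, gaps between consecutive primes (helper877). -/

set_option autoImplicit false

namespace Pool.Agent.Y877

open Finset Filter Topology
open Pool.Agent.W59.GB Pool.Agent.H947R3.GM Pool.Agent.H732R3.BigQ Pool.Agent.W25.UB

/-- four classes of shifts: gaps between consecutive primes, uniformly in the modulus -/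
theorem four (hCB : St_CB) : ∃ K : ℕ, 1 ≤ K ∧ ∀ N a : ℕ, 0 < N → 2 ∣ N → Squarefree N → a.Coprime N →
    ∀ H : Fin 4 → Fin K → ℕ, AdmN N H →
    ∃ g g' i i', g ≠ g' ∧ H g i < H g' i' ∧ H g' i' - H g i ∈ GapB N a := by
  obtain ⟨c₁, hc0, hc1, hCB⟩ := hCB
  obtain ⟨K, hK, hCB⟩ := hCB 4 1 (by norm_num) (by push_cast; linarith)
  refine ⟨K, hK, fun N a hN h2N hsq ha H hH => ?_⟩
  obtain ⟨Q, r, M, S, c, hQ, hNQ, hr, hM, hS, hB⟩ := hCB N a hN h2N hsq ha H hH
  obtain ⟨g₁, hg₁, g₂, hg₂, hg12⟩ := one_lt_card.1 (by omega : 1 < S.card)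
  obtain ⟨H', hH'⟩ : ∃ H' : Fin 4 → Fin K → ℕ, H' = fun g i => N * H g i := ⟨_, rfl⟩
  have hH'e : ∀ g i, H' g i = N * H g i := fun g i => by rw [hH']
  have hinjH' : Function.Injective (fun x : Fin 4 × Fin K => H' x.1 x.2) := by
    intro x y hxy
    have hxy' : H' x.1 x.2 = H' y.1 y.2 := hxy
    rw [hH'e, hH'e] at hxy'
    exact hH.1 (Nat.eq_of_mul_eq_mul_left hN hxy')
  obtain ⟨G, hG⟩ : ∃ G : Set ℕ, G = {b | b ≡ a [MOD N] ∧
    (∀ t ≤ M, (∀ g i, H' g i ≠ t) → ¬ (b + t).Prime) ∧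
    (b + H' g₁ (c g₁)).Prime ∧ (b + H' g₂ (c g₂)).Prime} := ⟨_, rfl⟩
  have hGB : Big G := by
    refine hB.affine Q (r : ℤ) hQ (fun m => Q * m + r) (fun n _ => by push_cast; ring) ?_
    rintro m ⟨h1, h2⟩
    rw [hG]
    refine ⟨?_, fun t ht hne => ?_, ?_, ?_⟩
    · have h3 : Q * m ≡ 0 [MOD N] := (Nat.modEq_zero_iff_dvd).2 (hNQ.mul_right m)
      have h4 := h3.add hr
      rw [zero_add] at h4
      exact h4
    · exact h2 t ht (fun g i => by rw [← hH'e]; exact hne g i)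
    · have h3 := h1 g₁ hg₁
      rw [← hH'e] at h3
      exact h3
    · have h3 := h1 g₂ hg₂
      rw [← hH'e] at h3
      exact h3
  obtain ⟨g, g', i, i', hg, hlt, hx⟩ := Pool.Agent.W150.UBC1a.core H' hinjH'
    (fun g i => by rw [hH'e]; exact hM g i) G hGB (fun b hb => by
      rw [hG] at hb
      exact hb.2.1)
    (fun b hb => by
      rw [hG] at hb
      exact ⟨g₁, g₂, c g₁, c g₂, hg12, hb.2.2.1, hb.2.2.2⟩)
  rw [hH'e, hH'e] at hlt
  have hlt' : H g i < H g' i' := Nat.lt_of_mul_lt_mul_left hlt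
  refine ⟨g, g', i, i', hg, hlt', ?_⟩
  refine hx.affine 1 ((H' g i : ℕ) : ℤ) le_rfl (fun b => b + H' g i)
    (fun n _ => by push_cast; ring) ?_
  rintro b ⟨hbG, hp1, hp2, hno⟩
  have e1 : b + H' g i + N * (H g' i' - H g i) = b + H' g' i' := by
    rw [Nat.mul_sub, hH'e, hH'e]
    omega
  refine ⟨hp1, ?_, ?_, ?_, ?_⟩
  · show b + H' g i ≡ a [MOD N]
    have h2 : H' g i ≡ 0 [MOD N] := by
      rw [Nat.modEq_zero_iff_dvd, hH'e]
      exact dvd_mul_right N _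
    rw [hG] at hbG
    have h3 := hbG.1.add h2
    rw [add_zero] at h3
    exact h3
  · rw [e1]; exact hp2
  · exact Nat.mul_pos hN (by omega)
  · rw [e1]; exact hno

open Classical in
/-- **Almost all multipliers, consecutive primes.** -/
theorem consecAll (hCB : St_CB) (m : Fin 4 → ℕ) (hm : Function.Injective m) (ε : ℝ) (hε : 0 < ε) :
    ∃ L : ℕ, ∀ N a : ℕ, 0 < N → 2 ∣ N → Squarefree N → a.Coprime N → ∀ b : ℕ, 1 ≤ b →
    (∀ p : ℕ, p.Prime → ¬ p ∣ N → ∃ r : ℤ, ∀ g, ¬ (p : ℤ) ∣ b * m g + r) →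
    ∀ T : ℕ, L ≤ T → ∀ u : ℕ,
    (1 - ε) * (T : ℝ) ≤ (((Ioc u (u + T)).filter
      (fun k => ∃ i j, m i < m j ∧ b * ((m j - m i) * k) ∈ GapB N a)).card : ℝ) := by
  obtain ⟨K, hK, hF⟩ := four hCB
  obtain ⟨C₁, hC₁, HB⟩ := combB 4 K (by norm_num) hK m hm (Nat.factorial 4) (4 * K).factorial
    (Nat.factorial_pos _) (Nat.factorial_dvd_factorial (Nat.le_mul_of_pos_right _ hK))
    (Nat.factorial_pos _) ε hε
  refine ⟨C₁, fun N a hN h2N hsq ha b hb hbadm T hT u => ?_⟩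
  by_contra hcon
  push Not at hcon
  obtain ⟨B, hBdef⟩ : ∃ B, B = (Ioc u (u + T)).filter
      (fun k : ℕ => ¬ ∃ i j, m i < m j ∧ b * ((m j - m i) * k) ∈ GapB N a) := ⟨_, rfl⟩
  have hsum : ((Ioc u (u + T)).filter
      (fun k => ∃ i j, m i < m j ∧ b * ((m j - m i) * k) ∈ GapB N a)).card + B.card = T := by
    rw [hBdef, card_filter_add_card_filter_not, Nat.card_Ioc, Nat.add_sub_cancel_left]
  have hsumr : ((((Ioc u (u + T)).filter
      (fun k => ∃ i j, m i < m j ∧ b * ((m j - m i) * k) ∈ GapB N a)).card : ℕ) : ℝ) +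
      (B.card : ℝ) = T := by exact_mod_cast hsum
  have hH0 : (0 : ℝ) ≤ T := Nat.cast_nonneg _
  have hBr : ε * (T : ℝ) ≤ B.card := by nlinarith
  have hBI : B ⊆ Ioc u (u + T) := by
    rw [hBdef]
    exact filter_subset _ _
  obtain ⟨A, hinj, -, hAd, r, k₀, hr, hk₀⟩ := HB T hT u B hBI hBr
  obtain ⟨g, g', i, i', hg, hlt, hG⟩ := hF N a hN h2N hsq ha (fun g i => b * A g i) ⟨by
      intro z z' h
      apply hinj
      exact Nat.eq_of_mul_eq_mul_left (by omega : 0 < b) h, fun p hp hpN => by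
      obtain ⟨n, hn⟩ := admT 4 K b m p hp (hbadm p hp hpN) A r k₀ hr hk₀
      refine ⟨n, fun g i h => hn g i ?_⟩
      rw [add_comm]
      exact h⟩
  have hlt' : A g i < A g' i' := Nat.lt_of_mul_lt_mul_left hlt
  obtain ⟨k, hk, hke⟩ := hAd g' g i' i hg.symm
  have hk0 : 0 < k := by
    have := (mem_Ioc.1 (hBI hk)).1
    omega
  have hmlt : m g < m g' := by
    by_contra h
    push Not at h
    have h1 : ((m g' : ℤ) - m g) * k ≤ 0 :=
      mul_nonpos_of_nonpos_of_nonneg (by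
        have : (m g' : ℤ) ≤ m g := by exact_mod_cast h
        linarith) (Nat.cast_nonneg _)
    have h2 : (A g i : ℤ) < A g' i' := by exact_mod_cast hlt'
    linarith
  rw [hBdef, mem_filter] at hk
  apply hk.2
  refine ⟨g, g', hmlt, ?_⟩
  have h1 : b * A g' i' - b * A g i = b * ((m g' - m g) * k) := by
    rw [← Nat.mul_sub]
    congr 1
    have h2 : ((m g' - m g : ℕ) : ℤ) = (m g' : ℤ) - m g := by
      rw [Nat.cast_sub hmlt.le]
    have h3 : ((A g' i' - A g i : ℕ) : ℤ) = (((m g' - m g) * k : ℕ) : ℤ) := by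
      rw [Nat.cast_sub hlt'.le]
      push_cast
      rw [h2]
      exact hke
    exact_mod_cast h3
  have h2 : b * A g' i' - b * A g i ∈ GapB N a := hG
  rw [h1] at h2
  exact h2

end Pool.Agent.Y877
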