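import Mathlib

/-! The divisors of a highly divisible number are almost invariant under multiplication (helper877). -/

set_option autoImplicit false

namespace Pool.Agent.Y877

open Finset

/-- the prime case -/
theorem div_prime (N p E : ℕ) (hN : N ≠ 0) (hp : p.Prime) (hE : p ^ E ∣ N) :
    (E + 1) * (N.divisors.filter (fun d => p * d ∉ N.divisors)).card ≤ N.divisors.card := by
  classical
  have hp0 : 0 < p := hp.pos
  have key : ∀ d ∈ N.divisors.filter (fun d => p * d ∉ N.divisors), d.factorization p = N.factorization p := by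
    intro d hd
    obtain ⟨h1, h2⟩ := mem_filter.1 hd
    have hdN := Nat.dvd_of_mem_divisors h1
    have hd0 : d ≠ 0 := fun h => hN (by rw [h] at hdN; exact Nat.eq_zero_of_zero_dvd hdN)
    have h3 : d.factorization p ≤ N.factorization p :=
      (Nat.factorization_le_iff_dvd hd0 hN).2 hdN p
    by_contra hne
    have h4 : d.factorization p + 1 ≤ N.factorization p := by omega
    apply h2
    rw [Nat.mem_divisors]
    refine ⟨?_, hN⟩
    rw [← Nat.factorization_le_iff_dvd (mul_ne_zero hp.ne_zero hd0) hN,
      Nat.factorization_mul hp.ne_zero hd0, hp.factorization]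
    intro r
    by_cases hr : r = p
    · subst hr
      simp only [Finsupp.coe_add, Pi.add_apply, Finsupp.single_eq_same]
      omega
    · simp only [Finsupp.coe_add, Pi.add_apply, Finsupp.single_eq_of_ne hr, zero_add]
      exact (Nat.factorization_le_iff_dvd hd0 hN).2 hdN r
  have hE' : E ≤ N.factorization p := (hp.pow_dvd_iff_le_factorization hN).1 hE
  have h1 : ((range (E + 1)) ×ˢ (N.divisors.filter (fun d => p * d ∉ N.divisors))).card =
      (E + 1) * (N.divisors.filter (fun d => p * d ∉ N.divisors)).card := by
    rw [card_product, card_range]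
  rw [← h1]
  refine card_le_card_of_injOn (fun z => z.2 / p ^ z.1) ?_ ?_
  · rintro ⟨j, d⟩ hz
    obtain ⟨hj, hd⟩ := mem_product.1 (mem_coe.1 hz)
    have hdN := Nat.dvd_of_mem_divisors (mem_filter.1 hd).1
    have hj' : j < E + 1 := mem_range.1 hj
    have hd0 : d ≠ 0 := fun h => hN (by rw [h] at hdN; exact Nat.eq_zero_of_zero_dvd hdN)
    have hpj : p ^ j ∣ d := by
      rw [hp.pow_dvd_iff_le_factorization hd0, key d hd]
      omega
    rw [mem_coe, Nat.mem_divisors]
    exact ⟨(Nat.div_dvd_of_dvd hpj).trans hdN, hN⟩
  · rintro ⟨j, d⟩ hz ⟨j', d'⟩ hz' h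
    obtain ⟨hj, hd⟩ := mem_product.1 (mem_coe.1 hz)
    obtain ⟨hj', hd'⟩ := mem_product.1 (mem_coe.1 hz')
    have hdN := Nat.dvd_of_mem_divisors (mem_filter.1 hd).1
    have hdN' := Nat.dvd_of_mem_divisors (mem_filter.1 hd').1
    have hj1 : j < E + 1 := mem_range.1 hj
    have hj1' : j' < E + 1 := mem_range.1 hj'
    have hd0 : d ≠ 0 := fun h => hN (by rw [h] at hdN; exact Nat.eq_zero_of_zero_dvd hdN)
    have hd0' : d' ≠ 0 := fun h => hN (by rw [h] at hdN'; exact Nat.eq_zero_of_zero_dvd hdN')
    have hpj : p ^ j ∣ d := by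
      rw [hp.pow_dvd_iff_le_factorization hd0, key d hd]
      omega
    have hpj' : p ^ j' ∣ d' := by
      rw [hp.pow_dvd_iff_le_factorization hd0', key d' hd']
      omega
    have h' : d / p ^ j = d' / p ^ j' := h
    have e1 : (d / p ^ j).factorization p = N.factorization p - j := by
      rw [Nat.factorization_div hpj, Finsupp.coe_tsub, Pi.sub_apply, hp.factorization_pow,
        Finsupp.single_eq_same]
      rw [key d hd]
    have e2 : (d' / p ^ j').factorization p = N.factorization p - j' := by
      rw [Nat.factorization_div hpj', Finsupp.coe_tsub, Pi.sub_apply, hp.factorization_pow,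
        Finsupp.single_eq_same]
      rw [key d' hd']
    rw [h', e2] at e1
    have e3 : j = j' := by omega
    subst e3
    have e4 : d = d' := by
      rw [← Nat.div_mul_cancel hpj, ← Nat.div_mul_cancel hpj', h']
    rw [e4]

/-- all multipliers -/
theorem div_all (N K E : ℕ) (hN : N ≠ 0) (hE : K.factorial ^ E ∣ N) : ∀ k : ℕ, 1 ≤ k → k ≤ K →
    (E + 1) * (N.divisors.filter (fun d => k * d ∉ N.divisors)).card ≤ k * N.divisors.card := by
  classical
  intro k
  induction k using Nat.strong_induction_on with
  | _ k ih =>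
    intro hk1 hkK
    rcases Nat.lt_or_ge 1 k with hk | hk
    swap
    · have : k = 1 := by omega
      subst this
      have h1 : N.divisors.filter (fun d => 1 * d ∉ N.divisors) = ∅ := by
        apply filter_false_of_mem
        intro d hd
        rw [one_mul]
        exact not_not.2 hd
      rw [h1]
      simp
    obtain ⟨p, hp, hpk⟩ := Nat.exists_prime_and_dvd (by omega : k ≠ 1)
    obtain ⟨k', rfl⟩ := hpk
    have hp2 := hp.two_le
    have hk'1 : 1 ≤ k' := by
      rcases Nat.eq_zero_or_pos k' with h | h
      · subst h; omega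
      · exact h
    have hk'lt : k' < p * k' := by nlinarith
    have hpK : p ≤ K := le_trans (Nat.le_mul_of_pos_right _ hk'1) hkK
    have h1 := ih k' hk'lt hk'1 (by omega)
    have h2 := div_prime N p E hN hp ((pow_dvd_pow_of_dvd ((hp.dvd_factorial).2 hpK) E).trans hE)
    have h3 : (N.divisors.filter (fun d => p * k' * d ∉ N.divisors)).card ≤
        (N.divisors.filter (fun d => k' * d ∉ N.divisors)).card +
        (N.divisors.filter (fun d => p * d ∉ N.divisors)).card := by
      have h4 : N.divisors.filter (fun d => p * k' * d ∉ N.divisors) ⊆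
          N.divisors.filter (fun d => k' * d ∉ N.divisors) ∪
          N.divisors.filter (fun d => k' * d ∈ N.divisors ∧ p * (k' * d) ∉ N.divisors) := by
        intro d hd
        obtain ⟨hd1, hd2⟩ := mem_filter.1 hd
        rw [mem_union, mem_filter, mem_filter]
        by_cases h : k' * d ∈ N.divisors
        · right
          refine ⟨hd1, h, ?_⟩
          rw [← mul_assoc]
          exact hd2
        · left
          exact ⟨hd1, h⟩
      refine (card_le_card h4).trans ((card_union_le _ _).trans ?_)
      apply Nat.add_le_add_left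
      refine card_le_card_of_injOn (fun d => k' * d) ?_ ?_
      · intro d hd
        obtain ⟨_, hd2, hd3⟩ := mem_filter.1 (mem_coe.1 hd)
        exact mem_coe.2 (mem_filter.2 ⟨hd2, hd3⟩)
      · intro a _ b _ h
        exact Nat.eq_of_mul_eq_mul_left hk'1 h
    calc (E + 1) * (N.divisors.filter (fun d => p * k' * d ∉ N.divisors)).card
        ≤ (E + 1) * ((N.divisors.filter (fun d => k' * d ∉ N.divisors)).card +
        (N.divisors.filter (fun d => p * d ∉ N.divisors)).card) := Nat.mul_le_mul_left _ h3
      _ = (E + 1) * (N.divisors.filter (fun d => k' * d ∉ N.divisors)).card +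
        (E + 1) * (N.divisors.filter (fun d => p * d ∉ N.divisors)).card := Nat.mul_add _ _ _
      _ ≤ k' * N.divisors.card + N.divisors.card := Nat.add_le_add h1 h2
      _ = (k' + 1) * N.divisors.card := by ring
      _ ≤ p * k' * N.divisors.card := Nat.mul_le_mul_right _ hk'lt

/-- **The divisors of a highly divisible number.** -/
theorem divisors_inv (K : ℕ) : ∃ M₀ : ℕ, 1 ≤ M₀ ∧ ∀ N : ℕ, 0 < N → M₀ ∣ N → ∀ k, 1 ≤ k → k ≤ K →
    K * (N.divisors.filter (fun d => k * d ∉ N.divisors)).card ≤ N.divisors.card := by
  refine ⟨K.factorial ^ (K * K), Nat.pow_pos (Nat.factorial_pos _), fun N hN hd k hk1 hkK => ?_⟩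
  have h1 := div_all N K (K * K) hN.ne' hd k hk1 hkK
  have hK : 0 < K := by omega
  have h2 : K * (K * (N.divisors.filter (fun d => k * d ∉ N.divisors)).card) ≤ K * N.divisors.card := by
    calc K * (K * (N.divisors.filter (fun d => k * d ∉ N.divisors)).card)
        = (K * K) * (N.divisors.filter (fun d => k * d ∉ N.divisors)).card := by ring
      _ ≤ (K * K + 1) * (N.divisors.filter (fun d => k * d ∉ N.divisors)).card :=
          Nat.mul_le_mul_right _ (Nat.le_succ _)
      _ ≤ k * N.divisors.card := h1
      _ ≤ K * N.divisors.card := Nat.mul_le_mul_right _ hkK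
  exact Nat.le_of_mul_le_mul_left h2 hK

end Pool.Agent.Y877
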