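import Mathlib
import Pool.Agent.TH396.PS.Beta

/-! Generic points: an ultrafilter limit of uniform distributions on finite sets, extended to a
countably additive measure on the space of ultrafilters (helper877). -/

set_option autoImplicit false

open Filter Topology MeasureTheory Finset

namespace Pool.Agent.Y877.Gen

open Pool.Agent.TH396.PS

variable {G : Type}

theorem avg_bdd (F : ℕ → Finset G) {f : G → ℝ} (hf : Bdd f) : Bdd (fun j => avg (F j) f) := by
  obtain ⟨C, hC⟩ := hf
  refine ⟨|C|, fun j => ?_⟩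
  unfold avg
  rw [abs_div, Nat.abs_cast]
  rcases Nat.eq_zero_or_pos (F j).card with h | h
  · rw [h, Nat.cast_zero, div_zero]
    exact abs_nonneg _
  · have h1 : (0 : ℝ) < (F j).card := by exact_mod_cast h
    rw [div_le_iff₀ h1]
    calc |∑ x ∈ F j, f x| ≤ ∑ x ∈ F j, |f x| := abs_sum_le_sum_abs _ _
      _ ≤ ∑ _x ∈ F j, |C| := sum_le_sum fun x _ => (hC x).trans (le_abs_self _)
      _ = |C| * (F j).card := by rw [sum_const, nsmul_eq_mul, mul_comm]

/-- the limit of the averages -/
noncomputable def mn (F : ℕ → Finset G) (f : G → ℝ) : ℝ :=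
  limUnder ((hyperfilter ℕ : Ultrafilter ℕ) : Filter ℕ) (fun j => avg (F j) f)

theorem tendsto_mn (F : ℕ → Finset G) {f : G → ℝ} (hf : Bdd f) :
    Tendsto (fun j => avg (F j) f) ((hyperfilter ℕ : Ultrafilter ℕ) : Filter ℕ) (𝓝 (mn F f)) :=
  tendsto_ulim _ _ (avg_bdd F hf)

theorem mn_add (F : ℕ → Finset G) {f g : G → ℝ} (hf : Bdd f) (hg : Bdd g) :
    mn F (fun x => f x + g x) = mn F f + mn F g := by
  refine tendsto_nhds_unique (tendsto_mn F (hf.add hg)) ?_
  have h := (tendsto_mn F hf).add (tendsto_mn F hg)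
  refine h.congr fun j => ?_
  unfold avg
  rw [sum_add_distrib, add_div]

theorem mn_smul (F : ℕ → Finset G) {f : G → ℝ} (c : ℝ) (hf : Bdd f) :
    mn F (fun x => c * f x) = c * mn F f := by
  refine tendsto_nhds_unique (tendsto_mn F (hf.smul c)) ?_
  have h := (tendsto_mn F hf).const_mul c
  refine h.congr fun j => ?_
  unfold avg
  rw [← mul_sum, mul_div_assoc]

theorem mn_mono (F : ℕ → Finset G) {f g : G → ℝ} (hf : Bdd f) (hg : Bdd g) (h : ∀ x, f x ≤ g x) :
    mn F f ≤ mn F g := by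
  refine le_of_tendsto_of_tendsto' (tendsto_mn F hf) (tendsto_mn F hg) fun j => ?_
  unfold avg
  exact div_le_div_of_nonneg_right (sum_le_sum fun x _ => h x) (Nat.cast_nonneg _)

/-- the positive functional -/
noncomputable def lamF (F : ℕ → Finset G) :
    CompactlySupportedContinuousMap (Ultrafilter G) ℝ →ₚ[ℝ] ℝ where
  toFun φ := mn F (fun s => φ (pure s))
  map_add' φ ψ := by
    exact mn_add F ((bdd_of_continuous φ.continuous).comp _) ((bdd_of_continuous ψ.continuous).comp _)
  map_smul' c φ := by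
    simpa using mn_smul F c ((bdd_of_continuous φ.continuous).comp (fun s : G => (pure s : Ultrafilter G)))
  monotone' φ ψ h := by
    exact mn_mono F ((bdd_of_continuous φ.continuous).comp _) ((bdd_of_continuous ψ.continuous).comp _)
      (fun s => h _)

/-- the measure on the space of ultrafilters -/
noncomputable def muF (F : ℕ → Finset G) : Measure (Ultrafilter G) := RealRMK.rieszMeasure (lamF F)

instance (F : ℕ → Finset G) : IsFiniteMeasure (muF F) := by unfold muF; infer_instance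

theorem integral_muF (F : ℕ → Finset G) {φ : Ultrafilter G → ℝ} (h : Continuous φ) :
    ∫ p, φ p ∂(muF F) = mn F (fun s => φ (pure s)) := by
  have := RealRMK.integral_rieszMeasure (lamF F) ⟨⟨φ, h⟩, HasCompactSupport.of_compactSpace _⟩
  exact this

theorem bdd_ind (A : Set G) : Bdd (A.indicator (1 : G → ℝ)) := by
  refine ⟨1, fun x => ?_⟩
  by_cases hx : x ∈ A <;> simp [hx]

theorem muF_basic (F : ℕ → Finset G) (A : Set G) :
    (muF F).real {p : Ultrafilter G | A ∈ p} = mn F (A.indicator 1) := by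
  have h1 : ∫ p, ext (A.indicator (1 : G → ℝ)) p ∂(muF F) = mn F (A.indicator 1) := by
    rw [integral_muF F (continuous_ext (bdd_ind A))]
    simp only [ext_pure]
  rw [← h1]
  have hm : MeasurableSet {p : Ultrafilter G | A ∈ p} := (ultrafilter_isOpen_basic A).measurableSet
  rw [← integral_indicator_one hm]
  congr 1
  funext p
  rw [ext_indicator]

theorem hyper_atTop {P : ℕ → Prop} (h : ∀ᶠ j in atTop, P j) :
    ∀ᶠ j in ((hyperfilter ℕ : Ultrafilter ℕ) : Filter ℕ), P j := by
  rw [← Nat.cofinite_eq_atTop] at h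
  exact hyperfilter_le_cofinite h

open Classical in
theorem avg_ind (F : Finset G) (A : Set G) :
    avg F (A.indicator (1 : G → ℝ)) = ((F.filter (fun x => x ∈ A)).card : ℝ) / F.card := by
  unfold avg
  congr 1
  rw [card_filter]
  push_cast
  refine sum_congr rfl fun x _ => ?_
  rw [Set.indicator_apply]
  rfl

/-- limsup of events -/
theorem limsup_events {X : Type*} [MeasurableSpace X] (μ : Measure X) [IsFiniteMeasure μ] (c : ENNReal)
    (E : ℕ → Set X) (hE : ∀ i, MeasurableSet (E i)) (h : ∀ i, c ≤ μ (E i)) :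
    MeasurableSet {x | ∃ᶠ i in atTop, x ∈ E i} ∧ c ≤ μ {x | ∃ᶠ i in atTop, x ∈ E i} := by
  have h1 : {x | ∃ᶠ i in atTop, x ∈ E i} = ⋂ N, ⋃ i, ⋃ (_ : N ≤ i), E i := by
    ext x
    simp only [Set.mem_ofPred_eq, Set.mem_iInter, Set.mem_iUnion, frequently_atTop, exists_prop]
  rw [h1]
  have hm : ∀ N, MeasurableSet (⋃ i, ⋃ (_ : N ≤ i), E i) := fun N =>
    MeasurableSet.iUnion fun i => MeasurableSet.iUnion fun _ => hE i
  refine ⟨MeasurableSet.iInter hm, ?_⟩
  have hanti : Antitone (fun N => ⋃ i, ⋃ (_ : N ≤ i), E i) := by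
    intro N N' hN
    apply Set.iUnion_mono
    intro i
    apply Set.iUnion_subset
    intro hi
    exact Set.subset_iUnion_of_subset (hN.trans hi) subset_rfl
  rw [hanti.measure_iInter (fun N => (hm N).nullMeasurableSet) ⟨0, measure_ne_top _ _⟩]
  refine le_iInf fun N => (h N).trans (measure_mono ?_)
  exact Set.subset_iUnion_of_subset N (Set.subset_iUnion_of_subset le_rfl subset_rfl)

open Classical in
/-- **Generic points.** -/
theorem generic (F : ℕ → Finset G) (hF : ∀ j, (F j).Nonempty) (c : ℝ) (hc : 0 < c)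
    (E : ℕ → ℕ → Set G)
    (hE : ∀ i L, ∀ᶠ j in atTop, c * (F j).card ≤ (((F j).filter (fun x => x ∈ E i L)).card : ℝ))
    (N : ℕ → Set G)
    (hN : ∀ t, ∀ᶠ j in atTop, ((F j).filter (fun x => x ∈ N t)).card = 0) :
    ∃ p : Ultrafilter G, (∃ᶠ i in atTop, ∃ᶠ L in atTop, E i L ∈ p) ∧ ∀ t, (N t)ᶜ ∈ p := by
  have hF0 : ∀ j, (0 : ℝ) < (F j).card := fun j => by exact_mod_cast (hF j).card_pos
  have hmE : ∀ i L, MeasurableSet {p : Ultrafilter G | E i L ∈ p} := fun i L =>
    (ultrafilter_isOpen_basic _).measurableSet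
  have hμE : ∀ i L, ENNReal.ofReal c ≤ muF F {p : Ultrafilter G | E i L ∈ p} := by
    intro i L
    rw [← ENNReal.ofReal_toReal (measure_ne_top (muF F) _)]
    apply ENNReal.ofReal_le_ofReal
    have h1 : (muF F).real {p : Ultrafilter G | E i L ∈ p} = mn F ((E i L).indicator 1) := muF_basic F _
    have h2 : ((muF F) {p : Ultrafilter G | E i L ∈ p}).toReal = mn F ((E i L).indicator 1) := h1
    rw [h2]
    refine ge_of_tendsto (tendsto_mn F (bdd_ind _)) (hyper_atTop ?_)
    filter_upwards [hE i L] with j hj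
    rw [avg_ind, le_div_iff₀ (hF0 j)]
    exact hj
  have hi : ∀ i, MeasurableSet {p : Ultrafilter G | ∃ᶠ L in atTop, E i L ∈ p} ∧
      ENNReal.ofReal c ≤ muF F {p : Ultrafilter G | ∃ᶠ L in atTop, E i L ∈ p} := fun i =>
    limsup_events (muF F) _ (fun L => {p : Ultrafilter G | E i L ∈ p}) (hmE i) (hμE i)
  obtain ⟨-, h2⟩ := limsup_events (muF F) (ENNReal.ofReal c)
    (fun i => {p : Ultrafilter G | ∃ᶠ L in atTop, E i L ∈ p}) (fun i => (hi i).1) (fun i => (hi i).2)
  have hnull : ∀ t, muF F {p : Ultrafilter G | N t ∈ p} = 0 := by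
    intro t
    have h1 : (muF F).real {p : Ultrafilter G | N t ∈ p} = mn F ((N t).indicator 1) := muF_basic F _
    have h3 : mn F ((N t).indicator 1) = 0 := by
      refine tendsto_nhds_unique (tendsto_mn F (bdd_ind _)) ?_
      refine tendsto_const_nhds.congr' (hyper_atTop ?_)
      filter_upwards [hN t] with j hj
      rw [avg_ind, hj, Nat.cast_zero, zero_div]
    rw [h3] at h1
    have h4 : ((muF F) {p : Ultrafilter G | N t ∈ p}).toReal = 0 := h1
    rcases (ENNReal.toReal_eq_zero_iff _).1 h4 with h5 | h5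
    · exact h5
    · exact absurd h5 (measure_ne_top _ _)
  have hnull' : muF F (⋃ t, {p : Ultrafilter G | N t ∈ p}) = 0 := measure_iUnion_null hnull
  have hlt : muF F (⋃ t, {p : Ultrafilter G | N t ∈ p}) <
      muF F {p : Ultrafilter G | ∃ᶠ i in atTop, p ∈ {p : Ultrafilter G | ∃ᶠ L in atTop, E i L ∈ p}} := by
    rw [hnull']
    exact lt_of_lt_of_le (ENNReal.ofReal_pos.2 hc) h2
  obtain ⟨p, hp1, hp2⟩ : ∃ p, p ∈ {p : Ultrafilter G | ∃ᶠ i in atTop, p ∈ {p : Ultrafilter G | ∃ᶠ L in atTop, E i L ∈ p}} ∧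
      p ∉ ⋃ t, {p : Ultrafilter G | N t ∈ p} := by
    by_contra hcon
    push Not at hcon
    exact absurd (measure_mono hcon) (not_le.2 hlt)
  refine ⟨p, hp1, fun t => ?_⟩
  rw [Ultrafilter.compl_mem_iff_notMem]
  intro h
  exact hp2 (Set.mem_iUnion.2 ⟨t, h⟩)

end Pool.Agent.Y877.Gen
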