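import Mathlib
import Pool.Agent.Y877.Gen
import Pool.Agent.W142.TB.Stm

/-! A limit object for almost multiplicatively invariant finite sets (helper877). -/

set_option autoImplicit false

open Filter Topology Finset

namespace Pool.Agent.Y877

open Pool.Agent.W142.TB

open Classical in
/-- dilations -/
theorem dil (F : Finset ℕ) (B : Set ℕ) (k : ℕ) (hk : 1 ≤ k) :
    (F.filter (fun m => m ∈ B)).card ≤ (F.filter (fun m => k * m ∈ B)).card +
      (F.filter (fun m => k * m ∉ F)).card := by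
  obtain ⟨I, hI⟩ : ∃ I, I = (F.filter (fun m => k * m ∈ F)).image (fun m => k * m) := ⟨_, rfl⟩
  have hinj : Function.Injective (fun m : ℕ => k * m) := fun a b h =>
    Nat.eq_of_mul_eq_mul_left (by omega) h
  have hIc : I.card = (F.filter (fun m => k * m ∈ F)).card := by
    rw [hI, card_image_of_injective _ hinj]
  have hIF : I ⊆ F := by
    rw [hI]
    intro x hx
    obtain ⟨m, hm, rfl⟩ := mem_image.1 hx
    exact (mem_filter.1 hm).2
  have h1 : (F \ I).card = (F.filter (fun m => k * m ∉ F)).card := by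
    rw [card_sdiff_of_subset hIF, hIc]
    have h2 : (F.filter (fun m => k * m ∈ F)).card + (F.filter (fun m => ¬ k * m ∈ F)).card = F.card :=
      card_filter_add_card_filter_not _
    omega
  have h2 : F.filter (fun m => m ∈ B) ⊆ (F.filter (fun m => k * m ∈ B)).image (fun m => k * m) ∪
      (F \ I) := by
    intro x hx
    obtain ⟨hx1, hx2⟩ := mem_filter.1 hx
    by_cases hxI : x ∈ I
    · rw [mem_union]
      left
      rw [hI] at hxI
      obtain ⟨m, hm, rfl⟩ := mem_image.1 hxI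
      exact mem_image.2 ⟨m, mem_filter.2 ⟨(mem_filter.1 hm).1, hx2⟩, rfl⟩
    · rw [mem_union]
      right
      exact mem_sdiff.2 ⟨hx1, hxI⟩
  refine (card_le_card h2).trans ((card_union_le _ _).trans ?_)
  rw [h1]
  exact Nat.add_le_add_right card_image_le _

/-- a finite family of members of an ultrafilter -/
theorem fin_mem {G ι : Type} (p : Ultrafilter G) (S : Finset ι) (A : ι → Set G)
    (h : ∀ i ∈ S, A i ∈ p) : ∀ B : Set G, B ∈ p → ∃ w ∈ B, ∀ i ∈ S, w ∈ A i := by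
  intro B hB
  have h1 : (⋂ i ∈ S, A i) ∈ (p : Filter G) := (Filter.biInter_finset_mem S).2 h
  have h2 : B ∩ (⋂ i ∈ S, A i) ∈ (p : Filter G) := Filter.inter_mem hB h1
  obtain ⟨w, hw1, hw2⟩ := Ultrafilter.nonempty_of_mem h2
  exact ⟨w, hw1, fun i hi => Set.mem_iInter₂.1 hw2 i hi⟩

open Classical in
/-- the averages -/
theorem avgs (F : Finset ℕ) (B : Set ℕ) (L : ℕ) (hL : 1 ≤ L) (κ : ℕ → ℕ) (hκ : ∀ l < L, 1 ≤ κ l)
    (β ε : ℝ) (hε : 0 < ε) (J : ℕ) (hJ : 1 ≤ ε * J)
    (hinv : ∀ l < L, J * (F.filter (fun m => κ l * m ∉ F)).card ≤ F.card)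
    (hden : (β + 3 * ε) * F.card ≤ (F.filter (fun m => m ∈ B)).card) (hβ : 0 ≤ β) :
    ε * F.card ≤ ((F.filter (fun m => (β + ε) * L ≤
      (((range L).filter (fun l => κ l * m ∈ B)).card : ℝ))).card : ℝ) := by
  have hLr : (1 : ℝ) ≤ L := by exact_mod_cast hL
  have hJ0 : (0 : ℝ) < J := by
    by_contra h
    push Not at h
    nlinarith
  have hF0 : (0 : ℝ) ≤ F.card := Nat.cast_nonneg _
  have h1 : ∀ l < L, (β + 2 * ε) * F.card ≤ ((F.filter (fun m => κ l * m ∈ B)).card : ℝ) := by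
    intro l hl
    have h2 : ((F.filter (fun m => m ∈ B)).card : ℝ) ≤ ((F.filter (fun m => κ l * m ∈ B)).card : ℝ) +
        ((F.filter (fun m => κ l * m ∉ F)).card : ℝ) := by
      exact_mod_cast dil F B (κ l) (hκ l hl)
    have h3 : (J : ℝ) * ((F.filter (fun m => κ l * m ∉ F)).card : ℝ) ≤ F.card := by
      exact_mod_cast hinv l hl
    have h4 : ((F.filter (fun m => κ l * m ∉ F)).card : ℝ) ≤ ε * F.card := by
      have h5 : (J : ℝ) * ((F.filter (fun m => κ l * m ∉ F)).card : ℝ) ≤ J * (ε * F.card) := by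
        refine h3.trans ?_
        nlinarith
      exact le_of_mul_le_mul_left h5 hJ0
    nlinarith
  have h2 : (L : ℝ) * ((β + 2 * ε) * F.card) ≤
      ∑ m ∈ F, (((range L).filter (fun l => κ l * m ∈ B)).card : ℝ) := by
    have h3 : ∑ m ∈ F, (((range L).filter (fun l => κ l * m ∈ B)).card : ℝ) =
        ∑ l ∈ range L, ((F.filter (fun m => κ l * m ∈ B)).card : ℝ) := by
      have h4 : ∀ m, (((range L).filter (fun l => κ l * m ∈ B)).card : ℝ) =
          ∑ l ∈ range L, (if κ l * m ∈ B then (1 : ℝ) else 0) := by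
        intro m
        rw [card_filter]
        push_cast
        rfl
      have h5 : ∀ l, ((F.filter (fun m => κ l * m ∈ B)).card : ℝ) =
          ∑ m ∈ F, (if κ l * m ∈ B then (1 : ℝ) else 0) := by
        intro l
        rw [card_filter]
        push_cast
        rfl
      simp_rw [h4, h5]
      exact sum_comm
    rw [h3]
    calc (L : ℝ) * ((β + 2 * ε) * F.card) = ∑ _l ∈ range L, (β + 2 * ε) * (F.card : ℝ) := by
          rw [sum_const, card_range, nsmul_eq_mul]
      _ ≤ _ := sum_le_sum fun l hl => h1 l (mem_range.1 hl)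
  obtain ⟨E, hE⟩ : ∃ E, E = F.filter (fun m => (β + ε) * L ≤
      (((range L).filter (fun l => κ l * m ∈ B)).card : ℝ)) := ⟨_, rfl⟩
  rw [← hE]
  have h3 : ∑ m ∈ F, (((range L).filter (fun l => κ l * m ∈ B)).card : ℝ) ≤
      ∑ m ∈ F, ((if m ∈ E then (L : ℝ) else 0) + (β + ε) * L - (if m ∈ E then (β + ε) * L else 0)) := by
    refine sum_le_sum fun m hm => ?_
    have hc : (((range L).filter (fun l => κ l * m ∈ B)).card : ℝ) ≤ L := by
      have := card_le_card (filter_subset (fun l => κ l * m ∈ B) (range L))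
      rw [card_range] at this
      exact_mod_cast this
    by_cases h : m ∈ E
    · rw [if_pos h, if_pos h]
      linarith
    · rw [if_neg h, if_neg h]
      have h4 : ¬ (β + ε) * L ≤ (((range L).filter (fun l => κ l * m ∈ B)).card : ℝ) := by
        intro h5
        apply h
        rw [hE]
        exact mem_filter.2 ⟨hm, h5⟩
      push Not at h4
      linarith
  have hEF : E ⊆ F := by rw [hE]; exact filter_subset _ _
  have h4 : ∑ m ∈ F, ((if m ∈ E then (L : ℝ) else 0) + (β + ε) * L - (if m ∈ E then (β + ε) * L else 0)) =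
      E.card * L + F.card * ((β + ε) * L) - E.card * ((β + ε) * L) := by
    rw [sum_sub_distrib, sum_add_distrib, sum_const, nsmul_eq_mul, ← sum_filter, ← sum_filter,
      filter_mem_eq_inter, inter_eq_right.2 hEF, sum_const, sum_const, nsmul_eq_mul, nsmul_eq_mul]
  rw [h4] at h3
  have h5 := h2.trans h3
  -- ε F L ≤ E L (1 - β - ε)
  have hE0 : (0 : ℝ) ≤ E.card := Nat.cast_nonneg _
  by_contra hcon
  push Not at hcon
  have hEF' : (E.card : ℝ) ≤ F.card := by exact_mod_cast card_le_card hEF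
  have h6 : (L : ℝ) * (ε * F.card) ≤ L * (E.card * (1 - (β + ε))) := by nlinarith
  have h7 : ε * F.card ≤ E.card * (1 - (β + ε)) := le_of_mul_le_mul_left h6 (by linarith)
  nlinarith

open Classical in
/-- **The limit object.** -/
theorem lim (hS : S_maiB) (β ε : ℝ) (hβ : 1 / 5 ≤ β) (hβ2 : β ≤ 1 / 2) (hε : 0 < ε) (hε1 : ε ≤ 1) :
    ∃ n₀ : ℕ, ∀ n, n₀ ≤ n → ∀ K W : ℕ, 1 ≤ W → ∀ (F : ℕ → Finset ℕ) (Bad : ℕ → Set ℕ),
    (∀ j, (F j).Nonempty) →
    (∀ j k, 1 ≤ k → k ≤ j → j * ((F j).filter (fun m => k * m ∉ F j)).card ≤ (F j).card) →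
    (∀ j, (1 - 2 * β + 3 * ε) * (F j).card ≤ (((F j).filter (fun m => m ∈ Bad j)).card : ℝ)) →
    ∃ (Q : ℕ → ℕ) (A : ℕ → ℕ → ℤ) (s : ℕ → Finset ℕ), NoIndB β n s ∧ (∀ j, 1 ≤ Q j) ∧
      (∀ j, Set.InjOn (A j) {k | k < K}) ∧
      ∀ t, ∃ j, t ≤ j ∧ ∃ m ∈ F j, ∀ g < n, ∀ i ∈ s g, ∀ k k', k < K → k' < K →
        (Q g : ℤ) * A g k - (Q i : ℤ) * A i k' ≠ 0 ∧
        W * ((Q g : ℤ) * A g k - (Q i : ℤ) * A i k').natAbs * m ∈ Bad j := by
  obtain ⟨n₀, hn₀⟩ := hS β hβ hβ2 ε hε
  refine ⟨n₀, fun n hn K W hW F Bad hFne hinv hden => ?_⟩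
  -- the space of pairs
  obtain ⟨F', hF'⟩ : ∃ F' : ℕ → Finset (ℕ × ℕ), F' = fun j => (F j).map ⟨fun m => (j, m), fun a b h => by
    simpa using h⟩ := ⟨_, rfl⟩
  have hF'c : ∀ j, (F' j).card = (F j).card := fun j => by rw [hF', card_map]
  have hfilt : ∀ j (P : ℕ × ℕ → Prop), ((F' j).filter P).card = ((F j).filter (fun m => P (j, m))).card := by
    intro j P
    rw [hF', filter_map, card_map]
    rfl
  obtain ⟨E, hE⟩ : ∃ E : ℕ → ℕ → Set (ℕ × ℕ), E = fun i L => {w | (1 - 2 * β + ε) * L ≤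
      (((range L).filter (fun l => W * i.factorial * (l + 1) * w.2 ∈ Bad w.1)).card : ℝ)} := ⟨_, rfl⟩
  obtain ⟨N, hN⟩ : ∃ N : ℕ → Set (ℕ × ℕ), N = fun t => {w | ¬ (t ≤ w.1 ∧ w.2 ∈ F w.1)} := ⟨_, rfl⟩
  obtain ⟨p, hp1, hp2⟩ := Gen.generic F' (fun j => by
      rw [← card_pos, hF'c]
      exact (hFne j).card_pos) ε hε E (fun i L => by
      obtain ⟨R, hR⟩ := exists_nat_ge (1 / ε)
      filter_upwards [eventually_ge_atTop (R + W * i.factorial * L + 1)] with j hj
      rw [hF'c, hfilt, hE]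
      show ε * (F j).card ≤ (((F j).filter (fun m => (1 - 2 * β + ε) * L ≤
        (((range L).filter (fun l => W * i.factorial * (l + 1) * m ∈ Bad j)).card : ℝ))).card : ℝ)
      rcases Nat.eq_zero_or_pos L with hL | hL
      · subst hL
        have h1 : (F j).filter (fun m => (1 - 2 * β + ε) * ((0 : ℕ) : ℝ) ≤
            (((range 0).filter (fun l => W * i.factorial * (l + 1) * m ∈ Bad j)).card : ℝ)) = F j := by
          apply filter_true_of_mem
          intro m _
          simp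
        rw [h1]
        have h2 : (0 : ℝ) ≤ (F j).card := Nat.cast_nonneg _
        nlinarith
      · have hif := Nat.factorial_pos i
        refine avgs (F j) (Bad j) L hL (fun l => W * i.factorial * (l + 1)) (fun l _ => ?_) (1 - 2 * β) ε hε j
          ?_ (fun l hl => ?_) (hden j) (by linarith)
        · have : 0 < W * i.factorial * (l + 1) := by positivity
          omega
        · have h1 : (R : ℝ) ≤ j := by exact_mod_cast (by omega : R ≤ j)
          have h2 : 1 / ε ≤ (j : ℝ) := hR.trans h1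
          rw [div_le_iff₀ hε] at h2
          linarith
        · apply hinv
          · have : 0 < W * i.factorial * (l + 1) := by positivity
            omega
          · have : W * i.factorial * (l + 1) ≤ W * i.factorial * L := Nat.mul_le_mul_left _ hl
            omega)
    N (fun t => by
      filter_upwards [eventually_ge_atTop t] with j hj
      rw [hfilt, card_eq_zero]
      apply filter_false_of_mem
      intro m hm
      rw [hN]
      show ¬ ¬ (t ≤ j ∧ m ∈ F j)
      exact not_not.2 ⟨hj, hm⟩)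
  obtain ⟨U, hU⟩ : ∃ U : Set ℤ, U = {z : ℤ | z ≠ 0 ∧ {w : ℕ × ℕ | W * z.natAbs * w.2 ∈ Bad w.1} ∈ p} :=
    ⟨_, rfl⟩
  obtain ⟨Q, A, s, hs, hQ, hA, hd⟩ := hn₀ n hn U (fun M hM => by
    obtain ⟨i, hi, hiM⟩ := (hp1.and_eventually (eventually_ge_atTop M)).exists
    refine ⟨i.factorial, Nat.factorial_pos i, Nat.dvd_factorial hM hiM, fun L₀ => ?_⟩
    obtain ⟨L, hL, hLL⟩ := (hi.and_eventually (eventually_ge_atTop L₀)).exists
    refine ⟨L, hLL, 1, ?_⟩
    obtain ⟨Al, hAl⟩ : ∃ Al : ℕ → Set (ℕ × ℕ), Al = fun l => {w : ℕ × ℕ |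
      W * i.factorial * (l + 1) * w.2 ∈ Bad w.1} := ⟨_, rfl⟩
    obtain ⟨w, hw, hw2⟩ := fin_mem p (range L) (fun l => if Al l ∈ p then Al l else (Al l)ᶜ)
      (fun l _ => by
        by_cases h : Al l ∈ p
        · rw [if_pos h]; exact h
        · rw [if_neg h]; exact Ultrafilter.compl_mem_iff_notMem.2 h) (E i L) hL
    rw [hE] at hw
    have hw' : (1 - 2 * β + ε) * L ≤
      (((range L).filter (fun l => W * i.factorial * (l + 1) * w.2 ∈ Bad w.1)).card : ℝ) := hw
    refine hw'.trans ?_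
    rw [Nat.cast_le, ← Set.ncard_coe_finset]
    refine Set.ncard_le_ncard ?_ ((Set.finite_Iio L).subset fun k hk => hk.1)
    intro l hl
    obtain ⟨hl1, hl2⟩ := mem_filter.1 (mem_coe.1 hl)
    have hl3 := mem_range.1 hl1
    refine ⟨hl3, ?_⟩
    have h4 : w ∈ Al l := by rw [hAl]; exact hl2
    have h5 : Al l ∈ p := by
      by_contra h
      have h6 := hw2 l hl1
      rw [if_neg h] at h6
      exact h6 h4
    rw [hU]
    have hif : 0 < i.factorial := Nat.factorial_pos i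
    have hifz : (0 : ℤ) < i.factorial := by exact_mod_cast hif
    refine ⟨?_, ?_⟩
    · have : (0 : ℤ) < (i.factorial : ℤ) * (1 + (l : ℤ)) := by positivity
      exact this.ne'
    · have e1 : ((i.factorial : ℤ) * (1 + (l : ℤ))).natAbs = i.factorial * (l + 1) := by
        have : (i.factorial : ℤ) * (1 + (l : ℤ)) = ((i.factorial * (l + 1) : ℕ) : ℤ) := by
          push_cast; ring
        rw [this, Int.natAbs_natCast]
      have e2 : {w : ℕ × ℕ | W * ((i.factorial : ℤ) * (1 + (l : ℤ))).natAbs * w.2 ∈ Bad w.1} = Al l := by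
        rw [hAl, e1]
        ext w
        show W * (i.factorial * (l + 1)) * w.2 ∈ Bad w.1 ↔ W * i.factorial * (l + 1) * w.2 ∈ Bad w.1
        rw [← mul_assoc W]
      show {w : ℕ × ℕ | W * ((i.factorial : ℤ) * (1 + (l : ℤ))).natAbs * w.2 ∈ Bad w.1} ∈ p
      rw [e2]
      exact h5) K
  refine ⟨Q, A, s, hs, hQ, hA, fun t => ?_⟩
  obtain ⟨w, hw, hw2⟩ := fin_mem p
    ((range n).sigma (fun g => (s g).sigma (fun _ => (range K) ×ˢ (range K))))
    (fun z => {w : ℕ × ℕ | W * ((Q z.1 : ℤ) * A z.1 z.2.2.1 - (Q z.2.1 : ℤ) * A z.2.1 z.2.2.2).natAbs * w.2 ∈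
      Bad w.1}) (fun z hz => by
      rw [mem_sigma, mem_sigma, mem_product] at hz
      have h1 := hd z.1 (mem_range.1 hz.1) z.2.1 hz.2.1 z.2.2.1 z.2.2.2 (mem_range.1 hz.2.2.1)
        (mem_range.1 hz.2.2.2)
      rw [hU] at h1
      exact h1.2) (N t)ᶜ (hp2 t)
  rw [hN] at hw
  have hw' : t ≤ w.1 ∧ w.2 ∈ F w.1 := not_not.1 hw
  refine ⟨w.1, hw'.1, w.2, hw'.2, fun g hg i hi k k' hk hk' => ⟨?_, ?_⟩⟩
  · have h1 := hd g hg i hi k k' hk hk'
    rw [hU] at h1
    exact h1.1
  · exact hw2 ⟨g, ⟨i, (k, k')⟩⟩ (mem_sigma.2 ⟨mem_range.2 hg, mem_sigma.2 ⟨hi, mem_product.2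
      ⟨mem_range.2 hk, mem_range.2 hk'⟩⟩⟩)

end Pool.Agent.Y877
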