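import Mathlib
import Pool.Agent.Y877.Lim
import Pool.Agent.Y877.Adm

/-! From windows of multiples to almost multiplicatively invariant finite sets (helper877). -/

set_option autoImplicit false

namespace Pool.Agent.Y877

open Finset

/-- multiples of a factorial are admissible -/
theorem adm_fact (T n : ℕ) (m : Fin T → ℕ) (p : ℕ) (hp : p.Prime) :
    ∃ r : ℤ, ∀ g, ¬ (p : ℤ) ∣ ((T.factorial * n : ℕ) : ℤ) * m g + r := by
  classical
  have hpp : Prime (p : ℤ) := Nat.prime_iff_prime_int.1 hp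
  by_cases hpT : p ≤ T
  · refine ⟨1, fun g h => ?_⟩
    have h1 : (p : ℤ) ∣ ((T.factorial * n : ℕ) : ℤ) * m g := by
      refine Dvd.dvd.mul_right ?_ _
      exact_mod_cast ((hp.dvd_factorial).2 hpT).mul_right n
    have h3 : (p : ℤ) ∣ 1 := (dvd_add_right h1).1 h
    exact hpp.not_isUnit (isUnit_of_dvd_one h3)
  · obtain ⟨z, hz⟩ := exresA p ((univ : Finset (Fin T)).image
      (fun g => ((T.factorial * n : ℕ) : ℤ) * m g)) (by
      refine card_image_le.trans_lt ?_
      rw [card_univ, Fintype.card_fin]; omega)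
    refine ⟨z, fun g h => hz _ (mem_image.2 ⟨g, mem_univ _, rfl⟩) ?_⟩
    rw [add_comm]
    exact h

open Classical in
/-- the averaging argument -/
theorem avgF (F : Finset ℕ) (Good : ℕ → Prop) (P H K : ℕ) (ε : ℝ) (hε : 0 < ε) (hH : 1 ≤ H) (hP : 1 ≤ P)
    (hK : 2 ≤ ε * K) (hPH : P * H ≤ K)
    (hinv : ∀ k, 1 ≤ k → k ≤ K → K * (F.filter (fun n => k * n ∉ F)).card ≤ F.card)
    (hwin : ∀ n ∈ F, (1 - ε / 2) * (H : ℝ) ≤ (((Ioc 0 (0 + H)).filter (fun k => Good (P * k * n))).card : ℝ)) :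
    (1 - ε) * (F.card : ℝ) ≤ ((F.filter (fun n => Good n)).card : ℝ) := by
  have hHr : (1 : ℝ) ≤ H := by exact_mod_cast hH
  have hF0 : (0 : ℝ) ≤ F.card := Nat.cast_nonneg _
  have hK0 : (0 : ℝ) < K := by
    by_contra h
    push Not at h
    nlinarith
  obtain ⟨Bd, hBd⟩ : ∃ Bd : ℕ, Bd = (F.filter (fun n => ¬ Good n)).card := ⟨_, rfl⟩
  have h0 : (F.filter (fun n => Good n)).card + Bd = F.card := by
    rw [hBd]; exact card_filter_add_card_filter_not _
  have h0r : ((F.filter (fun n => Good n)).card : ℝ) + Bd = F.card := by exact_mod_cast h0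
  -- each dilation
  have h1 : ∀ k ∈ Ioc 0 (0 + H), (Bd : ℝ) ≤ ((F.filter (fun n => ¬ Good (P * k * n))).card : ℝ) +
      ε / 2 * F.card := by
    intro k hk
    obtain ⟨hk1, hk2⟩ := mem_Ioc.1 hk
    have hPk : 1 ≤ P * k := Nat.mul_pos hP hk1
    have hPkK : P * k ≤ K := le_trans (Nat.mul_le_mul_left _ (by omega)) hPH
    obtain ⟨B, hB⟩ : ∃ B : Set ℕ, ∀ n, n ∈ B ↔ ¬ Good n := ⟨{n | ¬ Good n}, fun n => Iff.rfl⟩
    have h2 := dil F B (P * k) hPk
    have e1 : F.filter (fun m => m ∈ B) = F.filter (fun n => ¬ Good n) := by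
      ext n
      simp only [mem_filter, hB]
    have e2 : F.filter (fun m => P * k * m ∈ B) = F.filter (fun n => ¬ Good (P * k * n)) := by
      ext n
      simp only [mem_filter, hB]
    rw [e1, e2] at h2
    have h2' : Bd ≤ (F.filter (fun n => ¬ Good (P * k * n))).card +
        (F.filter (fun n => P * k * n ∉ F)).card := by
      rw [hBd]; exact h2
    have h2r : (Bd : ℝ) ≤ ((F.filter (fun n => ¬ Good (P * k * n))).card : ℝ) +
        ((F.filter (fun n => P * k * n ∉ F)).card : ℝ) := by exact_mod_cast h2'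
    have h3 : (K : ℝ) * ((F.filter (fun n => P * k * n ∉ F)).card : ℝ) ≤ F.card := by
      exact_mod_cast hinv (P * k) hPk hPkK
    have h4 : ((F.filter (fun n => P * k * n ∉ F)).card : ℝ) ≤ ε / 2 * F.card := by
      have h5 : (K : ℝ) * ((F.filter (fun n => P * k * n ∉ F)).card : ℝ) ≤ K * (ε / 2 * F.card) := by
        refine h3.trans ?_
        nlinarith
      exact le_of_mul_le_mul_left h5 hK0
    linarith
  have h2 : (H : ℝ) * Bd ≤ ∑ k ∈ Ioc 0 (0 + H), ((F.filter (fun n => ¬ Good (P * k * n))).card : ℝ) +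
      H * (ε / 2 * F.card) := by
    calc (H : ℝ) * Bd = ∑ _k ∈ Ioc 0 (0 + H), (Bd : ℝ) := by
          rw [sum_const, Nat.card_Ioc, nsmul_eq_mul, zero_add, Nat.sub_zero]
      _ ≤ ∑ k ∈ Ioc 0 (0 + H), (((F.filter (fun n => ¬ Good (P * k * n))).card : ℝ) +
          ε / 2 * F.card) := sum_le_sum h1
      _ = _ := by
          rw [sum_add_distrib, sum_const, Nat.card_Ioc, nsmul_eq_mul, zero_add, Nat.sub_zero]
  have h3 : ∑ k ∈ Ioc 0 (0 + H), ((F.filter (fun n => ¬ Good (P * k * n))).card : ℝ) =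
      ∑ n ∈ F, (((Ioc 0 (0 + H)).filter (fun k => ¬ Good (P * k * n))).card : ℝ) := by
    have h4 : ∀ k, ((F.filter (fun n => ¬ Good (P * k * n))).card : ℝ) =
        ∑ n ∈ F, (if ¬ Good (P * k * n) then (1 : ℝ) else 0) := by
      intro k
      rw [card_filter]
      push_cast
      rfl
    have h5 : ∀ n, (((Ioc 0 (0 + H)).filter (fun k => ¬ Good (P * k * n))).card : ℝ) =
        ∑ k ∈ Ioc 0 (0 + H), (if ¬ Good (P * k * n) then (1 : ℝ) else 0) := by
      intro n
      rw [card_filter]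
      push_cast
      rfl
    simp_rw [h4, h5]
    exact sum_comm
  have h4 : ∀ n ∈ F, (((Ioc 0 (0 + H)).filter (fun k => ¬ Good (P * k * n))).card : ℝ) ≤ ε / 2 * H := by
    intro n hn
    have h5 := hwin n hn
    have h6 : ((Ioc 0 (0 + H)).filter (fun k => Good (P * k * n))).card +
        ((Ioc 0 (0 + H)).filter (fun k => ¬ Good (P * k * n))).card = H := by
      rw [card_filter_add_card_filter_not, Nat.card_Ioc, zero_add, Nat.sub_zero]
    have h7 : (((Ioc 0 (0 + H)).filter (fun k => Good (P * k * n))).card : ℝ) +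
        (((Ioc 0 (0 + H)).filter (fun k => ¬ Good (P * k * n))).card : ℝ) = H := by exact_mod_cast h6
    linarith
  have h5 : ∑ n ∈ F, (((Ioc 0 (0 + H)).filter (fun k => ¬ Good (P * k * n))).card : ℝ) ≤
      F.card * (ε / 2 * H) := by
    calc ∑ n ∈ F, (((Ioc 0 (0 + H)).filter (fun k => ¬ Good (P * k * n))).card : ℝ)
        ≤ ∑ _n ∈ F, ε / 2 * (H : ℝ) := sum_le_sum h4
      _ = _ := by rw [sum_const, nsmul_eq_mul]
  rw [h3] at h2
  have h6 : (H : ℝ) * Bd ≤ H * (ε * F.card) := by nlinarith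
  have h7 : (Bd : ℝ) ≤ ε * F.card := le_of_mul_le_mul_left h6 (by linarith)
  linarith

end Pool.Agent.Y877
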