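import Mathlib
import Pool.Agent.W473.UBCB
import Pool.Agent.W25.UB.FinalT
import Pool.Agent.Y877.Consec
import Pool.Agent.Y877.FVer
import Pool.Agent.Y877.Divis

/-! Almost all multipliers, gaps between consecutive primes: final forms (helper877). -/

set_option autoImplicit false

namespace Pool.Agent.Y877

open Finset Filter Topology
open Pool.Agent.W59.GB

/-- `N d` is, for every `η > 0` and arbitrarily large `x`, the gap `p_(l+1) - p_l` for at least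
`x ^ (1 - η)` of the `l` with `p_l ≤ x` and `p_l ≡ a (mod N)`. -/
def IsGap (N a d : ℕ) : Prop := ∀ η : ℝ, 0 < η → ∃ᶠ x : ℝ in atTop,
  x ^ (1 - η) ≤ ({l : ℕ | (Nat.nth Nat.Prime l : ℝ) ≤ x ∧ Nat.nth Nat.Prime l ≡ a [MOD N] ∧
    Nat.nth Nat.Prime (l + 1) = Nat.nth Nat.Prime l + N * d}.ncard : ℝ)

open Classical in
/-- windows -/
theorem consecW (m : Fin 4 → ℕ) (hm : Function.Injective m) (ε : ℝ) (hε : 0 < ε) :
    ∃ L : ℕ, ∀ N a : ℕ, Squarefree N → 2 ∣ N → a.Coprime N → ∀ b : ℕ, 1 ≤ b →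
    (∀ p : ℕ, p.Prime → ¬ p ∣ N → ∃ r : ℤ, ∀ i, ¬ (p : ℤ) ∣ b * m i + r) →
    ∀ u T : ℕ, L ≤ T →
    (1 - ε) * (T : ℝ) ≤ (((Ioc u (u + T)).filter
      (fun k => ∃ i j, m i < m j ∧ IsGap N a (b * ((m j - m i) * k)))).card : ℝ) := by
  obtain ⟨L, hL⟩ := consecAll (Pool.Agent.W473.UBCB.main Pool.Agent.W25.UB.thmVG) m hm ε hε
  refine ⟨L, fun N a hsq h2 ha b hb hadm u T hT => ?_⟩
  refine (hL N a (Nat.pos_of_ne_zero hsq.ne_zero) h2 hsq ha b hb hadm T hT u).trans ?_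
  rw [Nat.cast_le]
  apply card_le_card
  intro k hk
  rw [mem_filter] at hk ⊢
  refine ⟨hk.1, ?_⟩
  obtain ⟨i, j, hij, h⟩ := hk.2
  exact ⟨i, j, hij, fun η hη => nthB h η hη⟩

end Pool.Agent.Y877
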