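import Mathlib
import Pool.Agent.Y877.AlmostAll
import Pool.Agent.Y877.FVer
import Pool.Agent.Y877.Divis

/-! Windows, almost invariant sets and divisors together (helper877). -/

set_option autoImplicit false

namespace Pool.Agent.Y877

open Finset Filter Topology Pool.Agent.TH899.UG.TD

/-- The number of the primes `p` with `p ≡ a (mod q)` and `x ≤ p` for which `p + d` is a prime and
`p + d ≤ (1 + s) x`. -/
noncomputable def twins (s : ℝ) (x q a d : ℕ) : ℕ :=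
  {p : ℕ | p.Prime ∧ (p + d).Prime ∧ p ≡ a [MOD q] ∧ (x : ℝ) ≤ p ∧
    ((p + d : ℕ) : ℝ) ≤ (1 + s) * x}.ncard

/-- There are `M + 1` of the numbers `m i` such that for ALL differences `m j - m i > 0` between two of them
the number `(m j - m i) d` is a difference of two primes at the scale `x`, with at least `x ^ (1 - η)` pairs
of primes. -/
def Clique {T : ℕ} (m : Fin T → ℕ) (M : ℕ) (s η : ℝ) (x q a d : ℕ) : Prop :=
  ∃ S : Finset (Fin T), M + 1 ≤ S.card ∧ ∀ i ∈ S, ∀ j ∈ S, m i < m j →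
    (x : ℝ) ^ (1 - η) ≤ twins s x q a ((m j - m i) * d)

/-- `F` is almost invariant under the multiplication by the numbers up to `C`. -/
def AInv (C : ℕ) (F : Finset ℕ) : Prop :=
  ∀ k, 1 ≤ k → k ≤ C → C * (F.filter (fun n => k * n ∉ F)).card ≤ F.card

theorem AInv.mono {C C' : ℕ} {F : Finset ℕ} (h : AInv C' F) (hC : C ≤ C') : AInv C F :=
  fun k hk hkC => (Nat.mul_le_mul_right _ hC).trans (h k hk (hkC.trans hC))

open Classical in
/-- everything together -/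
theorem almostAll3 : ∃ c : ℝ, 0 < c ∧ c < 1 ∧ ∀ T M : ℕ, 1 ≤ T → (4 - c) * M < T →
    ∀ m : Fin T → ℕ, Function.Injective m → ∀ ε s : ℝ, 0 < ε → 0 < s →
    ∃ C : ℕ, 1 ≤ C ∧ ∀ q : ℕ, 1 ≤ q → ∀ η : ℝ, 0 < η →
    ∀ᶠ x : ℕ in atTop, ∀ a : ℕ, a.Coprime q →
    (∀ F : Finset ℕ, AInv C F → (∀ n ∈ F, 1 ≤ n ∧ C * (q ^ 2 * n) ≤ x) →
      (1 - ε) * (F.card : ℝ) ≤ ((F.filter (fun n => Clique m M s η x q a (q * n))).card : ℝ)) ∧
    (∀ N : ℕ, 1 ≤ N → C ∣ N → C * (q ^ 2 * N) ≤ x →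
      (1 - ε) * (N.divisors.card : ℝ) ≤
        ((N.divisors.filter (fun n => Clique m M s η x q a (q * n))).card : ℝ)) ∧
    (∀ b : ℕ, 1 ≤ b → (∀ p : ℕ, p.Prime → ∃ r : ℤ, ∀ g, ¬ (p : ℤ) ∣ b * m g + r) →
      ∀ u H : ℕ, C ≤ H → C * (q ^ 2 * b * (u + H)) ≤ x →
      (1 - ε) * (H : ℝ) ≤
        (((Ioc u (u + H)).filter (fun k : ℕ => Clique m M s η x q a (q * b * k))).card : ℝ)) := by
  obtain ⟨c, hc, hc1, HC⟩ := almostAll
  refine ⟨c, hc, hc1, fun T M hT hTM m hm ε s hε hs => ?_⟩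
  have hcl : ∀ (x q a : ℕ) (η : ℝ) (b k : ℕ), Clique m M s η x q a (q * b * k) ↔
      ∃ S : Finset (Fin T), M + 1 ≤ S.card ∧ ∀ i ∈ S, ∀ j ∈ S, m i < m j →
          (x : ℝ) ^ (1 - η) ≤ prq s x q a (q * b * ((m j - m i) * k)) := by
    intro x q a η b k
    have e : ∀ i j : Fin T, (m j - m i) * (q * b * k) = q * b * ((m j - m i) * k) := fun i j => by ring
    unfold Clique twins prq
    simp only [e]
  obtain ⟨C₁, HC₁⟩ := HC T M hT hTM m hm ε s hε hs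
  obtain ⟨C₂, HC₂⟩ := HC T M hT hTM m hm (ε / 2) s (by positivity) hs
  obtain ⟨R, hR⟩ := exists_nat_ge (2 / ε)
  obtain ⟨H, hH⟩ : ∃ H, H = C₂ + 1 := ⟨_, rfl⟩
  obtain ⟨P, hP⟩ : ∃ P, P = T.factorial := ⟨_, rfl⟩
  have hP1 : 1 ≤ P := by rw [hP]; exact Nat.factorial_pos _
  obtain ⟨C₃, hC₃⟩ : ∃ C₃, C₃ = R + P * H + C₂ * P * H + 1 := ⟨_, rfl⟩
  obtain ⟨M₀, hM₀, hdiv⟩ := divisors_inv C₃
  -- the almost invariant sets
  have hF : ∀ q : ℕ, 1 ≤ q → ∀ η : ℝ, 0 < η →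
    ∀ᶠ x : ℕ in atTop, ∀ a : ℕ, a.Coprime q →
    (∀ F : Finset ℕ, AInv C₃ F → (∀ n ∈ F, 1 ≤ n ∧ C₃ * (q ^ 2 * n) ≤ x) →
      (1 - ε) * (F.card : ℝ) ≤ ((F.filter (fun n => Clique m M s η x q a (q * n))).card : ℝ)) := by
    intro q hq η hη
    filter_upwards [HC₂ q hq η hη] with x hx a ha F hinv hFx
    have hPH : P * H ≤ C₃ := by rw [hC₃]; omega
    have hRC : (R : ℝ) ≤ C₃ := by
      have : R ≤ C₃ := by rw [hC₃]; omega
      exact_mod_cast this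
    have h2 : 2 ≤ ε * C₃ := by
      have h3 : 2 / ε ≤ C₃ := hR.trans hRC
      rw [div_le_iff₀ hε] at h3
      linarith
    refine avgF F (fun n => Clique m M s η x q a (q * n)) P H C₃ ε hε (by omega) hP1 h2 hPH hinv ?_
    intro n hn
    obtain ⟨hn1, hnx⟩ := hFx n hn
    have h4 := hx a ha (P * n) (Nat.mul_pos hP1 hn1) (by
      intro p hp
      rw [hP]
      exact adm_fact T n m p hp) 0 H (by omega) (by
      refine le_trans ?_ hnx
      calc C₂ * (q ^ 2 * (P * n) * (0 + H)) = (C₂ * P * H) * (q ^ 2 * n) := by ring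
        _ ≤ C₃ * (q ^ 2 * n) := Nat.mul_le_mul_right _ (by rw [hC₃]; omega))
    refine h4.trans ?_
    rw [Nat.cast_le]
    apply card_le_card
    intro k hk
    rw [mem_filter] at hk ⊢
    refine ⟨hk.1, ?_⟩
    have h5 := (hcl x q a η (P * n) k).2 hk.2
    have h6 : q * (P * n) * k = q * (P * k * n) := by ring
    rw [h6] at h5
    exact h5
  obtain ⟨C, hC⟩ : ∃ C, C = C₃ * (M₀ * (C₁ + 1)) := ⟨_, rfl⟩
  have hC₃1 : 1 ≤ C₃ := by rw [hC₃]; omega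
  have hM₀1 : 1 ≤ M₀ * (C₁ + 1) := Nat.mul_pos hM₀ (by omega)
  have hC₃C : C₃ ≤ C := by
    rw [hC]
    exact Nat.le_mul_of_pos_right _ hM₀1
  have hC₁C : C₁ ≤ C := by
    rw [hC]
    calc C₁ ≤ C₁ + 1 := Nat.le_succ _
      _ ≤ M₀ * (C₁ + 1) := Nat.le_mul_of_pos_left _ hM₀
      _ ≤ C₃ * (M₀ * (C₁ + 1)) := Nat.le_mul_of_pos_left _ hC₃1
  refine ⟨C, hC₃1.trans hC₃C, fun q hq η hη => ?_⟩
  filter_upwards [hF q hq η hη, HC₁ q hq η hη] with x hx1 hx2 a ha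
  refine ⟨fun F hinv hFx => hx1 a ha F (hinv.mono hC₃C) fun n hn => ⟨(hFx n hn).1,
    (Nat.mul_le_mul_right _ hC₃C).trans (hFx n hn).2⟩, fun N hN hCN hNx => ?_,
    fun b hb hadm u H hCH hHx => ?_⟩
  · refine hx1 a ha N.divisors ?_ fun n hn => ⟨Nat.pos_of_mem_divisors hn, ?_⟩
    · refine hdiv N hN (Dvd.dvd.trans ?_ hCN)
      rw [hC]
      exact ⟨C₃ * (C₁ + 1), by ring⟩
    · refine le_trans ?_ hNx
      exact Nat.mul_le_mul hC₃C (Nat.mul_le_mul_left _ (Nat.divisor_le hn))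
  · refine (hx2 a ha b hb hadm u H (hC₁C.trans hCH) ((Nat.mul_le_mul_right _ hC₁C).trans hHx)).trans ?_
    rw [Nat.cast_le]
    apply card_le_card
    intro k hk
    rw [mem_filter] at hk ⊢
    exact ⟨hk.1, (hcl x q a η b k).2 hk.2⟩

end Pool.Agent.Y877
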