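import Mathlib
import Pool.Agent.Y877.Lim

/-! The limit object, general form (helper877). -/

set_option autoImplicit false

namespace Pool.Agent.Y877

open Finset Filter Topology

open Classical in
/-- **The limit object, general form.** -/
theorem limU (d ε : ℝ) (hε : 0 < ε) (hd0 : 0 ≤ d) (hε1 : ε ≤ 1) (W : ℕ) (hW : 1 ≤ W)
    (F : ℕ → Finset ℕ) (Bad : ℕ → Set ℕ) (hFne : ∀ j, (F j).Nonempty)
    (hinv : ∀ j k, 1 ≤ k → k ≤ j → j * ((F j).filter (fun m => k * m ∉ F j)).card ≤ (F j).card)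
    (hden : ∀ j, (d + 3 * ε) * (F j).card ≤ (((F j).filter (fun m => m ∈ Bad j)).card : ℝ)) :
    ∃ U : Set ℤ, (∀ M : ℕ, 1 ≤ M → ∃ Q : ℕ, 1 ≤ Q ∧ M ∣ Q ∧ ∀ L₀ : ℕ, ∃ L : ℕ, L₀ ≤ L ∧ ∃ u : ℤ,
      (d + ε) * L ≤ ({n : ℕ | n < L ∧ (Q : ℤ) * (u + (n : ℤ)) ∈ U}.ncard : ℝ)) ∧
      ∀ Z : Finset ℤ, (∀ z ∈ Z, z ∈ U) → ∀ t, ∃ j, t ≤ j ∧ ∃ m ∈ F j, ∀ z ∈ Z, z ≠ 0 ∧
        W * z.natAbs * m ∈ Bad j := by
  -- the space of pairs
  obtain ⟨F', hF'⟩ : ∃ F' : ℕ → Finset (ℕ × ℕ), F' = fun j => (F j).map ⟨fun m => (j, m), fun a b h => by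
    simpa using h⟩ := ⟨_, rfl⟩
  have hF'c : ∀ j, (F' j).card = (F j).card := fun j => by rw [hF', card_map]
  have hfilt : ∀ j (P : ℕ × ℕ → Prop), ((F' j).filter P).card = ((F j).filter (fun m => P (j, m))).card := by
    intro j P
    rw [hF', filter_map, card_map]
    rfl
  obtain ⟨E, hE⟩ : ∃ E : ℕ → ℕ → Set (ℕ × ℕ), E = fun i L => {w | (d + ε) * L ≤
      (((range L).filter (fun l => W * i.factorial * (l + 1) * w.2 ∈ Bad w.1)).card : ℝ)} := ⟨_, rfl⟩
  obtain ⟨N, hN⟩ : ∃ N : ℕ → Set (ℕ × ℕ), N = fun t => {w | ¬ (t ≤ w.1 ∧ w.2 ∈ F w.1)} := ⟨_, rfl⟩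
  obtain ⟨p, hp1, hp2⟩ := Gen.generic F' (fun j => by
      rw [← card_pos, hF'c]
      exact (hFne j).card_pos) ε hε E (fun i L => by
      obtain ⟨R, hR⟩ := exists_nat_ge (1 / ε)
      filter_upwards [eventually_ge_atTop (R + W * i.factorial * L + 1)] with j hj
      rw [hF'c, hfilt, hE]
      show ε * (F j).card ≤ (((F j).filter (fun m => (d + ε) * L ≤
        (((range L).filter (fun l => W * i.factorial * (l + 1) * m ∈ Bad j)).card : ℝ))).card : ℝ)
      rcases Nat.eq_zero_or_pos L with hL | hL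
      · subst hL
        have h1 : (F j).filter (fun m => (d + ε) * ((0 : ℕ) : ℝ) ≤
            (((range 0).filter (fun l => W * i.factorial * (l + 1) * m ∈ Bad j)).card : ℝ)) = F j := by
          apply filter_true_of_mem
          intro m _
          simp
        rw [h1]
        have h2 : (0 : ℝ) ≤ (F j).card := Nat.cast_nonneg _
        nlinarith
      · have hif := Nat.factorial_pos i
        refine avgs (F j) (Bad j) L hL (fun l => W * i.factorial * (l + 1)) (fun l _ => ?_) d ε hε j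
          ?_ (fun l hl => ?_) (hden j) (by linarith)
        · have : 0 < W * i.factorial * (l + 1) := by positivity
          omega
        · have h1 : (R : ℝ) ≤ j := by exact_mod_cast (by omega : R ≤ j)
          have h2 : 1 / ε ≤ (j : ℝ) := hR.trans h1
          rw [div_le_iff₀ hε] at h2
          linarith
        · apply hinv
          · have : 0 < W * i.factorial * (l + 1) := by positivity
            omega
          · have : W * i.factorial * (l + 1) ≤ W * i.factorial * L := Nat.mul_le_mul_left _ hl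
            omega)
    N (fun t => by
      filter_upwards [eventually_ge_atTop t] with j hj
      rw [hfilt, card_eq_zero]
      apply filter_false_of_mem
      intro m hm
      rw [hN]
      show ¬ ¬ (t ≤ j ∧ m ∈ F j)
      exact not_not.2 ⟨hj, hm⟩)
  obtain ⟨U, hU⟩ : ∃ U : Set ℤ, U = {z : ℤ | z ≠ 0 ∧ {w : ℕ × ℕ | W * z.natAbs * w.2 ∈ Bad w.1} ∈ p} :=
    ⟨_, rfl⟩
  refine ⟨U, fun M hM => ?_, fun Z hZ t => ?_⟩
  · obtain ⟨i, hi, hiM⟩ := (hp1.and_eventually (eventually_ge_atTop M)).exists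
    refine ⟨i.factorial, Nat.factorial_pos i, Nat.dvd_factorial hM hiM, fun L₀ => ?_⟩
    obtain ⟨L, hL, hLL⟩ := (hi.and_eventually (eventually_ge_atTop L₀)).exists
    refine ⟨L, hLL, 1, ?_⟩
    obtain ⟨Al, hAl⟩ : ∃ Al : ℕ → Set (ℕ × ℕ), Al = fun l => {w : ℕ × ℕ |
      W * i.factorial * (l + 1) * w.2 ∈ Bad w.1} := ⟨_, rfl⟩
    obtain ⟨w, hw, hw2⟩ := fin_mem p (range L) (fun l => if Al l ∈ p then Al l else (Al l)ᶜ)
      (fun l _ => by
        by_cases h : Al l ∈ p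
        · rw [if_pos h]; exact h
        · rw [if_neg h]; exact Ultrafilter.compl_mem_iff_notMem.2 h) (E i L) hL
    rw [hE] at hw
    have hw' : (d + ε) * L ≤
      (((range L).filter (fun l => W * i.factorial * (l + 1) * w.2 ∈ Bad w.1)).card : ℝ) := hw
    refine hw'.trans ?_
    rw [Nat.cast_le, ← Set.ncard_coe_finset]
    refine Set.ncard_le_ncard ?_ ((Set.finite_Iio L).subset fun k hk => hk.1)
    intro l hl
    obtain ⟨hl1, hl2⟩ := mem_filter.1 (mem_coe.1 hl)
    have hl3 := mem_range.1 hl1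
    refine ⟨hl3, ?_⟩
    have h4 : w ∈ Al l := by rw [hAl]; exact hl2
    have h5 : Al l ∈ p := by
      by_contra h
      have h6 := hw2 l hl1
      rw [if_neg h] at h6
      exact h6 h4
    rw [hU]
    have hif : 0 < i.factorial := Nat.factorial_pos i
    have hifz : (0 : ℤ) < i.factorial := by exact_mod_cast hif
    refine ⟨?_, ?_⟩
    · have : (0 : ℤ) < (i.factorial : ℤ) * (1 + (l : ℤ)) := by positivity
      exact this.ne'
    · have e1 : ((i.factorial : ℤ) * (1 + (l : ℤ))).natAbs = i.factorial * (l + 1) := by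
        have : (i.factorial : ℤ) * (1 + (l : ℤ)) = ((i.factorial * (l + 1) : ℕ) : ℤ) := by
          push_cast; ring
        rw [this, Int.natAbs_natCast]
      have e2 : {w : ℕ × ℕ | W * ((i.factorial : ℤ) * (1 + (l : ℤ))).natAbs * w.2 ∈ Bad w.1} = Al l := by
        rw [hAl, e1]
        ext w
        show W * (i.factorial * (l + 1)) * w.2 ∈ Bad w.1 ↔ W * i.factorial * (l + 1) * w.2 ∈ Bad w.1
        rw [← mul_assoc W]
      show {w : ℕ × ℕ | W * ((i.factorial : ℤ) * (1 + (l : ℤ))).natAbs * w.2 ∈ Bad w.1} ∈ p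
      rw [e2]
      exact h5
  · obtain ⟨w, hw, hw2⟩ := fin_mem p Z (fun z => {w : ℕ × ℕ | W * z.natAbs * w.2 ∈ Bad w.1}) (fun z hz => by
      have h1 := hZ z hz
      rw [hU] at h1
      exact h1.2) (N t)ᶜ (hp2 t)
    rw [hN] at hw
    have hw' : t ≤ w.1 ∧ w.2 ∈ F w.1 := not_not.1 hw
    refine ⟨w.1, hw'.1, w.2, hw'.2, fun z hz => ⟨?_, hw2 z hz⟩⟩
    have h1 := hZ z hz
    rw [hU] at h1
    exact h1.1

end Pool.Agent.Y877
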