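import Mathlib
import Pool.Agent.Y877.Lim
import Pool.Agent.Y877.Core
import Pool.Agent.Y877.Adm
import Pool.Agent.W142.TF.Sel

/-! More than half of the members of every almost multiplicatively invariant finite set (helper877). -/

set_option autoImplicit false

namespace Pool.Agent.Y877

open Finset Filter Topology Pool.Agent.TH899.UG.TD Pool.Agent.W142.TB

/-- admissibility of multiples of a factorial -/
theorem admW (n K : ℕ) (A : Fin n → Fin K → ℕ) (hA : ∀ g i, (n * K).factorial ∣ A g i)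
    (p : ℕ) (hp : p.Prime) : ∃ z : ℤ, ∀ g i, ¬ ((p : ℤ) ∣ (A g i : ℤ) + z) := by
  classical
  have hpp : Prime (p : ℤ) := Nat.prime_iff_prime_int.1 hp
  by_cases hpT : p ≤ n * K
  · refine ⟨1, fun g i h => ?_⟩
    have h1 : (p : ℤ) ∣ (A g i : ℤ) := by
      exact_mod_cast ((hp.dvd_factorial).2 hpT).trans (hA g i)
    have h2 : (1 : ℤ) = ((A g i : ℤ) + 1) - A g i := by ring
    have h3 : (p : ℤ) ∣ 1 := by
      rw [h2]
      exact dvd_sub h h1
    exact hpp.not_isUnit (isUnit_of_dvd_one h3)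
  · obtain ⟨z, hz⟩ := exresA p ((univ : Finset (Fin n × Fin K)).image
      (fun z => ((A z.1 z.2 : ℕ) : ℤ))) (by
      refine card_image_le.trans_lt ?_
      rw [card_univ, Fintype.card_prod, Fintype.card_fin, Fintype.card_fin]; omega)
    refine ⟨z, fun g i h => hz _ (mem_image.2 ⟨(g, i), mem_univ _, rfl⟩) ?_⟩
    rw [add_comm]
    exact h

open Classical in
/-- **More than half.** -/
theorem moreHalf (hS : S_maiB) : ∃ δ : ℝ, 0 < δ ∧ ∀ s : ℝ, 0 < s → ∃ K : ℕ, 1 ≤ K ∧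
    ∀ q : ℕ, 1 ≤ q → ∀ η : ℝ, 0 < η → ∀ᶠ x : ℕ in atTop, ∀ a : ℕ, a.Coprime q →
    ∀ F : Finset ℕ, F.Nonempty → (∀ m ∈ F, 0 < m ∧ K * (q ^ 2 * m) ≤ x) →
    (∀ k, 1 ≤ k → k ≤ K → K * (F.filter (fun m => k * m ∉ F)).card ≤ F.card) →
    (1 / 2 + δ) * (F.card : ℝ) ≤
      ((F.filter (fun m => (x : ℝ) ^ (1 - η) ≤ prq s x q a (q * m))).card : ℝ) := by
  obtain ⟨c, hc, hc1, HC⟩ := coreX
  obtain ⟨β, hβ⟩ : ∃ β : ℝ, β = 1 / (4 - c) := ⟨_, rfl⟩
  have h4 : 0 < 4 - c := by linarith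
  have hβ5 : 1 / 5 ≤ β := by
    rw [hβ, div_le_div_iff₀ (by norm_num) h4]; linarith
  have hβ2 : β ≤ 1 / 2 := by
    rw [hβ, div_le_div_iff₀ h4 (by norm_num)]; linarith
  have hβc : 1 / 2 + c / 8 ≤ 2 * β := by
    have e : β * (4 - c) = 1 := by rw [hβ]; field_simp
    nlinarith
  obtain ⟨n₀, hn₀⟩ := lim hS β (c / 64) hβ5 hβ2 (by positivity) (by linarith)
  obtain ⟨n, hn⟩ : ∃ n, n = max n₀ 1 := ⟨_, rfl⟩
  have hnn₀ : n₀ ≤ n := by omega
  have hn1 : 1 ≤ n := by omega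
  have hn1' : (1 : ℝ) ≤ n := by exact_mod_cast hn1
  -- the number of classes
  obtain ⟨M', hM'⟩ : ∃ M', M' = ⌈β * n⌉₊ - 1 := ⟨_, rfl⟩
  have hβn : 0 < β * n := by
    have : 0 < β := by linarith
    positivity
  have hceil : 0 < ⌈β * n⌉₊ := Nat.ceil_pos.2 hβn
  have hM'1 : M' + 1 = ⌈β * n⌉₊ := by omega
  have hM'lt : (M' : ℝ) < β * n := by
    have h := Nat.ceil_lt_add_one hβn.le
    have h2 : ((M' + 1 : ℕ) : ℝ) = (⌈β * n⌉₊ : ℝ) := by rw [hM'1]
    push_cast at h2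
    linarith
  have hM'n : (4 - c) * M' < n := by
    have h : (4 - c) * M' < (4 - c) * (β * n) := mul_lt_mul_of_pos_left hM'lt h4
    have e : (4 - c) * (β * n) = n := by rw [hβ]; field_simp
    linarith
  refine ⟨c / 16, by positivity, fun s hs => ?_⟩
  obtain ⟨Kc, C, hKc, HC⟩ := HC n M' hn1 hM'n s hs
  by_contra hcon
  push Not at hcon
  obtain ⟨W, hW⟩ : ∃ W : ℕ, W = (n * Kc).factorial := ⟨_, rfl⟩
  have hW1 : 1 ≤ W := by rw [hW]; exact Nat.factorial_pos _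
  have hex : ∀ j : ℕ, ∃ (q : ℕ) (η : ℝ) (x a : ℕ) (F : Finset ℕ), F.Nonempty ∧
      (∀ m ∈ F, 0 < m ∧ (j + 1) * (q ^ 2 * m) ≤ x) ∧
      (∀ k, 1 ≤ k → k ≤ j + 1 → (j + 1) * (F.filter (fun m => k * m ∉ F)).card ≤ F.card) ∧
      ((F.filter (fun m => (x : ℝ) ^ (1 - η) ≤ prq s x q a (q * m))).card : ℝ) <
        (1 / 2 + c / 16) * (F.card : ℝ) ∧
      ∀ A : Fin n → Fin Kc → ℕ,
      (Function.Injective (fun z : Fin n × Fin Kc => A z.1 z.2)) →
      (∀ g i, C * (q ^ 2 * A g i) ≤ x) →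
      (∀ p : ℕ, p.Prime → ∃ n : ℤ, ∀ g i, ¬ ((p : ℤ) ∣ (A g i : ℤ) + n)) →
      ∃ (S : Finset (Fin n)) (σ : Fin n → Fin Kc), M' + 1 ≤ S.card ∧
        ∀ i ∈ S, ∀ j ∈ S, A i (σ i) < A j (σ j) →
          (x : ℝ) ^ (1 - η) ≤ prq s x q a (q * (A j (σ j) - A i (σ i))) := by
    intro j
    obtain ⟨q, hq, η, hη, hfr⟩ := hcon (j + 1) (by omega)
    obtain ⟨x, hx1, hx2⟩ := (hfr.and_eventually (HC q hq η hη)).exists
    obtain ⟨a, ha, F, hF, h1, h2, h3⟩ := hx1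
    exact ⟨q, η, x, a, F, hF, h1, h2, h3, hx2 a ha⟩
  choose q η x a F hFne hFx hFinv hFgood hcore using hex
  obtain ⟨Bad, hBad⟩ : ∃ Bad : ℕ → Set ℕ, Bad = fun j => {m | ¬ (x j : ℝ) ^ (1 - η j) ≤
    prq s (x j) (q j) (a j) (q j * m)} := ⟨_, rfl⟩
  obtain ⟨Q, A, s', hs', hQ1, hinj, hfin⟩ := hn₀ n hnn₀ (n * Kc) W hW1 F Bad hFne
    (fun j k hk hkj => by
      refine le_trans ?_ (hFinv j k hk (by omega))
      exact Nat.mul_le_mul_right _ (by omega))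
    (fun j => by
      have h1 : ((F j).filter (fun m => (x j : ℝ) ^ (1 - η j) ≤ prq s (x j) (q j) (a j) (q j * m))).card +
          ((F j).filter (fun m => m ∈ Bad j)).card = (F j).card := by
        have e : (F j).filter (fun m => m ∈ Bad j) = (F j).filter (fun m =>
            ¬ (x j : ℝ) ^ (1 - η j) ≤ prq s (x j) (q j) (a j) (q j * m)) := by
          refine filter_congr fun m _ => ?_
          rw [hBad]
          exact Iff.rfl
        rw [e]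
        exact card_filter_add_card_filter_not _
      have h2 : (((F j).filter (fun m => (x j : ℝ) ^ (1 - η j) ≤ prq s (x j) (q j) (a j) (q j * m))).card : ℝ) +
          (((F j).filter (fun m => m ∈ Bad j)).card : ℝ) = ((F j).card : ℝ) := by exact_mod_cast h1
      have h3 := hFgood j
      have h5 : (0 : ℝ) ≤ (F j).card := Nat.cast_nonneg _
      nlinarith)
  obtain ⟨σ, hσ1, hσ2⟩ := Pool.Agent.W142.TF.select_aux n Kc (fun g i => (Q g : ℤ) * A g i) (fun g => by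
    intro x hx y hy hxy
    have hQ0 : (Q g : ℤ) ≠ 0 := by have := hQ1 g; omega
    exact hinj g hx hy (mul_left_cancel₀ hQ0 hxy)) n le_rfl
  -- the shift
  obtain ⟨C₀, hC₀⟩ : ∃ C₀ : ℤ, C₀ = ∑ z : Fin n × Fin Kc, |(Q z.1 : ℤ) * A z.1 (σ z.1 z.2)| := ⟨_, rfl⟩
  have hC₀1 : ∀ (g : Fin n) (i : Fin Kc), 0 ≤ (Q g : ℤ) * A g (σ g i) + C₀ := by
    intro g i
    have h1 : |(Q g : ℤ) * A g (σ g i)| ≤ C₀ := by
      rw [hC₀]
      exact single_le_sum (f := fun z : Fin n × Fin Kc => |(Q z.1 : ℤ) * A z.1 (σ z.1 z.2)|)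
        (fun _ _ => abs_nonneg _) (mem_univ (g, i))
    have h2 := neg_abs_le ((Q g : ℤ) * A g (σ g i))
    linarith
  obtain ⟨H, hH⟩ : ∃ H : Fin n → Fin Kc → ℕ, H = fun (g : Fin n) (i : Fin Kc) =>
    ((Q g : ℤ) * A g (σ g i) + C₀).toNat := ⟨_, rfl⟩
  have hHz : ∀ g i, (H g i : ℤ) = (Q g : ℤ) * A g (σ g i) + C₀ := by
    intro g i
    rw [hH]
    exact Int.toNat_of_nonneg (hC₀1 g i)
  obtain ⟨R, hR⟩ : ∃ R : ℕ, ∀ g i, W * H g i ≤ R := by
    refine ⟨∑ z : Fin n × Fin Kc, W * H z.1 z.2, fun g i => ?_⟩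
    exact single_le_sum (f := fun z : Fin n × Fin Kc => W * H z.1 z.2)
      (fun _ _ => Nat.zero_le _) (mem_univ (g, i))
  obtain ⟨j, hj, m, hm, hbad⟩ := hfin (C * R)
  obtain ⟨hm0, hmx⟩ := hFx j m hm
  obtain ⟨S, τ, hScard, hSpr⟩ := hcore j (fun g i => W * H g i * m) (by
      rintro ⟨g, i⟩ ⟨g', i'⟩ h
      have h1 : W * H g i * m = W * H g' i' * m := h
      have h2 : W * H g i = W * H g' i' := Nat.eq_of_mul_eq_mul_right hm0 h1
      have h3 : H g i = H g' i' := Nat.eq_of_mul_eq_mul_left hW1 h2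
      have h5 : (Q g : ℤ) * A g (σ g i) = (Q g' : ℤ) * A g' (σ g' i') := by
        have h6 : (H g i : ℤ) = H g' i' := by exact_mod_cast h3
        rw [hHz, hHz] at h6
        linarith
      have h7 := hσ2 g g.2 g' g'.2 i i.2 i' i'.2 h5
      exact Prod.ext (Fin.ext h7.1) (Fin.ext h7.2))
    (fun g i => by
      calc C * (q j ^ 2 * (W * H g i * m)) = C * (W * H g i) * (q j ^ 2 * m) := by ring
        _ ≤ C * R * (q j ^ 2 * m) := Nat.mul_le_mul_right _ (Nat.mul_le_mul_left _ (hR g i))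
        _ ≤ (j + 1) * (q j ^ 2 * m) := Nat.mul_le_mul_right _ (by omega)
        _ ≤ x j := hmx)
    (fun p hp => admW n Kc _ (fun g i => by
      rw [← hW, mul_assoc]
      exact dvd_mul_right _ _) p hp)
  obtain ⟨i, hi, k, hk, hik⟩ := hs'.2 (S.map Fin.valEmbedding) (fun x hx => by
    rw [Finset.mem_map] at hx
    obtain ⟨y, _, rfl⟩ := hx
    exact mem_range.2 y.2) (by
      rw [card_map]
      refine (Nat.le_ceil _).trans ?_
      rw [← hM'1]
      exact_mod_cast hScard)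
  rw [Finset.mem_map] at hi hk
  obtain ⟨i', hi', rfl⟩ := hi
  obtain ⟨k', hk', rfl⟩ := hk
  obtain ⟨hne, hB⟩ := hbad k' k'.2 i' hik (σ k' (τ k')) (σ i' (τ i')) (hσ1 _ k'.2 _ (τ k').2)
    (hσ1 _ i'.2 _ (τ i').2)
  rw [hBad] at hB
  apply hB
  have hdiff : (Q k' : ℤ) * A k' (σ k' (τ k')) - (Q i' : ℤ) * A i' (σ i' (τ i')) =
      (H k' (τ k') : ℤ) - H i' (τ i') := by
    rw [hHz, hHz]; ring
  have hval : (Fin.valEmbedding k' : ℕ) = k' := rfl
  have hvali : (Fin.valEmbedding i' : ℕ) = i' := rfl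
  rw [hdiff] at hne ⊢
  rcases lt_or_gt_of_ne (fun h : H k' (τ k') = H i' (τ i') => hne (by rw [h]; ring)) with hlt | hlt
  · have h1 := hSpr k' hk' i' hi' (by
      show W * H k' (τ k') * m < W * H i' (τ i') * m
      exact Nat.mul_lt_mul_of_pos_right (Nat.mul_lt_mul_of_pos_left hlt hW1) hm0)
    have h2 : W * H i' (τ i') * m - W * H k' (τ k') * m = W * ((H k' (τ k') : ℤ) - H i' (τ i')).natAbs * m := by
      have h3 : ((H k' (τ k') : ℤ) - H i' (τ i')).natAbs = H i' (τ i') - H k' (τ k') := by omega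
      rw [h3, ← Nat.sub_mul, ← Nat.mul_sub]
    rw [h2] at h1
    exact h1
  · have h1 := hSpr i' hi' k' hk' (by
      show W * H i' (τ i') * m < W * H k' (τ k') * m
      exact Nat.mul_lt_mul_of_pos_right (Nat.mul_lt_mul_of_pos_left hlt hW1) hm0)
    have h2 : W * H k' (τ k') * m - W * H i' (τ i') * m = W * ((H k' (τ k') : ℤ) - H i' (τ i')).natAbs * m := by
      have h3 : ((H k' (τ k') : ℤ) - H i' (τ i')).natAbs = H k' (τ k') - H i' (τ i') := by omega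
      rw [h3, ← Nat.sub_mul, ← Nat.mul_sub]
    rw [h2] at h1
    exact h1

end Pool.Agent.Y877
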