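import Mathlib
import Pool.Agent.W25.TF.Fin
import Pool.Agent.Y877.LimU
import Pool.Agent.Y877.Consec2
import Pool.Agent.Y877.MoreHalf
import Pool.Agent.Y877.FThm

/-! One half of the members of every almost multiplicatively invariant finite set are gaps between
consecutive primes (helper877). -/

set_option autoImplicit false

namespace Pool.Agent.Y877

open Finset Filter Topology
open Pool.Agent.W59.GB Pool.Agent.H947R3.GM Pool.Agent.W25.UB Pool.Agent.W25.TF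

open Classical in
theorem consecHalf (hS : S_maiF4) (hCB : St_CB) (ε : ℝ) (hε : 0 < ε) : ∃ K : ℕ, 1 ≤ K ∧
    ∀ N a : ℕ, Squarefree N → 2 ∣ N → a.Coprime N → ∀ F : Finset ℕ, (∀ n ∈ F, 1 ≤ n) → AInv K F →
    (1 / 2 - ε) * (F.card : ℝ) ≤ ((F.filter (fun n => n ∈ GapB N a)).card : ℝ) := by
  obtain ⟨Kc, hKc, hfour⟩ := four hCB
  by_contra hcon
  push Not at hcon
  have hε2 : ε ≤ 1 / 2 := by
    obtain ⟨N, a, -, -, -, F, -, -, h⟩ := hcon 1 le_rfl
    by_contra h2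
    push Not at h2
    have h3 : (0 : ℝ) ≤ F.card := Nat.cast_nonneg _
    have h4 : (0 : ℝ) ≤ ((F.filter (fun n => n ∈ GapB N a)).card : ℝ) := Nat.cast_nonneg _
    nlinarith
  choose N a hsq h2 ha F hFpos hFinv hFbad using fun j : ℕ => hcon (j + 1) (by omega)
  obtain ⟨W, hW⟩ : ∃ W : ℕ, W = (4 * Kc).factorial := ⟨_, rfl⟩
  have hW1 : 1 ≤ W := by rw [hW]; exact Nat.factorial_pos _
  have hFne : ∀ j, (F j).Nonempty := by
    intro j
    rw [nonempty_iff_ne_empty]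
    intro h
    have h1 := hFbad j
    rw [h] at h1
    simp at h1
  obtain ⟨Bad, hBad⟩ : ∃ Bad : ℕ → Set ℕ, ∀ j m, m ∈ Bad j ↔ m ∉ GapB (N j) (a j) :=
    ⟨fun j => {m | m ∉ GapB (N j) (a j)}, fun _ _ => Iff.rfl⟩
  obtain ⟨U, hU1, hU2⟩ := limU (1 / 2) (ε / 4) (by positivity) (by norm_num) (by linarith) W hW1 F Bad hFne
    (fun j k hk hkj => by
      refine le_trans ?_ (hFinv j k hk (by omega))
      exact Nat.mul_le_mul_right _ (by omega))
    (fun j => by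
      have h1 : ((F j).filter (fun m => m ∈ GapB (N j) (a j))).card +
          ((F j).filter (fun m => m ∈ Bad j)).card = (F j).card := by
        have e : (F j).filter (fun m => m ∈ Bad j) = (F j).filter (fun m => ¬ m ∈ GapB (N j) (a j)) := by
          refine filter_congr fun m _ => ?_
          exact hBad j m
        rw [e]
        exact card_filter_add_card_filter_not _
      have h2 : (((F j).filter (fun m => m ∈ GapB (N j) (a j))).card : ℝ) +
          (((F j).filter (fun m => m ∈ Bad j)).card : ℝ) = ((F j).card : ℝ) := by exact_mod_cast h1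
      have h3 := hFbad j
      have h5 : (0 : ℝ) ≤ (F j).card := Nat.cast_nonneg _
      nlinarith)
  obtain ⟨Q, A, hQ1, hinj, hUU⟩ := hS U (ε / 4) (by positivity) hU1 Kc
  obtain ⟨Z, hZ⟩ : ∃ Z : Finset ℤ, Z = ((univ : Finset ((Fin 4 × Fin Kc) × (Fin 4 × Fin Kc))).filter
      (fun z => z.1.1 < z.2.1)).image (fun z => (Q z.2.1 : ℤ) * A z.2.1 z.2.2 - (Q z.1.1 : ℤ) * A z.1.1 z.1.2) :=
    ⟨_, rfl⟩
  obtain ⟨j, -, m, hm, hbad⟩ := hU2 Z (fun z hz => by
    rw [hZ, mem_image] at hz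
    obtain ⟨⟨⟨g, i⟩, ⟨g', i'⟩⟩, hz1, rfl⟩ := hz
    have hlt : g < g' := (mem_filter.1 hz1).2
    exact hUU g g' hlt g'.2 i' i i'.2 i.2) 0
  have hm0 := hFpos j m hm
  -- the shift
  obtain ⟨C₀, hC₀⟩ : ∃ C₀ : ℤ, C₀ = ∑ z : Fin 4 × Fin Kc, |(Q z.1 : ℤ) * A z.1 z.2| := ⟨_, rfl⟩
  have hC₀1 : ∀ (g : Fin 4) (i : Fin Kc), 0 ≤ (Q g : ℤ) * A g i + C₀ := by
    intro g i
    have h1 : |(Q g : ℤ) * A g i| ≤ C₀ := by
      rw [hC₀]
      exact single_le_sum (f := fun z : Fin 4 × Fin Kc => |(Q z.1 : ℤ) * A z.1 z.2|)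
        (fun _ _ => abs_nonneg _) (mem_univ (g, i))
    have h2 := neg_abs_le ((Q g : ℤ) * A g i)
    linarith
  obtain ⟨H, hH⟩ : ∃ H : Fin 4 → Fin Kc → ℕ, H = fun (g : Fin 4) (i : Fin Kc) =>
    ((Q g : ℤ) * A g i + C₀).toNat := ⟨_, rfl⟩
  have hHz : ∀ g i, (H g i : ℤ) = (Q g : ℤ) * A g i + C₀ := by
    intro g i
    rw [hH]
    exact Int.toNat_of_nonneg (hC₀1 g i)
  have hdz : ∀ (g g' : Fin 4) (i i' : Fin Kc), g ≠ g' →
      (H g' i' : ℤ) - H g i ≠ 0 ∧ W * ((H g' i' : ℤ) - H g i).natAbs * m ∈ Bad j := by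
    intro g g' i i' hne
    have e : (H g' i' : ℤ) - H g i = (Q g' : ℤ) * A g' i' - (Q g : ℤ) * A g i := by
      rw [hHz, hHz]; ring
    rcases lt_or_gt_of_ne hne with hlt | hlt
    · rw [e]
      exact hbad _ (by
        rw [hZ, mem_image]
        exact ⟨⟨⟨g, i⟩, ⟨g', i'⟩⟩, mem_filter.2 ⟨mem_univ _, hlt⟩, rfl⟩)
    · have e2 : (H g' i' : ℤ) - H g i = -((Q g : ℤ) * A g i - (Q g' : ℤ) * A g' i') := by
        rw [hHz, hHz]; ring
      have h1 := hbad ((Q g : ℤ) * A g i - (Q g' : ℤ) * A g' i') (by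
        rw [hZ, mem_image]
        exact ⟨⟨⟨g', i'⟩, ⟨g, i⟩⟩, mem_filter.2 ⟨mem_univ _, hlt⟩, rfl⟩)
      rw [e2, Int.natAbs_neg]
      exact ⟨neg_ne_zero.2 h1.1, h1.2⟩
  have hHinj : Function.Injective (fun z : Fin 4 × Fin Kc => H z.1 z.2) := by
    rintro ⟨g, i⟩ ⟨g', i'⟩ h
    have h1 : H g i = H g' i' := h
    by_cases hgg : g = g'
    · subst hgg
      have h2 : (Q g : ℤ) * A g i = (Q g : ℤ) * A g i' := by
        have h3 : (H g i : ℤ) = H g i' := by exact_mod_cast h1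
        rw [hHz, hHz] at h3
        linarith
      have hQ0 : (Q g : ℤ) ≠ 0 := by have := hQ1 g; omega
      have h4 := hinj g i.2 i'.2 (mul_left_cancel₀ hQ0 h2)
      exact Prod.ext rfl (Fin.ext h4)
    · exact absurd (by rw [h1]; ring) (hdz g g' i i' hgg).1
  obtain ⟨g, g', i, i', hne, hlt, hgap⟩ := hfour (N j) (a j) (Nat.pos_of_ne_zero (hsq j).ne_zero) (h2 j) (hsq j) (ha j)
    (fun g i => W * H g i * m) ⟨by
      intro z z' h
      have h1 : W * H z.1 z.2 * m = W * H z'.1 z'.2 * m := h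
      have h2 : W * H z.1 z.2 = W * H z'.1 z'.2 := Nat.eq_of_mul_eq_mul_right hm0 h1
      exact hHinj (Nat.eq_of_mul_eq_mul_left hW1 h2), fun p hp _ => by
      obtain ⟨n, hn⟩ := admW 4 Kc (fun g i => W * H g i * m) (fun g i => by
        rw [← hW, mul_assoc]
        exact dvd_mul_right _ _) p hp
      refine ⟨n, fun g i h => hn g i ?_⟩
      rw [add_comm]
      exact h⟩
  obtain ⟨hz0, hzb⟩ := hdz g g' i i' hne
  rw [hBad] at hzb
  apply hzb
  have hlt2 : H g i < H g' i' := by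
    have h1 : W * H g i * m < W * H g' i' * m := hlt
    exact Nat.lt_of_mul_lt_mul_left (Nat.lt_of_mul_lt_mul_right h1)
  have h3 : ((H g' i' : ℤ) - H g i).natAbs = H g' i' - H g i := by omega
  rw [h3]
  have h4 : W * (H g' i' - H g i) * m = W * H g' i' * m - W * H g i * m := by
    rw [Nat.mul_sub, Nat.sub_mul]
  rw [h4]
  exact hgap

open Classical in
/-- final form -/
theorem consecHalfF (ε : ℝ) (hε : 0 < ε) : ∃ K : ℕ, 1 ≤ K ∧
    ∀ N a : ℕ, Squarefree N → 2 ∣ N → a.Coprime N → ∀ F : Finset ℕ, (∀ n ∈ F, 1 ≤ n) → AInv K F →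
    (1 / 2 - ε) * (F.card : ℝ) ≤ ((F.filter (fun n => IsGap N a n)).card : ℝ) := by
  obtain ⟨K, hK, h⟩ := consecHalf Pool.Agent.W25.TF.s_maiF4
    (Pool.Agent.W473.UBCB.main Pool.Agent.W25.UB.thmVG) ε hε
  refine ⟨K, hK, fun N a hsq h2 ha F hF hinv => (h N a hsq h2 ha F hF hinv).trans ?_⟩
  rw [Nat.cast_le]
  apply card_le_card
  intro n hn
  rw [mem_filter] at hn ⊢
  exact ⟨hn.1, fun η hη => nthB hn.2 η hη⟩

end Pool.Agent.Y877
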