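import Mathlib
import Pool.Agent.Y877.Core

/-! The coloured theorem at a given scale, simultaneous version (helper877). -/

set_option autoImplicit false

namespace Pool.Agent.Y877

open Finset Filter Topology Pool.Agent.TH899.UG.TD

/-- the number of the `p₀ = a mod q` such that all the `p₀ + q A g`, `g ∈ S`, are primes in
`[x, (1 + s) x]` -/
noncomputable def simul {T : ℕ} (s : ℝ) (x q a : ℕ) (S : Finset (Fin T)) (A : Fin T → ℕ) : ℕ :=
  {p : ℕ | p ≡ a [MOD q] ∧ (x : ℝ) ≤ p ∧ (p : ℝ) ≤ (1 + s) * x ∧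
    ∀ g ∈ S, (p + q * A g).Prime ∧ ((p + q * A g : ℕ) : ℝ) ≤ (1 + s) * x}.ncard

open Classical in
/-- **The coloured theorem at the scale `x`, simultaneous version.** -/
theorem coreXS : ∃ c : ℝ, 0 < c ∧ c < 1 ∧ ∀ T M : ℕ, 1 ≤ T → (4 - c) * M < T →
    ∀ s : ℝ, 0 < s → ∃ K C : ℕ, 1 ≤ K ∧ ∀ q : ℕ, 1 ≤ q → ∀ η : ℝ, 0 < η →
    ∀ᶠ x : ℕ in atTop, ∀ a : ℕ, a.Coprime q → ∀ A : Fin T → Fin K → ℕ,
      (Function.Injective (fun z : Fin T × Fin K => A z.1 z.2)) →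
      (∀ g i, C * (q ^ 2 * A g i) ≤ x) →
      (∀ p : ℕ, p.Prime → ∃ n : ℤ, ∀ g i, ¬ ((p : ℤ) ∣ (A g i : ℤ) + n)) →
      ∃ (S : Finset (Fin T)) (σ : Fin T → Fin K), M + 1 ≤ S.card ∧
        (x : ℝ) ^ (1 - η) ≤ simul s x q a S (fun g => A g (σ g)) := by
  obtain ⟨c, hc, hc1, HC⟩ := coreT
  refine ⟨c, hc, hc1, fun T M hT hTM s hs => ?_⟩
  obtain ⟨s', hs'⟩ : ∃ s', s' = min (s / 2) 1 := ⟨_, rfl⟩
  have hs'0 : 0 < s' := by rw [hs']; positivity
  have hs'1 : s' ≤ 1 := by rw [hs']; exact min_le_right _ _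
  have hs'2 : s' ≤ s / 2 := by rw [hs']; exact min_le_left _ _
  obtain ⟨K, hK, HC⟩ := HC T M hT hTM s' hs'0 hs'1
  obtain ⟨R₃, hR₃⟩ := exists_nat_ge (4 / s)
  refine ⟨K, R₃ + 1, hK, fun q hq η hη => ?_⟩
  have hdiv : Tendsto (fun x : ℕ => x / q + 1) atTop atTop :=
    tendsto_atTop.2 fun t => by
      filter_upwards [eventually_ge_atTop (t * q)] with x hx
      have : t ≤ x / q := (Nat.le_div_iff_mul_le (by omega)).2 hx
      omega
  obtain ⟨R₄, hR₄⟩ := exists_nat_ge (12 * (q : ℝ) / s)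
  filter_upwards [hdiv.eventually (HC q hq (min (η / 2) 1) (by positivity) (min_le_right _ _)),
    expo q hq η hη, eventually_ge_atTop (q * q), eventually_ge_atTop R₄, eventually_ge_atTop 1] with
    x hx hexp hxq hx4 hx1 a₀ ha₀ A hinj hAx hadm
  -- the residue
  obtain ⟨a, ha⟩ : ∃ a, a = a₀ % q := ⟨_, rfl⟩
  have haq : a < q := by rw [ha]; exact Nat.mod_lt _ (by omega)
  have haco : a.Coprime q := by
    rw [ha]
    show Nat.gcd (a₀ % q) q = 1
    rw [← Nat.gcd_rec, Nat.gcd_comm]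
    exact ha₀
  have haa : a ≡ a₀ [MOD q] := by rw [ha]; exact Nat.mod_modEq _ _
  obtain ⟨y, hy⟩ : ∃ y, y = x / q + 1 := ⟨_, rfl⟩
  rw [← hy] at hx hexp
  have hqy : x ≤ q * y := by
    rw [hy]
    exact (Nat.lt_mul_div_succ x (by omega : 0 < q)).le
  have hqy2 : q * y ≤ x + q := by
    rw [hy, mul_add, mul_one]
    have := Nat.mul_div_le x q
    omega
  have hqley : q ≤ y := by
    have : q ≤ x / q := (Nat.le_div_iff_mul_le (by omega)).2 hxq
    omega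
  -- sizes
  have hq1 : (1 : ℝ) ≤ q := by exact_mod_cast hq
  have hx0 : (0 : ℝ) ≤ x := Nat.cast_nonneg _
  have hqq : ∀ g i, q * A g i ≤ q ^ 2 * A g i := by
    intro g i
    have h1 : q ≤ q ^ 2 := by nlinarith
    exact Nat.mul_le_mul_right _ h1
  have hbigr : ∀ g i, ((q * A g i : ℕ) : ℝ) ≤ s / 4 * x := by
    intro g i
    have h1 : (R₃ : ℝ) * ((q * A g i : ℕ) : ℝ) ≤ x := by
      have : R₃ * (q * A g i) ≤ x :=
        (Nat.mul_le_mul (by omega : R₃ ≤ R₃ + 1) (hqq g i)).trans (hAx g i)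
      exact_mod_cast this
    have h2 : 4 / s * ((q * A g i : ℕ) : ℝ) ≤ x :=
      (mul_le_mul_of_nonneg_right hR₃ (Nat.cast_nonneg _)).trans h1
    have h4 : 4 / s * ((q * A g i : ℕ) : ℝ) = 4 * ((q * A g i : ℕ) : ℝ) / s := by ring
    rw [h4, div_le_iff₀ hs] at h2
    linarith
  have hbign : ∀ g i, q * A g i ≤ y := by
    intro g i
    have h1 : q * A g i ≤ x / q := by
      rw [Nat.le_div_iff_mul_le (by omega)]
      have h2 : q * A g i * q = 1 * (q ^ 2 * A g i) := by ring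
      rw [h2]
      exact (Nat.mul_le_mul_right _ (by omega)).trans (hAx g i)
    omega
  have hqs : 3 * (q : ℝ) ≤ s / 4 * x := by
    have h1 : 12 * (q : ℝ) / s ≤ x := hR₄.trans (by exact_mod_cast hx4)
    rw [div_le_iff₀ hs] at h1
    linarith
  obtain ⟨S, σ, hS, hcnt⟩ := hx (fun g i => a + q * A g i) (by
      intro z z' h
      apply hinj
      have h2 : a + q * A z.1 z.2 = a + q * A z'.1 z'.2 := h
      exact Nat.eq_of_mul_eq_mul_left (by omega : 0 < q) (Nat.add_left_cancel h2))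
    (fun g i => by
      have := hbign g i
      show a + q * A g i ≤ 9 * y
      omega)
    (fun p hp => adm_q q a haco p hp A (hadm p hp))
  refine ⟨S, σ, hS, ?_⟩
  refine hexp.trans (hcnt.trans ?_)
  rw [Nat.cast_le]
  obtain ⟨F, hF⟩ : ∃ F, F = (Icc 1 (8 * y)).filter (fun n : ℕ =>
        (y : ℝ) ≤ n ∧ (n : ℝ) ≤ (1 + s') * y ∧ ∀ g ∈ S, (q * n + (a + q * A g (σ g))).Prime) := ⟨_, rfl⟩
  have hfin : {p : ℕ | p ≡ a₀ [MOD q] ∧ (x : ℝ) ≤ p ∧ (p : ℝ) ≤ (1 + s) * x ∧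
    ∀ g ∈ S, (p + q * A g (σ g)).Prime ∧ ((p + q * A g (σ g) : ℕ) : ℝ) ≤ (1 + s) * x}.Finite := by
    refine (Set.finite_le_nat ⌊(1 + s) * x⌋₊).subset ?_
    intro p hp
    exact Nat.le_floor hp.2.2.1
  have h1 : (F.image (fun n => q * n + a)).card = F.card :=
    card_image_of_injective _ (fun n m h => by
      have h2 : q * n = q * m := by
        have h3 : q * n + a = q * m + a := h
        omega
      exact Nat.eq_of_mul_eq_mul_left hq h2)
  have hFc : ((Icc 1 (8 * y)).filter (fun n : ℕ =>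
        (y : ℝ) ≤ n ∧ (n : ℝ) ≤ (1 + s') * y ∧ ∀ g ∈ S, (q * n + (a + q * A g (σ g))).Prime)).card =
      F.card := by rw [hF]
  refine (le_of_eq hFc).trans ?_
  rw [← h1, ← Set.ncard_coe_finset]
  refine Set.ncard_le_ncard ?_ hfin
  intro p hp
  obtain ⟨n, hn, rfl⟩ := mem_image.1 (mem_coe.1 hp)
  rw [hF] at hn
  obtain ⟨-, h3, h4, h5⟩ := mem_filter.1 hn
  have h9 : (q : ℝ) * n ≤ (1 + s') * (x + q) := by
    have h10 : (q : ℝ) * y ≤ x + q := by exact_mod_cast hqy2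
    calc (q : ℝ) * n ≤ q * ((1 + s') * y) := mul_le_mul_of_nonneg_left h4 (by linarith)
      _ = (1 + s') * (q * y) := by ring
      _ ≤ (1 + s') * (x + q) := mul_le_mul_of_nonneg_left h10 (by linarith)
  have h10 : (a : ℝ) ≤ q := by exact_mod_cast haq.le
  refine ⟨?_, ?_, ?_, fun g hg => ⟨?_, ?_⟩⟩
  · refine Nat.ModEq.trans ?_ haa
    unfold Nat.ModEq
    rw [add_comm, Nat.add_mul_mod_self_left]
  · have h8 : (x : ℝ) ≤ q * y := by exact_mod_cast hqy
    have h11 : (x : ℝ) ≤ q * n := h8.trans (mul_le_mul_of_nonneg_left h3 (by linarith))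
    push_cast
    have h12 : (0 : ℝ) ≤ a := Nat.cast_nonneg _
    linarith
  · push_cast
    nlinarith
  · have h6 := h5 g hg
    rwa [← add_assoc] at h6
  · have h8 := hbigr g (σ g)
    have h11 : ((q * n + a + q * A g (σ g) : ℕ) : ℝ) =
        (q : ℝ) * n + (a + ((q * A g (σ g) : ℕ) : ℝ)) := by push_cast; ring
    rw [h11]
    nlinarith

end Pool.Agent.Y877
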