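import Mathlib
import Pool.Agent.Y877.Lim
import Pool.Agent.Y877.CombB
import Pool.Agent.Y877.MoreHalf
import Pool.Agent.Y877.GqB

/-! Almost all members of an almost multiplicatively invariant finite set have prime differences among few
fixed multiples (helper877). -/

set_option autoImplicit false

namespace Pool.Agent.Y877.GQ

open Finset Filter Topology Pool.Agent.TH899.UG.TD Pool.Agent.Y877

/-- `M + 1` of the `m i` have only good differences -/
def Clq {T : ℕ} (m : Fin T → ℕ) (M : ℕ) (η : ℝ) (x q a n : ℕ) : Prop :=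
  ∃ S : Finset (Fin T), M + 1 ≤ S.card ∧ ∀ i ∈ S, ∀ j ∈ S, m i < m j →
    (x : ℝ) ^ (1 - η) ≤ prq 8 x q a (q * ((m j - m i) * n))

open Classical in
/-- the bad pairs -/
noncomputable def BG {T : ℕ} (m : Fin T → ℕ) (η : ℝ) (x q a n : ℕ) : Finset (Fin T × Fin T) :=
  univ.filter (fun z => m z.1 < m z.2 ∧
    ¬ (x : ℝ) ^ (1 - η) ≤ prq 8 x q a (q * ((m z.2 - m z.1) * n)))

open Classical in
/-- **Almost all members.** -/
theorem cliqF (T M : ℕ) (hT : 1 ≤ T) (hTM : (18 / 5 : ℝ) * M < T) (m : Fin T → ℕ)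
    (hm : Function.Injective m) (ε : ℝ) (hε : 0 < ε) : ∃ K : ℕ, 1 ≤ K ∧
    ∀ q : ℕ, 1 ≤ q → ∀ η : ℝ, 0 < η → ∀ᶠ x : ℕ in atTop, ∀ a : ℕ, a.Coprime q →
    ∀ F : Finset ℕ, F.Nonempty → (∀ n ∈ F, 0 < n ∧ K * (q ^ 2 * n) ≤ x) →
    (∀ k, 1 ≤ k → k ≤ K → K * (F.filter (fun n => k * n ∉ F)).card ≤ F.card) →
    ((F.filter (fun n => ¬ Clq m M η x q a n)).card : ℝ) ≤ ε * F.card := by
  obtain ⟨Kc, hKc, HC⟩ := coreXG T M hT hTM
  obtain ⟨W, hW⟩ : ∃ W : ℕ, W = (T * Kc).factorial := ⟨_, rfl⟩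
  have hW1 : 1 ≤ W := by rw [hW]; exact Nat.factorial_pos _
  obtain ⟨P, hP⟩ : ∃ P : ℕ, P = Fintype.card (Finset (Fin T × Fin T)) := ⟨_, rfl⟩
  have hP1 : 1 ≤ P := by rw [hP]; exact Fintype.card_pos
  have hPr : (0 : ℝ) < P := by exact_mod_cast hP1
  obtain ⟨ε₁, hε₁⟩ : ∃ ε₁ : ℝ, ε₁ = ε / (3 * P) := ⟨_, rfl⟩
  have hε₁0 : 0 < ε₁ := by rw [hε₁]; positivity
  obtain ⟨C, hC, HB⟩ := combB T Kc hT hKc m hm 1 1 le_rfl (dvd_refl 1) le_rfl ε₁ hε₁0
  obtain ⟨J₁, hJ₁⟩ := exists_nat_ge (1 / ε₁)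
  obtain ⟨K, hK⟩ : ∃ K : ℕ, K = J₁ + W * C + 2 * (W * (C * C)) + 1 := ⟨_, rfl⟩
  refine ⟨K, by omega, fun q hq η hη => ?_⟩
  filter_upwards [HC q hq η hη] with x hx a ha F hFne hFx hFinv
  have hF0 : (0 : ℝ) < F.card := by exact_mod_cast hFne.card_pos
  by_contra hcon
  push Not at hcon
  -- one graph
  obtain ⟨G, -, hG⟩ := exists_le_card_fiber_of_nsmul_le_card_of_maps_to
    (s := F.filter (fun n => ¬ Clq m M η x q a n)) (t := (univ : Finset (Finset (Fin T × Fin T))))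
    (f := fun n => BG m η x q a n) (b := 3 * ε₁ * (F.card : ℝ)) (fun _ _ => mem_univ _)
    ⟨∅, mem_univ _⟩ (by
      rw [card_univ, ← hP, nsmul_eq_mul]
      have e : (P : ℝ) * (3 * ε₁ * F.card) = ε * F.card := by
        rw [hε₁]
        field_simp
      rw [e]
      exact hcon.le)
  obtain ⟨B, hB⟩ : ∃ B : Set ℕ, B = {n | n ∈ F ∧ ¬ Clq m M η x q a n ∧ BG m η x q a n = G} := ⟨_, rfl⟩
  have hBF : (0 + 3 * ε₁) * (F.card : ℝ) ≤ ((F.filter (fun n => n ∈ B)).card : ℝ) := by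
    rw [zero_add]
    refine hG.trans ?_
    rw [Nat.cast_le]
    apply card_le_card
    intro n hn
    rw [mem_filter, mem_filter] at hn
    rw [mem_filter, hB]
    exact ⟨hn.1.1, hn.1.1, hn.1.2, hn.2⟩
  have hC0 : 1 ≤ C := hC
  -- a member with many bad multiples
  have hav := avgs F B C hC0 (fun l => W * (l + 1)) (fun l _ => by
      have : 0 < W * (l + 1) := by positivity
      omega) 0 ε₁ hε₁0 K (by
      have h1 : (J₁ : ℝ) ≤ K := by exact_mod_cast (by omega : J₁ ≤ K)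
      have h2 : 1 / ε₁ ≤ K := hJ₁.trans h1
      rw [div_le_iff₀ hε₁0] at h2
      linarith) (fun l hl => by
      apply hFinv
      · have : 0 < W * (l + 1) := by positivity
        omega
      · have : W * (l + 1) ≤ W * C := Nat.mul_le_mul_left _ hl
        omega) hBF le_rfl
  have hne : (F.filter (fun n => (0 + ε₁) * C ≤
      (((range C).filter (fun l => W * (l + 1) * n ∈ B)).card : ℝ))).Nonempty := by
    rw [← card_pos]
    have h1 : 0 < ε₁ * (F.card : ℝ) := by positivity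
    have h2 := lt_of_lt_of_le h1 hav
    exact_mod_cast h2
  obtain ⟨n, hn⟩ := hne
  rw [mem_filter, zero_add] at hn
  obtain ⟨hnF, hnL⟩ := hn
  obtain ⟨hn0, hnx⟩ := hFx n hnF
  -- the blow-up
  obtain ⟨A, hAinj, hAC, hAd, -⟩ := HB C le_rfl 0 (((range C).filter (fun l => W * (l + 1) * n ∈ B)).image
      (fun l => l + 1)) (by
      intro y hy
      obtain ⟨l, hl, rfl⟩ := mem_image.1 hy
      have := mem_range.1 (mem_filter.1 hl).1
      rw [mem_Ioc]
      omega) (by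
      rw [card_image_of_injective _ (add_left_injective 1)]
      exact hnL)
  obtain ⟨S, σ, hS, hSp⟩ := hx a ha (fun g i => W * A g i * n) (by
      intro z z' h
      apply hAinj
      have h1 : W * A z.1 z.2 * n = W * A z'.1 z'.2 * n := h
      have h2 : W * A z.1 z.2 = W * A z'.1 z'.2 := Nat.eq_of_mul_eq_mul_right hn0 h1
      exact Nat.eq_of_mul_eq_mul_left hW1 h2)
    (fun g i => by
      have h1 := hAC g i
      rw [zero_add] at h1
      calc 2 * (q ^ 2 * (W * A g i * n)) = 2 * (W * A g i) * (q ^ 2 * n) := by ring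
        _ ≤ 2 * (W * (C * C)) * (q ^ 2 * n) :=
            Nat.mul_le_mul_right _ (Nat.mul_le_mul_left _ (Nat.mul_le_mul_left _ h1))
        _ ≤ K * (q ^ 2 * n) := Nat.mul_le_mul_right _ (by omega)
        _ ≤ x := hnx)
    (fun p hp => admW T Kc _ (fun g i => by
      rw [← hW, mul_assoc]
      exact dvd_mul_right _ _) p hp)
  -- a bad pair in `S`
  have hGS : ∃ i ∈ S, ∃ j ∈ S, (i, j) ∈ G := by
    obtain ⟨l, hl⟩ : ((range C).filter (fun l => W * (l + 1) * n ∈ B)).Nonempty := by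
      rw [← card_pos]
      have h1 : (0 : ℝ) < ε₁ * C := by
        have : (0 : ℝ) < C := by exact_mod_cast hC0
        positivity
      have h2 := lt_of_lt_of_le h1 hnL
      exact_mod_cast h2
    have h1 := (mem_filter.1 hl).2
    rw [hB] at h1
    obtain ⟨-, h2, h3⟩ := h1
    by_contra hno
    push Not at hno
    apply h2
    refine ⟨S, hS, fun i hi j hj hij => ?_⟩
    by_contra h4
    apply hno i hi j hj
    rw [← h3]
    unfold BG
    exact mem_filter.2 ⟨mem_univ _, hij, h4⟩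
  obtain ⟨i, hi, j, hj, hij⟩ := hGS
  have hmij : m i < m j := by
    obtain ⟨l, hl⟩ : ((range C).filter (fun l => W * (l + 1) * n ∈ B)).Nonempty := by
      rw [← card_pos]
      have h1 : (0 : ℝ) < ε₁ * C := by
        have : (0 : ℝ) < C := by exact_mod_cast hC0
        positivity
      have h2 := lt_of_lt_of_le h1 hnL
      exact_mod_cast h2
    have h1 := (mem_filter.1 hl).2
    rw [hB] at h1
    obtain ⟨-, -, h3⟩ := h1
    rw [← h3] at hij
    unfold BG at hij
    exact (mem_filter.1 hij).2.1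
  have hji : j ≠ i := fun h => by rw [h] at hmij; exact lt_irrefl _ hmij
  obtain ⟨k, hk, hke⟩ := hAd j i (σ j) (σ i) hji
  obtain ⟨l, hl, rfl⟩ := mem_image.1 hk
  have h1 := (mem_filter.1 hl).2
  rw [hB] at h1
  obtain ⟨-, -, h3⟩ := h1
  have hke' : A j (σ j) = A i (σ i) + (m j - m i) * (l + 1) := by
    have e1 : ((m j : ℤ) - m i) = ((m j - m i : ℕ) : ℤ) := by rw [Nat.cast_sub hmij.le]
    have e2 : (A j (σ j) : ℤ) = ((A i (σ i) + (m j - m i) * (l + 1) : ℕ) : ℤ) := by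
      push_cast
      rw [Nat.cast_sub hmij.le]
      push_cast at hke
      linarith
    exact_mod_cast e2
  have hlt : A i (σ i) < A j (σ j) := by
    rw [hke']
    have : 0 < (m j - m i) * (l + 1) := Nat.mul_pos (by omega) (by omega)
    omega
  have h4 := hSp i hi j hj (by
    show W * A i (σ i) * n < W * A j (σ j) * n
    exact Nat.mul_lt_mul_of_pos_right (Nat.mul_lt_mul_of_pos_left hlt hW1) hn0)
  have h5 : W * A j (σ j) * n - W * A i (σ i) * n = (m j - m i) * (W * (l + 1) * n) := by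
    rw [hke', Nat.mul_add, Nat.add_mul, Nat.add_sub_cancel_left]
    ring
  have h6 : (i, j) ∈ BG m η x q a (W * (l + 1) * n) := by rw [h3]; exact hij
  unfold BG at h6
  apply (mem_filter.1 h6).2.2
  show (x : ℝ) ^ (1 - η) ≤ prq 8 x q a (q * ((m j - m i) * (W * (l + 1) * n)))
  rw [← h5]
  exact h4

end Pool.Agent.Y877.GQ
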