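import Mathlib
import Pool.Agent.W142.TB.All
import Pool.Agent.Y877.FThm
import Pool.Agent.Y877.Divis
import Pool.Agent.Y877.GqC
import Pool.Agent.Y877.GqD

/-! Almost multiplicatively invariant finite sets and divisors: final form (helper877). -/

set_option autoImplicit false

namespace Pool.Agent.Y877.GQ

open Finset Filter Topology Pool.Agent.TH899.UG.TD Pool.Agent.W142.TB Pool.Agent.Y877

open Classical in
/-- **Five ninths, and almost all up to a few fixed multiples.** -/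
theorem finF (T M : ℕ) (hT : 1 ≤ T) (hTM : (18 / 5 : ℝ) * M < T) (m : Fin T → ℕ)
    (hm : Function.Injective m) (ε : ℝ) (hε : 0 < ε) : ∃ K : ℕ, 1 ≤ K ∧
    ∀ q : ℕ, 1 ≤ q → ∀ η : ℝ, 0 < η → ∀ᶠ x : ℕ in atTop, ∀ a : ℕ, a.Coprime q →
    ∀ F : Finset ℕ,
    (∀ k, 1 ≤ k → k ≤ K → K * (F.filter (fun n => k * n ∉ F)).card ≤ F.card) →
    (∀ n ∈ F, 1 ≤ n ∧ K * (q ^ 2 * n) ≤ x) →
    (5 / 9 - ε) * (F.card : ℝ) ≤
      ((F.filter (fun n => (x : ℝ) ^ (1 - η) ≤ prq 8 x q a (q * n))).card : ℝ) ∧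
    ((F.filter (fun n => ¬ Clq m M η x q a n)).card : ℝ) ≤ ε * F.card := by
  obtain ⟨K₁, hK₁, H1⟩ := nineF s_maiB ε hε
  obtain ⟨K₂, hK₂, H2⟩ := cliqF T M hT hTM m hm ε hε
  refine ⟨K₁ + K₂, by omega, fun q hq η hη => ?_⟩
  filter_upwards [H1 q hq η hη, H2 q hq η hη] with x h1 h2 a ha F hF hFx
  rcases F.eq_empty_or_nonempty with rfl | hne
  · simp
  · have e1 : ∀ k, 1 ≤ k → k ≤ K₁ → K₁ * (F.filter (fun n => k * n ∉ F)).card ≤ F.card := fun k hk hk' =>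
      (Nat.mul_le_mul_right _ (Nat.le_add_right K₁ K₂)).trans (hF k hk (by omega))
    have e2 : ∀ k, 1 ≤ k → k ≤ K₂ → K₂ * (F.filter (fun n => k * n ∉ F)).card ≤ F.card := fun k hk hk' =>
      (Nat.mul_le_mul_right _ (Nat.le_add_left K₂ K₁)).trans (hF k hk (by omega))
    exact ⟨h1 a ha F hne (fun n hn => ⟨(hFx n hn).1,
        (Nat.mul_le_mul_right _ (Nat.le_add_right K₁ K₂)).trans (hFx n hn).2⟩) e1,
      h2 a ha F hne (fun n hn => ⟨(hFx n hn).1,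
        (Nat.mul_le_mul_right _ (Nat.le_add_left K₂ K₁)).trans (hFx n hn).2⟩) e2⟩

open Classical in
/-- **Divisors.** -/
theorem finD (T M : ℕ) (hT : 1 ≤ T) (hTM : (18 / 5 : ℝ) * M < T) (m : Fin T → ℕ)
    (hm : Function.Injective m) (ε : ℝ) (hε : 0 < ε) : ∃ K : ℕ, 1 ≤ K ∧
    ∀ q : ℕ, 1 ≤ q → ∀ η : ℝ, 0 < η → ∀ᶠ x : ℕ in atTop, ∀ a : ℕ, a.Coprime q →
    ∀ N : ℕ, 1 ≤ N → K ∣ N → K * (q ^ 2 * N) ≤ x →
    (5 / 9 - ε) * (N.divisors.card : ℝ) ≤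
      ((N.divisors.filter (fun n => (x : ℝ) ^ (1 - η) ≤ prq 8 x q a (q * n))).card : ℝ) ∧
    ((N.divisors.filter (fun n => ¬ Clq m M η x q a n)).card : ℝ) ≤ ε * N.divisors.card := by
  obtain ⟨K, hK, H⟩ := finF T M hT hTM m hm ε hε
  obtain ⟨M₀, hM₀, hdiv⟩ := divisors_inv K
  refine ⟨K * M₀, Nat.mul_pos hK hM₀, fun q hq η hη => ?_⟩
  filter_upwards [H q hq η hη] with x hx a ha N hN hKN hNx
  refine hx a ha N.divisors (hdiv N hN (Dvd.dvd.trans (dvd_mul_left _ _) hKN)) fun n hn =>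
    ⟨Nat.pos_of_mem_divisors hn, le_trans ?_ hNx⟩
  exact Nat.mul_le_mul (Nat.le_mul_of_pos_right _ hM₀) (Nat.mul_le_mul_left _ (Nat.divisor_le hn))

end Pool.Agent.Y877.GQ
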