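import Mathlib

/-! Chains of hits (helper877). -/

set_option autoImplicit false

namespace Pool.Agent.Y877

open Finset

/-- the members of `S` are linked by steps `R` inside `S` -/
def Linked {α : Type} (S : Finset α) (R : α → α → Prop) : Prop :=
  ∀ i ∈ S, ∀ j ∈ S, Relation.ReflTransGen (fun x y => x ∈ S ∧ y ∈ S ∧ R x y) i j

/-- the class of an index -/
def clz (T : ℕ) (hT : 0 < T) {K : ℕ} (j : Fin K) : Fin T := ⟨j.val % T, Nat.mod_lt _ hT⟩

theorem clz_inj (T : ℕ) (hT : 0 < T) {K : ℕ} (A : Fin T → Fin K → ℕ)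
    (hA : Function.Injective (fun z : Fin T × Fin K => A z.1 z.2)) :
    Function.Injective (fun j : Fin K => A (clz T hT j) j) := by
  intro j j' h
  have h2 := hA (a₁ := (clz T hT j, j)) (a₂ := (clz T hT j', j')) h
  exact (Prod.ext_iff.1 h2).2

theorem clz_card (T K : ℕ) (hT : 0 < T) (hTK : T ≤ K) (e : Fin T) :
    K ≤ 2 * T * (univ.filter (fun j : Fin K => clz T hT j = e)).card := by
  have h1 : K / T ≤ (univ.filter (fun j : Fin K => clz T hT j = e)).card := by
    have hlt : ∀ i : Fin (K / T), e.val + T * i.val < K := by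
      intro i
      have h2 : T * (i.val + 1) ≤ T * (K / T) := Nat.mul_le_mul_left _ i.2
      have h3 : T * (K / T) ≤ K := Nat.mul_div_le K T
      have h4 := e.2
      have h5 : T * (i.val + 1) = T * i.val + T := by ring
      omega
    calc K / T = (univ : Finset (Fin (K / T))).card := by
          rw [card_univ, Fintype.card_fin]
      _ ≤ _ := card_le_card_of_injOn (fun i : Fin (K / T) => (⟨e.val + T * i.val, hlt i⟩ : Fin K))
          (fun i _ => by
            rw [coe_filter]
            refine ⟨mem_univ _, Fin.ext ?_⟩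
            show (e.val + T * i.val) % T = e.val
            rw [Nat.add_mul_mod_self_left]
            exact Nat.mod_eq_of_lt e.2)
          (fun i _ i' _ h => by
            have h2 : e.val + T * i.val = e.val + T * i'.val := congrArg Fin.val h
            exact Fin.ext (Nat.eq_of_mul_eq_mul_left hT (Nat.add_left_cancel h2)))
  have h2 : 1 ≤ K / T := (Nat.one_le_div_iff hT).2 hTK
  have h3 : K < T * (K / T + 1) := Nat.lt_mul_div_succ K hT
  have h4 : T * (K / T + 1) ≤ 2 * T * (K / T) := by
    have : T * (K / T) ≥ T * 1 := Nat.mul_le_mul_left _ h2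
    have e1 : T * (K / T + 1) = T * (K / T) + T := by ring
    have e2 : 2 * T * (K / T) = T * (K / T) + T * (K / T) := by ring
    omega
  calc K ≤ 2 * T * (K / T) := (h3.le).trans h4
    _ ≤ _ := Nat.mul_le_mul_left _ h1

/-- consecutive hits link all the hits -/
theorem path {K : ℕ} {α : Type} [DecidableEq α] (t : Fin K → ℕ) (ht : Function.Injective t) (P : Finset (Fin K))
    (col : Fin K → α) (R : α → α → Prop)
    (h : ∀ w ∈ P, ∀ z ∈ P, t w < t z → (∀ y ∈ P, t w < t y → t z ≤ t y) → col w ≠ col z →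
      R (col w) (col z)) :
    ∀ N : ℕ, ∀ w ∈ P, ∀ z ∈ P, t w ≤ t z → t z = N →
      Relation.ReflTransGen (fun x y => x ∈ P.image col ∧ y ∈ P.image col ∧ R x y) (col w) (col z) := by
  intro N
  induction N using Nat.strong_induction_on with
  | _ N ih =>
    intro w hw z hz hwz hN
    rcases Nat.eq_or_lt_of_le hwz with heq | hlt
    · rw [ht heq]
    have hne : (P.filter (fun y => t y < t z)).Nonempty := ⟨w, mem_filter.2 ⟨hw, hlt⟩⟩
    obtain ⟨y, hy, hmax⟩ := exists_max_image _ t hne
    obtain ⟨hyP, hyz⟩ := mem_filter.1 hy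
    have hwy : t w ≤ t y := hmax w (mem_filter.2 ⟨hw, hlt⟩)
    have h1 := ih (t y) (by omega) w hw y hyP hwy rfl
    by_cases hc : col y = col z
    · rw [← hc]
      exact h1
    · refine h1.tail ⟨mem_image_of_mem _ hyP, mem_image_of_mem _ hz, h y hyP z hz hyz (fun y' hy' hlt' => ?_) hc⟩
      by_contra hcon
      push Not at hcon
      have := hmax y' (mem_filter.2 ⟨hy', hcon⟩)
      omega

theorem linked_of_path {K : ℕ} {α : Type} [DecidableEq α] (t : Fin K → ℕ) (ht : Function.Injective t)
    (P : Finset (Fin K)) (col : Fin K → α) (R : α → α → Prop) (hR : ∀ x y, R x y → R y x)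
    (h : ∀ w ∈ P, ∀ z ∈ P, t w < t z → (∀ y ∈ P, t w < t y → t z ≤ t y) → col w ≠ col z →
      R (col w) (col z)) : Linked (P.image col) R := by
  intro i hi j hj
  obtain ⟨w, hw, rfl⟩ := mem_image.1 hi
  obtain ⟨z, hz, rfl⟩ := mem_image.1 hj
  rcases le_total (t w) (t z) with h1 | h1
  · exact path t ht P col R h _ w hw z hz h1 rfl
  · have h2 := path t ht P col R h _ z hz w hw h1 rfl
    haveI hsym : Std.Symm (fun x y => x ∈ P.image col ∧ y ∈ P.image col ∧ R x y) :=
      ⟨fun x y hxy => ⟨hxy.2.1, hxy.1, hR _ _ hxy.2.2⟩⟩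
    exact (Relation.ReflTransGen.stdSymm (r := fun x y => x ∈ P.image col ∧ y ∈ P.image col ∧ R x y)).symm _ _ h2

end Pool.Agent.Y877
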