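import Mathlib
import Pool.Agent.TH101.RG.TupMult
import Pool.Agent.Y877.CombB
import Pool.Agent.Y877.Adm
import Pool.Agent.Y877.RecA

/-! Almost all multipliers up to the record scale: gaps between consecutive primes (helper877). -/

set_option autoImplicit false

namespace Pool.Agent.Y877

open Finset Filter Topology
open Pool.Agent.H256R2.SC (ff)
open Pool.Agent.H362R2.RQ (fib)

/-- `p` and `p + g` are consecutive primes -/
def Consec (p g : ℕ) : Prop := p.Prime ∧ (p + g).Prime ∧ ∀ q, p < q → q < p + g → ¬ q.Prime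

/-- The number of the primes `p ≡ a (mod d)` in `(X, 4 X]` for which the next prime is `p + g`. -/
noncomputable def gapCount (X : ℝ) (d a g : ℕ) : ℕ :=
  {p : ℕ | X < p ∧ (p : ℝ) ≤ 4 * X ∧ p ≡ a [MOD d] ∧ Consec p g}.ncard

open Classical in
/-- the set of these primes -/
noncomputable def gset (X : ℝ) (d a g : ℕ) : Finset ℕ :=
  (range (⌊4 * X⌋₊ + 1)).filter (fun p => X < p ∧ (p : ℝ) ≤ 4 * X ∧ p ≡ a [MOD d] ∧ Consec p g)

theorem gset_card (X : ℝ) (d a g : ℕ) : (gset X d a g).card = gapCount X d a g := by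
  classical
  unfold gapCount
  rw [← Set.ncard_coe_finset]
  congr 1
  ext p
  rw [mem_coe, gset, mem_filter, mem_range]
  constructor
  · exact fun h => h.2
  · intro h
    refine ⟨?_, h⟩
    have := Nat.le_floor h.2.1
    omega

theorem mem_gset (X : ℝ) (d a g p : ℕ) : p ∈ gset X d a g ↔ X < p ∧ (p : ℝ) ≤ 4 * X ∧ p ≡ a [MOD d] ∧ Consec p g := by
  classical
  rw [gset, mem_filter, mem_range]
  constructor
  · exact fun h => h.2
  · intro h
    refine ⟨?_, h⟩
    have := Nat.le_floor h.2.1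
    omega

/-- the integers with a rare gap among the shifts -/
theorem bad_set {K : ℕ} (X : ℝ) (hX : 0 ≤ X) (d a : ℕ) (t : Fin K → ℕ) :
    ∃ bad : Finset ℕ, (bad.card : ℝ) ≤ (K : ℝ) ^ 2 * X ^ (6 / 7 : ℝ) ∧
      ∀ n w z, n ∉ bad → n + t w ∈ gset X d a (t z - t w) → X ^ (6 / 7 : ℝ) ≤ gapCount X d a (t z - t w) := by
  classical
  have hp : 0 ≤ X ^ (6 / 7 : ℝ) := Real.rpow_nonneg hX _
  refine ⟨(univ : Finset (Fin K × Fin K)).biUnion (fun z =>
    if X ^ (6 / 7 : ℝ) ≤ gapCount X d a (t z.2 - t z.1) then ∅ else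
      (gset X d a (t z.2 - t z.1)).image (fun p => p - t z.1)), ?_, ?_⟩
  · have h1 : ∀ z ∈ (univ : Finset (Fin K × Fin K)), (((if X ^ (6 / 7 : ℝ) ≤ gapCount X d a (t z.2 - t z.1) then ∅ else
      (gset X d a (t z.2 - t z.1)).image (fun p => p - t z.1) : Finset ℕ).card : ℕ) : ℝ) ≤ X ^ (6 / 7 : ℝ) := by
      intro z _
      split_ifs with h
      · simpa using hp
      · push Not at h
        refine le_trans ?_ h.le
        rw [← gset_card]
        exact_mod_cast card_image_le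
    calc (((univ : Finset (Fin K × Fin K)).biUnion (fun z =>
          if X ^ (6 / 7 : ℝ) ≤ gapCount X d a (t z.2 - t z.1) then ∅ else
          (gset X d a (t z.2 - t z.1)).image (fun p => p - t z.1))).card : ℝ)
        ≤ ((∑ z : Fin K × Fin K, (if X ^ (6 / 7 : ℝ) ≤ gapCount X d a (t z.2 - t z.1) then ∅ else
          (gset X d a (t z.2 - t z.1)).image (fun p => p - t z.1) : Finset ℕ).card : ℕ) : ℝ) := by
          exact_mod_cast card_biUnion_le
      _ = ∑ z : Fin K × Fin K, (((if X ^ (6 / 7 : ℝ) ≤ gapCount X d a (t z.2 - t z.1) then ∅ else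
          (gset X d a (t z.2 - t z.1)).image (fun p => p - t z.1) : Finset ℕ).card : ℕ) : ℝ) := by
          push_cast; rfl
      _ ≤ ∑ _z : Fin K × Fin K, X ^ (6 / 7 : ℝ) := sum_le_sum h1
      _ = (K : ℝ) ^ 2 * X ^ (6 / 7 : ℝ) := by
          rw [sum_const, card_univ, Fintype.card_prod, Fintype.card_fin, nsmul_eq_mul]
          push_cast
          ring
  · intro n w z hn hnw
    by_contra hcon
    apply hn
    rw [mem_biUnion]
    refine ⟨(w, z), mem_univ _, ?_⟩
    rw [if_neg hcon]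
    refine mem_image.2 ⟨n + t w, hnw, ?_⟩
    show n + t w - t w = n
    omega

open Classical in
/-- **Main theorem.** -/
theorem recAll : ∃ η : ℝ, 0 < η ∧ ∀ T : ℕ, 1 ≤ T → ∀ m : Fin T → ℕ, Function.Injective m →
    ∀ ε : ℝ, 0 < ε → ∀ d : ℕ, Squarefree d →
    ∃ C : ℕ, ∀ᶠ X : ℝ in atTop, ∀ a b : ℕ, a.Coprime d → 1 ≤ b → d ∣ b →
    (∀ p : ℕ, p.Prime → ∃ r : ℤ, ∀ i, ¬ (p : ℤ) ∣ b * m i + r) →
    ∀ u H : ℕ, C ≤ H → ((C * (b * (u + H)) : ℕ) : ℝ) ≤ ff X →
    (1 - ε) * (H : ℝ) ≤ (((Ioc u (u + H)).filter (fun k : ℕ => ∃ S : Finset (Fin T), η * T ≤ S.card ∧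
      Linked S (fun i j => X ^ (6 / 7 : ℝ) ≤ gapCount X d a (b * (Nat.dist (m i) (m j) * k))))).card : ℝ) := by
  obtain ⟨η, hη, HM⟩ := Pool.Agent.TH101.RG.tuple_multiples
  refine ⟨η, hη, fun T hT m hm ε hε d hd => ?_⟩
  obtain ⟨K, hTK, HM⟩ := HM T hT
  obtain ⟨c, hc, HM⟩ := HM 1 1 1 d hd
  have hK : 1 ≤ K := hT.trans hTK
  obtain ⟨L, hL⟩ : ∃ L : ℕ, L = Fintype.card (Finset (Fin T × Fin T)) := ⟨_, rfl⟩
  have hL0 : 0 < L := by rw [hL]; exact Fintype.card_pos
  have hLr : (0 : ℝ) < L := by exact_mod_cast hL0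
  obtain ⟨C₁, hC₁, HB⟩ := combB T K hT hK m hm T.factorial (T * K).factorial
    (Nat.factorial_pos _) (Nat.factorial_dvd_factorial (Nat.le_mul_of_pos_right _ hK))
    (Nat.factorial_pos _) (ε / L) (by positivity)
  obtain ⟨R, hR⟩ := exists_nat_ge (C₁ / c)
  have hRc : (C₁ : ℝ) ≤ c * R := by
    rw [div_le_iff₀ hc] at hR
    linarith
  refine ⟨C₁ + R, ?_⟩
  have hpow : ∀ᶠ X : ℝ in atTop, (K : ℝ) ^ 2 * X ^ (6 / 7 : ℝ) ≤ X ^ (7 / 8 : ℝ) := by
    filter_upwards [(tendsto_rpow_atTop (by norm_num : (0 : ℝ) < 1 / 56)).eventually_ge_atTop ((K : ℝ) ^ 2),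
      eventually_gt_atTop (0 : ℝ)] with X h1 h2
    calc (K : ℝ) ^ 2 * X ^ (6 / 7 : ℝ) ≤ X ^ (1 / 56 : ℝ) * X ^ (6 / 7 : ℝ) :=
          mul_le_mul_of_nonneg_right h1 (Real.rpow_nonneg h2.le _)
      _ = X ^ (7 / 8 : ℝ) := by
          rw [← Real.rpow_add h2]
          norm_num
  filter_upwards [HM, Pool.Agent.H312R2.RG.ev_ff c hc, hpow, eventually_ge_atTop (1 : ℝ),
    Real.tendsto_log_atTop.eventually_ge_atTop (1 : ℝ)] with X hX hff hXp hX1 hXl a b ha hb hdb hbadm u H hCH hHX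
  by_contra hcon
  push Not at hcon
  obtain ⟨Good, hGood⟩ : ∃ Good : ℕ → Prop, Good = fun g => X ^ (6 / 7 : ℝ) ≤ gapCount X d a (b * g) :=
    ⟨_, rfl⟩
  obtain ⟨Fine, hFine⟩ : ∃ Fine : (Fin T → Fin T → Prop) → Prop, Fine = fun Q =>
    ∃ S : Finset (Fin T), η * T ≤ S.card ∧ Linked S Q := ⟨_, rfl⟩
  obtain ⟨B, hBdef⟩ : ∃ B, B = (Ioc u (u + H)).filter
      (fun k : ℕ => ¬ Fine (fun i j => Good (Nat.dist (m i) (m j) * k))) := ⟨_, rfl⟩
  have hgoodeq : ((Ioc u (u + H)).filter (fun k : ℕ => ∃ S : Finset (Fin T), η * T ≤ S.card ∧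
      Linked S (fun i j => X ^ (6 / 7 : ℝ) ≤ gapCount X d a (b * (Nat.dist (m i) (m j) * k))))) =
      (Ioc u (u + H)).filter (fun k : ℕ => Fine (fun i j => Good (Nat.dist (m i) (m j) * k))) := by
    refine filter_congr fun k _ => ?_
    simp only [hGood, hFine]
  rw [hgoodeq] at hcon
  have hsum : ((Ioc u (u + H)).filter (fun k : ℕ => Fine (fun i j => Good (Nat.dist (m i) (m j) * k)))).card +
      B.card = H := by
    rw [hBdef, card_filter_add_card_filter_not, Nat.card_Ioc, Nat.add_sub_cancel_left]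
  have hsumr : ((((Ioc u (u + H)).filter (fun k : ℕ => Fine (fun i j => Good (Nat.dist (m i) (m j) * k)))).card :
      ℕ) : ℝ) + (B.card : ℝ) = H := by exact_mod_cast hsum
  have hH0 : (0 : ℝ) ≤ H := Nat.cast_nonneg _
  have hBr : ε * (H : ℝ) ≤ B.card := by nlinarith
  -- the graph of the good pairs
  obtain ⟨Gr, hGr⟩ : ∃ Gr : ℕ → Finset (Fin T × Fin T), ∀ k p, p ∈ Gr k ↔
      Good (Nat.dist (m p.1) (m p.2) * k) :=
    ⟨fun k => univ.filter (fun p => Good (Nat.dist (m p.1) (m p.2) * k)), fun k p => by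
      rw [mem_filter]; exact ⟨fun h => h.2, fun h => ⟨mem_univ _, h⟩⟩⟩
  obtain ⟨G, -, hG⟩ := exists_le_card_fiber_of_nsmul_le_card_of_maps_to
    (s := B) (t := (univ : Finset (Finset (Fin T × Fin T))))
    (f := Gr) (b := ε / L * (H : ℝ)) (fun _ _ => mem_univ _) univ_nonempty (by
      rw [card_univ, ← hL, nsmul_eq_mul, ← mul_assoc, mul_div_cancel₀ _ hLr.ne']
      exact hBr)
  obtain ⟨B', hB'⟩ : ∃ B', B' = B.filter (fun k => Gr k = G) := ⟨_, rfl⟩
  rw [← hB'] at hG
  have hB'I : B' ⊆ Ioc u (u + H) := by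
    rw [hB', hBdef]
    exact (filter_subset _ _).trans (filter_subset _ _)
  have hCH' : C₁ ≤ H := by omega
  obtain ⟨A, hinj, hAle, hAd, r, k₀, hr, hk₀⟩ := HB H hCH' u B' hB'I hG
  -- the tuple
  obtain ⟨t, ht⟩ : ∃ t : Fin K → ℕ, ∀ j, t j = b * A (clz T hT j) j := ⟨fun j => b * A (clz T hT j) j, fun _ => rfl⟩
  have htinj : Function.Injective t := by
    intro j j' h
    rw [ht, ht] at h
    exact clz_inj T hT A hinj (Nat.eq_of_mul_eq_mul_left (by omega : 0 < b) h)
  have htff : ∀ j, (t j : ℝ) ≤ c * ff X := by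
    intro j
    have h1 : t j ≤ C₁ * (b * (u + H)) := by
      rw [ht]
      calc b * A (clz T hT j) j ≤ b * (C₁ * (u + H)) := Nat.mul_le_mul_left _ (hAle _ _)
        _ = C₁ * (b * (u + H)) := by ring
    have h2 : (t j : ℝ) ≤ C₁ * ((b * (u + H) : ℕ) : ℝ) := by exact_mod_cast h1
    have h3 : ((R * (b * (u + H)) : ℕ) : ℝ) ≤ ff X := by
      refine le_trans ?_ hHX
      exact_mod_cast Nat.mul_le_mul_right _ (by omega : R ≤ C₁ + R)
    have h4 : (C₁ : ℝ) * ((b * (u + H) : ℕ) : ℝ) ≤ c * R * ((b * (u + H) : ℕ) : ℝ) :=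
      mul_le_mul_of_nonneg_right hRc (Nat.cast_nonneg _)
    have h5 : c * (R : ℝ) * ((b * (u + H) : ℕ) : ℝ) = c * ((R * (b * (u + H)) : ℕ) : ℝ) := by
      push_cast; ring
    have h6 : c * ((R * (b * (u + H)) : ℕ) : ℝ) ≤ c * ff X := mul_le_mul_of_nonneg_left h3 hc.le
    linarith
  have hadm : ∀ p : ℕ, p.Prime → ∃ v : ℕ, ∀ j, ¬ p ∣ v + t j := by
    intro p hp
    obtain ⟨n, hn⟩ := admT T K b m p hp (hbadm p hp) A r k₀ hr hk₀
    have hp0 : (p : ℤ) ≠ 0 := by exact_mod_cast hp.ne_zero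
    refine ⟨(n % p).toNat, fun j h => hn (clz T hT j) j ?_⟩
    have h1 : ((n % p).toNat : ℤ) = n % p := Int.toNat_of_nonneg (Int.emod_nonneg _ hp0)
    have h2 : (p : ℤ) ∣ ((n % p).toNat : ℤ) + t j := by exact_mod_cast h
    rw [h1, ht] at h2
    have h3 : ((b * A (clz T hT j) j : ℕ) : ℤ) + n = (n % p + ((b * A (clz T hT j) j : ℕ) : ℤ)) + (n - n % p) := by ring
    rw [h3]
    exact dvd_add h2 (Int.dvd_self_sub_emod)
  have htd : ∀ j, d ∣ t j := fun j => by
    rw [ht]
    exact hdb.mul_right _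
  obtain ⟨bad, hbadc, hbad⟩ := bad_set X (by linarith) d a t
  obtain ⟨n, hXn, hn3, hnb, hnd, ⟨E, hE1, hE2⟩, hiso⟩ := hX 1 0 one_ne_zero (by
      rw [pow_one]
      simpa using hXl)
    (by simp) (by
      rw [pow_one]
      simp only [Int.cast_zero, abs_zero]
      linarith) t htinj (fun j => (htff j).trans hff.1) hadm a (fun j => by
      obtain ⟨e, he⟩ := htd j
      rw [he]
      have h1 : Nat.Coprime (a + d * e) d := by
        rw [Nat.coprime_add_mul_left_left]
        exact ha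
      exact h1)
    (clz T hT) (fun e => clz_card T K hT hTK e) bad (hbadc.trans hXp)
  have hiso' : ∀ q : ℕ, q.Prime → n ≤ q → (q : ℝ) ≤ n + c * ff X → ∃ l, q = n + t l := by
    intro q hq hnq hqn
    refine hiso 1 1 (by simp) (by simp) (by simp) (by simp) q hq ?_
    have h1 : ((1 * (q : ℤ) - 1 * (1 * (n : ℤ) + 0) : ℤ) : ℝ) = (q : ℝ) - n := by push_cast; ring
    have h2 : (n : ℝ) ≤ q := by exact_mod_cast hnq
    rw [h1, abs_of_nonneg (by linarith)]
    linarith
  -- the hits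
  obtain ⟨P, hP⟩ : ∃ P : Finset (Fin K), ∀ j, j ∈ P ↔ (n + t j).Prime :=
    ⟨univ.filter (fun j => (n + t j).Prime), fun j => by
      rw [mem_filter]; exact ⟨fun h => h.2, fun h => ⟨mem_univ _, h⟩⟩⟩
  have hlink : Linked (P.image (clz T hT)) (fun i j => (i, j) ∈ G) := by
    refine linked_of_path t htinj P (clz T hT) _ (fun x y hxy => ?_) (fun w hw z hz hwz hcons hne => ?_)
    · -- symmetry
      have hBne : B'.Nonempty := by
        by_contra hcon'
        rw [not_nonempty_iff_eq_empty] at hcon'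
        rw [hcon', card_empty, Nat.cast_zero] at hG
        have h1 : (1 : ℝ) ≤ H := by exact_mod_cast (by omega : 1 ≤ H)
        have : 0 < ε / L * (H : ℝ) := by positivity
        linarith
      obtain ⟨k₁, hk₁⟩ := hBne
      rw [hB', mem_filter] at hk₁
      have h2 : (x, y) ∈ G := hxy
      show (y, x) ∈ G
      rw [← hk₁.2] at h2 ⊢
      rw [hGr] at h2 ⊢
      rw [Nat.dist_comm]
      exact h2
    · show (clz T hT w, clz T hT z) ∈ G
      have hg : n + t w ∈ gset X d a (t z - t w) := by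
        rw [mem_gset]
        have e1 : n + t w + (t z - t w) = n + t z := by omega
        have hw0 : (0 : ℝ) ≤ t w := Nat.cast_nonneg _
        have h1 : (t w : ℝ) ≤ X := by
          have h2 := htff w
          have h3 := hff.2.2
          have h4 : 0 ≤ c * ff X := mul_nonneg hc.le hff.2.1
          linarith
        refine ⟨by push_cast; linarith, by push_cast; linarith, ?_, (hP w).1 hw, ?_, ?_⟩
        · have h5 : t w ≡ 0 [MOD d] := (Nat.modEq_zero_iff_dvd).2 (htd w)
          have h6 := hnd.add h5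
          rw [add_zero] at h6
          exact h6
        · rw [e1]
          exact (hP z).1 hz
        · intro q hq1 hq2 hqp
          rw [e1] at hq2
          obtain ⟨l, hl⟩ := hiso' q hqp (by omega) (by
            have h2 : (q : ℝ) ≤ ((n + t z : ℕ) : ℝ) := by exact_mod_cast hq2.le
            push_cast at h2
            have h3 := htff z
            linarith)
          rw [hl] at hq1 hq2 hqp
          have h2 := hcons l ((hP l).2 hqp) (by omega)
          omega
      have hgood := hbad n w z hnb hg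
      obtain ⟨k, hk, hke⟩ := hAd (clz T hT z) (clz T hT w) z w (fun h => hne h.symm)
      have hkB := hk
      rw [hB', mem_filter] at hk
      rw [← hk.2, hGr, hGood]
      show X ^ (6 / 7 : ℝ) ≤ gapCount X d a (b * (Nat.dist (m (clz T hT w)) (m (clz T hT z)) * k))
      have hlt' : A (clz T hT w) w < A (clz T hT z) z := by
        rw [ht, ht] at hwz
        exact Nat.lt_of_mul_lt_mul_left hwz
      have hmlt : m (clz T hT w) < m (clz T hT z) := by
        by_contra h
        push Not at h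
        have h1 : ((m (clz T hT z) : ℤ) - m (clz T hT w)) * k ≤ 0 :=
          mul_nonpos_of_nonpos_of_nonneg (by
            have : (m (clz T hT z) : ℤ) ≤ m (clz T hT w) := by exact_mod_cast h
            linarith) (Nat.cast_nonneg _)
        have h2 : (A (clz T hT w) w : ℤ) < A (clz T hT z) z := by exact_mod_cast hlt'
        linarith
      have h1 : t z - t w = b * (Nat.dist (m (clz T hT w)) (m (clz T hT z)) * k) := by
        rw [ht, ht, ← Nat.mul_sub, Nat.dist_eq_sub_of_le hmlt.le]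
        congr 1
        have h3 : ((A (clz T hT z) z - A (clz T hT w) w : ℕ) : ℤ) =
            (((m (clz T hT z) - m (clz T hT w)) * k : ℕ) : ℤ) := by
          rw [Nat.cast_sub hlt'.le]
          push_cast
          rw [Nat.cast_sub hmlt.le]
          exact hke
        exact_mod_cast h3
      rw [← h1]
      exact hgood
  have hcard : η * T ≤ ((P.image (clz T hT)).card : ℝ) := by
    refine hE1.trans ?_
    rw [Nat.cast_le]
    apply card_le_card
    intro e he
    obtain ⟨j, hj1, hj2⟩ := hE2 e he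
    exact mem_image.2 ⟨j, (hP j).2 hj2, hj1⟩
  -- a bad multiplier
  have hne : B'.Nonempty := by
    by_contra hcon'
    rw [not_nonempty_iff_eq_empty] at hcon'
    rw [hcon', card_empty, Nat.cast_zero] at hG
    have h1 : (1 : ℝ) ≤ H := by exact_mod_cast (by omega : 1 ≤ H)
    have : 0 < ε / L * (H : ℝ) := by positivity
    linarith
  obtain ⟨k₁, hk₁⟩ := hne
  rw [hB', mem_filter, hBdef, mem_filter] at hk₁
  obtain ⟨⟨-, hk₁b⟩, hk₁G⟩ := hk₁
  apply hk₁b
  rw [hFine]
  refine ⟨_, hcard, fun i hi j hj => ?_⟩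
  have h3 : (fun x y => x ∈ P.image (clz T hT) ∧ y ∈ P.image (clz T hT) ∧ (x, y) ∈ G) ≤
      (fun x y => x ∈ P.image (clz T hT) ∧ y ∈ P.image (clz T hT) ∧ Good (Nat.dist (m x) (m y) * k₁)) := by
    intro x y hxy
    refine ⟨hxy.1, hxy.2.1, ?_⟩
    have h2 : (x, y) ∈ G := hxy.2.2
    rw [← hk₁G, hGr] at h2
    exact h2
  exact Relation.ReflTransGen.mono h3 i j (hlink i hi j hj)

end Pool.Agent.Y877
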