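import Mathlib
import Pool.Agent.Y877.SxI

/-! Dense index sets: several independent shifts. -/

namespace Pool.Agent.Y877.SX
open Finset Pool.Agent.H373R2.T7

open Classical in
lemma fub {α β : Type} (S : Finset α) (T : Finset β) (P : α → β → Prop) (bad : Finset α) (ε1 ε2 : ℝ) (hε2 : 0 ≤ ε2)
    (h1 : (bad.card : ℝ) ≤ ε1 * S.card) (h2 : ∀ a ∈ S, a ∉ bad → ((T.filter (fun b => P a b)).card : ℝ) ≤ ε2 * T.card) :
    (((S ×ˢ T).filter (fun g => P g.1 g.2)).card : ℝ) ≤ (ε1 + ε2) * (S.card * T.card) := by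
  have e1 : ((S ×ˢ T).filter (fun g => P g.1 g.2)).card = ∑ a ∈ S, (T.filter (fun b => P a b)).card := by
    rw [card_filter, sum_product]
    apply sum_congr rfl
    intro a _
    rw [card_filter]
  rw [e1]
  push_cast
  have h3 : ∀ a ∈ S, ((T.filter (fun b => P a b)).card : ℝ) ≤ (if a ∈ bad then (T.card : ℝ) else 0) + ε2 * T.card := by
    intro a ha
    have hT : (0 : ℝ) ≤ ε2 * T.card := by positivity
    by_cases hb : a ∈ bad
    · rw [if_pos hb]
      have : ((T.filter (fun b => P a b)).card : ℝ) ≤ T.card := by exact_mod_cast card_filter_le _ _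
      linarith
    · rw [if_neg hb, zero_add]
      exact h2 a ha hb
  refine (sum_le_sum h3).trans ?_
  rw [sum_add_distrib, ← sum_filter, sum_const, sum_const, nsmul_eq_mul, nsmul_eq_mul]
  have h4 : ((S.filter (fun a => a ∈ bad)).card : ℝ) ≤ bad.card := by
    have : S.filter (fun a => a ∈ bad) ⊆ bad := fun a ha => (mem_filter.1 ha).2
    exact_mod_cast card_le_card this
  have h5 : ((S.filter (fun a => a ∈ bad)).card : ℝ) * T.card ≤ ε1 * S.card * T.card :=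
    mul_le_mul_of_nonneg_right (h4.trans h1) (Nat.cast_nonneg _)
  nlinarith

lemma dens (A e : ℕ) (he : e = 1 ∨ e = 2) (n j j' L V ε : ℝ) (hL : 4 ≤ L) (hV0 : 0 < V) (hV : V ≤ 1) (hε1 : ε ≤ 1 / 2)
    (hj0 : 0 ≤ j) (hj : n ≤ j * L ^ A) (hj' : (1 - ε) * (j / (V * (e * L))) ≤ j') : n ≤ j' * L ^ (A + 2) := by
  have hL0 : 0 < L := by linarith
  have her : (0 : ℝ) < e := by rcases he with rfl | rfl <;> norm_num
  have her2 : (e : ℝ) ≤ 2 := by rcases he with rfl | rfl <;> norm_num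
  have h1 : j / (2 * L) ≤ j / (V * (e * L)) := by
    apply div_le_div_of_nonneg_left hj0 (by positivity)
    have h2 : V * (e * L) ≤ 1 * (e * L) := mul_le_mul_of_nonneg_right hV (by positivity)
    have h3 : (e : ℝ) * L ≤ 2 * L := mul_le_mul_of_nonneg_right her2 hL0.le
    linarith
  have h2 : 0 ≤ j / (V * (e * L)) := by positivity
  have h3 : j / (4 * L) ≤ j' := by
    refine le_trans ?_ hj'
    have h4 : j / (4 * L) = 1 / 2 * (j / (2 * L)) := by
      field_simp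
      norm_num
    rw [h4]
    exact mul_le_mul (by linarith) h1 (by positivity) (by linarith)
  have h5 : j ≤ j' * (4 * L) := by
    rwa [div_le_iff₀ (by positivity)] at h3
  have hj'0 : 0 ≤ j' := le_trans (by positivity) h3
  calc n ≤ j * L ^ A := hj
    _ ≤ (j' * (4 * L)) * L ^ A := mul_le_mul_of_nonneg_right h5 (by positivity)
    _ ≤ (j' * (L * L)) * L ^ A := by gcongr
    _ = _ := by rw [pow_add]; ring

open Classical in
theorem step2 (e₁ e₂ : ℕ) (he₁ : e₁ = 1 ∨ e₁ = 2) (he₂ : e₂ = 1 ∨ e₂ = 2) (A B C : ℕ) (ε : ℝ) (hε : 0 < ε) (hε1 : ε ≤ 1) :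
    ∃ K0 : ℕ, ∀ K1 : ℕ, ∃ n0 : ℕ, ∀ n : ℕ, n0 ≤ n →
    ∀ y : ℕ, K0 * Real.log (Real.log n) ≤ y → y ≤ K1 * Real.log (Real.log n) →
    ∀ J : Finset ℕ, (n : ℝ) ≤ J.card * Real.log n ^ A → ∀ f₁ f₂ : ℕ → ℕ, Set.InjOn f₁ J → Set.InjOn f₂ J →
    (∀ j ∈ J, (f₁ j).Prime ∧ (f₁ j : ℝ) ≤ n * Real.log n ^ B) → (∀ j ∈ J, (f₂ j).Prime ∧ (f₂ j : ℝ) ≤ n * Real.log n ^ B) →
    ∀ g₁ G₁ g₂ G₂ : ℕ, primorial y * (g₁ + G₁) ≤ n ^ e₁ → (n : ℝ) ^ e₁ ≤ primorial y * G₁ * Real.log n ^ C →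
    primorial y * (g₂ + G₂) ≤ n ^ e₂ → (n : ℝ) ^ e₂ ≤ primorial y * G₂ * Real.log n ^ C →
    (((Icc 1 G₁ ×ˢ Icc 1 G₂).filter (fun g => ((J.filter (fun j => (f₁ j ^ e₁ + primorial y * (g₁ + g.1)).Prime ∧
      (f₂ j ^ e₂ + primorial y * (g₂ + g.2)).Prime)).card : ℝ) <
      (1 - ε) * (J.card / ((Vz y * (e₁ * Real.log n)) * (Vz y * (e₂ * Real.log n)))))).card : ℝ) ≤ ε * (G₁ * G₂) := by
  obtain ⟨K0, hK0⟩ := step e₁ he₁ A B C (ε / 2) (by positivity) (by linarith)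
  obtain ⟨K0', hK0'⟩ := step e₂ he₂ (A + 2) B C (ε / 2) (by positivity) (by linarith)
  refine ⟨max K0 K0', fun K1 => ?_⟩
  obtain ⟨n0, hn0⟩ := hK0 K1
  obtain ⟨n0', hn0'⟩ := hK0' K1
  obtain ⟨n1, hn1⟩ := ev_L' (max 4 (Real.exp 1))
  refine ⟨max n0 (max n0' n1), fun n hn y hy1 hy2 J hJ f₁ f₂ hi₁ hi₂ hf₁ hf₂ g₁ G₁ g₂ G₂ a1 a2 a3 a4 => ?_⟩
  have b1 : n0 ≤ n := le_trans (le_max_left _ _) hn
  have b2 : n0' ≤ n := le_trans (le_trans (le_max_left _ _) (le_max_right _ _)) hn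
  have b3 : n1 ≤ n := le_trans (le_trans (le_max_right _ _) (le_max_right _ _)) hn
  have hL' := hn1 n b3
  have hL : 4 ≤ Real.log n := (le_max_left _ _).trans hL'
  have hlL : 0 ≤ Real.log (Real.log n) := Real.log_nonneg (by linarith)
  have hy1a : (K0 : ℝ) * Real.log (Real.log n) ≤ y :=
    le_trans (mul_le_mul_of_nonneg_right (by exact_mod_cast le_max_left _ _) hlL) hy1
  have hy1b : (K0' : ℝ) * Real.log (Real.log n) ≤ y :=
    le_trans (mul_le_mul_of_nonneg_right (by exact_mod_cast le_max_right _ _) hlL) hy1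
  have k1 := hn0 n b1 y hy1a hy2 J hJ f₁ hi₁ hf₁ g₁ G₁ a1 a2
  have hVy := Vz_pos y
  have hVy1 : Vz y ≤ 1 := Vz_le_one y
  have her₁ : (0 : ℝ) < e₁ := by rcases he₁ with rfl | rfl <;> norm_num
  have her₂ : (0 : ℝ) < e₂ := by rcases he₂ with rfl | rfl <;> norm_num
  have hL0 : 0 < Real.log n := by linarith
  obtain ⟨P, hP⟩ : ∃ P : ℕ → ℕ → Prop, ∀ a b, P a b ↔ ((J.filter (fun j => (f₁ j ^ e₁ + primorial y * (g₁ + a)).Prime ∧
      (f₂ j ^ e₂ + primorial y * (g₂ + b)).Prime)).card : ℝ) <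
      (1 - ε) * (J.card / ((Vz y * (e₁ * Real.log n)) * (Vz y * (e₂ * Real.log n)))) := ⟨_, fun _ _ => Iff.rfl⟩
  have hfub := fub (Icc 1 G₁) (Icc 1 G₂) P ((Icc 1 G₁).filter (fun g => ((J.filter (fun j => (f₁ j ^ e₁ + primorial y * (g₁ + g)).Prime)).card : ℝ) <
      (1 - ε / 2) * (J.card / (Vz y * (e₁ * Real.log n))))) (ε / 2) (ε / 2) (by positivity) (by
        refine k1.trans (le_of_eq ?_)
        simp) (by
      intro a ha hab
      have hge : (1 - ε / 2) * (J.card / (Vz y * (e₁ * Real.log n))) ≤ ((J.filter (fun j => (f₁ j ^ e₁ + primorial y * (g₁ + a)).Prime)).card : ℝ) := by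
        by_contra hcon
        push Not at hcon
        exact hab (mem_filter.2 ⟨ha, hcon⟩)
      obtain ⟨J', hJ'⟩ : ∃ J', J' = J.filter (fun j => (f₁ j ^ e₁ + primorial y * (g₁ + a)).Prime) := ⟨_, rfl⟩
      rw [← hJ'] at hge
      have hsubJ : J' ⊆ J := by rw [hJ']; exact filter_subset _ _
      have hd := dens A e₁ he₁ n J.card J'.card (Real.log n) (Vz y) (ε / 2) hL hVy hVy1 (by linarith) (Nat.cast_nonneg _) hJ hge
      have k2 := hn0' n b2 y hy1b hy2 J' hd f₂ (hi₂.mono (by exact_mod_cast hsubJ)) (fun j hj => hf₂ j (hsubJ hj)) g₂ G₂ a3 a4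
      refine le_trans ?_ (k2.trans (le_of_eq (by simp)))
      have hsub : (Icc 1 G₂).filter (fun b => P a b) ⊆ (Icc 1 G₂).filter (fun g => ((J'.filter (fun j => (f₂ j ^ e₂ + primorial y * (g₂ + g)).Prime)).card : ℝ) <
          (1 - ε / 2) * (J'.card / (Vz y * (e₂ * Real.log n)))) := by
        intro b hb
        rw [mem_filter] at hb ⊢
        refine ⟨hb.1, ?_⟩
        have h3 := (hP a b).1 hb.2
        have h4 : J'.filter (fun j => (f₂ j ^ e₂ + primorial y * (g₂ + b)).Prime) = J.filter (fun j => (f₁ j ^ e₁ + primorial y * (g₁ + a)).Prime ∧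
            (f₂ j ^ e₂ + primorial y * (g₂ + b)).Prime) := by
          rw [hJ', filter_filter]
        rw [h4]
        refine lt_of_lt_of_le h3 ?_
        have h5 : (1 - ε / 2) * (J.card / (Vz y * (e₁ * Real.log n))) / (Vz y * (e₂ * Real.log n)) ≤ J'.card / (Vz y * (e₂ * Real.log n)) :=
          div_le_div_of_nonneg_right hge (by positivity)
        have h6 : (1 - ε / 2) * ((1 - ε / 2) * (J.card / (Vz y * (e₁ * Real.log n))) / (Vz y * (e₂ * Real.log n))) ≤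
            (1 - ε / 2) * (J'.card / (Vz y * (e₂ * Real.log n))) := mul_le_mul_of_nonneg_left h5 (by linarith)
        refine le_trans ?_ h6
        have h7 : (1 - ε / 2) * ((1 - ε / 2) * ((J.card : ℝ) / (Vz y * (e₁ * Real.log n))) / (Vz y * (e₂ * Real.log n))) =
            (1 - ε / 2) ^ 2 * (J.card / ((Vz y * (e₁ * Real.log n)) * (Vz y * (e₂ * Real.log n)))) := by
          field_simp
        rw [h7]
        apply mul_le_mul_of_nonneg_right _ (by positivity)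
        nlinarith
      exact_mod_cast card_le_card hsub)
  have hfe : (Icc 1 G₁ ×ˢ Icc 1 G₂).filter (fun g => ((J.filter (fun j => (f₁ j ^ e₁ + primorial y * (g₁ + g.1)).Prime ∧
      (f₂ j ^ e₂ + primorial y * (g₂ + g.2)).Prime)).card : ℝ) <
      (1 - ε) * (J.card / ((Vz y * (e₁ * Real.log n)) * (Vz y * (e₂ * Real.log n))))) = (Icc 1 G₁ ×ˢ Icc 1 G₂).filter (fun g => P g.1 g.2) := by
    ext g
    rw [mem_filter, mem_filter, hP]
  rw [hfe]
  refine hfub.trans (le_of_eq ?_)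
  simp only [Nat.card_Icc, Nat.add_sub_cancel]
  ring

end Pool.Agent.Y877.SX
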