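import Mathlib
import Pool.Agent.Y877.SxJ

/-! Dense index sets: three independent shifts. -/

namespace Pool.Agent.Y877.SX
open Finset Pool.Agent.H373R2.T7

open Classical in
theorem step3 (e₁ e₂ e₃ : ℕ) (he₁ : e₁ = 1 ∨ e₁ = 2) (he₂ : e₂ = 1 ∨ e₂ = 2) (he₃ : e₃ = 1 ∨ e₃ = 2) (A B C : ℕ) (ε : ℝ)
    (hε : 0 < ε) (hε1 : ε ≤ 1) :
    ∃ K0 : ℕ, ∀ K1 : ℕ, ∃ n0 : ℕ, ∀ n : ℕ, n0 ≤ n →
    ∀ y : ℕ, K0 * Real.log (Real.log n) ≤ y → y ≤ K1 * Real.log (Real.log n) →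
    ∀ J : Finset ℕ, (n : ℝ) ≤ J.card * Real.log n ^ A → ∀ f₁ f₂ f₃ : ℕ → ℕ, Set.InjOn f₁ J → Set.InjOn f₂ J → Set.InjOn f₃ J →
    (∀ j ∈ J, (f₁ j).Prime ∧ (f₁ j : ℝ) ≤ n * Real.log n ^ B) → (∀ j ∈ J, (f₂ j).Prime ∧ (f₂ j : ℝ) ≤ n * Real.log n ^ B) →
    (∀ j ∈ J, (f₃ j).Prime ∧ (f₃ j : ℝ) ≤ n * Real.log n ^ B) →
    ∀ g₁ G₁ g₂ G₂ g₃ G₃ : ℕ, primorial y * (g₁ + G₁) ≤ n ^ e₁ → (n : ℝ) ^ e₁ ≤ primorial y * G₁ * Real.log n ^ C →
    primorial y * (g₂ + G₂) ≤ n ^ e₂ → (n : ℝ) ^ e₂ ≤ primorial y * G₂ * Real.log n ^ C →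
    primorial y * (g₃ + G₃) ≤ n ^ e₃ → (n : ℝ) ^ e₃ ≤ primorial y * G₃ * Real.log n ^ C →
    (((Icc 1 G₁ ×ˢ (Icc 1 G₂ ×ˢ Icc 1 G₃)).filter (fun g => ((J.filter (fun j => (f₁ j ^ e₁ + primorial y * (g₁ + g.1)).Prime ∧
      ((f₂ j ^ e₂ + primorial y * (g₂ + g.2.1)).Prime ∧ (f₃ j ^ e₃ + primorial y * (g₃ + g.2.2)).Prime))).card : ℝ) <
      (1 - ε) * (J.card / ((Vz y * (e₁ * Real.log n)) * ((Vz y * (e₂ * Real.log n)) * (Vz y * (e₃ * Real.log n))))))).card : ℝ) ≤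
      ε * (G₁ * (G₂ * G₃)) := by
  obtain ⟨K0, hK0⟩ := step e₁ he₁ A B C (ε / 2) (by positivity) (by linarith)
  obtain ⟨K0', hK0'⟩ := step2 e₂ e₃ he₂ he₃ (A + 2) B C (ε / 2) (by positivity) (by linarith)
  refine ⟨max K0 K0', fun K1 => ?_⟩
  obtain ⟨n0, hn0⟩ := hK0 K1
  obtain ⟨n0', hn0'⟩ := hK0' K1
  obtain ⟨n1, hn1⟩ := ev_L' (max 4 (Real.exp 1))
  refine ⟨max n0 (max n0' n1), fun n hn y hy1 hy2 J hJ f₁ f₂ f₃ hi₁ hi₂ hi₃ hf₁ hf₂ hf₃ g₁ G₁ g₂ G₂ g₃ G₃ a1 a2 a3 a4 a5 a6 => ?_⟩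
  have b1 : n0 ≤ n := le_trans (le_max_left _ _) hn
  have b2 : n0' ≤ n := le_trans (le_trans (le_max_left _ _) (le_max_right _ _)) hn
  have b3 : n1 ≤ n := le_trans (le_trans (le_max_right _ _) (le_max_right _ _)) hn
  have hL' := hn1 n b3
  have hL : 4 ≤ Real.log n := (le_max_left _ _).trans hL'
  have hlL : 0 ≤ Real.log (Real.log n) := Real.log_nonneg (by linarith)
  have hy1a : (K0 : ℝ) * Real.log (Real.log n) ≤ y :=
    le_trans (mul_le_mul_of_nonneg_right (by exact_mod_cast le_max_left _ _) hlL) hy1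
  have hy1b : (K0' : ℝ) * Real.log (Real.log n) ≤ y :=
    le_trans (mul_le_mul_of_nonneg_right (by exact_mod_cast le_max_right _ _) hlL) hy1
  have k1 := hn0 n b1 y hy1a hy2 J hJ f₁ hi₁ hf₁ g₁ G₁ a1 a2
  have hVy := Vz_pos y
  have hVy1 : Vz y ≤ 1 := Vz_le_one y
  have her₁ : (0 : ℝ) < e₁ := by rcases he₁ with rfl | rfl <;> norm_num
  have her₂ : (0 : ℝ) < e₂ := by rcases he₂ with rfl | rfl <;> norm_num
  have her₃ : (0 : ℝ) < e₃ := by rcases he₃ with rfl | rfl <;> norm_num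
  have hL0 : 0 < Real.log n := by linarith
  obtain ⟨P, hP⟩ : ∃ P : ℕ → ℕ × ℕ → Prop, ∀ a b, P a b ↔ ((J.filter (fun j => (f₁ j ^ e₁ + primorial y * (g₁ + a)).Prime ∧
      ((f₂ j ^ e₂ + primorial y * (g₂ + b.1)).Prime ∧ (f₃ j ^ e₃ + primorial y * (g₃ + b.2)).Prime))).card : ℝ) <
      (1 - ε) * (J.card / ((Vz y * (e₁ * Real.log n)) * ((Vz y * (e₂ * Real.log n)) * (Vz y * (e₃ * Real.log n))))) :=
    ⟨_, fun _ _ => Iff.rfl⟩
  have hfub := fub (Icc 1 G₁) (Icc 1 G₂ ×ˢ Icc 1 G₃) P ((Icc 1 G₁).filter (fun g => ((J.filter (fun j => (f₁ j ^ e₁ + primorial y * (g₁ + g)).Prime)).card : ℝ) <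
      (1 - ε / 2) * (J.card / (Vz y * (e₁ * Real.log n))))) (ε / 2) (ε / 2) (by positivity) (by
        refine k1.trans (le_of_eq ?_)
        simp) (by
      intro a ha hab
      have hge : (1 - ε / 2) * (J.card / (Vz y * (e₁ * Real.log n))) ≤ ((J.filter (fun j => (f₁ j ^ e₁ + primorial y * (g₁ + a)).Prime)).card : ℝ) := by
        by_contra hcon
        push Not at hcon
        exact hab (mem_filter.2 ⟨ha, hcon⟩)
      obtain ⟨J', hJ'⟩ : ∃ J', J' = J.filter (fun j => (f₁ j ^ e₁ + primorial y * (g₁ + a)).Prime) := ⟨_, rfl⟩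
      rw [← hJ'] at hge
      have hsubJ : J' ⊆ J := by rw [hJ']; exact filter_subset _ _
      have hd := dens A e₁ he₁ n J.card J'.card (Real.log n) (Vz y) (ε / 2) hL hVy hVy1 (by linarith) (Nat.cast_nonneg _) hJ hge
      have k2 := hn0' n b2 y hy1b hy2 J' hd f₂ f₃ (hi₂.mono (by exact_mod_cast hsubJ)) (hi₃.mono (by exact_mod_cast hsubJ))
        (fun j hj => hf₂ j (hsubJ hj)) (fun j hj => hf₃ j (hsubJ hj)) g₂ G₂ g₃ G₃ a3 a4 a5 a6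
      refine le_trans ?_ (k2.trans (le_of_eq (by simp)))
      have hsub : (Icc 1 G₂ ×ˢ Icc 1 G₃).filter (fun b => P a b) ⊆ (Icc 1 G₂ ×ˢ Icc 1 G₃).filter (fun g => ((J'.filter (fun j =>
          (f₂ j ^ e₂ + primorial y * (g₂ + g.1)).Prime ∧ (f₃ j ^ e₃ + primorial y * (g₃ + g.2)).Prime)).card : ℝ) <
          (1 - ε / 2) * (J'.card / ((Vz y * (e₂ * Real.log n)) * (Vz y * (e₃ * Real.log n))))) := by
        intro b hb
        rw [mem_filter] at hb ⊢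
        refine ⟨hb.1, ?_⟩
        have h3 := (hP a b).1 hb.2
        have h4 : J'.filter (fun j => (f₂ j ^ e₂ + primorial y * (g₂ + b.1)).Prime ∧ (f₃ j ^ e₃ + primorial y * (g₃ + b.2)).Prime) =
            J.filter (fun j => (f₁ j ^ e₁ + primorial y * (g₁ + a)).Prime ∧
            ((f₂ j ^ e₂ + primorial y * (g₂ + b.1)).Prime ∧ (f₃ j ^ e₃ + primorial y * (g₃ + b.2)).Prime)) := by
          rw [hJ', filter_filter]
        rw [h4]
        refine lt_of_lt_of_le h3 ?_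
        have h5 : (1 - ε / 2) * (J.card / (Vz y * (e₁ * Real.log n))) / ((Vz y * (e₂ * Real.log n)) * (Vz y * (e₃ * Real.log n))) ≤
            J'.card / ((Vz y * (e₂ * Real.log n)) * (Vz y * (e₃ * Real.log n))) :=
          div_le_div_of_nonneg_right hge (by positivity)
        have h6 : (1 - ε / 2) * ((1 - ε / 2) * (J.card / (Vz y * (e₁ * Real.log n))) / ((Vz y * (e₂ * Real.log n)) * (Vz y * (e₃ * Real.log n)))) ≤
            (1 - ε / 2) * (J'.card / ((Vz y * (e₂ * Real.log n)) * (Vz y * (e₃ * Real.log n)))) := mul_le_mul_of_nonneg_left h5 (by linarith)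
        refine le_trans ?_ h6
        have h7 : (1 - ε / 2) * ((1 - ε / 2) * ((J.card : ℝ) / (Vz y * (e₁ * Real.log n))) / ((Vz y * (e₂ * Real.log n)) * (Vz y * (e₃ * Real.log n)))) =
            (1 - ε / 2) ^ 2 * (J.card / ((Vz y * (e₁ * Real.log n)) * ((Vz y * (e₂ * Real.log n)) * (Vz y * (e₃ * Real.log n))))) := by
          field_simp
        rw [h7]
        apply mul_le_mul_of_nonneg_right _ (by positivity)
        have h8 : (1 - ε / 2) ^ 2 = 1 - ε + (ε / 2) ^ 2 := by ring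
        rw [h8]
        linarith [sq_nonneg (ε / 2)]
      exact_mod_cast card_le_card hsub)
  have hfe : (Icc 1 G₁ ×ˢ (Icc 1 G₂ ×ˢ Icc 1 G₃)).filter (fun g => ((J.filter (fun j => (f₁ j ^ e₁ + primorial y * (g₁ + g.1)).Prime ∧
      ((f₂ j ^ e₂ + primorial y * (g₂ + g.2.1)).Prime ∧ (f₃ j ^ e₃ + primorial y * (g₃ + g.2.2)).Prime))).card : ℝ) <
      (1 - ε) * (J.card / ((Vz y * (e₁ * Real.log n)) * ((Vz y * (e₂ * Real.log n)) * (Vz y * (e₃ * Real.log n)))))) =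
      (Icc 1 G₁ ×ˢ (Icc 1 G₂ ×ˢ Icc 1 G₃)).filter (fun g => P g.1 g.2) := by
    ext g
    rw [mem_filter, mem_filter, hP]
  rw [hfe]
  refine hfub.trans (le_of_eq ?_)
  rw [card_product]
  simp only [Nat.card_Icc, Nat.add_sub_cancel]
  push_cast
  ring

end Pool.Agent.Y877.SX
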