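import Mathlib
import Pool.Agent.Y877.SxM
import Pool.Agent.Y877.SxE

/-! Dense index sets: representations by differences, the bilinear step. -/

namespace Pool.Agent.Y877.SX
open Finset Pool.Agent.H373R2.T7 Polynomial

lemma pp_sum_neg (x e N : ℕ) (hN : N = x ^ e) (hN1 : 1 ≤ N) (S H : Finset ℕ) (hS : S ⊆ Icc 1 x) (hH : ∀ h ∈ H, N < h ∧ h ≤ 2 * N) :
    ∑ h ∈ H, ∑ s ∈ S, (if (h - s ^ e).Prime then (0 : ℝ) else ArithmeticFunction.vonMangoldt (h - s ^ e)) ≤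
      x * (2 * √((2 * N : ℕ) : ℝ) * Real.log ((2 * N : ℕ) : ℝ)) := by
  have hse : ∀ s ∈ S, s ^ e ≤ N := by
    intro s hs
    rw [hN]
    exact Nat.pow_le_pow_left (mem_Icc.1 (hS hs)).2 e
  rw [sum_comm]
  have h1 : ∀ s ∈ S, ∑ h ∈ H, (if (h - s ^ e).Prime then (0 : ℝ) else ArithmeticFunction.vonMangoldt (h - s ^ e)) ≤
      2 * √((2 * N : ℕ) : ℝ) * Real.log ((2 * N : ℕ) : ℝ) := by
    intro s hs
    have hs1 := hse s hs
    have h2 := Chebyshev.psi_sub_theta_le (x := ((2 * N : ℕ) : ℝ)) (by exact_mod_cast (by omega : 1 ≤ 2 * N))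
    rw [Chebyshev.psi_sub_theta_eq_sum_not_prime, Nat.floor_natCast, sum_filter] at h2
    refine le_trans ?_ h2
    have e1 : ∑ h ∈ H, (if (h - s ^ e).Prime then (0 : ℝ) else ArithmeticFunction.vonMangoldt (h - s ^ e)) =
        ∑ n ∈ H.image (fun h => h - s ^ e), (if ¬ n.Prime then ArithmeticFunction.vonMangoldt n else (0 : ℝ)) := by
      rw [sum_image]
      · apply sum_congr rfl
        intro h _
        by_cases hp : (h - s ^ e).Prime
        · rw [if_pos hp, if_neg (not_not.2 hp)]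
        · rw [if_neg hp, if_pos hp]
      · intro a ha b hb hab
        have h3 := hH a ha
        have h4 := hH b hb
        simp only at hab
        omega
    rw [e1]
    apply sum_le_sum_of_subset_of_nonneg
    · intro n hn
      rw [mem_image] at hn
      obtain ⟨h, hh, rfl⟩ := hn
      have h3 := hH h hh
      rw [mem_Ioc]
      omega
    · intro n _ _
      split_ifs
      · exact le_rfl
      · exact ArithmeticFunction.vonMangoldt_nonneg
  have hc : (S.card : ℝ) ≤ x := by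
    have := card_le_card hS
    rw [Nat.card_Icc, Nat.add_sub_cancel] at this
    exact_mod_cast this
  calc _ ≤ ∑ _s ∈ S, 2 * √((2 * N : ℕ) : ℝ) * Real.log ((2 * N : ℕ) : ℝ) := sum_le_sum h1
    _ = S.card * (2 * √((2 * N : ℕ) : ℝ) * Real.log ((2 * N : ℕ) : ℝ)) := by rw [sum_const, nsmul_eq_mul]
    _ ≤ _ := by
        apply mul_le_mul_of_nonneg_right hc
        have : 0 ≤ Real.log ((2 * N : ℕ) : ℝ) := Real.log_natCast_nonneg _
        positivity

lemma bil_step_neg (e x N z : ℕ) (R w : ℝ) (hN : N = x ^ e)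
    (hbil : ∀ Gf c : ℕ → ℂ, (∀ a, ‖Gf a‖ ≤ 1) → (∀ m, ‖c m‖ ≤ 1) →
      ‖∑ a ∈ Icc 1 (2 * N), ∑ m ∈ Icc 1 x, Gf a * c m *
      ((lamI (a + (-1) * (X ^ e : ℤ[X]).eval (m : ℤ)) - lamzI z (a + (-1) * (X ^ e : ℤ[X]).eval (m : ℤ)) : ℝ) : ℂ)‖ ≤ R)
    (S H : Finset ℕ) (hS : S ⊆ Icc 1 x) (hH : ∀ h ∈ H, N < h ∧ h ≤ 2 * N)
    (hw : ∀ h ∈ H, ∑ s ∈ S, (ArithmeticFunction.vonMangoldt (h - s ^ e) - lamz z (h - s ^ e)) ≤ -w) :
    H.card * w ≤ R := by
  classical
  have h1 := hbil (fun a => if a ∈ H then 1 else 0) (fun m => if m ∈ S then 1 else 0) (by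
    intro a
    split_ifs <;> simp) (by
    intro a
    split_ifs <;> simp)
  have e1 : ∑ a ∈ Icc 1 (2 * N), ∑ m ∈ Icc 1 x, (if a ∈ H then (1 : ℂ) else 0) * (if m ∈ S then (1 : ℂ) else 0) *
      ((lamI (a + (-1) * (X ^ e : ℤ[X]).eval (m : ℤ)) - lamzI z (a + (-1) * (X ^ e : ℤ[X]).eval (m : ℤ)) : ℝ) : ℂ) =
      ((∑ h ∈ H, ∑ s ∈ S, (ArithmeticFunction.vonMangoldt (h - s ^ e) - lamz z (h - s ^ e)) : ℝ) : ℂ) := by
    have f1 : (Icc 1 (2 * N)).filter (fun a => a ∈ H) = H := by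
      ext a
      rw [mem_filter, mem_Icc]
      refine ⟨fun h => h.2, fun h => ⟨?_, h⟩⟩
      have := hH a h
      omega
    have f2 : (Icc 1 x).filter (fun a => a ∈ S) = S := by
      ext a
      rw [mem_filter]
      exact ⟨fun h => h.2, fun h => ⟨hS h, h⟩⟩
    rw [Complex.ofReal_sum]
    conv_rhs => rw [← f1, sum_filter]
    apply sum_congr rfl
    intro a ha
    rw [mem_Icc] at ha
    by_cases haH : a ∈ H
    · rw [if_pos haH, if_pos haH, Complex.ofReal_sum]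
      conv_rhs => rw [← f2, sum_filter]
      apply sum_congr rfl
      intro m hm
      by_cases hmS : m ∈ S
      · rw [if_pos hmS, if_pos hmS, one_mul, one_mul]
        congr 1
        rw [eval_pow, eval_X]
        have h3 : m ^ e ≤ N := by
          rw [hN]
          exact Nat.pow_le_pow_left (mem_Icc.1 hm).2 e
        have h4 := hH a haH
        have e2 : (a : ℤ) + (-1) * (m : ℤ) ^ e = ((a - m ^ e : ℕ) : ℤ) := by
          push_cast [Nat.cast_sub (by omega : m ^ e ≤ a)]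
          ring
        rw [e2]
        unfold lamI lamzI
        rw [if_pos (by exact_mod_cast (by omega : 1 ≤ a - m ^ e)), if_pos (by exact_mod_cast (by omega : 1 ≤ a - m ^ e)), Int.toNat_natCast]
      · rw [if_neg hmS, if_neg hmS, mul_zero, zero_mul]
    · rw [if_neg haH, if_neg haH]
      apply sum_eq_zero
      intro m _
      rw [zero_mul, zero_mul]
  rw [e1, Complex.norm_real, Real.norm_eq_abs] at h1
  have h2 : ∑ h ∈ H, ∑ s ∈ S, (ArithmeticFunction.vonMangoldt (h - s ^ e) - lamz z (h - s ^ e)) ≤ ∑ _h ∈ H, -w := sum_le_sum hw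
  rw [sum_const, nsmul_eq_mul] at h2
  have h3 := neg_le_of_abs_le h1
  linarith

lemma lamz_eq_neg (e y z M s w : ℕ) (hsw : s ^ e ≤ M * w) (hs : ∀ p : ℕ, p.Prime → p ≤ y → ¬ p ∣ s) (hM : ∀ p : ℕ, p.Prime → p ≤ y → p ∣ M) :
    lamz z (M * w - s ^ e) = if ∀ p ∈ mid y z, ¬ p ∣ M * w - s ^ e then (Vz z)⁻¹ else 0 := by
  unfold lamz
  have : (∀ p ∈ pz z, ¬ p ∣ M * w - s ^ e) ↔ (∀ p ∈ mid y z, ¬ p ∣ M * w - s ^ e) := by
    constructor
    · intro h p hp
      exact h p (mem_pz.2 (mem_mid.1 hp).2)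
    · intro h p hp hd
      rw [mem_pz] at hp
      by_cases hy : y < p
      · exact h p (mem_mid.2 ⟨hy, hp⟩) hd
      · have h1 : p ∣ M * w := (hM p hp.2 (by omega)).mul_right _
        have h2 : p ∣ M * w - (M * w - s ^ e) := Nat.dvd_sub h1 hd
        rw [Nat.sub_sub_self hsw] at h2
        exact hs p hp.2 (by omega) (hp.2.dvd_of_dvd_pow h2)
  by_cases h : ∀ p ∈ mid y z, ¬ p ∣ M * w - s ^ e
  · rw [if_pos h, if_pos (this.2 h)]
  · rw [if_neg h, if_neg (fun h2 => h (this.1 h2))]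

lemma dvd_D_neg (e : ℕ) (he : e = 1 ∨ e = 2) (p s t w D : ℕ) (hs : s ^ e ≤ D) (ht : t ^ e ≤ D) (h1 : p ∣ D - s ^ e + w)
    (h2 : p ∣ D - t ^ e + w) : p ∣ Nat.dist s t * (s + t) := by
  wlog hst : s ≤ t generalizing s t with H
  · have := H t s ht hs h2 h1 (by omega)
    rwa [Nat.dist_comm, add_comm t s] at this
  rw [Nat.dist_eq_sub_of_le hst]
  have h3 : p ∣ (D - s ^ e + w) - (D - t ^ e + w) := Nat.dvd_sub h1 h2
  have h4 : (D - s ^ e + w) - (D - t ^ e + w) = t ^ e - s ^ e := by omega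
  rw [h4] at h3
  rcases he with rfl | rfl
  · rw [pow_one, pow_one] at h3
    exact h3.mul_right _
  · rw [Nat.sq_sub_sq] at h3
    rwa [mul_comm, add_comm s t]

open Classical in
lemma assemble_neg (S : Finset ℕ) (e x y z N M G g0 : ℕ) (δ m R : ℝ) (hδ : 0 < δ) (hm : (S.card : ℝ) = m) (hm0 : 0 < m) (hN : N = x ^ e)
    (hN1 : 1 ≤ N) (hM1 : 1 ≤ M) (hyz : y ≤ z) (hS : S ⊆ Icc 1 x) (hSp : ∀ s ∈ S, ∀ p : ℕ, p.Prime → p ≤ y → ¬ p ∣ s)
    (hMp : ∀ p : ℕ, p.Prime → p ≤ y → p ∣ M) (hg0 : N ≤ M * g0) (hg1 : M * (g0 + G) ≤ 2 * N)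
    (hrough : (((Icc 1 G).filter (fun g => ((S.filter (fun s => ∀ p ∈ mid y z, ¬ p ∣ (M * g0 - s ^ e) + M * g)).card : ℝ) <
      (1 - δ) * (m * Vm y z))).card : ℝ) ≤ δ * G)
    (hbil : ∀ Gf c : ℕ → ℂ, (∀ a, ‖Gf a‖ ≤ 1) → (∀ m, ‖c m‖ ≤ 1) →
      ‖∑ a ∈ Icc 1 (2 * N), ∑ m ∈ Icc 1 x, Gf a * c m *
      ((lamI (a + (-1) * (X ^ e : ℤ[X]).eval (m : ℤ)) - lamzI z (a + (-1) * (X ^ e : ℤ[X]).eval (m : ℤ)) : ℝ) : ℂ)‖ ≤ R)
    (hR : R ≤ (δ * G) * (δ * m)) (hPP : x * (2 * √((2 * N : ℕ) : ℝ) * Real.log ((2 * N : ℕ) : ℝ)) ≤ (δ * G) * (δ * m)) :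
    (((Icc 1 G).filter (fun g => ((S.filter (fun s => (M * (g0 + g) - s ^ e).Prime)).card : ℝ) *
      Real.log (2 * (x : ℝ) ^ e) < (1 - 3 * δ) * (m * (Vz y)⁻¹))).card : ℝ) ≤ 3 * δ * G := by
  have hδm : 0 < δ * m := by positivity
  have hVy := Vz_pos y
  have hVz := Vz_pos z
  have hVm := Vm_pos y z
  have hVy1 : 1 ≤ (Vz y)⁻¹ := by
    rw [one_le_inv₀ hVy]
    exact Vz_le_one y
  have hsplit := Vz_split y z hyz
  -- the three bad sets
  obtain ⟨cX, hcX⟩ : ∃ cX : ℕ → ℝ, ∀ g, cX g = ((S.filter (fun s => ∀ p ∈ mid y z, ¬ p ∣ (M * g0 - s ^ e) + M * g)).card : ℝ) :=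
    ⟨_, fun _ => rfl⟩
  obtain ⟨T, hT⟩ : ∃ T : ℕ → ℝ, ∀ g, T g = ∑ s ∈ S, ArithmeticFunction.vonMangoldt (M * (g0 + g) - s ^ e) := ⟨_, fun _ => rfl⟩
  obtain ⟨PP, hPPd⟩ : ∃ PP : ℕ → ℝ, ∀ g, PP g = ∑ s ∈ S, (if (M * (g0 + g) - s ^ e).Prime then (0 : ℝ) else
    ArithmeticFunction.vonMangoldt (M * (g0 + g) - s ^ e)) := ⟨_, fun _ => rfl⟩
  set B1 := (Icc 1 G).filter (fun g => cX g < (1 - δ) * (m * Vm y z)) with hB1
  set B2 := (Icc 1 G).filter (fun g => (1 - δ) * (m * Vm y z) ≤ cX g ∧ T g < (1 - 2 * δ) * (m * (Vz y)⁻¹)) with hB2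
  set B3 := (Icc 1 G).filter (fun g => δ * m < PP g) with hB3
  have hinj : Function.Injective (fun g => M * (g0 + g)) := by
    intro a b hab
    simp only at hab
    have := Nat.eq_of_mul_eq_mul_left hM1 hab
    omega
  have hrange : ∀ g ∈ Icc 1 G, N < M * (g0 + g) ∧ M * (g0 + g) ≤ 2 * N := by
    intro g hg
    rw [mem_Icc] at hg
    refine ⟨?_, le_trans (Nat.mul_le_mul_left _ (by omega)) hg1⟩
    rw [mul_add]
    have : 0 < M * g := Nat.mul_pos hM1 (by omega)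
    omega
  have hse : ∀ s ∈ S, s ^ e ≤ N := by
    intro s hs
    rw [hN]
    exact Nat.pow_le_pow_left (mem_Icc.1 (hS hs)).2 e
  have c1 : (B1.card : ℝ) ≤ δ * G := by
    have : B1 = (Icc 1 G).filter (fun g => ((S.filter (fun s => ∀ p ∈ mid y z, ¬ p ∣ (M * g0 - s ^ e) + M * g)).card : ℝ) <
      (1 - δ) * (m * Vm y z)) := by
      rw [hB1]
      ext g
      rw [mem_filter, mem_filter, hcX]
    rw [this]
    exact hrough
  have c2 : (B2.card : ℝ) ≤ δ * G := by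
    have h1 := bil_step_neg e x N z R (δ * m) hN hbil S (B2.image (fun g => M * (g0 + g))) hS (by
      intro h hh
      rw [mem_image] at hh
      obtain ⟨g, hg, rfl⟩ := hh
      exact hrange g (mem_filter.1 hg).1) (by
      intro h hh
      rw [mem_image] at hh
      obtain ⟨g, hg, rfl⟩ := hh
      rw [hB2, mem_filter] at hg
      obtain ⟨_, h2, h3⟩ := hg
      rw [sum_sub_distrib, ← hT]
      have h4 : ∑ s ∈ S, lamz z (M * (g0 + g) - s ^ e) = (Vz z)⁻¹ * cX g := by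
        have : ∀ s ∈ S, lamz z (M * (g0 + g) - s ^ e) = if ∀ p ∈ mid y z, ¬ p ∣ (M * g0 - s ^ e) + M * g then (Vz z)⁻¹ else 0 := by
          intro s hs
          have h8 := hse s hs
          have h9 : M * (g0 + g) - s ^ e = (M * g0 - s ^ e) + M * g := by
            rw [mul_add]
            omega
          have h10 : s ^ e ≤ M * (g0 + g) := by
            rw [mul_add]
            omega
          rw [lamz_eq_neg e y z M s (g0 + g) h10 (hSp s hs) hMp, h9]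
        rw [sum_congr rfl this, ← sum_filter, sum_const, nsmul_eq_mul, hcX, mul_comm]
      rw [h4]
      have h5 : (Vz z)⁻¹ * ((1 - δ) * (m * Vm y z)) = (1 - δ) * (m * (Vz y)⁻¹) := by
        rw [hsplit, mul_inv]
        field_simp
      have h6 : (Vz z)⁻¹ * ((1 - δ) * (m * Vm y z)) ≤ (Vz z)⁻¹ * cX g := mul_le_mul_of_nonneg_left h2 (inv_pos.2 hVz).le
      have h7 : δ * m * 1 ≤ δ * m * (Vz y)⁻¹ := mul_le_mul_of_nonneg_left hVy1 hδm.le
      nlinarith)
    rw [card_image_of_injective _ hinj] at h1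
    exact le_of_mul_le_mul_right (h1.trans hR) hδm
  have c3 : (B3.card : ℝ) ≤ δ * G := by
    have h1 := pp_sum_neg x e N hN hN1 S (B3.image (fun g => M * (g0 + g))) hS (by
      intro h hh
      rw [mem_image] at hh
      obtain ⟨g, hg, rfl⟩ := hh
      exact hrange g (mem_filter.1 hg).1)
    rw [sum_image (fun a _ b _ hab => hinj hab)] at h1
    have h2 : ∑ _g ∈ B3, (δ * m) ≤ ∑ g ∈ B3, PP g := by
      apply sum_le_sum
      intro g hg
      exact (mem_filter.1 hg).2.le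
    rw [sum_const, nsmul_eq_mul] at h2
    have h3 : ∑ g ∈ B3, PP g ≤ (δ * G) * (δ * m) := by
      refine le_trans (le_of_eq ?_) (h1.trans hPP)
      apply sum_congr rfl
      intro g _
      rw [hPPd]
    exact le_of_mul_le_mul_right (h2.trans h3) hδm
  have hsub : (Icc 1 G).filter (fun g => ((S.filter (fun s => (M * (g0 + g) - s ^ e).Prime)).card : ℝ) *
      Real.log (2 * (x : ℝ) ^ e) < (1 - 3 * δ) * (m * (Vz y)⁻¹)) ⊆ B1 ∪ (B2 ∪ B3) := by
    intro g hg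
    rw [mem_filter] at hg
    obtain ⟨hg, hlt⟩ := hg
    by_contra hcon
    rw [mem_union, mem_union] at hcon
    push Not at hcon
    obtain ⟨n1, n2, n3⟩ := hcon
    have q1 : (1 - δ) * (m * Vm y z) ≤ cX g := by
      by_contra h
      push Not at h
      exact n1 (mem_filter.2 ⟨hg, h⟩)
    have q2 : (1 - 2 * δ) * (m * (Vz y)⁻¹) ≤ T g := by
      by_contra h
      push Not at h
      exact n2 (mem_filter.2 ⟨hg, q1, h⟩)
    have q3 : PP g ≤ δ * m := by
      by_contra h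
      push Not at h
      exact n3 (mem_filter.2 ⟨hg, h⟩)
    have q4 : T g ≤ ((S.filter (fun s => (M * (g0 + g) - s ^ e).Prime)).card : ℝ) * Real.log (2 * (x : ℝ) ^ e) + PP g := by
      rw [hT, hPPd, card_eq_sum_ones, Nat.cast_sum, sum_mul, sum_filter, ← sum_add_distrib]
      apply sum_le_sum
      intro s hs
      by_cases hp : (M * (g0 + g) - s ^ e).Prime
      · rw [if_pos hp, if_pos hp, ArithmeticFunction.vonMangoldt_apply_prime hp, Nat.cast_one, one_mul, add_zero]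
        apply Real.log_le_log (by exact_mod_cast hp.pos)
        have h2 := (hrange g hg).2
        have h4 : M * (g0 + g) - s ^ e ≤ 2 * x ^ e := by omega
        exact_mod_cast h4
      · rw [if_neg hp, if_neg hp, zero_add]
    have q5 : δ * m * 1 ≤ δ * m * (Vz y)⁻¹ := mul_le_mul_of_nonneg_left hVy1 hδm.le
    nlinarith
  have h1 := card_le_card hsub
  have h2 : (B1 ∪ (B2 ∪ B3)).card ≤ B1.card + (B2.card + B3.card) :=
    (card_union_le _ _).trans (Nat.add_le_add_left (card_union_le _ _) _)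
  have h3 : (((Icc 1 G).filter (fun g => ((S.filter (fun s => (M * (g0 + g) - s ^ e).Prime)).card : ℝ) *
      Real.log (2 * (x : ℝ) ^ e) < (1 - 3 * δ) * (m * (Vz y)⁻¹))).card : ℝ) ≤ B1.card + (B2.card + B3.card) := by
    exact_mod_cast h1.trans h2
  linarith

end Pool.Agent.Y877.SX
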