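import Mathlib
import Pool.Agent.Y877.SxO

/-! Dense sets of primes: representations of almost all multiples of a small primorial. -/

namespace Pool.Agent.Y877.SX
open Finset Pool.Agent.H373R2.T7

lemma pi_low : ∃ x0 : ℕ, ∀ x : ℕ, x0 ≤ x → (x : ℝ) / (2 * Real.log x) ≤ (Nat.primeCounting x : ℝ) := by
  obtain ⟨n1, hn1⟩ := ev_log' 1 1
  refine ⟨max n1 400, fun x hx => ?_⟩
  have b1 := hn1 x ((le_max_left _ _).trans hx)
  have b2 : 400 ≤ x := (le_max_right _ _).trans hx
  rw [one_mul, pow_one] at b1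
  have hxr : (400 : ℝ) ≤ x := by exact_mod_cast b2
  have hx0 : (0 : ℝ) < x := by linarith
  have hL0 : 0 < Real.log x := Real.log_pos (by linarith)
  have hss : √(x : ℝ) * √(x : ℝ) = x := Real.mul_self_sqrt hx0.le
  have hs20 : (20 : ℝ) ≤ √(x : ℝ) := by
    apply Real.le_sqrt_of_sq_le
    linarith
  have h1 : Real.log ((x : ℝ) + 1) ≤ 2 * Real.log x := by
    have h2 : (x : ℝ) + 1 ≤ x ^ 2 := by
      have : (400 : ℝ) * x ≤ x * x := mul_le_mul_of_nonneg_right hxr hx0.le
      rw [sq]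
      linarith
    have := Real.log_le_log (by linarith) h2
    rwa [Real.log_pow, Nat.cast_ofNat] at this
  have h3 : 20 * √(x : ℝ) ≤ x := by
    calc 20 * √(x : ℝ) ≤ √(x : ℝ) * √(x : ℝ) := mul_le_mul_of_nonneg_right hs20 (Real.sqrt_nonneg _)
      _ = x := hss
  have hlog2 : (0.69 : ℝ) < Real.log 2 := by
    have := Real.log_two_gt_d9
    linarith
  have h4 : (x : ℝ) * 0.69 ≤ x * Real.log 2 := mul_le_mul_of_nonneg_left hlog2.le hx0.le
  refine le_trans ?_ (Chebyshev.pi_ge x)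
  rw [div_le_div_iff₀ (by positivity) hL0]
  have h5 : (x : ℝ) / 2 ≤ x * Real.log 2 - Real.log (x + 1) := by linarith
  have h6 := mul_le_mul_of_nonneg_right h5 (by positivity : 0 ≤ 2 * Real.log x)
  linarith

/-- the primes `p ≤ x` whose index is prime -/
noncomputable def PPi (x : ℕ) : Finset ℕ := (Icc 1 x).filter (fun p => p.Prime ∧ (Nat.primeCounting p).Prime)

lemma PPi_low : ∃ x0 : ℕ, ∀ x : ℕ, x0 ≤ x → (x : ℝ) / (8 * Real.log x ^ 2) ≤ ((PPi x).card : ℝ) := by
  obtain ⟨x1, h1⟩ := pi_low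
  obtain ⟨x2, h2⟩ := ev_log' 1 (2 * (x1 + 4))
  refine ⟨max x1 (max x2 9), fun x hx => ?_⟩
  have b1 := h1 x ((le_max_left _ _).trans hx)
  have b2 := h2 x (((le_max_left _ _).trans (le_max_right _ _)).trans hx)
  have b3 : 9 ≤ x := ((le_max_right _ _).trans (le_max_right _ _)).trans hx
  have hxr : (9 : ℝ) ≤ x := by exact_mod_cast b3
  have hx0 : (0 : ℝ) < x := by linarith
  have hL0 : 0 < Real.log x := Real.log_pos (by linarith)
  have hss : √(x : ℝ) * √(x : ℝ) = x := Real.mul_self_sqrt hx0.le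
  have hs1 : 1 ≤ √(x : ℝ) := by
    apply Real.le_sqrt_of_sq_le
    linarith
  rw [pow_one] at b2
  obtain ⟨m, hm⟩ : ∃ m, m = ⌊(x : ℝ) / (2 * Real.log x)⌋₊ := ⟨_, rfl⟩
  have hmu : (m : ℝ) ≤ x / (2 * Real.log x) := by rw [hm]; exact Nat.floor_le (by positivity)
  have hml : (x : ℝ) / (2 * Real.log x) - 1 < m := by rw [hm]; exact Nat.sub_one_lt_floor _
  have hbig : (x1 : ℝ) + 4 ≤ x / (2 * Real.log x) := by
    rw [le_div_iff₀ (by positivity)]
    have h3 : √(x : ℝ) ≤ x := by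
      calc √(x : ℝ) = √(x : ℝ) * 1 := (mul_one _).symm
        _ ≤ √(x : ℝ) * √(x : ℝ) := mul_le_mul_of_nonneg_left hs1 (Real.sqrt_nonneg _)
        _ = x := hss
    linarith
  have hx1m : x1 ≤ m := by
    have : (x1 : ℝ) ≤ m := by linarith
    exact_mod_cast this
  have hm3 : (3 : ℝ) ≤ m := by
    have : (0 : ℝ) ≤ x1 := Nat.cast_nonneg _
    linarith
  have hm2 : (x : ℝ) / (4 * Real.log x) ≤ m := by
    have h4 : (x : ℝ) / (4 * Real.log x) = (x / (2 * Real.log x)) / 2 := by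
      field_simp
      norm_num
    rw [h4]
    have : (0 : ℝ) ≤ x1 := Nat.cast_nonneg _
    linarith
  have hmpi : m ≤ Nat.primeCounting x := by
    have : (m : ℝ) ≤ Nat.primeCounting x := hmu.trans b1
    exact_mod_cast this
  have hmx : (m : ℝ) ≤ x := by
    refine hmu.trans (div_le_self hx0.le ?_)
    have h5 : Real.log 9 ≤ Real.log x := Real.log_le_log (by norm_num) hxr
    have h6 : (1 : ℝ) ≤ Real.log 9 := by
      rw [Real.le_log_iff_exp_le (by norm_num)]
      have := Real.exp_one_lt_d9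
      linarith
    linarith
  have hlm : Real.log m ≤ Real.log x := Real.log_le_log (by linarith) hmx
  have hlm0 : 0 < Real.log m := Real.log_pos (by linarith)
  have k1 := h1 m hx1m
  -- the injection
  have hcard : Nat.primeCounting m ≤ (PPi x).card := by
    have e1 : Nat.primeCounting m = ((Icc 1 m).filter Nat.Prime).card := by
      rw [← Nat.primesLE_card_eq_primeCounting]
      congr 1
      ext q
      rw [Nat.mem_primesLE, mem_filter, mem_Icc]
      constructor
      · rintro ⟨a, b⟩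
        exact ⟨⟨b.one_lt.le, a⟩, b⟩
      · rintro ⟨⟨_, a⟩, b⟩
        exact ⟨a, b⟩
    rw [e1]
    apply card_le_card_of_injOn (fun q => Nat.nth Nat.Prime (q - 1))
    · intro q hq
      rw [mem_coe, mem_filter, mem_Icc] at hq
      obtain ⟨⟨hq1, hq2⟩, hq3⟩ := hq
      have hlt : q - 1 < Nat.primeCounting x := by omega
      have hle : Nat.nth Nat.Prime (q - 1) < x + 1 := Nat.nth_lt_of_lt_count hlt
      have hpp : (Nat.nth Nat.Prime (q - 1)).Prime := Nat.prime_nth_prime _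
      have hpi : Nat.primeCounting (Nat.nth Nat.Prime (q - 1)) = q := by
        have h7 : Nat.primeCounting (Nat.nth Nat.Prime (q - 1)) = Nat.count Nat.Prime (Nat.nth Nat.Prime (q - 1) + 1) := rfl
        rw [h7, Nat.count_succ, if_pos hpp]
        have h8 : Nat.count Nat.Prime (Nat.nth Nat.Prime (q - 1)) = q - 1 := Nat.primeCounting'_nth_eq (q - 1)
        omega
      unfold PPi
      rw [mem_coe, mem_filter, mem_Icc]
      refine ⟨⟨hpp.one_lt.le, (by omega : Nat.nth Nat.Prime (q - 1) ≤ x)⟩, hpp, ?_⟩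
      show (Nat.primeCounting (Nat.nth Nat.Prime (q - 1))).Prime
      rw [hpi]
      exact hq3
    · intro a ha b hb hab
      rw [mem_coe, mem_filter, mem_Icc] at ha hb
      have := Nat.nth_injective Nat.infinite_setOfPred_prime hab
      omega
  have hcr : (Nat.primeCounting m : ℝ) ≤ (PPi x).card := by exact_mod_cast hcard
  refine le_trans ?_ (k1.trans hcr)
  calc (x : ℝ) / (8 * Real.log x ^ 2) = (x / (4 * Real.log x)) / (2 * Real.log x) := by
        field_simp
        norm_num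
    _ ≤ m / (2 * Real.log x) := div_le_div_of_nonneg_right hm2 (by positivity)
    _ ≤ m / (2 * Real.log m) := by
        apply div_le_div_of_nonneg_left (by positivity) (by positivity)
        linarith

open Classical in
theorem step_neg (e : ℕ) (he : e = 1 ∨ e = 2) (A C : ℕ) (ε : ℝ) (hε : 0 < ε) (hε1 : ε ≤ 1) : ∃ K0 : ℕ, ∀ K1 : ℕ, ∃ x0 : ℕ, ∀ x : ℕ, x0 ≤ x →
    ∀ y : ℕ, K0 * Real.log (Real.log x) ≤ y → y ≤ K1 * Real.log (Real.log x) →
    ∀ S : Finset ℕ, S ⊆ Icc 1 x → (∀ s ∈ S, s.Prime) → (x : ℝ) ≤ S.card * Real.log x ^ A →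
    ∀ g0 G : ℕ, x ^ e ≤ primorial y * g0 → primorial y * (g0 + G) ≤ 2 * x ^ e → (x : ℝ) ^ e ≤ primorial y * G * Real.log x ^ C →
    (((Icc 1 G).filter (fun g => ((S.filter (fun s => (primorial y * (g0 + g) - s ^ e).Prime)).card : ℝ) <
      (1 - ε) * (S.card / (Vz y * (e * Real.log x))))).card : ℝ) ≤ ε * G := by
  obtain ⟨δ, hδd⟩ : ∃ δ, δ = ε / 8 := ⟨_, rfl⟩
  have hδ : 0 < δ := by rw [hδd]; positivity
  obtain ⟨K0, hK0⟩ := shifts_neg e he (A + 1) C δ hδ
  refine ⟨K0, fun K1 => ?_⟩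
  obtain ⟨n0, hn0⟩ := hK0 K1
  obtain ⟨n1, hn1⟩ := ev_L' (max (max 1 (1 / δ)) (max 2 (2 * (K1 + 1))))
  obtain ⟨n2, hn2⟩ := ev_log' (A + 1) (1 / δ)
  refine ⟨max n0 (max n1 (max n2 1)), fun n hn y hy1 hy2 J hJ1 hJp hJ g0 G hg0 hg1 hg2 => ?_⟩
  have b1 : n0 ≤ n := le_trans (le_max_left _ _) hn
  have b2 : n1 ≤ n := le_trans (le_trans (le_max_left _ _) (le_max_right _ _)) hn
  have b3 : n2 ≤ n := le_trans (le_trans (le_trans (le_max_left _ _) (le_max_right _ _)) (le_max_right _ _)) hn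
  have b4 : 1 ≤ n := le_trans (le_trans (le_trans (le_max_right _ _) (le_max_right _ _)) (le_max_right _ _)) hn
  have hL := hn1 n b2
  have hs := hn2 n b3
  obtain ⟨L, hLd⟩ : ∃ L, L = Real.log n := ⟨_, rfl⟩
  have key := hn0 n b1 y hy1 hy2
  have hlogn : Real.log (2 * (n : ℝ) ^ e) = Real.log 2 + e * L := by
    have : (0 : ℝ) < n := by exact_mod_cast b4
    rw [Real.log_mul (by norm_num) (by positivity), Real.log_pow, hLd]
  rw [← hLd] at hL hs hy1 hy2 hJ hg2 key ⊢
  have hL1 : 1 ≤ L := ((le_max_left _ _).trans (le_max_left _ _)).trans hL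
  have hLδ : 1 / δ ≤ L := ((le_max_right _ _).trans (le_max_left _ _)).trans hL
  have hL2 : 2 ≤ L := ((le_max_left _ _).trans (le_max_right _ _)).trans hL
  have hL3 : 2 * ((K1 : ℝ) + 1) ≤ L := ((le_max_right _ _).trans (le_max_right _ _)).trans hL
  have hL0 : 0 < L := by linarith
  have hnr : (1 : ℝ) ≤ n := by exact_mod_cast b4
  have hn0' : (0 : ℝ) < n := by linarith
  have hsn : √(n : ℝ) * √(n : ℝ) = n := Real.mul_self_sqrt hn0'.le
  have hsn0 : 0 < √(n : ℝ) := Real.sqrt_pos.2 hn0'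
  have hlL : Real.log L ≤ L - 1 := Real.log_le_sub_one_of_pos hL0
  obtain ⟨J', hJ'⟩ : ∃ J' : Finset ℕ, J' = J.filter (fun j => y < j) := ⟨_, rfl⟩
  have hsmall : (J.card : ℝ) ≤ J'.card + (y + 1) := by
    have h1 : (J.filter (fun j => ¬ y < j)).card ≤ y + 1 := by
      have h2 : (J.filter (fun j => ¬ y < j)).card ≤ (range (y + 1)).card := by
        apply card_le_card
        intro s hs
        rw [mem_filter] at hs
        rw [mem_range]
        omega
      rwa [card_range] at h2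
    have h3 := card_filter_add_card_filter_not (s := J) (fun j => y < j)
    rw [← hJ'] at h3
    have h4 : J.card ≤ J'.card + (y + 1) := by omega
    exact_mod_cast h4
  have hyL : (y : ℝ) + 1 ≤ (K1 + 1) * L := by
    have : (K1 : ℝ) * Real.log L ≤ K1 * L := by
      apply mul_le_mul_of_nonneg_left _ (Nat.cast_nonneg _)
      linarith
    linarith
  have hJbig : (y : ℝ) + 1 ≤ δ * J.card := by
    have h1 : 1 / δ * L ^ (A + 1) * √(n : ℝ) ≤ J.card * L ^ A := by
      calc 1 / δ * L ^ (A + 1) * √(n : ℝ) ≤ √n * √n := mul_le_mul_of_nonneg_right hs hsn0.le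
        _ = n := hsn
        _ ≤ _ := hJ
    have h2 : 1 / δ * L * √(n : ℝ) ≤ J.card := by
      have h3 : 0 < L ^ A := by positivity
      have h4 : (1 / δ * L * √(n : ℝ)) * L ^ A ≤ J.card * L ^ A := by
        refine le_trans (le_of_eq ?_) h1
        rw [pow_succ]
        ring
      exact le_of_mul_le_mul_right h4 h3
    have h5 : (K1 : ℝ) + 1 ≤ √n := by
      have h8 : 1 ≤ 1 / δ := by
        rw [le_div_iff₀ hδ, hδd]
        linarith
      have h9 : L ≤ L ^ (A + 1) := le_self_pow₀ hL1 (by omega)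
      have h6 : L ≤ √(n : ℝ) := by
        calc L = 1 * L := (one_mul _).symm
          _ ≤ 1 / δ * L ^ (A + 1) := mul_le_mul h8 h9 hL0.le (by positivity)
          _ ≤ √(n : ℝ) := hs
      linarith
    calc (y : ℝ) + 1 ≤ (K1 + 1) * L := hyL
      _ ≤ √n * L := mul_le_mul_of_nonneg_right h5 hL0.le
      _ = δ * (1 / δ * L * √(n : ℝ)) := by field_simp
      _ ≤ δ * J.card := mul_le_mul_of_nonneg_left h2 hδ.le
  have hJ0 : (0 : ℝ) ≤ J.card := Nat.cast_nonneg _
  have hJJ : (1 - δ) * J.card ≤ J'.card := by linarith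
  have hδ8 : δ ≤ 1 / 8 := by rw [hδd]; linarith
  have hJ'b : (n : ℝ) ≤ J'.card * L ^ (A + 1) := by
    have h1 : (J.card : ℝ) ≤ 2 * J'.card := by
      have : 1 / 2 * (J.card : ℝ) ≤ (1 - δ) * J.card := mul_le_mul_of_nonneg_right (by linarith) hJ0
      linarith
    calc (n : ℝ) ≤ J.card * L ^ A := hJ
      _ ≤ (2 * J'.card) * L ^ A := by gcongr
      _ = J'.card * (L ^ A * 2) := by ring
      _ ≤ J'.card * (L ^ A * L) := by gcongr
      _ = _ := by rw [pow_succ]
  have hsubJ : J' ⊆ J := by rw [hJ']; exact filter_subset _ _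
  have k1 := key J' (hsubJ.trans hJ1) hJ'b (by
    intro s hs p hp hpy hd
    have h1 := (Nat.prime_dvd_prime_iff_eq hp (hJp s (hsubJ hs))).1 hd
    rw [hJ', mem_filter] at hs
    omega) g0 G hg0 hg1 hg2
  have hG0 : (0 : ℝ) ≤ G := Nat.cast_nonneg G
  refine le_trans ?_ (k1.trans (by
    have := mul_nonneg hε.le hG0
    rw [hδd]
    linarith))
  have hVy := Vz_pos y
  have her : (1 : ℝ) ≤ e := by
    rcases he with rfl | rfl <;> norm_num
  have hden : 0 < Vz y * (e * L) := by positivity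
  have hsub : (Icc 1 G).filter (fun g => ((J.filter (fun s => (primorial y * (g0 + g) - s ^ e).Prime)).card : ℝ) <
      (1 - ε) * (J.card / (Vz y * (e * L)))) ⊆ (Icc 1 G).filter (fun g => ((J'.filter (fun s => (primorial y * (g0 + g) - s ^ e).Prime)).card : ℝ) *
      Real.log (2 * (n : ℝ) ^ e) < (1 - 3 * δ) * (J'.card * (Vz y)⁻¹)) := by
    intro g hg
    rw [mem_filter] at hg ⊢
    refine ⟨hg.1, ?_⟩
    have h1 : ((J'.filter (fun s => (primorial y * (g0 + g) - s ^ e).Prime)).card : ℝ) ≤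
        ((J.filter (fun s => (primorial y * (g0 + g) - s ^ e).Prime)).card : ℝ) := by
      exact_mod_cast card_le_card (filter_subset_filter _ hsubJ)
    have h2 := lt_of_le_of_lt h1 hg.2
    obtain ⟨c, hc⟩ : ∃ c : ℝ, c = ((J'.filter (fun s => (primorial y * (g0 + g) - s ^ e).Prime)).card : ℝ) := ⟨_, rfl⟩
    have hc0 : 0 ≤ c := by rw [hc]; exact Nat.cast_nonneg _
    rw [← hc] at h2 ⊢
    have h3 : Real.log (2 * (n : ℝ) ^ e) ≤ (1 + δ) * (e * L) := by
      rw [hlogn]
      rw [div_le_iff₀ hδ] at hLδ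
      have := Real.log_two_lt_d9
      have h4 : L * δ * 1 ≤ L * δ * e := mul_le_mul_of_nonneg_left her (by positivity)
      have h5 : (1 + δ) * (e * L) = e * L + L * δ * e := by ring
      rw [h5]
      linarith
    calc c * Real.log (2 * (n : ℝ) ^ e) ≤ c * ((1 + δ) * (e * L)) := mul_le_mul_of_nonneg_left h3 hc0
      _ < ((1 - ε) * (J.card / (Vz y * (e * L)))) * ((1 + δ) * (e * L)) := mul_lt_mul_of_pos_right h2 (by positivity)
      _ = (1 - ε) * (1 + δ) * (J.card * (Vz y)⁻¹) := by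
          field_simp
      _ ≤ (1 - 3 * δ) * (1 - δ) * (J.card * (Vz y)⁻¹) := by
          apply mul_le_mul_of_nonneg_right _ (by positivity)
          have h15 : (1 - ε) * (1 + δ) = 1 - ε + δ - ε * δ := by ring
          have h16 : (1 - 3 * δ) * (1 - δ) = 1 - 4 * δ + 3 * δ ^ 2 := by ring
          rw [h15, h16]
          have h17 : ε = 8 * δ := by rw [hδd]; ring
          rw [h17]
          have : 0 ≤ 8 * δ * δ := by positivity
          have : 0 ≤ 3 * δ ^ 2 := by positivity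
          linarith
      _ = (1 - 3 * δ) * (((1 - δ) * J.card) * (Vz y)⁻¹) := by ring
      _ ≤ (1 - 3 * δ) * (J'.card * (Vz y)⁻¹) := by
          apply mul_le_mul_of_nonneg_left _ (by linarith)
          exact mul_le_mul_of_nonneg_right hJJ (inv_pos.2 hVy).le
  exact_mod_cast card_le_card hsub

end Pool.Agent.Y877.SX
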