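import Mathlib
import Pool.Agent.Y877.SxP

/-! Iterated prime-indexed primes: a lower bound for their number. -/

namespace Pool.Agent.Y877.SX
open Finset Pool.Agent.H373R2.T7

/-- the `k`-th prime -/
noncomputable def pk (k : ℕ) : ℕ := Nat.nth Nat.Prime (k - 1)

lemma pk_prime (k : ℕ) : (pk k).Prime := Nat.prime_nth_prime _

lemma pk_inj (a b : ℕ) (ha : 1 ≤ a) (hb : 1 ≤ b) (h : pk a = pk b) : a = b := by
  have := Nat.nth_injective Nat.infinite_setOfPred_prime h
  omega

lemma pk_pos (k : ℕ) : 1 ≤ pk k := (pk_prime k).one_lt.le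

lemma iter_pos (a t : ℕ) (ht : 1 ≤ t) : 1 ≤ pk^[a] t := by
  cases a with
  | zero => simpa using ht
  | succ a => rw [Function.iterate_succ_apply']; exact pk_pos _

lemma iter_inj (a : ℕ) : ∀ s t : ℕ, 1 ≤ s → 1 ≤ t → pk^[a] s = pk^[a] t → s = t := by
  induction a with
  | zero => intro s t _ _ h; simpa using h
  | succ a ih =>
    intro s t hs ht h
    rw [Function.iterate_succ_apply', Function.iterate_succ_apply'] at h
    exact ih s t hs ht (pk_inj _ _ (iter_pos a s hs) (iter_pos a t ht) h)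

lemma pk_ge (k : ℕ) : k ≤ pk k := by
  have := Nat.add_two_le_nth_prime (k - 1)
  unfold pk
  omega

lemma iter_ge (a t : ℕ) : t ≤ pk^[a] t := by
  induction a with
  | zero => simp
  | succ a ih => rw [Function.iterate_succ_apply']; exact ih.trans (pk_ge _)

/-- the `t` with `p^{a+1}(t) ≤ x` -/
noncomputable def TT (a x : ℕ) : Finset ℕ := (Icc 1 x).filter (fun t => pk^[a + 1] t ≤ x)

lemma pk_le (k x : ℕ) (hk : 1 ≤ k) (h : k ≤ Nat.primeCounting x) : pk k ≤ x := by
  have h1 : Nat.nth Nat.Prime (k - 1) < x + 1 := by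
    apply Nat.nth_lt_of_lt_count
    show k - 1 < Nat.primeCounting x
    omega
  unfold pk
  omega

lemma TT_low (a : ℕ) : ∃ x0 : ℕ, ∀ x : ℕ, x0 ≤ x → (x : ℝ) / (2 * Real.log x) ^ (a + 1) ≤ ((TT a x).card : ℝ) := by
  induction a with
  | zero =>
    obtain ⟨x1, h1⟩ := pi_low
    refine ⟨x1, fun x hx => ?_⟩
    rw [zero_add, pow_one]
    refine (h1 x hx).trans ?_
    have h2 : (Icc 1 (Nat.primeCounting x)).card ≤ (TT 0 x).card := by
      apply card_le_card
      intro t ht
      rw [mem_Icc] at ht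
      have h3 : pk t ≤ x := pk_le t x ht.1 ht.2
      unfold TT
      rw [mem_filter, mem_Icc]
      refine ⟨⟨ht.1, (pk_ge t).trans h3⟩, ?_⟩
      simpa using h3
    rw [Nat.card_Icc, Nat.add_sub_cancel] at h2
    exact_mod_cast h2
  | succ a ih =>
    obtain ⟨x0, h0⟩ := ih
    obtain ⟨x1, h1⟩ := pi_low
    obtain ⟨x2, h2⟩ := ev_log' 1 (2 * (x0 + 3))
    refine ⟨max x1 (max x2 9), fun x hx => ?_⟩
    have b1 := h1 x ((le_max_left _ _).trans hx)
    have b2 := h2 x (((le_max_left _ _).trans (le_max_right _ _)).trans hx)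
    have b3 : 9 ≤ x := ((le_max_right _ _).trans (le_max_right _ _)).trans hx
    have hxr : (9 : ℝ) ≤ x := by exact_mod_cast b3
    have hx0 : (0 : ℝ) < x := by linarith
    have hL0 : 0 < Real.log x := Real.log_pos (by linarith)
    have hss : √(x : ℝ) * √(x : ℝ) = x := Real.mul_self_sqrt hx0.le
    have hs1 : 1 ≤ √(x : ℝ) := by
      apply Real.le_sqrt_of_sq_le
      linarith
    rw [pow_one] at b2
    have hbig : (x0 : ℝ) + 3 ≤ x / (2 * Real.log x) := by
      rw [le_div_iff₀ (by positivity)]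
      have h3 : √(x : ℝ) ≤ x := by
        calc √(x : ℝ) = √(x : ℝ) * 1 := (mul_one _).symm
          _ ≤ √(x : ℝ) * √(x : ℝ) := mul_le_mul_of_nonneg_left hs1 (Real.sqrt_nonneg _)
          _ = x := hss
      linarith
    obtain ⟨m, hm⟩ : ∃ m, m = Nat.primeCounting x := ⟨_, rfl⟩
    rw [← hm] at b1
    have hm0 : (x0 : ℝ) + 3 ≤ m := hbig.trans b1
    have hx0m : x0 ≤ m := by
      have : (x0 : ℝ) ≤ m := by linarith
      exact_mod_cast this
    have hm3 : (3 : ℝ) ≤ m := by
      have : (0 : ℝ) ≤ x0 := Nat.cast_nonneg _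
      linarith
    have hmx : m ≤ x := by
      rw [hm]
      have h4 : Nat.primeCounting x ≤ x := by
        have := pk_ge (Nat.primeCounting x)
        by_cases hz : Nat.primeCounting x = 0
        · omega
        · exact this.trans (pk_le _ x (Nat.pos_of_ne_zero hz) le_rfl)
      exact h4
    have hmxr : (m : ℝ) ≤ x := by exact_mod_cast hmx
    have hlm : Real.log m ≤ Real.log x := Real.log_le_log (by linarith) hmxr
    have hlm0 : 0 < Real.log m := Real.log_pos (by linarith)
    have k1 := h0 m hx0m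
    have hsub : TT a m ⊆ TT (a + 1) x := by
      intro t ht
      unfold TT at ht ⊢
      rw [mem_filter, mem_Icc] at ht ⊢
      refine ⟨⟨ht.1.1, ht.1.2.trans hmx⟩, ?_⟩
      rw [Function.iterate_succ_apply']
      exact pk_le _ x (iter_pos _ t ht.1.1) (by rw [← hm]; exact ht.2)
    have hcr : ((TT a m).card : ℝ) ≤ (TT (a + 1) x).card := by exact_mod_cast card_le_card hsub
    refine le_trans ?_ (k1.trans hcr)
    calc (x : ℝ) / (2 * Real.log x) ^ (a + 1 + 1) = (x / (2 * Real.log x)) / (2 * Real.log x) ^ (a + 1) := by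
          rw [pow_succ, div_div, mul_comm]
      _ ≤ m / (2 * Real.log x) ^ (a + 1) := div_le_div_of_nonneg_right b1 (by positivity)
      _ ≤ m / (2 * Real.log m) ^ (a + 1) := by
          apply div_le_div_of_nonneg_left (by positivity) (by positivity)
          apply pow_le_pow_left₀ (by positivity)
          linarith

end Pool.Agent.Y877.SX
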