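import Mathlib
import Pool.Agent.Y877.CombS
import Pool.Agent.Y877.Core2
import Pool.Agent.Y877.Adm

/-! Prime tuples: almost all vectors of shifts have a bounded multiple which is a prime pattern
(helper877). -/

set_option autoImplicit false

namespace Pool.Agent.Y877

open Finset Filter Topology Pool.Agent.H602R3.DHJ

/-- The number of the primes `p` in `[x, (1 + s) x]` with `p ≡ a (mod q)` for which all the `p + v l` are
primes in `[x, (1 + s) x]`. -/
noncomputable def pat {k : ℕ} (s : ℝ) (x q a : ℕ) (v : Fin k → ℤ) : ℕ :=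
  {p : ℕ | p.Prime ∧ p ≡ a [MOD q] ∧ (x : ℝ) ≤ p ∧ (p : ℝ) ≤ (1 + s) * x ∧
    ∀ l, ∃ p' : ℕ, p'.Prime ∧ (p' : ℤ) = p + v l ∧ (x : ℝ) ≤ p' ∧ (p' : ℝ) ≤ (1 + s) * x}.ncard

open Classical in
/-- a line in every quarter of the words -/
theorem quarter_line (k : ℕ) : ∃ N : ℕ, ∀ S : Finset (Wd k N),
    Fintype.card (Wd k N) ≤ 4 * S.card → ∃ V : Ln k N, Pr V ∧ ∀ i, pt V i ∈ S := by
  obtain ⟨N, hN⟩ := dhjT (Fin (k + 1)) (1 / 4) (by norm_num)
  refine ⟨N, fun S hS => ?_⟩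
  have hpos : (0 : ℝ) < Fintype.card (Wd k N) := by exact_mod_cast Fintype.card_pos
  have h1 : 1 / 4 ≤ dn (S : Set (Wd k N)) := by
    unfold dn av
    rw [le_div_iff₀ hpos]
    have h2 : ∑ x : Wd k N, (S : Set (Wd k N)).indicator (fun _ => (1 : ℝ)) x = S.card := by
      simp only [Set.indicator_apply, mem_coe]
      rw [sum_ite_mem, univ_inter, sum_const, nsmul_eq_mul, mul_one]
    rw [h2]
    have h3 : (Fintype.card (Wd k N) : ℝ) ≤ 4 * S.card := by exact_mod_cast hS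
    linarith
  have hnl : ¬ LFr (S : Set (Wd k N)) := fun hl => absurd (hN _ hl) (not_lt.2 h1)
  unfold LFr at hnl
  push Not at hnl
  obtain ⟨V, hV, hVW⟩ := hnl
  exact ⟨V, hV, fun i => mem_coe.1 (hVW i)⟩

/-- admissibility -/
theorem admR (T K n : ℕ) (A : Fin T → Fin K → ℕ) (r : Fin T → ℤ)
    (hr : ∀ g i, ((T * K).factorial : ℤ) ∣ (A g i : ℤ) - r g) (p : ℕ) (hp : p.Prime) :
    ∃ z : ℤ, ∀ g i, ¬ ((p : ℤ) ∣ ((T.factorial * n * A g i : ℕ) : ℤ) + z) := by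
  classical
  have hpp : Prime (p : ℤ) := Nat.prime_iff_prime_int.1 hp
  by_cases hpT : p ≤ T
  · refine ⟨1, fun g i h => ?_⟩
    have h1 : (p : ℤ) ∣ ((T.factorial * n * A g i : ℕ) : ℤ) := by
      exact_mod_cast (((hp.dvd_factorial).2 hpT).mul_right n).mul_right (A g i)
    have h3 : (p : ℤ) ∣ 1 := (dvd_add_right h1).1 h
    exact hpp.not_isUnit (isUnit_of_dvd_one h3)
  push Not at hpT
  by_cases hpK : p ≤ T * K
  · obtain ⟨z, hz⟩ := exresA p
      ((univ : Finset (Fin T)).image (fun g => ((T.factorial * n : ℕ) : ℤ) * r g)) (by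
      refine card_image_le.trans_lt ?_
      rw [card_univ, Fintype.card_fin]; omega)
    refine ⟨z, fun g i h => hz (((T.factorial * n : ℕ) : ℤ) * r g) (mem_image.2 ⟨g, mem_univ _, rfl⟩) ?_⟩
    have h1 : (p : ℤ) ∣ (A g i : ℤ) - r g := by
      have h2 : (p : ℤ) ∣ ((T * K).factorial : ℕ) := by
        exact_mod_cast (hp.dvd_factorial).2 hpK
      exact h2.trans (hr g i)
    have h2 : z + ((T.factorial * n : ℕ) : ℤ) * r g = (((T.factorial * n * A g i : ℕ) : ℤ) + z) -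
        ((A g i : ℤ) - r g) * ((T.factorial * n : ℕ) : ℤ) := by push_cast; ring
    rw [h2]
    exact dvd_sub h (h1.mul_right _)
  · obtain ⟨z, hz⟩ := exresA p ((univ : Finset (Fin T × Fin K)).image
      (fun z => ((T.factorial * n * A z.1 z.2 : ℕ) : ℤ))) (by
      refine card_image_le.trans_lt ?_
      rw [card_univ, Fintype.card_prod, Fintype.card_fin, Fintype.card_fin]; omega)
    refine ⟨z, fun g i h => hz _ (mem_image.2 ⟨(g, i), mem_univ _, rfl⟩) ?_⟩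
    rw [add_comm]
    exact h

open Classical in
/-- **Main theorem.** -/
theorem tuples (k : ℕ) : ∃ L : ℕ, ∀ ε s : ℝ, 0 < ε → 0 < s → ∃ C : ℕ, ∀ q : ℕ, 1 ≤ q →
    ∀ η : ℝ, 0 < η → ∀ᶠ x : ℕ in atTop, ∀ a : ℕ, a.Coprime q → ∀ b : ℕ, 1 ≤ b →
    ∀ (U H : ℕ) (u : Fin k → ℤ), (∀ l, |u l| ≤ U) → C ≤ H → C * (q ^ 2 * b * (U + H)) ≤ x →
    (1 - ε) * (H : ℝ) ^ k ≤ (((Fintype.piFinset (fun l => Ioc (u l) (u l + H))).filter
      (fun h => ∃ d : ℕ, 1 ≤ d ∧ d ≤ L ∧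
        (x : ℝ) ^ (1 - η) ≤ pat s x q a (fun l => ((d * (q * b) : ℕ) : ℤ) * h l))).card : ℝ) := by
  obtain ⟨c, hc, hc1, HC⟩ := coreXS
  obtain ⟨N, hN⟩ := quarter_line k
  obtain ⟨T, hT⟩ : ∃ T, Fintype.card (Wd k N) = T := ⟨_, rfl⟩
  have e : Fin T ≃ Wd k N := (Fintype.equivFinOfCardEq hT).symm
  have hT0 : 1 ≤ T := by
    rw [← hT]
    exact Fintype.card_pos
  obtain ⟨M, hM⟩ : ∃ M, M = (T - 1) / 4 := ⟨_, rfl⟩
  have hM1 : T ≤ 4 * (M + 1) := by omega
  have hM2 : 4 * M < T := by omega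
  have hM3 : (4 - c) * M < T := by
    have h1 : (4 * M : ℝ) < T := by exact_mod_cast hM2
    have h2 : (0 : ℝ) ≤ M := Nat.cast_nonneg _
    nlinarith
  refine ⟨T.factorial * N, fun ε s hε hs => ?_⟩
  obtain ⟨K, C₂, hK, HC⟩ := HC T M hT0 hM3 s hs
  obtain ⟨C₁, hC₁, HB⟩ := combD k N K (T * K).factorial hK (Nat.factorial_pos _) ε hε
  refine ⟨C₂ * T.factorial * C₁ + C₁, fun q hq η hη => ?_⟩
  filter_upwards [HC q hq η hη] with x hx a ha b hb U H u hu hCH hHx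
  by_contra hcon
  push Not at hcon
  obtain ⟨Good, hGood⟩ : ∃ Good : (Fin k → ℤ) → Prop, Good = fun h => ∃ d : ℕ, 1 ≤ d ∧ d ≤ T.factorial * N ∧
        (x : ℝ) ^ (1 - η) ≤ pat s x q a (fun l => ((d * (q * b) : ℕ) : ℤ) * h l) := ⟨_, rfl⟩
  obtain ⟨Y, hY⟩ : ∃ Y : Finset (Fin k → ℤ), Y = Fintype.piFinset (fun l => Ioc (u l) (u l + H)) := ⟨_, rfl⟩
  have hgoodeq : (((Fintype.piFinset (fun l => Ioc (u l) (u l + (H : ℤ)))).filter
      (fun h => ∃ d : ℕ, 1 ≤ d ∧ d ≤ T.factorial * N ∧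
        (x : ℝ) ^ (1 - η) ≤ pat s x q a (fun l => ((d * (q * b) : ℕ) : ℤ) * h l))).card : ℝ) =
      ((Y.filter (fun h => Good h)).card : ℝ) := by
    rw [hGood, hY]
  rw [hgoodeq] at hcon
  obtain ⟨E, hE⟩ : ∃ E, E = Y.filter (fun h => ¬ Good h) := ⟨_, rfl⟩
  have hYc : Y.card = H ^ k := by
    rw [hY, Fintype.card_piFinset]
    have h3 : ∀ l, (Ioc (u l) (u l + (H : ℤ))).card = H := by
      intro l
      rw [Int.card_Ioc]
      omega
    simp only [h3, prod_const, card_univ, Fintype.card_fin]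
  have hsum : (Y.filter (fun h => Good h)).card + E.card = H ^ k := by
    rw [hE, card_filter_add_card_filter_not, hYc]
  have hsumr : ((Y.filter (fun h => Good h)).card : ℝ) + (E.card : ℝ) = (H : ℝ) ^ k := by
    exact_mod_cast hsum
  have hEc : ε * (H : ℝ) ^ k ≤ E.card := by nlinarith
  have hEY : E ⊆ Fintype.piFinset (fun l => Ioc (u l) (u l + H)) := by
    rw [← hY, hE]
    exact filter_subset _ _
  have hC₁H : C₁ ≤ H := by
    have : C₁ ≤ C₂ * T.factorial * C₁ + C₁ := Nat.le_add_left _ _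
    omega
  obtain ⟨A, hinj, hAle, ⟨r, hr⟩, hAV⟩ := HB H hC₁H U u hu E hEY hEc
  obtain ⟨D, hD⟩ : ∃ D, D = T.factorial * b := ⟨_, rfl⟩
  have hD0 : 0 < D := by rw [hD]; exact Nat.mul_pos (Nat.factorial_pos _) hb
  obtain ⟨S, σ, hS, hcnt⟩ := hx a ha (fun g i => D * A (e g) i) (by
      intro z z' h
      have h1 : A (e z.1) z.2 = A (e z'.1) z'.2 := Nat.eq_of_mul_eq_mul_left hD0 h
      have h2 := hinj (a₁ := (e z.1, z.2)) (a₂ := (e z'.1, z'.2)) h1
      have h3 : e z.1 = e z'.1 := (Prod.ext_iff.1 h2).1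
      have h4 : z.2 = z'.2 := (Prod.ext_iff.1 h2).2
      exact Prod.ext (e.injective h3) h4)
    (fun g i => by
      calc C₂ * (q ^ 2 * (D * A (e g) i)) ≤ C₂ * (q ^ 2 * (D * (C₁ * (U + H)))) := by
            apply Nat.mul_le_mul_left
            apply Nat.mul_le_mul_left
            exact Nat.mul_le_mul_left _ (hAle _ i)
        _ = (C₂ * T.factorial * C₁) * (q ^ 2 * b * (U + H)) := by rw [hD]; ring
        _ ≤ (C₂ * T.factorial * C₁ + C₁) * (q ^ 2 * b * (U + H)) :=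
            Nat.mul_le_mul_right _ (Nat.le_add_right _ _)
        _ ≤ x := hHx)
    (fun p hp => by
      obtain ⟨z, hz⟩ := admR T K b (fun g i => A (e g) i) (fun g => r (e g)) (fun g i => hr _ _) p hp
      refine ⟨z, fun g i h => hz g i ?_⟩
      rw [← hD]
      exact h)
  -- the words in S
  obtain ⟨V, hV, hVS⟩ := hN (S.map e.toEmbedding) (by
    rw [card_map, hT]
    omega)
  have hVS' : ∀ i, e.symm (pt V i) ∈ S := by
    intro i
    obtain ⟨g, hg, hg2⟩ := mem_map.1 (hVS i)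
    have h1 : e g = pt V i := hg2
    rw [← h1, e.symm_apply_apply]
    exact hg
  obtain ⟨h, hhE, hhl⟩ := hAV V hV (fun t => σ (e.symm t))
  rw [hE, mem_filter] at hhE
  apply hhE.2
  rw [hGood]
  refine ⟨T.factorial * act V, Nat.mul_pos (Nat.factorial_pos _) (act_pos V hV),
    Nat.mul_le_mul_left _ (act_le V), hcnt.trans ?_⟩
  rw [Nat.cast_le]
  -- the injection
  obtain ⟨B, hB⟩ : ∃ B : Fin (k + 1) → ℕ, ∀ i, B i = D * A (pt V i) (σ (e.symm (pt V i))) :=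
    ⟨fun i => D * A (pt V i) (σ (e.symm (pt V i))), fun _ => rfl⟩
  have hBval : ∀ i, (fun g => (fun g i => D * A (e g) i) g (σ g)) (e.symm (pt V i)) = B i := by
    intro i
    rw [hB]
    show D * A (e (e.symm (pt V i))) (σ (e.symm (pt V i))) = D * A (pt V i) (σ (e.symm (pt V i)))
    rw [e.apply_symm_apply]
  have hBd : ∀ l : Fin k, (q : ℤ) * B l.succ - q * B 0 =
      ((T.factorial * act V * (q * b) : ℕ) : ℤ) * h l := by
    intro l
    have h1 := hhl l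
    rw [hB, hB]
    have h2 : (q : ℤ) * ((D * A (pt V l.succ) (σ (e.symm (pt V l.succ))) : ℕ) : ℤ) -
        q * ((D * A (pt V 0) (σ (e.symm (pt V 0))) : ℕ) : ℤ) =
        q * D * ((A (pt V l.succ) (σ (e.symm (pt V l.succ))) : ℤ) - A (pt V 0) (σ (e.symm (pt V 0)))) := by
      push_cast; ring
    rw [h2, h1, hD]
    push_cast
    ring
  unfold simul pat
  refine Set.ncard_le_ncard_of_injOn (fun p => p + q * B 0) ?_ ?_ ?_
  · rintro p ⟨h1, h2, h3, h4⟩
    have h5 : ∀ i, (p + q * B i).Prime ∧ ((p + q * B i : ℕ) : ℝ) ≤ (1 + s) * x := by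
      intro i
      have h6 := h4 (e.symm (pt V i)) (hVS' i)
      have h7 := hBval i
      simp only at h7 h6
      rw [h7] at h6
      exact h6
    have h6 : ∀ i, (x : ℝ) ≤ ((p + q * B i : ℕ) : ℝ) := by
      intro i
      push_cast
      have : (0 : ℝ) ≤ (q : ℝ) * B i := by positivity
      linarith
    refine ⟨(h5 0).1, ?_, h6 0, (h5 0).2, fun l => ⟨p + q * B l.succ, (h5 l.succ).1, ?_, h6 l.succ,
      (h5 l.succ).2⟩⟩
    · have h7 : q * B 0 ≡ 0 [MOD q] := (Nat.modEq_zero_iff_dvd).2 (dvd_mul_right _ _)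
      have h8 := h1.add h7
      rw [add_zero] at h8
      exact h8
    · have h7 := hBd l
      push_cast at h7 ⊢
      linarith
  · intro p _ p' _ hpp
    have h1 : p + q * B 0 = p' + q * B 0 := hpp
    omega
  · refine (Set.finite_le_nat ⌊(1 + s) * x⌋₊).subset ?_
    intro p hp
    exact Nat.le_floor hp.2.2.2.1

end Pool.Agent.Y877
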