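import Mathlib
import Pool.Agent.Y877.AlmostAll
import Pool.Agent.Y877.FThm

/-! The window version (helper877). -/

set_option autoImplicit false

namespace Pool.Agent.Y877

open Finset Filter Topology Pool.Agent.TH899.UG.TD

open Classical in
/-- windows -/
theorem almostAllW : ∃ c : ℝ, 0 < c ∧ c < 1 ∧ ∀ T M : ℕ, 1 ≤ T → (4 - c) * M < T →
    ∀ m : Fin T → ℕ, Function.Injective m → ∀ ε s : ℝ, 0 < ε → 0 < s →
    ∃ C : ℕ, ∀ q : ℕ, 1 ≤ q → ∀ η : ℝ, 0 < η →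
    ∀ᶠ x : ℕ in atTop, ∀ a b : ℕ, a.Coprime q → 1 ≤ b →
    (∀ p : ℕ, p.Prime → ∃ r : ℤ, ∀ i, ¬ (p : ℤ) ∣ b * m i + r) →
    ∀ u H : ℕ, C ≤ H → C * (q ^ 2 * b * (u + H)) ≤ x →
    (1 - ε) * (H : ℝ) ≤
      (((Ioc u (u + H)).filter (fun k : ℕ => Clique m M s η x q a (q * b * k))).card : ℝ) := by
  obtain ⟨c, hc, hc1, HC⟩ := almostAll
  refine ⟨c, hc, hc1, fun T M hT hTM m hm ε s hε hs => ?_⟩
  obtain ⟨C₁, HC₁⟩ := HC T M hT hTM m hm ε s hε hs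
  refine ⟨C₁, fun q hq η hη => ?_⟩
  filter_upwards [HC₁ q hq η hη] with x hx a b ha hb hadm u H hCH hHx
  refine (hx a ha b hb hadm u H hCH hHx).trans ?_
  rw [Nat.cast_le]
  apply card_le_card
  intro k hk
  rw [mem_filter] at hk ⊢
  refine ⟨hk.1, ?_⟩
  have e : ∀ i j : Fin T, (m j - m i) * (q * b * k) = q * b * ((m j - m i) * k) := fun i j => by ring
  unfold Clique twins
  simp only [e]
  exact hk.2

end Pool.Agent.Y877
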